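import Pool.Agent.Lib.MP_f02ea4_nt.TE.Defs
import Pool.Agent.Lib.MP_bae66e_nt.BrunT

/-!
# D6: upper bound for `∑ log r / r` over the primes `r ≡ 1 mod l`, uniform in `l`
-/

set_option autoImplicit false

namespace Pool.Agent.TE

open Finset Nat Pool.Agent.Lib.MP_bae66e_nt Pool.Agent.Lib.MP_bae66e_nt.AP3

private lemma d6_rho {l : ℕ} (hl : l.Prime) : 1 / 2 ≤ rho l := by
  unfold rho
  rw [hl.primeFactors, Finset.prod_singleton]
  have h2 : (2 : ℝ) ≤ l := by exact_mod_cast hl.two_le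
  have : 1 / (l : ℝ) ≤ 1 / 2 := one_div_le_one_div_of_le (by norm_num) h2
  linarith

/-- one dyadic block -/
private lemma d6_block {l : ℕ} (hl : l.Prime) (z i : ℕ) :
    ∑ j ∈ ((Finset.Ioc 0 z).filter (fun j => (l * j + 1).Prime)).filter (fun j => Nat.log 2 j = i),
      (Real.log (2 * l) + Real.log j) / (j : ℝ) ≤
      32 * (Real.log (2 * l) / Real.log 2 * (1 / ((i : ℝ) + 1)) + 1) := by
  have hl2 : (2 : ℝ) ≤ l := by exact_mod_cast hl.two_le
  have hlog2 : 0 < Real.log 2 := Real.log_pos (by norm_num)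
  have hll : 0 ≤ Real.log (2 * l) := Real.log_nonneg (by linarith)
  have hi1 : (0 : ℝ) < (i : ℝ) + 1 := by positivity
  set S := ((Finset.Ioc 0 z).filter (fun j => (l * j + 1).Prime)).filter
    (fun j => Nat.log 2 j = i) with hS
  have hmem : ∀ j ∈ S, 2 ^ i ≤ j ∧ j < 2 ^ (i + 1) ∧ (l * j + 1).Prime := by
    intro j hj
    rw [hS, mem_filter, mem_filter, Finset.mem_Ioc] at hj
    obtain ⟨⟨⟨h1, -⟩, h2⟩, h3⟩ := hj
    subst h3
    exact ⟨Nat.pow_log_le_self 2 h1.ne', Nat.lt_pow_succ_log_self (by norm_num) j, h2⟩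
  have hcard : ((#S : ℕ) : ℝ) ≤ 16 * 2 ^ (i + 1) / (((i : ℝ) + 1) * Real.log 2) := by
    have h1 : #S ≤ #{j ∈ Finset.Ioc 0 (2 ^ (i + 1)) | (l * j + 1).Prime} := by
      refine Finset.card_le_card fun j hj => ?_
      obtain ⟨h1, h2, h3⟩ := hmem j hj
      rw [mem_filter, Finset.mem_Ioc]
      exact ⟨⟨lt_of_lt_of_le (by positivity) h1, h2.le⟩, h3⟩
    have h2 := brun_titchmarsh l 1 (2 ^ (i + 1)) hl.one_lt.le
      (by calc 2 = 2 ^ 1 := by norm_num
          _ ≤ 2 ^ (i + 1) := Nat.pow_le_pow_right (by norm_num) (by omega))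
    have h3 : ((#S : ℕ) : ℝ) ≤ ((#{j ∈ Finset.Ioc 0 (2 ^ (i + 1)) | (l * j + 1).Prime} : ℕ) : ℝ) := by
      exact_mod_cast h1
    refine (h3.trans h2).trans ?_
    have h4 : Real.log ((2 ^ (i + 1) : ℕ) : ℝ) = ((i : ℝ) + 1) * Real.log 2 := by
      push_cast
      rw [Real.log_pow]
      push_cast
      ring
    rw [h4]
    have h5 := d6_rho hl
    rw [div_le_div_iff₀ (by positivity) (by positivity)]
    push_cast
    have h6 : (0 : ℝ) ≤ 2 ^ (i + 1) * (((i : ℝ) + 1) * Real.log 2) := by positivity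
    nlinarith [mul_le_mul_of_nonneg_left h5 h6]
  have hterm : ∀ j ∈ S, (Real.log (2 * l) + Real.log j) / (j : ℝ) ≤
      (Real.log (2 * l) + ((i : ℝ) + 1) * Real.log 2) / 2 ^ i := by
    intro j hj
    obtain ⟨h1, h2, -⟩ := hmem j hj
    have h1' : (2 : ℝ) ^ i ≤ j := by exact_mod_cast h1
    have h2' : (j : ℝ) ≤ 2 ^ (i + 1) := by exact_mod_cast h2.le
    have hj0 : (0 : ℝ) < j := lt_of_lt_of_le (by positivity) h1'
    have h3 : Real.log j ≤ ((i : ℝ) + 1) * Real.log 2 := by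
      have := Real.log_le_log hj0 h2'
      rw [Real.log_pow] at this
      push_cast at this
      exact this
    refine div_le_div₀ (by positivity) (by linarith) (by positivity) h1'
  calc ∑ j ∈ S, (Real.log (2 * l) + Real.log j) / (j : ℝ)
      ≤ ∑ _j ∈ S, (Real.log (2 * l) + ((i : ℝ) + 1) * Real.log 2) / 2 ^ i := Finset.sum_le_sum hterm
    _ = (#S : ℝ) * ((Real.log (2 * l) + ((i : ℝ) + 1) * Real.log 2) / 2 ^ i) := by
        rw [Finset.sum_const, nsmul_eq_mul]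
    _ ≤ (16 * 2 ^ (i + 1) / (((i : ℝ) + 1) * Real.log 2)) *
          ((Real.log (2 * l) + ((i : ℝ) + 1) * Real.log 2) / 2 ^ i) :=
        mul_le_mul_of_nonneg_right hcard (by positivity)
    _ = 32 * (Real.log (2 * l) / Real.log 2 * (1 / ((i : ℝ) + 1)) + 1) := by
        rw [pow_succ]
        field_simp
        ring

private lemma d6_harm (n : ℕ) : ∑ i ∈ range (n + 1), 1 / ((i : ℝ) + 1) ≤ 1 + Real.log (n + 1) := by
  have h := harmonic_le_one_add_log (n + 1)
  have h2 : ((harmonic (n + 1) : ℚ) : ℝ) = ∑ i ∈ range (n + 1), 1 / ((i : ℝ) + 1) := by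
    unfold harmonic
    push_cast
    refine Finset.sum_congr rfl fun i _ => ?_
    rw [one_div]
  rw [h2] at h
  push_cast at h
  exact h

/-- D6. The primes `r ≡ 1 mod l` are the primes `l j + 1`, `j ≥ 1`. Let `A(x) = #{j ≤ x : l j + 1 prime}`; then
`A(x) ≤ 16 x / log x` for `x ≥ 2` (`brun_titchmarsh l 1 x`; `rho l = 1 - 1/l ≥ 1/2` for a prime `l`), `A(1) ≤ 1`.
`log r / r ≤ (log (2 l) + log j)/(l j)` for `r = l j + 1 ≤ 2 l j`. Dyadic blocks `2^i ≤ j < 2^(i+1)`, `i ≥ 1`: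
at most `A(2^(i+1)) ≤ 16 * 2^(i+1)/((i+1) log 2)` primes, each term `≤ (log (2l) + (i+1) log 2)/(l 2^i)`; so the block is
`≤ (32 / (l log 2)) ((log (2l))/(i+1) + log 2)`, the block `i = 0` (`j = 1`) is `≤ log (2 l)/l`. Blocks with
`2^i ≤ z`: `i ≤ log z/log 2`, so `l ∑ ≤ C (log (2 l) (1 + log (2 + log z)) + log z + 1) ≤ C' log z`, as
`log l ≤ √(log z)`, `√Y (1 + log (2 + Y)) ≤ C'' Y` for `Y = log z ≥ 1`. -/
theorem ap_upper : ∃ C : ℝ, 0 ≤ C ∧ ∀ l z : ℕ, l.Prime → 3 ≤ z →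
    Real.log l ≤ Real.sqrt (Real.log z) →
      ((l : ℝ) - 1) * ∑ r ∈ Pl l z, Real.log r / r ≤ C * Real.log z := by
  refine ⟨1000, by norm_num, ?_⟩
  intro l z hl hz hlz
  have hl2 : (2 : ℝ) ≤ l := by exact_mod_cast hl.two_le
  have hl0 : (0 : ℝ) < l := by linarith
  have hlog2 : 0 < Real.log 2 := Real.log_pos (by norm_num)
  have hlog2' : 0.6931471803 < Real.log 2 := Real.log_two_gt_d9
  have hlog2'' : Real.log 2 < 0.6931471808 := Real.log_two_lt_d9
  have hz3 : (3 : ℝ) ≤ z := by exact_mod_cast hz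
  set Y : ℝ := Real.log z with hY
  have hY1 : 1 ≤ Y := by
    have h1 : Real.log (Real.exp 1) ≤ Real.log z :=
      Real.log_le_log (Real.exp_pos 1) (by linarith [Real.exp_one_lt_d9])
    rwa [Real.log_exp] at h1
  set s : ℝ := Real.sqrt Y with hs
  have hs1 : 1 ≤ s := by
    rw [hs]
    exact Real.one_le_sqrt.2 hY1
  have hss : s * s = Y := Real.mul_self_sqrt (by linarith)
  set J := (Finset.Ioc 0 z).filter (fun j => (l * j + 1).Prime) with hJ
  -- reduction to the sum over `j`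
  have hred : ((l : ℝ) - 1) * ∑ r ∈ Pl l z, Real.log r / r ≤
      ∑ j ∈ J, (Real.log (2 * l) + Real.log j) / (j : ℝ) := by
    have hrep : ∀ r ∈ Pl l z, ∃ j ∈ J, l * j + 1 = r := by
      intro r hr
      unfold Pl at hr
      rw [mem_filter, mem_prI] at hr
      obtain ⟨⟨⟨h1, h2⟩, h3⟩, h4⟩ := hr
      have h5 : l ∣ r - 1 := (Nat.modEq_iff_dvd' h1).1 h4.symm
      obtain ⟨j, hj⟩ := h5
      have h6 : l * j + 1 = r := by omega
      have h7 : 0 < j := by
        rcases Nat.eq_zero_or_pos j with h | h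
        · subst h
          rw [mul_zero, zero_add] at h6
          exact absurd h3 (by rw [← h6]; exact Nat.not_prime_one)
        · exact h
      have h8 : j ≤ z := by
        calc j = 1 * j := (one_mul j).symm
          _ ≤ l * j := Nat.mul_le_mul_right j hl.one_lt.le
          _ ≤ z := by omega
      refine ⟨j, ?_, h6⟩
      rw [hJ, mem_filter, Finset.mem_Ioc]
      exact ⟨⟨h7, h8⟩, by rw [h6]; exact h3⟩
    have hsub : Pl l z ⊆ J.image (fun j => l * j + 1) := by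
      intro r hr
      obtain ⟨j, hj, h⟩ := hrep r hr
      exact Finset.mem_image.2 ⟨j, hj, h⟩
    have hinj : Set.InjOn (fun j => l * j + 1) (J : Set ℕ) := by
      intro a _ b _ hab
      have h1 : l * a = l * b := by
        have h0 : l * a + 1 = l * b + 1 := hab
        omega
      exact Nat.eq_of_mul_eq_mul_left hl.pos h1
    have h1 : ∑ r ∈ Pl l z, Real.log r / r ≤ ∑ j ∈ J, Real.log ((l * j + 1 : ℕ) : ℝ) / ((l * j + 1 : ℕ) : ℝ) := by
      refine (Finset.sum_le_sum_of_subset_of_nonneg hsub fun r _ _ =>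
        div_nonneg (Real.log_natCast_nonneg r) (Nat.cast_nonneg r)).trans (le_of_eq ?_)
      rw [Finset.sum_image hinj]
    have h2 : ∀ j ∈ J, (l : ℝ) * (Real.log ((l * j + 1 : ℕ) : ℝ) / ((l * j + 1 : ℕ) : ℝ)) ≤
        (Real.log (2 * l) + Real.log j) / (j : ℝ) := by
      intro j hj
      rw [hJ, mem_filter, Finset.mem_Ioc] at hj
      have hj1 : (1 : ℝ) ≤ j := by exact_mod_cast hj.1.1
      have hj0 : (0 : ℝ) < j := by linarith
      have hlj : (1 : ℝ) ≤ (l : ℝ) * j := by nlinarith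
      push_cast
      have h3 : Real.log ((l : ℝ) * j + 1) ≤ Real.log (2 * l) + Real.log j := by
        rw [← Real.log_mul (by positivity) (by positivity)]
        refine Real.log_le_log (by positivity) ?_
        nlinarith
      have h4 : 0 ≤ Real.log ((l : ℝ) * j + 1) := Real.log_nonneg (by linarith)
      rw [← mul_div_assoc, div_le_div_iff₀ (by positivity) hj0]
      have h5 : 0 ≤ Real.log (2 * l) + Real.log j := h4.trans h3
      calc (l : ℝ) * Real.log ((l : ℝ) * j + 1) * j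
          ≤ (l : ℝ) * (Real.log (2 * l) + Real.log j) * j := by gcongr
        _ ≤ (Real.log (2 * l) + Real.log j) * ((l : ℝ) * j + 1) := by nlinarith
    have h3 : 0 ≤ ∑ j ∈ J, Real.log ((l * j + 1 : ℕ) : ℝ) / ((l * j + 1 : ℕ) : ℝ) :=
      Finset.sum_nonneg fun j _ => div_nonneg (Real.log_natCast_nonneg _) (Nat.cast_nonneg _)
    calc ((l : ℝ) - 1) * ∑ r ∈ Pl l z, Real.log r / r
        ≤ ((l : ℝ) - 1) * ∑ j ∈ J, Real.log ((l * j + 1 : ℕ) : ℝ) / ((l * j + 1 : ℕ) : ℝ) :=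
          mul_le_mul_of_nonneg_left h1 (by linarith)
      _ ≤ (l : ℝ) * ∑ j ∈ J, Real.log ((l * j + 1 : ℕ) : ℝ) / ((l * j + 1 : ℕ) : ℝ) :=
          mul_le_mul_of_nonneg_right (by linarith) h3
      _ = ∑ j ∈ J, (l : ℝ) * (Real.log ((l * j + 1 : ℕ) : ℝ) / ((l * j + 1 : ℕ) : ℝ)) := by
          rw [Finset.mul_sum]
      _ ≤ _ := Finset.sum_le_sum h2
  refine hred.trans ?_
  -- blocks
  set I := Nat.log 2 z with hI
  have hmaps : ∀ j ∈ J, Nat.log 2 j ∈ range (I + 1) := by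
    intro j hj
    rw [hJ, mem_filter, Finset.mem_Ioc] at hj
    rw [mem_range, hI]
    exact Nat.lt_succ_of_le (Nat.log_mono_right hj.1.2)
  rw [← Finset.sum_fiberwise_of_maps_to hmaps]
  have h1 : ∑ i ∈ range (I + 1), ∑ j ∈ J.filter (fun j => Nat.log 2 j = i),
      (Real.log (2 * l) + Real.log j) / (j : ℝ) ≤
      ∑ i ∈ range (I + 1), 32 * (Real.log (2 * l) / Real.log 2 * (1 / ((i : ℝ) + 1)) + 1) :=
    Finset.sum_le_sum fun i _ => d6_block hl z i
  refine h1.trans ?_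
  rw [← Finset.mul_sum, Finset.sum_add_distrib, ← Finset.mul_sum, Finset.sum_const, card_range,
    nsmul_eq_mul, mul_one]
  have hIz : (I : ℝ) * Real.log 2 ≤ Y := by
    have h2 : 2 ^ I ≤ z := Nat.pow_log_le_self 2 (by omega)
    have h3 : ((2 : ℝ) ^ I) ≤ z := by exact_mod_cast h2
    have h4 := Real.log_le_log (by positivity) h3
    rwa [Real.log_pow] at h4
  have hI3 : (I : ℝ) + 1 ≤ 3 * Y := by nlinarith
  have hI0 : (0 : ℝ) < (I : ℝ) + 1 := by positivity
  have hlogI : Real.log ((I : ℝ) + 1) ≤ 4 * s := by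
    have h2 : Real.log ((I : ℝ) + 1) ≤ Real.log ((2 * s) ^ 2) := by
      refine Real.log_le_log hI0 ?_
      nlinarith
    rw [Real.log_pow] at h2
    have h3 := Real.log_le_sub_one_of_pos (show 0 < 2 * s by linarith)
    push_cast at h2
    linarith
  have hll : Real.log (2 * l) ≤ 2 * s := by
    rw [Real.log_mul (by norm_num) hl0.ne']
    linarith
  have hll0 : 0 ≤ Real.log (2 * l) := Real.log_nonneg (by linarith)
  have hh := d6_harm I
  have hh0 : 0 ≤ ∑ i ∈ range (I + 1), 1 / ((i : ℝ) + 1) := Finset.sum_nonneg fun i _ => by positivity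
  have h2 : Real.log (2 * l) / Real.log 2 * ∑ i ∈ range (I + 1), 1 / ((i : ℝ) + 1) ≤ 15 * Y := by
    have h3 : Real.log (2 * l) / Real.log 2 ≤ 3 * s := by
      rw [div_le_iff₀ hlog2]
      nlinarith
    have h4 : ∑ i ∈ range (I + 1), 1 / ((i : ℝ) + 1) ≤ 5 * s := by linarith
    calc Real.log (2 * l) / Real.log 2 * ∑ i ∈ range (I + 1), 1 / ((i : ℝ) + 1)
        ≤ (3 * s) * (5 * s) := mul_le_mul h3 h4 hh0 (by positivity)
      _ = 15 * Y := by rw [← hss]; ring
  push_cast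
  linarith

end Pool.Agent.TE
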