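import Pool.Agent.Lib.MP_f02ea4_nt.TE.J3
import Pool.Agent.Lib.MP_f02ea4_nt.TE.D6

/-!
# J4: one class, uniform in `l`, third version
-/

set_option autoImplicit false

namespace Pool.Agent.TE

open Finset Nat Pool.Agent.Lib.MP_bae66e_nt.AP3

private lemma j4_prI_eq (z : ℕ) : prI 0 z = prI 1 z := by
  ext p
  rw [mem_prI, mem_prI]
  constructor
  · rintro ⟨⟨_, h2⟩, hp⟩
    exact ⟨⟨hp.one_lt, h2⟩, hp⟩
  · rintro ⟨⟨h1, h2⟩, hp⟩
    exact ⟨⟨by omega, h2⟩, hp⟩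

/-- G4. The hypothesis of `class_count` follows from
`exists_mertens` (`prI 0 z = prI 1 z`: `∑ log r / r ≤ log z + Cm`) and `ap_upper` (`(l-1) ∑ ≤ Cu log z`):
`2 (log z + Cm + Cu log z) ≤ C log z` for `C = 2 (1 + Cm + Cu)` (`log z ≥ 1` as `z ≥ 3`). By hypothesis
`exp (-(l-1) ∑_{Sp} 1/r) ≤ exp (-log log z + log κ + A) = e^A κ / log z`, and `1/log (z+1) ≤ 1/log z`. -/
theorem class_bound_exc : ∃ C : ℝ, 1 ≤ C ∧ ∀ N : ℕ, N.Perfect →
    ∀ (l z R X : ℕ) (U : Finset ℕ) (κ A : ℝ), U ⊆ Pl l z → l.Prime → l ≠ 2 → 3 ≤ z → 1 ≤ R → 0 < κ →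
    Real.log l ≤ Real.sqrt (Real.log z) →
    C * Real.log z ≤ Real.log R →
    Real.log (Real.log z) - Real.log κ - A ≤ ((l : ℝ) - 1) * ∑ r ∈ U, 1 / (r : ℝ) →
    (#(Cl N l X) : ℝ) ≤ z + ∑ r ∈ U, (N.factorization r : ℝ) + (R : ℝ) ^ 4 + 2 * Real.exp A * κ * X / (Real.log z) ^ 2 := by
  obtain ⟨Cm, hCm0, hCm⟩ := exists_mertens
  obtain ⟨Cu, hCu0, hCu⟩ := ap_upper
  refine ⟨2 * (1 + Cm + Cu), by linarith, ?_⟩
  intro N hN l z R X U κ A hU hl hl2 hz hR hκ hll hCR hmass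
  have hz3 : (3 : ℝ) ≤ z := by exact_mod_cast hz
  have hlz1 : 1 ≤ Real.log z := by
    have h1 : Real.log (Real.exp 1) ≤ Real.log z := by
      apply Real.log_le_log (Real.exp_pos _)
      have := Real.exp_one_lt_d9
      linarith
    rwa [Real.log_exp] at h1
  have hlz0 : 0 < Real.log z := by linarith
  have hcond : 2 * (∑ r ∈ prI 0 z, Real.log r / r + ((l : ℝ) - 1) * ∑ r ∈ Pl l z, Real.log r / r)
      ≤ Real.log R := by
    have h1 := (abs_le.mp (hCm 1 z le_rfl (by omega))).2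
    rw [← j4_prI_eq] at h1
    simp only [Nat.cast_one, Real.log_one, sub_zero] at h1
    have h2 := hCu l z hl hz hll
    have h3 : Cm ≤ Cm * Real.log z := by nlinarith
    nlinarith
  have hcc := class_count_U hN hl hl2 z X R (by omega) hR hU hcond
  refine hcc.trans ?_
  have hexp : Real.exp (-(((l : ℝ) - 1) * ∑ r ∈ U, 1 / (r : ℝ))) ≤
      Real.exp A * κ / Real.log z := by
    have h1 : Real.exp (-(((l : ℝ) - 1) * ∑ r ∈ U, 1 / (r : ℝ))) ≤
        Real.exp (A + Real.log κ - Real.log (Real.log z)) := by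
      apply Real.exp_le_exp.mpr
      linarith
    rw [Real.exp_sub, Real.exp_add, Real.exp_log hκ, Real.exp_log hlz0] at h1
    exact h1
  have hlz1' : Real.log z ≤ Real.log (z + 1) := by
    apply Real.log_le_log (by linarith) (by linarith)
  have hX : (0 : ℝ) ≤ X := by positivity
  have h4 : 2 * (X : ℝ) / Real.log (z + 1) *
      Real.exp (-(((l : ℝ) - 1) * ∑ r ∈ U, 1 / (r : ℝ))) ≤
      2 * (X : ℝ) / Real.log z * (Real.exp A * κ / Real.log z) := by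
    gcongr
  have h5 : 2 * (X : ℝ) / Real.log z * (Real.exp A * κ / Real.log z) =
      2 * Real.exp A * κ * X / (Real.log z) ^ 2 := by
    field_simp
  rw [h5] at h4
  linarith

end Pool.Agent.TE
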