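import Pool.Agent.Lib.MP_f02ea4_nt.TE.G5
import Pool.Agent.Lib.MP_f02ea4_nt.TE.J4

/-!
# J5: one class at the scale of a prime factor, the smaller primes have bounded exponents
-/

set_option autoImplicit false

namespace Pool.Agent.TE

open Finset Nat

theorem j5_large (ε : ℝ) (hε : 0 < ε) : ∃ P₀ : ℕ, 16 ≤ P₀ ∧ ∀ P : ℕ, P₀ ≤ P →
    (P : ℝ) ^ (ε / 4) * (P : ℝ) ^ (1 - ε) * (Real.log P) ^ 2 ≤ P := by
  have hcast := tendsto_natCast_atTop_atTop (R := ℝ)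
  have hb := (isLittleO_log_rpow_rpow_atTop (s := 3 * ε / 4) 2 (by positivity)).bound
      (c := 1) (by norm_num)
  have h4 : ∀ᶠ P : ℕ in Filter.atTop,
      (P : ℝ) ^ (ε / 4) * (P : ℝ) ^ (1 - ε) * (Real.log P) ^ 2 ≤ P := by
    have := hcast.eventually hb
    filter_upwards [this, Filter.eventually_ge_atTop 1] with P hP hP1
    have hP0 : (0 : ℝ) < P := by exact_mod_cast hP1
    rw [Real.norm_eq_abs, Real.norm_eq_abs, abs_of_nonneg (Real.rpow_nonneg hP0.le _),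
      show ((2 : ℝ)) = ((2 : ℕ) : ℝ) by norm_num, Real.rpow_natCast,
      abs_of_nonneg (by positivity), one_mul] at hP
    have e : (P : ℝ) ^ (ε / 4) * (P : ℝ) ^ (1 - ε) * (P : ℝ) ^ (3 * ε / 4) = P := by
      rw [← Real.rpow_add hP0, ← Real.rpow_add hP0]
      conv_rhs => rw [← Real.rpow_one (P : ℝ)]
      congr 1
      ring
    have hq : 0 ≤ (P : ℝ) ^ (ε / 4) * (P : ℝ) ^ (1 - ε) := by positivity
    calc (P : ℝ) ^ (ε / 4) * (P : ℝ) ^ (1 - ε) * (Real.log P) ^ 2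
        ≤ (P : ℝ) ^ (ε / 4) * (P : ℝ) ^ (1 - ε) * (P : ℝ) ^ (3 * ε / 4) :=
          mul_le_mul_of_nonneg_left hP hq
      _ = P := e
  obtain ⟨P₁, hP₁⟩ := Filter.eventually_atTop.1 h4
  exact ⟨max 16 P₁, le_max_left _ _, fun P hP => hP₁ P ((le_max_right _ _).trans hP)⟩

/-- J5. As `class_scale'` (G5.lean), with `z = ⌊P^c⌋₊`, `c ≤ ε/4`; the sieving primes are those of
`Pl l z` that are `> w`; each costs at most `v_r(N) ≤ P^(1-ε)` exceptions. -/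
theorem class_scale_exc (ε : ℝ) (hε : 0 < ε) : ∃ C : ℝ, 1 ≤ C ∧ ∃ P₀ : ℕ, 16 ≤ P₀ ∧
    ∀ N P l : ℕ, N.Perfect → P₀ ≤ P → ∀ w : ℝ, 0 ≤ w →
    (∀ p ∈ N.primeFactors, (P : ℝ) ^ (ε / 2) < p ∨ (p : ℝ) ≤ w ∨
      (N.factorization p : ℝ) ≤ (P : ℝ) ^ (1 - ε)) →
    l.Prime → l ≠ 2 → (l : ℝ) ≤ Real.log P → ∀ κ A : ℝ, 1 ≤ κ → 0 ≤ A →
    (∀ z : ℕ, 3 ≤ z →
      Real.log (Real.log z) - Real.log κ - A ≤ ((l : ℝ) - 1) * ∑ r ∈ Pl l z, 1 / (r : ℝ)) →
    ∀ X : ℕ, P ≤ X →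
      (#(Cl N l X) : ℝ) ≤ C * Real.exp A * (κ * (1 + w / l)) * X / (Real.log P) ^ 2 := by
  obtain ⟨C₀, hC₀, hcb⟩ := class_bound_exc
  obtain ⟨c, hc⟩ : ∃ c : ℝ, c = min (1 / (32 * C₀)) (ε / 4) := ⟨_, rfl⟩
  have hc0 : 0 < c := by rw [hc]; positivity
  have hcC : c ≤ 1 / (32 * C₀) := by rw [hc]; exact min_le_left _ _
  have hcε : c ≤ ε / 4 := by rw [hc]; exact min_le_right _ _
  have hc32 : c ≤ 1 / 32 := by
    refine hcC.trans ?_
    exact one_div_le_one_div_of_le (by norm_num) (by linarith)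
  obtain ⟨P₀, hP₀, hlarge⟩ := g5_large c hc0
  obtain ⟨P₁, hP₁, hlarge1⟩ := j5_large ε hε
  refine ⟨2 + 8 * Real.exp 1 / c ^ 2,
    by linarith [show 0 ≤ 8 * Real.exp 1 / c ^ 2 by positivity], max P₀ P₁,
    hP₀.trans (le_max_left _ _), ?_⟩
  intro N P l hNp hPP w hw hmin hl hl2 hlQ κ₀ A hκ₀ hA hz X hX
  have hP : P₀ ≤ P := (le_max_left _ _).trans hPP
  have h5 := hlarge1 P ((le_max_right _ _).trans hPP)
  have hN0 : N ≠ 0 := hNp.2.ne'
  have hwl : 0 ≤ w / l := by positivity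
  set κ := κ₀ * (1 + w / l) with hκdef
  have hκ : 1 ≤ κ := by
    rw [hκdef]
    nlinarith
  obtain ⟨h1, h2, h3, h4⟩ := hlarge P hP
  have hP16 : 16 ≤ P := hP₀.trans hP
  have hPr : (16 : ℝ) ≤ P := by exact_mod_cast hP16
  have hP0 : (0 : ℝ) < P := by linarith
  set Q := Real.log (P : ℝ) with hQ
  have hQ1 : 1 ≤ Q := by
    rw [hQ, Real.le_log_iff_exp_le hP0]
    have := Real.exp_one_lt_d9
    linarith
  set z := ⌊(P : ℝ) ^ c⌋₊ with hzdef
  set R := ⌊(P : ℝ) ^ (1 / 16 : ℝ)⌋₊ with hRdef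
  have e1 : (P : ℝ) ^ c = (P : ℝ) ^ (c / 2) * (P : ℝ) ^ (c / 2) := by
    rw [← Real.rpow_add hP0]
    ring_nf
  have e2 : (P : ℝ) ^ (1 / 16 : ℝ) = (P : ℝ) ^ (1 / 32 : ℝ) * (P : ℝ) ^ (1 / 32 : ℝ) := by
    rw [← Real.rpow_add hP0]
    norm_num
  have hzle : (z : ℝ) ≤ (P : ℝ) ^ c := Nat.floor_le (Real.rpow_nonneg hP0.le _)
  have hRle : (R : ℝ) ≤ (P : ℝ) ^ (1 / 16 : ℝ) := Nat.floor_le (Real.rpow_nonneg hP0.le _)
  have hzgt : (P : ℝ) ^ c < z + 1 := Nat.lt_floor_add_one _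
  have hRgt : (P : ℝ) ^ (1 / 16 : ℝ) < R + 1 := Nat.lt_floor_add_one _
  have hz3 : 3 ≤ z := by
    have : (3 : ℝ) < z + 1 := by nlinarith
    have h' : (2 : ℝ) < z := by linarith
    have : 2 < z := by exact_mod_cast h'
    omega
  have hzge : (P : ℝ) ^ (c / 2) ≤ z := by nlinarith
  have hRge : (P : ℝ) ^ (1 / 32 : ℝ) ≤ R := by nlinarith
  have hR1 : 1 ≤ R := by
    have : (1 : ℝ) < R := by linarith
    have : 1 < R := by exact_mod_cast this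
    omega
  have hz0 : (0 : ℝ) < z := by
    have : 0 < z := by omega
    exact_mod_cast this
  have hlogz : c * Q / 2 ≤ Real.log z := by
    have := Real.log_le_log (Real.rpow_pos_of_pos hP0 _) hzge
    rw [Real.log_rpow hP0] at this
    linarith
  have hlogz' : Real.log z ≤ c * Q := by
    have := Real.log_le_log hz0 hzle
    rwa [Real.log_rpow hP0] at this
  have hlogR : Q / 32 ≤ Real.log R := by
    have := Real.log_le_log (Real.rpow_pos_of_pos hP0 _) hRge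
    rw [Real.log_rpow hP0] at this
    linarith
  have hCz : C₀ * Real.log z ≤ Real.log R := by
    have : C₀ * Real.log z ≤ C₀ * (c * Q) := mul_le_mul_of_nonneg_left hlogz' (by linarith)
    have e : C₀ * (c * Q) ≤ Q / 32 := by
      calc C₀ * (c * Q) ≤ C₀ * (1 / (32 * C₀) * Q) := by gcongr
        _ = Q / 32 := by field_simp
    linarith
  have hzε : (z : ℝ) ≤ (P : ℝ) ^ (ε / 4) :=
    hzle.trans (Real.rpow_le_rpow_of_exponent_le (by linarith) hcε)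
  obtain ⟨U, hUdef⟩ : ∃ U : Finset ℕ, U = (Pl l z).filter (fun r : ℕ => ¬ (r : ℝ) ≤ w) := ⟨_, rfl⟩
  have hU : U ⊆ Pl l z := by rw [hUdef]; exact Finset.filter_subset _ _
  have hUz : ∀ r ∈ U, r.Prime ∧ 0 < r ∧ r ≤ z ∧ ¬ (r : ℝ) ≤ w := by
    intro r hr
    rw [hUdef, Finset.mem_filter, Pl, Finset.mem_filter,
      Pool.Agent.Lib.MP_bae66e_nt.AP3.mem_prI] at hr
    exact ⟨hr.1.1.2, hr.1.1.1.1, hr.1.1.1.2, hr.2⟩
  have hUv : ∀ r ∈ U, (N.factorization r : ℝ) ≤ (P : ℝ) ^ (1 - ε) := by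
    intro r hr
    obtain ⟨hrp, _, hrz, hrw⟩ := hUz r hr
    by_cases hd : r ∣ N
    · rcases hmin r (Nat.mem_primeFactors.mpr ⟨hrp, hd, hN0⟩) with h | h | h
      · exfalso
        have h6 : (r : ℝ) ≤ z := by exact_mod_cast hrz
        have h7 : (P : ℝ) ^ (ε / 4) ≤ (P : ℝ) ^ (ε / 2) :=
          Real.rpow_le_rpow_of_exponent_le (by linarith) (by linarith)
        linarith
      · exact absurd h hrw
      · exact h
    · rw [Nat.factorization_eq_zero_of_not_dvd hd, Nat.cast_zero]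
      positivity
  have hUsum : ∑ r ∈ U, (N.factorization r : ℝ) ≤ (P : ℝ) ^ (ε / 4) * (P : ℝ) ^ (1 - ε) := by
    have hUcard : (#U : ℝ) ≤ z := by
      have h6 : U ⊆ Finset.Ioc 0 z := by
        intro r hr
        obtain ⟨_, h0, hrz, _⟩ := hUz r hr
        exact Finset.mem_Ioc.2 ⟨h0, hrz⟩
      have h7 := Finset.card_le_card h6
      rw [Nat.card_Ioc, Nat.sub_zero] at h7
      exact_mod_cast h7
    calc ∑ r ∈ U, (N.factorization r : ℝ) ≤ ∑ r ∈ U, (P : ℝ) ^ (1 - ε) :=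
          Finset.sum_le_sum hUv
      _ = #U * (P : ℝ) ^ (1 - ε) := by rw [Finset.sum_const, nsmul_eq_mul]
      _ ≤ (P : ℝ) ^ (ε / 4) * (P : ℝ) ^ (1 - ε) :=
          mul_le_mul_of_nonneg_right (hUcard.trans hzε) (by positivity)
  have hmass : Real.log (Real.log z) - Real.log κ - (A + 1) ≤
      ((l : ℝ) - 1) * ∑ r ∈ U, 1 / (r : ℝ) := by
    have hlr : (1 : ℝ) ≤ l := by exact_mod_cast hl.one_lt.le
    have hs := small_sum l z hl w hw
    have hz' := hz z hz3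
    have hsplit : ∑ r ∈ Pl l z, 1 / (r : ℝ) = ∑ r ∈ U, 1 / (r : ℝ) +
        ∑ r ∈ (Pl l z).filter (fun r : ℕ => (r : ℝ) ≤ w), 1 / (r : ℝ) := by
      rw [hUdef, ← Finset.sum_filter_add_sum_filter_not (Pl l z) (fun r : ℕ => (r : ℝ) ≤ w),
        add_comm]
    have hlogκ : Real.log κ = Real.log κ₀ + Real.log (1 + w / l) := by
      rw [hκdef, Real.log_mul (by linarith) (by linarith)]
    rw [hsplit, mul_add] at hz'
    linarith
  have hlog : Real.log l ≤ Real.sqrt (Real.log z) := by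
    have hl0 : (0 : ℝ) < l := by exact_mod_cast hl.pos
    calc Real.log l ≤ Real.log Q := Real.log_le_log hl0 hlQ
      _ ≤ Real.sqrt (c * Q / 2) := h3
      _ ≤ Real.sqrt (Real.log z) := Real.sqrt_le_sqrt hlogz
  have hmain := hcb N hNp l z R X U κ (A + 1) hU hl hl2 hz3 hR1 (by linarith) hlog hCz hmass
  have hXr : (P : ℝ) ≤ X := by exact_mod_cast hX
  have hX0 : (0 : ℝ) < X := by linarith
  have hexp : 1 ≤ Real.exp A := Real.one_le_exp hA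
  have hEK : 1 ≤ Real.exp A * κ := by nlinarith
  have hzP : (z : ℝ) ≤ (P : ℝ) ^ (1 / 4 : ℝ) :=
    hzle.trans (Real.rpow_le_rpow_of_exponent_le (by linarith) (by linarith))
  have hR4 : (R : ℝ) ^ 4 ≤ (P : ℝ) ^ (1 / 4 : ℝ) := by
    calc (R : ℝ) ^ 4 ≤ ((P : ℝ) ^ (1 / 16 : ℝ)) ^ 4 :=
          pow_le_pow_left₀ (by positivity) hRle 4
      _ = (P : ℝ) ^ (1 / 4 : ℝ) := by
          rw [← Real.rpow_natCast, ← Real.rpow_mul hP0.le]
          norm_num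
  have hEX : (X : ℝ) ≤ Real.exp A * κ * X := by nlinarith
  have hsmall : (z : ℝ) + ∑ r ∈ U, (N.factorization r : ℝ) + (R : ℝ) ^ 4 ≤
      2 * (Real.exp A * κ * X / Q ^ 2) := by
    rw [← mul_div_assoc, le_div_iff₀ (by positivity)]
    have h6 : ((z : ℝ) + (R : ℝ) ^ 4) * Q ^ 2 ≤ P := by
      calc ((z : ℝ) + (R : ℝ) ^ 4) * Q ^ 2
          ≤ (2 * (P : ℝ) ^ (1 / 4 : ℝ)) * Q ^ 2 :=
            mul_le_mul_of_nonneg_right (by linarith) (by positivity)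
        _ ≤ P := h4
    have h7 : (∑ r ∈ U, (N.factorization r : ℝ)) * Q ^ 2 ≤ P :=
      (mul_le_mul_of_nonneg_right hUsum (by positivity)).trans h5
    have h8 : ((z : ℝ) + ∑ r ∈ U, (N.factorization r : ℝ) + (R : ℝ) ^ 4) * Q ^ 2 =
        ((z : ℝ) + (R : ℝ) ^ 4) * Q ^ 2 + (∑ r ∈ U, (N.factorization r : ℝ)) * Q ^ 2 := by ring
    rw [h8]
    linarith
  have hbig : 2 * Real.exp (A + 1) * κ * X / (Real.log z) ^ 2 ≤
      8 * Real.exp 1 / c ^ 2 * (Real.exp A * κ * X / Q ^ 2) := by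
    have hcQ : 0 < c * Q / 2 := by positivity
    calc 2 * Real.exp (A + 1) * κ * X / (Real.log z) ^ 2
        ≤ 2 * Real.exp (A + 1) * κ * X / (c * Q / 2) ^ 2 := by
          refine div_le_div_of_nonneg_left (by positivity) (by positivity) ?_
          exact pow_le_pow_left₀ hcQ.le hlogz 2
      _ = 8 * Real.exp 1 / c ^ 2 * (Real.exp A * κ * X / Q ^ 2) := by
          rw [Real.exp_add]
          field_simp
          ring
  calc (#(Cl N l X) : ℝ) ≤ z + ∑ r ∈ U, (N.factorization r : ℝ) + (R : ℝ) ^ 4 +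
          2 * Real.exp (A + 1) * κ * X / (Real.log z) ^ 2 := hmain
    _ ≤ 2 * (Real.exp A * κ * X / Q ^ 2) +
          8 * Real.exp 1 / c ^ 2 * (Real.exp A * κ * X / Q ^ 2) :=
        add_le_add hsmall hbig
    _ = (2 + 8 * Real.exp 1 / c ^ 2) * Real.exp A * κ * X / Q ^ 2 := by ring

end Pool.Agent.TE
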