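import Pool.Agent.Lib.MP_bae66e_nt.Mg.G033

/-!
# D5a: sums of the weights `w_j(n) = (log n)^j / (j! n^2)`
-/

set_option autoImplicit false

namespace Pool.Agent.TE

open Finset Pool.Agent.GM

/-- `W(n) = ∑_{k₀ < j ≤ K} w_j(n)` -/
noncomputable def WW (k₀ K n : ℕ) : ℝ := ∑ j ∈ Ioc k₀ K, wk j n

private lemma D5a_wk_nonneg (k n : ℕ) : 0 ≤ wk k n := by
  unfold wk
  have := Real.log_natCast_nonneg n
  positivity

private lemma D5a_exp (k₀ K : ℕ) (x : ℝ) (hx : 0 ≤ x) :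
    ∑ j ∈ Ioc k₀ K, x ^ j / (j.factorial : ℝ) ≤ Real.exp x := by
  refine le_trans ?_ (Real.sum_le_exp_of_nonneg hx (K + 1))
  refine Finset.sum_le_sum_of_subset_of_nonneg (fun j hj => ?_) fun j _ _ => by positivity
  rw [mem_Ioc] at hj
  rw [mem_range]
  omega

private lemma D5a_WW (k₀ K n : ℕ) :
    WW k₀ K n = (∑ j ∈ Ioc k₀ K, (Real.log n) ^ j / (j.factorial : ℝ)) / (n : ℝ) ^ 2 := by
  unfold WW wk
  rw [Finset.sum_div]
  refine Finset.sum_congr rfl fun j _ => ?_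
  rw [div_div]

/-- D5a (0) -/
lemma WW_nonneg (k₀ K n : ℕ) : 0 ≤ WW k₀ K n :=
  Finset.sum_nonneg fun j _ => D5a_wk_nonneg j n

/-- D5a (1). `∑_j (log n)^j / j! ≤ exp (log n) = n` (`Real.sum_le_exp_of_nonneg` or `Real.pow_div_factorial_le_exp`...). -/
lemma WW_le (k₀ K n : ℕ) (hn : 1 ≤ n) : WW k₀ K n ≤ 1 / (n : ℝ) := by
  have hn0 : (0 : ℝ) < n := by exact_mod_cast hn
  rw [D5a_WW, div_le_iff₀ (by positivity)]
  have h1 := D5a_exp k₀ K (Real.log n) (Real.log_natCast_nonneg n)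
  rw [Real.exp_log hn0] at h1
  refine h1.trans (le_of_eq ?_)
  field_simp

/-- D5a (2). `∑_{j > k₀} (log n)^j/j! ≤ 2^(-k₀) ∑ (2 log n)^j/j! ≤ 2^(-k₀) n^2`. -/
lemma WW_small (k₀ K n : ℕ) (hn : 1 ≤ n) : WW k₀ K n ≤ (1 / 2 : ℝ) ^ k₀ := by
  have hn0 : (0 : ℝ) < n := by exact_mod_cast hn
  have hl := Real.log_natCast_nonneg n
  rw [D5a_WW, div_le_iff₀ (by positivity)]
  have h1 := D5a_exp k₀ K (2 * Real.log n) (by positivity)
  have h2 : Real.exp (2 * Real.log n) = (n : ℝ) ^ 2 := by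
    rw [two_mul, Real.exp_add, Real.exp_log hn0, sq]
  rw [h2] at h1
  refine le_trans ?_ (mul_le_mul_of_nonneg_left h1 (by positivity))
  rw [Finset.mul_sum]
  refine Finset.sum_le_sum fun j hj => ?_
  rw [mem_Ioc] at hj
  have h3 : (Real.log n) ^ j / (j.factorial : ℝ) =
      (1 / 2 : ℝ) ^ j * ((2 * Real.log n) ^ j / (j.factorial : ℝ)) := by
    rw [mul_pow]
    have : (1 / 2 : ℝ) ^ j * 2 ^ j = 1 := by rw [← mul_pow]; norm_num
    calc (Real.log n) ^ j / (j.factorial : ℝ)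
        = ((1 / 2 : ℝ) ^ j * 2 ^ j) * ((Real.log n) ^ j / (j.factorial : ℝ)) := by
          rw [this, one_mul]
      _ = _ := by ring
  rw [h3]
  refine mul_le_mul_of_nonneg_right ?_ (by positivity)
  exact pow_le_pow_of_le_one (by norm_num) (by norm_num) hj.1.le

/-- D5a (3). `∑_{j ≤ K} (log n)^j/j! ≤ 2^K ∑ ((log n)/2)^j/j! ≤ 2^K n^(1/2)`. -/
lemma WW_large (k₀ K n : ℕ) (hn : 1 ≤ n) : WW k₀ K n ≤ 2 ^ K * (n : ℝ) ^ (-(3 / 2 : ℝ)) := by
  have hn0 : (0 : ℝ) < n := by exact_mod_cast hn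
  have hl := Real.log_natCast_nonneg n
  rw [D5a_WW, div_le_iff₀ (by positivity)]
  have h1 := D5a_exp k₀ K (Real.log n / 2) (by positivity)
  have h2 : Real.exp (Real.log n / 2) = (n : ℝ) ^ (1 / 2 : ℝ) := by
    rw [Real.rpow_def_of_pos hn0]
    congr 1
    ring
  rw [h2] at h1
  have h4 : (2 : ℝ) ^ K * (n : ℝ) ^ (-(3 / 2 : ℝ)) * (n : ℝ) ^ 2 =
      2 ^ K * (n : ℝ) ^ (1 / 2 : ℝ) := by
    rw [mul_assoc, ← Real.rpow_natCast (n : ℝ) 2, ← Real.rpow_add hn0]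
    norm_num
  rw [h4]
  refine le_trans ?_ (mul_le_mul_of_nonneg_left h1 (by positivity))
  rw [Finset.mul_sum]
  refine Finset.sum_le_sum fun j hj => ?_
  rw [mem_Ioc] at hj
  have h3 : (Real.log n) ^ j / (j.factorial : ℝ) =
      (2 : ℝ) ^ j * ((Real.log n / 2) ^ j / (j.factorial : ℝ)) := by
    rw [div_pow]
    field_simp
  rw [h3]
  refine mul_le_mul_of_nonneg_right ?_ (by positivity)
  exact pow_le_pow_right₀ (by norm_num) hj.2

/-- D5a (4). For `n ≥ 2`: `w_k(n)/(k+1) = w_{k+1}(n)/log n`, so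
`∑_{k₀ ≤ k < K} w_k(n)/(k+1) = WW k₀ K n / log n`. -/
lemma sum_wk_div (k₀ K n : ℕ) (hn : 2 ≤ n) :
    ∑ k ∈ Ico k₀ K, wk k n / ((k : ℝ) + 1) = WW k₀ K n / Real.log n := by
  have hl : 0 < Real.log n := Real.log_pos (by exact_mod_cast hn)
  have h1 : ∀ k, wk k n / ((k : ℝ) + 1) = wk (k + 1) n / Real.log n := by
    intro k
    unfold wk
    rw [Nat.factorial_succ, pow_succ]
    push_cast
    have : ((k : ℝ) + 1) ≠ 0 := by positivity
    have h2 : (k.factorial : ℝ) ≠ 0 := by positivity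
    have h3 : (n : ℝ) ≠ 0 := by positivity
    field_simp
    ring
  have h2 : Ioc k₀ K = Ico (k₀ + 1) (K + 1) := by
    ext j
    simp only [mem_Ioc, mem_Ico]
    omega
  unfold WW
  rw [h2, ← Finset.sum_Ico_add' (fun j => wk j n) k₀ K 1, Finset.sum_div]
  exact Finset.sum_congr rfl fun k _ => h1 k

/-- D5a (5). `∑_n Λ(n) w_k(n)` converges: `Λ(n) ≤ log n`, so `Λ(n) w_k(n) ≤ (k+1) w_{k+1}(n) ≤ C n^(-3/2)`. -/
lemma summable_vM_wk (k : ℕ) : Summable (fun n : ℕ => vM n * wk k n) := by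
  have hs : Summable (fun n : ℕ => ((k : ℝ) + 1) * (2 ^ (k + 1) * (n : ℝ) ^ (-(3 / 2 : ℝ)))) :=
    ((Real.summable_nat_rpow.2 (by norm_num)).mul_left _).mul_left _
  refine Summable.of_nonneg_of_le (fun n => ?_) (fun n => ?_) hs
  · exact mul_nonneg ArithmeticFunction.vonMangoldt_nonneg (D5a_wk_nonneg k n)
  · rcases Nat.eq_zero_or_pos n with h0 | h0
    · subst h0
      simp [wk]
    · have h1 : vM n * wk k n ≤ Real.log n * wk k n :=
        mul_le_mul_of_nonneg_right ArithmeticFunction.vonMangoldt_le_log (D5a_wk_nonneg k n)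
      have h2 : Real.log n * wk k n = ((k : ℝ) + 1) * wk (k + 1) n := by
        unfold wk
        rw [Nat.factorial_succ, pow_succ]
        push_cast
        have : ((k : ℝ) + 1) ≠ 0 := by positivity
        have h2 : (k.factorial : ℝ) ≠ 0 := by positivity
        have h3 : (n : ℝ) ≠ 0 := by positivity
        field_simp
        ring
      have h3 : wk (k + 1) n ≤ 2 ^ (k + 1) * (n : ℝ) ^ (-(3 / 2 : ℝ)) := by
        have := WW_large k (k + 1) n h0
        unfold WW at this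
        rwa [Nat.Ioc_succ_singleton, Finset.sum_singleton] at this
      rw [h2] at h1
      exact h1.trans (mul_le_mul_of_nonneg_left h3 (by positivity))

/-- D5a (6). `∑_{k₀ ≤ k < K} 1/(k+1) ≥ log ((K+1)/(k₀+1)) ≥ log (K/k₀) - 1/k₀ ≥ log (K/k₀) - 1` for `1 ≤ k₀ ≤ K`. -/
lemma harm_lower (k₀ K : ℕ) (h0 : 1 ≤ k₀) (h : k₀ ≤ K) :
    Real.log ((K : ℝ) / k₀) - 1 ≤ ∑ k ∈ Ico k₀ K, 1 / ((k : ℝ) + 1) := by
  have hk0 : (1 : ℝ) ≤ k₀ := by exact_mod_cast h0
  have hK : (1 : ℝ) ≤ K := hk0.trans (by exact_mod_cast h)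
  have h1 : Real.log ((K : ℝ) + 1) - Real.log ((k₀ : ℝ) + 1) ≤ ∑ k ∈ Ico k₀ K, 1 / ((k : ℝ) + 1) := by
    clear hK
    induction K, h using Nat.le_induction with
    | base => simp
    | succ K hK ih =>
      rw [Finset.sum_Ico_succ_top hK]
      have hK' : (1 : ℝ) ≤ K := hk0.trans (by exact_mod_cast hK)
      have h2 : Real.log (((K : ℝ) + 1 + 1)) - Real.log ((K : ℝ) + 1) ≤ 1 / ((K : ℝ) + 1) := by
        rw [← Real.log_div (by positivity) (by positivity)]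
        have h3 := Real.log_le_sub_one_of_pos (show 0 < ((K : ℝ) + 1 + 1) / ((K : ℝ) + 1) by positivity)
        have h4 : ((K : ℝ) + 1 + 1) / ((K : ℝ) + 1) - 1 = 1 / ((K : ℝ) + 1) := by
          field_simp
          ring
        linarith
      push_cast
      linarith
  have h5 : Real.log ((K : ℝ) / k₀) ≤ Real.log 2 + (Real.log ((K : ℝ) + 1) - Real.log ((k₀ : ℝ) + 1)) := by
    rw [← Real.log_div (by positivity) (by positivity), ← Real.log_mul (by norm_num) (by positivity)]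
    refine Real.log_le_log (by positivity) ?_
    rw [div_le_iff₀ (by positivity)]
    rw [show 2 * (((K : ℝ) + 1) / ((k₀ : ℝ) + 1)) * k₀ = (2 * ((K : ℝ) + 1) * k₀) / ((k₀ : ℝ) + 1) by ring,
      le_div_iff₀ (by positivity)]
    nlinarith
  have h6 := Real.log_two_lt_d9
  linarith

end Pool.Agent.TE
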