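import Mathlib

/-!
# D5b: tails
-/

set_option autoImplicit false

namespace Pool.Agent.TE

open Finset

/-- the weight of the pair `(r + 2, a + 2)` -/
private noncomputable def d5b_g (x : ℕ × ℕ) : ℝ := (((x.1 : ℝ) + 2) ^ (x.2 + 2)) ^ (-(3 / 4 : ℝ))

private lemma d5b_g_nonneg (x : ℕ × ℕ) : 0 ≤ d5b_g x := by
  unfold d5b_g
  positivity

private lemma d5b_g_le (x : ℕ × ℕ) :
    d5b_g x ≤ ((x.1 : ℝ) + 2) ^ (-(3 / 2 : ℝ)) * ((2 : ℝ) ^ (-(3 / 4 : ℝ))) ^ x.2 := by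
  unfold d5b_g
  have hx : (0 : ℝ) < (x.1 : ℝ) + 2 := by positivity
  have h2 : (2 : ℝ) ≤ (x.1 : ℝ) + 2 := by
    have : (0 : ℝ) ≤ x.1 := Nat.cast_nonneg _
    linarith
  rw [← Real.rpow_natCast (((x.1 : ℝ) + 2)) (x.2 + 2), ← Real.rpow_mul hx.le]
  have e1 : ((x.2 + 2 : ℕ) : ℝ) * (-(3 / 4 : ℝ)) = -(3 / 2 : ℝ) + -(3 / 4 : ℝ) * (x.2 : ℝ) := by
    push_cast
    ring
  rw [e1, Real.rpow_add hx]
  refine mul_le_mul_of_nonneg_left ?_ (Real.rpow_nonneg hx.le _)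
  rw [← Real.rpow_natCast ((2 : ℝ) ^ (-(3 / 4 : ℝ))) x.2, ← Real.rpow_mul (by norm_num)]
  refine Real.rpow_le_rpow_of_nonpos (by norm_num) h2 ?_
  have : (0 : ℝ) ≤ x.2 := Nat.cast_nonneg _
  nlinarith

private lemma d5b_g_summable : Summable d5b_g := by
  have h1 : Summable (fun n : ℕ => ((n : ℝ) + 2) ^ (-(3 / 2 : ℝ))) := by
    have h := (summable_nat_add_iff 2).mpr
      ((Real.summable_nat_rpow (p := -(3 / 2 : ℝ))).mpr (by norm_num))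
    refine h.congr fun n => ?_
    push_cast
    rfl
  have h2 : Summable (fun n : ℕ => ((2 : ℝ) ^ (-(3 / 4 : ℝ))) ^ n) := by
    refine summable_geometric_of_lt_one (by positivity) ?_
    exact Real.rpow_lt_one_of_one_lt_of_neg (by norm_num) (by norm_num)
  have h3 := h1.mul_of_nonneg h2 (fun n => by positivity) (fun n => by positivity)
  exact Summable.of_nonneg_of_le d5b_g_nonneg d5b_g_le h3

private lemma d5b_step (n : ℕ) (hn : 1 ≤ n) : ((n : ℝ) + 1) ^ (-(3 / 2 : ℝ)) ≤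
    2 * ((n : ℝ) ^ (-(1 / 2 : ℝ)) - ((n : ℝ) + 1) ^ (-(1 / 2 : ℝ))) := by
  have hn0 : (0 : ℝ) < n := by exact_mod_cast hn
  have hn1 : (0 : ℝ) < (n : ℝ) + 1 := by positivity
  set a : ℝ := Real.sqrt n with ha
  set b : ℝ := Real.sqrt ((n : ℝ) + 1) with hb
  have ha0 : 0 < a := Real.sqrt_pos.mpr hn0
  have hb0 : 0 < b := Real.sqrt_pos.mpr hn1
  have haa : a ^ 2 = n := Real.sq_sqrt hn0.le
  have hbb : b ^ 2 = (n : ℝ) + 1 := Real.sq_sqrt hn1.le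
  have hab : a ≤ b := Real.sqrt_le_sqrt (by linarith)
  have e1 : (n : ℝ) ^ (-(1 / 2 : ℝ)) = a⁻¹ := by
    rw [Real.rpow_neg hn0.le, ← Real.sqrt_eq_rpow]
  have e2 : ((n : ℝ) + 1) ^ (-(1 / 2 : ℝ)) = b⁻¹ := by
    rw [Real.rpow_neg hn1.le, ← Real.sqrt_eq_rpow]
  have e3 : ((n : ℝ) + 1) ^ (-(3 / 2 : ℝ)) = (b ^ 3)⁻¹ := by
    rw [Real.rpow_neg hn1.le]
    congr 1
    rw [hb, Real.sqrt_eq_rpow, ← Real.rpow_natCast, ← Real.rpow_mul hn1.le]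
    norm_num
  rw [e1, e2, e3]
  have h1 : (b - a) * (b + a) = 1 := by nlinarith
  have h2 : a⁻¹ - b⁻¹ = 1 / (a * b * (a + b)) := by
    rw [inv_sub_inv ha0.ne' hb0.ne', div_eq_div_iff (by positivity) (by positivity)]
    have h3 : (b - a) * (a * b * (a + b)) = ((b - a) * (b + a)) * (a * b) := by ring
    rw [h3, h1]
  rw [h2, inv_eq_one_div, mul_one_div, div_le_div_iff₀ (by positivity) (by positivity)]
  have h3 : a * b ≤ b * b := mul_le_mul_of_nonneg_right hab hb0.le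
  have h4 : a * b * (a + b) ≤ b * b * (b + b) :=
    mul_le_mul h3 (by linarith) (by positivity) (by positivity)
  nlinarith

private lemma d5b_sum (m j : ℕ) : ∑ i ∈ range j, ((m + 1 + i + 1 : ℕ) : ℝ) ^ (-(3 / 2 : ℝ)) ≤
    2 * (((m + 1 : ℕ) : ℝ) ^ (-(1 / 2 : ℝ)) - ((m + 1 + j : ℕ) : ℝ) ^ (-(1 / 2 : ℝ))) := by
  induction j with
  | zero => simp
  | succ j ih =>
    rw [Finset.sum_range_succ]
    have h1 := d5b_step (m + 1 + j) (by omega)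
    have e1 : ((m + 1 + j + 1 : ℕ) : ℝ) = ((m + 1 + j : ℕ) : ℝ) + 1 := by push_cast; ring
    have e2 : ((m + 1 + (j + 1) : ℕ) : ℝ) = ((m + 1 + j : ℕ) : ℝ) + 1 := by push_cast; ring
    rw [e1, e2]
    linarith

/-- D5b (1). A prime power that is not prime is `r^a` with `a ≥ 2`, `r` prime; `1/n ≤ M^(-1/4) n^(-3/4)` for
`n > M`, and `∑_{r ≥ 2} ∑_{a ≥ 2} r^(-3a/4) ≤ ∑_r r^(-3/2)/(1 - 2^(-3/4)) < ∞`. (Map `n ∈ F` to `(r, a)` with
`r = n.minFac`, `a = n.factorization r ≤ log₂ n`; or sum over `(r, a)` in a finite box containing all of `F`.) -/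
theorem prime_pow_tail : ∃ C : ℝ, 0 ≤ C ∧ ∀ M : ℝ, 1 ≤ M → ∀ F : Finset ℕ,
    (∀ n ∈ F, M < n ∧ IsPrimePow n ∧ ¬ n.Prime) →
      ∑ n ∈ F, 1 / (n : ℝ) ≤ C * M ^ (-(1 / 4 : ℝ)) := by
  classical
  refine ⟨∑' x, d5b_g x, tsum_nonneg d5b_g_nonneg, ?_⟩
  intro M hM F hF
  have hM0 : 0 < M := by linarith
  have h1 : ∀ n ∈ F, 1 / (n : ℝ) ≤ M ^ (-(1 / 4 : ℝ)) * (n : ℝ) ^ (-(3 / 4 : ℝ)) := by
    intro n hn
    have hMn : M < n := (hF n hn).1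
    have hn0 : (0 : ℝ) < n := hM0.trans hMn
    have e1 : 1 / (n : ℝ) = (n : ℝ) ^ (-(1 / 4 : ℝ)) * (n : ℝ) ^ (-(3 / 4 : ℝ)) := by
      rw [← Real.rpow_add hn0]
      have : (-(1 / 4 : ℝ)) + (-(3 / 4 : ℝ)) = -1 := by norm_num
      rw [this, Real.rpow_neg_one, one_div]
    rw [e1]
    refine mul_le_mul_of_nonneg_right ?_ (Real.rpow_nonneg hn0.le _)
    exact Real.rpow_le_rpow_of_nonpos hM0 hMn.le (by norm_num)
  have hrep : ∀ n ∈ F, ∃ x : ℕ × ℕ, (x.1 + 2) ^ (x.2 + 2) = n := by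
    intro n hn
    obtain ⟨_, hpp, hnp⟩ := hF n hn
    obtain ⟨r, a, hr, ha, rfl⟩ := (isPrimePow_nat_iff n).mp hpp
    have hr2 := hr.two_le
    have ha2 : 2 ≤ a := by
      by_contra hcon
      have : a = 1 := by omega
      rw [this, pow_one] at hnp
      exact hnp hr
    refine ⟨(r - 2, a - 2), ?_⟩
    simp only
    rw [Nat.sub_add_cancel hr2, Nat.sub_add_cancel ha2]
  choose! φ hφ using hrep
  have hinj : Set.InjOn φ (F : Set ℕ) := by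
    intro n hn n' hn' h
    rw [← hφ n hn, ← hφ n' hn', h]
  have h2 : ∑ n ∈ F, (n : ℝ) ^ (-(3 / 4 : ℝ)) = ∑ x ∈ F.image φ, d5b_g x := by
    rw [Finset.sum_image hinj]
    refine Finset.sum_congr rfl fun n hn => ?_
    unfold d5b_g
    congr 1
    have h3 : (n : ℝ) = (((φ n).1 : ℝ) + 2) ^ ((φ n).2 + 2) := by
      have h4 := congrArg (fun k : ℕ => (k : ℝ)) (hφ n hn)
      simp only [Nat.cast_pow, Nat.cast_add, Nat.cast_ofNat] at h4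
      exact h4.symm
    exact h3
  calc ∑ n ∈ F, 1 / (n : ℝ) ≤ ∑ n ∈ F, M ^ (-(1 / 4 : ℝ)) * (n : ℝ) ^ (-(3 / 4 : ℝ)) :=
        Finset.sum_le_sum h1
    _ = M ^ (-(1 / 4 : ℝ)) * ∑ x ∈ F.image φ, d5b_g x := by rw [← Finset.mul_sum, h2]
    _ ≤ M ^ (-(1 / 4 : ℝ)) * ∑' x, d5b_g x :=
        mul_le_mul_of_nonneg_left (d5b_g_summable.sum_le_tsum _ (fun x _ => d5b_g_nonneg x))
          (Real.rpow_nonneg hM0.le _)
    _ = (∑' x, d5b_g x) * M ^ (-(1 / 4 : ℝ)) := mul_comm _ _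

/-- D5b (2). `∑_{n > M} n^(-3/2) ≤ 3 M^(-1/2)` for real `M ≥ 1`: `n^(-3/2) ≤ 2 ((n-1)^(-1/2) - n^(-1/2))` for
`n ≥ 2`, telescoping; the first term `n = ⌊M⌋ + 1` is `≤ M^(-3/2) ≤ M^(-1/2)`. -/
theorem tail_three_half (M : ℝ) (hM : 1 ≤ M) (F : Finset ℕ) (hF : ∀ n ∈ F, M < n) :
    ∑ n ∈ F, (n : ℝ) ^ (-(3 / 2 : ℝ)) ≤ 3 * M ^ (-(1 / 2 : ℝ)) := by
  classical
  have hM0 : 0 < M := by linarith
  set m : ℕ := ⌊M⌋₊ with hm
  set J : ℕ := F.sup id + 1 with hJ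
  have hlt : M < (m : ℝ) + 1 := Nat.lt_floor_add_one M
  have hsub : F ⊆ insert (m + 1) ((range J).image (fun i => m + 1 + i + 1)) := by
    intro n hn
    have h1 : m < n := by
      have h2 : M < n := hF n hn
      rw [hm]
      exact (Nat.floor_lt hM0.le).mpr h2
    have h3 : n ≤ F.sup id := Finset.le_sup (f := id) hn
    rw [Finset.mem_insert]
    rcases Nat.lt_or_ge (m + 1) n with h4 | h4
    · right
      rw [Finset.mem_image]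
      exact ⟨n - (m + 2), Finset.mem_range.mpr (by omega), by omega⟩
    · left
      omega
  have hnn : ∀ n : ℕ, 0 ≤ (n : ℝ) ^ (-(3 / 2 : ℝ)) := fun n => by positivity
  have h1 : ∑ n ∈ F, (n : ℝ) ^ (-(3 / 2 : ℝ)) ≤ ((m + 1 : ℕ) : ℝ) ^ (-(3 / 2 : ℝ)) +
      ∑ i ∈ range J, ((m + 1 + i + 1 : ℕ) : ℝ) ^ (-(3 / 2 : ℝ)) := by
    refine (Finset.sum_le_sum_of_subset_of_nonneg hsub fun n _ _ => hnn n).trans ?_
    have h2 : (m + 1) ∉ (range J).image (fun i => m + 1 + i + 1) := by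
      intro h
      obtain ⟨i, _, hi⟩ := Finset.mem_image.mp h
      omega
    rw [Finset.sum_insert h2, Finset.sum_image (fun i _ j _ h => by omega)]
  have h2 := d5b_sum m J
  have hm1 : M ≤ ((m + 1 : ℕ) : ℝ) := by push_cast; exact hlt.le
  have h3 : ((m + 1 : ℕ) : ℝ) ^ (-(3 / 2 : ℝ)) ≤ M ^ (-(1 / 2 : ℝ)) := by
    refine (Real.rpow_le_rpow_of_nonpos hM0 hm1 (by norm_num)).trans ?_
    exact Real.rpow_le_rpow_of_exponent_le hM (by norm_num)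
  have h4 : ((m + 1 : ℕ) : ℝ) ^ (-(1 / 2 : ℝ)) ≤ M ^ (-(1 / 2 : ℝ)) :=
    Real.rpow_le_rpow_of_nonpos hM0 hm1 (by norm_num)
  have h5 : 0 ≤ ((m + 1 + J : ℕ) : ℝ) ^ (-(1 / 2 : ℝ)) := by positivity
  linarith

end Pool.Agent.TE
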