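import Pool.Agent.Lib.MP_f02ea4_nt.TE.Defs
import Pool.Agent.Lib.MP_f02ea4_nt.TE.D0b
import Pool.Agent.Lib.MP_f02ea4_nt.TE.D5a
import Pool.Agent.Lib.MP_f02ea4_nt.TE.D5b

/-!
# D5c: reciprocal sums over primes `≡ 1 mod l`, uniform in `l`
-/

set_option autoImplicit false

namespace Pool.Agent.TE

open Finset Pool.Agent.GM Pool.Agent.Lib.MP_bae66e_nt.AP3

private lemma d5c_wk_nonneg (k n : ℕ) : 0 ≤ wk k n := by
  unfold wk
  have := Real.log_natCast_nonneg n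
  positivity

private lemma d5c_ratio (n : ℕ) : 0 ≤ vM n / Real.log n ∧ vM n / Real.log n ≤ 1 := by
  have h0 := Real.log_natCast_nonneg n
  refine ⟨div_nonneg ArithmeticFunction.vonMangoldt_nonneg h0, ?_⟩
  exact div_le_one_of_le₀ ArithmeticFunction.vonMangoldt_le_log h0

private lemma d5c_tele (k₀ K : ℕ) (h : k₀ ≤ K) :
    ∑ k ∈ Ico k₀ K, (1 / (k : ℝ) - 1 / ((k : ℝ) + 1)) = 1 / (k₀ : ℝ) - 1 / (K : ℝ) := by
  induction K, h using Nat.le_induction with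
  | base => simp
  | succ m hm ih =>
    rw [Finset.sum_Ico_succ_top hm, ih]
    push_cast
    ring

/-- D5c (1). For every finite set `F` of positive integers (think of `{n ≤ B, n ≡ 1 mod l}`, `B` huge):
`∑_{n ∈ F} (Λ(n)/log n) WW(n)` is at most the sum of: (a) `n ≤ e^(k₀/2)`: `≤ e^(k₀/2) 2^(-k₀)`
(`Λ(n) ≤ log n`, `WW_small`; at most `e^(k₀/2)` such `n`); (b) `n > e^(2K)`: `≤ 2^K * 3 e^(-K)` (`WW_large`,
`tail_three_half`); (c) `e^(k₀/2) < n ≤ e^(2K)` not prime: `≤ C e^(-k₀/8)` (`Λ(n) = 0` unless `n` is a prime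
power, `Λ ≤ log`, `WW_le`, `prime_pow_tail` with `M = e^(k₀/2)`); (d) the primes `≤ e^(2K)` in `F`: `Λ(n) = log n`, `WW_le`.
As `e^(1/2)/2 ≤ e^(-1/8)` (`e^(5/8) ≤ 2`) and `2/e ≤ e^(-1/8)` (`2 ≤ e^(7/8)`), `k₀ ≤ K`: total `≤ (C+4) e^(-k₀/8) + ∑ 1/p`. -/
lemma sum_WW_le : ∃ C : ℝ, 0 ≤ C ∧ ∀ (k₀ K : ℕ), k₀ ≤ K → ∀ F : Finset ℕ, (∀ n ∈ F, 1 ≤ n) →
    ∑ n ∈ F, vM n / Real.log n * WW k₀ K n ≤ C * Real.exp (-(k₀ : ℝ) / 8)
      + ∑ p ∈ F.filter (fun p => p.Prime ∧ p ≤ ⌊Real.exp (2 * K)⌋₊), 1 / (p : ℝ) := by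
  classical
  obtain ⟨C, hC, hpp⟩ := prime_pow_tail
  refine ⟨C + 4, by linarith, ?_⟩
  intro k₀ K hkK F hF
  have hlog2 : 0.6931471803 < Real.log 2 := Real.log_two_gt_d9
  have hlog2' : Real.log 2 < 0.6931471808 := Real.log_two_lt_d9
  have hkK' : (k₀ : ℝ) ≤ K := by exact_mod_cast hkK
  have hk0 : (0 : ℝ) ≤ k₀ := Nat.cast_nonneg _
  set a : ℝ := Real.exp (k₀ / 2) with ha
  set b : ℝ := Real.exp (2 * K) with hb
  have ha1 : 1 ≤ a := Real.one_le_exp (by positivity)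
  have hb1 : 1 ≤ b := Real.one_le_exp (by positivity)
  -- pointwise
  have hpt : ∀ n ∈ F, vM n / Real.log n * WW k₀ K n ≤
      ((if (n : ℝ) ≤ a then (1 / 2 : ℝ) ^ k₀ else 0) +
        (if b < (n : ℝ) then 2 ^ K * (n : ℝ) ^ (-(3 / 2 : ℝ)) else 0)) +
      ((if a < (n : ℝ) ∧ IsPrimePow n ∧ ¬ n.Prime then 1 / (n : ℝ) else 0) +
        (if n.Prime ∧ n ≤ ⌊b⌋₊ then 1 / (n : ℝ) else 0)) := by
    intro n hn
    have hn1 := hF n hn
    obtain ⟨r0, r1⟩ := d5c_ratio n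
    have hW := WW_nonneg k₀ K n
    have hle : vM n / Real.log n * WW k₀ K n ≤ WW k₀ K n := by
      calc vM n / Real.log n * WW k₀ K n ≤ 1 * WW k₀ K n := mul_le_mul_of_nonneg_right r1 hW
        _ = _ := one_mul _
    have p1 : 0 ≤ (if (n : ℝ) ≤ a then (1 / 2 : ℝ) ^ k₀ else 0) := by split_ifs <;> positivity
    have p2 : 0 ≤ (if b < (n : ℝ) then 2 ^ K * (n : ℝ) ^ (-(3 / 2 : ℝ)) else 0) := by
      split_ifs <;> positivity
    have p3 : 0 ≤ (if a < (n : ℝ) ∧ IsPrimePow n ∧ ¬ n.Prime then 1 / (n : ℝ) else 0) := by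
      split_ifs <;> positivity
    have p4 : 0 ≤ (if n.Prime ∧ n ≤ ⌊b⌋₊ then 1 / (n : ℝ) else 0) := by split_ifs <;> positivity
    by_cases h1 : (n : ℝ) ≤ a
    · have h2 := WW_small k₀ K n hn1
      rw [if_pos h1] at p1 ⊢
      linarith
    · by_cases h2 : b < (n : ℝ)
      · have h3 := WW_large k₀ K n hn1
        rw [if_pos h2] at p2 ⊢
        linarith
      · have h3 := WW_le k₀ K n hn1
        by_cases h4 : n.Prime
        · have h5 : n ≤ ⌊b⌋₊ := Nat.le_floor (not_lt.1 h2)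
          rw [if_pos (⟨h4, h5⟩ : n.Prime ∧ n ≤ ⌊b⌋₊)] at p4 ⊢
          linarith
        · by_cases h5 : IsPrimePow n
          · rw [if_pos (⟨not_le.1 h1, h5, h4⟩ : a < (n : ℝ) ∧ IsPrimePow n ∧ ¬ n.Prime)] at p3 ⊢
            linarith
          · have h6 : vM n = 0 := ArithmeticFunction.vonMangoldt_eq_zero_iff.2 h5
            rw [h6, zero_div, zero_mul]
            linarith
  refine (Finset.sum_le_sum hpt).trans ?_
  rw [Finset.sum_add_distrib, Finset.sum_add_distrib, Finset.sum_add_distrib,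
    ← Finset.sum_filter, ← Finset.sum_filter, ← Finset.sum_filter, ← Finset.sum_filter]
  -- (a)
  have hA : ∑ n ∈ F.filter (fun n : ℕ => (n : ℝ) ≤ a), (1 / 2 : ℝ) ^ k₀ ≤ Real.exp (-(k₀ : ℝ) / 8) := by
    rw [Finset.sum_const, nsmul_eq_mul]
    have hc : ((#(F.filter (fun n : ℕ => (n : ℝ) ≤ a)) : ℕ) : ℝ) ≤ a := by
      have h1 : F.filter (fun n : ℕ => (n : ℝ) ≤ a) ⊆ Icc 1 ⌊a⌋₊ := by
        intro n hn
        rw [mem_filter] at hn
        rw [mem_Icc]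
        exact ⟨hF n hn.1, Nat.le_floor hn.2⟩
      have h2 := Finset.card_le_card h1
      rw [Nat.card_Icc, Nat.add_sub_cancel] at h2
      calc ((#(F.filter (fun n : ℕ => (n : ℝ) ≤ a)) : ℕ) : ℝ) ≤ (⌊a⌋₊ : ℝ) := by exact_mod_cast h2
        _ ≤ a := Nat.floor_le (by linarith)
    calc ((#(F.filter (fun n : ℕ => (n : ℝ) ≤ a)) : ℕ) : ℝ) * (1 / 2 : ℝ) ^ k₀
        ≤ a * (1 / 2 : ℝ) ^ k₀ := mul_le_mul_of_nonneg_right hc (by positivity)
      _ = Real.exp (k₀ / 2 - k₀ * Real.log 2) := by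
          have h3 : (1 / 2 : ℝ) ^ k₀ = Real.exp (-(k₀ * Real.log 2)) := by
            rw [Real.exp_neg, mul_comm, Real.exp_mul, Real.exp_log (by norm_num), Real.rpow_natCast,
              one_div, inv_pow]
          rw [h3, ha, ← Real.exp_add]
          congr 1
      _ ≤ Real.exp (-(k₀ : ℝ) / 8) := by
          apply Real.exp_le_exp.2
          nlinarith
  -- (b)
  have hB : ∑ n ∈ F.filter (fun n : ℕ => b < (n : ℝ)), 2 ^ K * (n : ℝ) ^ (-(3 / 2 : ℝ)) ≤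
      3 * Real.exp (-(k₀ : ℝ) / 8) := by
    rw [← Finset.mul_sum]
    have h1 := tail_three_half b hb1 (F.filter (fun n : ℕ => b < (n : ℝ)))
      (fun n hn => (mem_filter.1 hn).2)
    have h2 : b ^ (-(1 / 2 : ℝ)) = Real.exp (-(K : ℝ)) := by
      rw [hb, ← Real.exp_mul]
      congr 1
      ring
    have h3 : (2 : ℝ) ^ K = Real.exp (K * Real.log 2) := by
      rw [mul_comm, Real.exp_mul, Real.exp_log (by norm_num), Real.rpow_natCast]
    calc 2 ^ K * ∑ n ∈ F.filter (fun n : ℕ => b < (n : ℝ)), (n : ℝ) ^ (-(3 / 2 : ℝ))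
        ≤ 2 ^ K * (3 * b ^ (-(1 / 2 : ℝ))) := mul_le_mul_of_nonneg_left h1 (by positivity)
      _ = 3 * Real.exp (K * Real.log 2 - K) := by
          rw [h2, h3, sub_eq_add_neg, Real.exp_add]
          ring
      _ ≤ 3 * Real.exp (-(k₀ : ℝ) / 8) := by
          apply mul_le_mul_of_nonneg_left _ (by norm_num)
          apply Real.exp_le_exp.2
          nlinarith
  -- (c)
  have hCc : ∑ n ∈ F.filter (fun n : ℕ => a < (n : ℝ) ∧ IsPrimePow n ∧ ¬ n.Prime), 1 / (n : ℝ) ≤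
      C * Real.exp (-(k₀ : ℝ) / 8) := by
    have h1 := hpp a ha1 (F.filter (fun n : ℕ => a < (n : ℝ) ∧ IsPrimePow n ∧ ¬ n.Prime))
      (fun n hn => (mem_filter.1 hn).2)
    have h2 : a ^ (-(1 / 4 : ℝ)) = Real.exp (-(k₀ : ℝ) / 8) := by
      rw [ha, ← Real.exp_mul]
      congr 1
      ring
    rwa [h2] at h1
  have hfin : C * Real.exp (-(k₀ : ℝ) / 8) + 4 * Real.exp (-(k₀ : ℝ) / 8) =
      (C + 4) * Real.exp (-(k₀ : ℝ) / 8) := by ring
  linarith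

/-- D5c (2). Let `S_k = ∑' n, if n ≡ 1 [MOD l] then Λ(n) w_k(n) else 0`. By `ap_sum'` with `c = 1`
(`l.totient = l - 1`), `(l-1) S_k ≥ 1 - D/k` for `k ≥ k₀ ≥ k₁`. So
`(l-1) ∑_{k₀ ≤ k < K} S_k/(k+1) ≥ harm - D ∑ 1/k^2 ≥ log (K/k₀) - 1 - 2 D` (`harm_lower`; `∑_{k ≥ k₀} 1/(k(k+1)) = 1/k₀ ≤ 1`).
On the other hand `∑_{k₀ ≤ k < K} S_k/(k+1) = ∑' n, if n ≡ 1 then (Λ(n)/log n) WW(n)` (`sum_wk_div`; the terms `n = 0, 1`
vanish as `Λ = 0`; finite sum of summable series, `summable_vM_wk`), and every finite partial sum is at most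
`C e^(-k₀/8) + ∑_{r ∈ Pl l ⌊e^(2K)⌋} 1/r` by (1) (`tsum_le_of_sum_le` type lemma, all terms nonnegative). Finally
`(l-1) C e^(-k₀/8) ≤ C e^(k₀/80 - k₀/8) ≤ C`. -/
theorem ap_recip : ∃ C : ℝ, 0 ≤ C ∧ ∃ k₁ : ℕ, 1 ≤ k₁ ∧ ∀ (k₀ K l : ℕ) [NeZero l], l.Prime →
    k₁ ≤ k₀ → k₀ ≤ K → 80 * Real.log l ≤ k₀ →
    (∀ k : ℕ, k₀ ≤ k → ∀ χ : DirichletCharacter ℂ l, χ ≠ 1 →
      ¬ NearZero l χ (64 * Real.log k / k)) →
    Real.log ((K : ℝ) / k₀) - C
      ≤ ((l : ℝ) - 1) * ∑ r ∈ Pl l ⌊Real.exp (2 * K)⌋₊, 1 / (r : ℝ) := by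
  classical
  obtain ⟨D, hD, m₀, hap⟩ := ap_sum'
  obtain ⟨C, hC, hW⟩ := sum_WW_le
  refine ⟨1 + D + C, by linarith, max 1 m₀, le_max_left _ _, ?_⟩
  intro k₀ K l _ hl hk₁ hkK hlog hNZ
  have hk1 : 1 ≤ k₀ := (le_max_left _ _).trans hk₁
  have hkm : m₀ ≤ k₀ := (le_max_right _ _).trans hk₁
  have hk1' : (1 : ℝ) ≤ k₀ := by exact_mod_cast hk1
  have hl2 : (2 : ℝ) ≤ l := by exact_mod_cast hl.two_le
  have hl0 : (0 : ℝ) < l := by linarith
  set g : ℕ → ℕ → ℝ := fun k n => if n ≡ 1 [MOD l] then vM n * wk k n else 0 with hg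
  have hg0 : ∀ k n, 0 ≤ g k n := by
    intro k n
    rw [hg]
    dsimp only
    split_ifs
    · exact mul_nonneg ArithmeticFunction.vonMangoldt_nonneg (d5c_wk_nonneg k n)
    · exact le_rfl
  have hgs : ∀ k, Summable (g k) := by
    intro k
    refine Summable.of_nonneg_of_le (hg0 k) (fun n => ?_) (summable_vM_wk k)
    rw [hg]
    dsimp only
    split_ifs
    · exact le_rfl
    · exact mul_nonneg ArithmeticFunction.vonMangoldt_nonneg (d5c_wk_nonneg k n)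
  -- lower bound
  have hlow : Real.log ((K : ℝ) / k₀) - 1 - D ≤
      ((l : ℝ) - 1) * ∑ k ∈ Ico k₀ K, (∑' n, g k n) / ((k : ℝ) + 1) := by
    have h1 : ∀ k ∈ Ico k₀ K, 1 / ((k : ℝ) + 1) - D * (1 / (k : ℝ) - 1 / ((k : ℝ) + 1)) ≤
        ((l : ℝ) - 1) * ((∑' n, g k n) / ((k : ℝ) + 1)) := by
      intro k hk
      rw [mem_Ico] at hk
      have hkr : (1 : ℝ) ≤ k := hk1'.trans (by exact_mod_cast hk.1)
      have hkk : (k₀ : ℝ) ≤ k := by exact_mod_cast hk.1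
      have h2 := hap k (hkm.trans hk.1) l (by rw [le_div_iff₀ (by norm_num)]; linarith)
        (hNZ k hk.1) 1 (Nat.coprime_one_left l)
      rw [Nat.totient_prime hl, Nat.cast_sub hl.one_lt.le, Nat.cast_one] at h2
      have h3 := (abs_le.1 h2).1
      have h4 : 1 - D / k ≤ ((l : ℝ) - 1) * ∑' n, g k n := by
        rw [hg]
        linarith
      have h5 : 1 / (k : ℝ) - 1 / ((k : ℝ) + 1) = (1 / k) * (1 / ((k : ℝ) + 1)) := by
        field_simp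
        ring
      rw [h5]
      have h6 : 0 < 1 / ((k : ℝ) + 1) := by positivity
      calc 1 / ((k : ℝ) + 1) - D * ((1 / k) * (1 / ((k : ℝ) + 1)))
          = (1 - D / k) * (1 / ((k : ℝ) + 1)) := by ring
        _ ≤ (((l : ℝ) - 1) * ∑' n, g k n) * (1 / ((k : ℝ) + 1)) :=
            mul_le_mul_of_nonneg_right h4 h6.le
        _ = _ := by ring
    have h2 := Finset.sum_le_sum h1
    rw [← Finset.mul_sum] at h2
    refine le_trans ?_ h2
    rw [Finset.sum_sub_distrib, ← Finset.mul_sum]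
    have h3 := harm_lower k₀ K hk1 hkK
    have h4 := d5c_tele k₀ K hkK
    have h5 : 0 ≤ 1 / (K : ℝ) := by positivity
    have h6 : 1 / (k₀ : ℝ) ≤ 1 := by
      rw [div_le_one (by linarith)]
      exact hk1'
    rw [h4]
    have h7 : D * (1 / (k₀ : ℝ) - 1 / (K : ℝ)) ≤ D * 1 :=
      mul_le_mul_of_nonneg_left (by linarith) (by linarith)
    linarith
  -- upper bound
  have hsw : ∑ k ∈ Ico k₀ K, (∑' n, g k n) / ((k : ℝ) + 1) =
      ∑' n, ∑ k ∈ Ico k₀ K, g k n / ((k : ℝ) + 1) := by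
    rw [Summable.tsum_finsetSum fun k _ => (hgs k).div_const _]
    refine Finset.sum_congr rfl fun k _ => ?_
    rw [tsum_div_const]
  have hsum : Summable fun n => ∑ k ∈ Ico k₀ K, g k n / ((k : ℝ) + 1) :=
    summable_sum fun k _ => (hgs k).div_const _
  have hval : ∀ n, ∑ k ∈ Ico k₀ K, g k n / ((k : ℝ) + 1) =
      if n ≡ 1 [MOD l] ∧ 1 ≤ n then vM n / Real.log n * WW k₀ K n else 0 := by
    intro n
    by_cases h1 : n ≡ 1 [MOD l] ∧ 1 ≤ n
    · rw [if_pos h1]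
      rcases Nat.lt_or_ge n 2 with h2 | h2
      · have h3 : n = 1 := by omega
        subst h3
        have h4 : vM 1 = 0 := ArithmeticFunction.vonMangoldt_apply_one
        rw [h4, zero_div, zero_mul]
        refine Finset.sum_eq_zero fun k _ => ?_
        rw [hg]
        dsimp only
        rw [if_pos h1.1, h4, zero_mul, zero_div]
      · have h3 : ∀ k ∈ Ico k₀ K, g k n / ((k : ℝ) + 1) = vM n * (wk k n / ((k : ℝ) + 1)) := by
          intro k _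
          rw [hg]
          dsimp only
          rw [if_pos h1.1, mul_div_assoc]
        rw [Finset.sum_congr rfl h3, ← Finset.mul_sum, sum_wk_div k₀ K n h2]
        ring
    · rw [if_neg h1]
      refine Finset.sum_eq_zero fun k _ => ?_
      rw [hg]
      dsimp only
      by_cases h2 : n ≡ 1 [MOD l]
      · have h3 : n = 0 := by
          by_contra h4
          exact h1 ⟨h2, Nat.one_le_iff_ne_zero.2 h4⟩
        subst h3
        have h4 : vM 0 = 0 := by simp [vM]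
        rw [if_pos h2, h4, zero_mul, zero_div]
      · rw [if_neg h2, zero_div]
  have hup : ∑ k ∈ Ico k₀ K, (∑' n, g k n) / ((k : ℝ) + 1) ≤
      C * Real.exp (-(k₀ : ℝ) / 8) + ∑ r ∈ Pl l ⌊Real.exp (2 * K)⌋₊, 1 / (r : ℝ) := by
    rw [hsw]
    refine hsum.tsum_le_of_sum_le fun F => ?_
    rw [Finset.sum_congr rfl fun n _ => hval n, ← Finset.sum_filter]
    refine (hW k₀ K hkK (F.filter fun n => n ≡ 1 [MOD l] ∧ 1 ≤ n)
      fun n hn => (mem_filter.1 hn).2.2).trans ?_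
    have h1 : (F.filter fun n => n ≡ 1 [MOD l] ∧ 1 ≤ n).filter
        (fun p => p.Prime ∧ p ≤ ⌊Real.exp (2 * K)⌋₊) ⊆ Pl l ⌊Real.exp (2 * K)⌋₊ := by
      intro n hn
      rw [mem_filter, mem_filter] at hn
      unfold Pl
      rw [mem_filter, mem_prI]
      exact ⟨⟨⟨hn.2.1.pos, hn.2.2⟩, hn.2.1⟩, hn.1.2.1⟩
    have h2 := Finset.sum_le_sum_of_subset_of_nonneg (f := fun r : ℕ => 1 / (r : ℝ)) h1
      fun r _ _ => by positivity
    linarith
  have h1 := mul_le_mul_of_nonneg_left hup (show 0 ≤ (l : ℝ) - 1 by linarith)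
  have h2 : ((l : ℝ) - 1) * (C * Real.exp (-(k₀ : ℝ) / 8)) ≤ C := by
    have h3 : ((l : ℝ) - 1) * Real.exp (-(k₀ : ℝ) / 8) ≤ 1 := by
      calc ((l : ℝ) - 1) * Real.exp (-(k₀ : ℝ) / 8) ≤ l * Real.exp (-(k₀ : ℝ) / 8) :=
            mul_le_mul_of_nonneg_right (by linarith) (Real.exp_pos _).le
        _ = Real.exp (Real.log l + -(k₀ : ℝ) / 8) := by rw [Real.exp_add, Real.exp_log hl0]
        _ ≤ Real.exp 0 := Real.exp_le_exp.2 (by linarith)
        _ = 1 := Real.exp_zero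
    calc ((l : ℝ) - 1) * (C * Real.exp (-(k₀ : ℝ) / 8))
        = C * (((l : ℝ) - 1) * Real.exp (-(k₀ : ℝ) / 8)) := by ring
      _ ≤ C * 1 := mul_le_mul_of_nonneg_left h3 hC
      _ = C := mul_one C
  rw [mul_add] at h1
  linarith

end Pool.Agent.TE
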