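import Pool.Agent.Lib.MP_f02ea4_nt.TE.P9
import Pool.Agent.Lib.MP_f02ea4_nt.TE.D5c

/-!
# P10: what is needed on primes `≡ 1 mod l`
-/

set_option autoImplicit false

namespace Pool.Agent.TE

open Finset Pool.Agent.GM Pool.Agent.Lib.MP_bae66e_nt.AP3

/-- P10 (1). `C₀, k₁` from `ap_recip`. Let `x ≥ 1` be real with `80 log l ≤ x` and no near zeros for `k ≥ x`. Put
`k₀ = max k₁ ⌈x⌉₊ ≤ (k₁ + 2) x`, `K = ⌊(log z)/2⌋₊`, so `e^(2K) ≤ z`, `log z ≤ 2 K + 2 ≤ 4 max K 1`. If `k₀ ≤ K`, then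
`ap_recip` and monotonicity in `z` (`Pl l ⌊e^(2K)⌋₊ ⊆ Pl l z`) give `log K - log k₀ - C₀ ≤ (l-1) ∑_{Pl l z} 1/r`, and
`log K ≥ log log z - log 4`, `log k₀ ≤ log x + log (k₁ + 2)`. If `K < k₀` then `log z ≤ 2 (k₀ + 1) ≤ 4 k₀ ≤ 4 (k₁ + 2) x`, so
the left side is `≤ 0` for `C ≥ log (4 (k₁ + 2))`. So `C = C₀ + log (4 (k₁ + 2))`. -/
lemma ap_from : ∃ C : ℝ, 1 ≤ C ∧ ∀ (l z : ℕ) [NeZero l] (x : ℝ), l.Prime → 3 ≤ z → 1 ≤ x →
    80 * Real.log l ≤ x →
    (∀ k : ℕ, x ≤ k → ∀ χ : DirichletCharacter ℂ l, χ ≠ 1 → ¬ NearZero l χ (64 * Real.log k / k)) →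
    Real.log (Real.log z) - Real.log x - C ≤ ((l : ℝ) - 1) * ∑ r ∈ Pl l z, 1 / (r : ℝ) := by
  obtain ⟨C₀, hC₀, k₁, hk₁, H⟩ := ap_recip
  have hk1R : (1 : ℝ) ≤ k₁ := by exact_mod_cast hk₁
  have hlog0 : 0 ≤ Real.log (4 * ((k₁ : ℝ) + 2)) := Real.log_nonneg (by linarith)
  refine ⟨C₀ + Real.log (4 * ((k₁ : ℝ) + 2)) + 1, by linarith, ?_⟩
  intro l z _ x hl hz hx hlx hnz
  have hl1 : (0 : ℝ) ≤ (l : ℝ) - 1 := by
    have : (1 : ℝ) ≤ l := by exact_mod_cast hl.one_lt.le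
    linarith
  have hsum0 : ∀ w : ℕ, 0 ≤ ∑ r ∈ Pl l w, 1 / (r : ℝ) := fun w =>
    Finset.sum_nonneg fun r _ => by positivity
  have hz3 : (3 : ℝ) ≤ z := by exact_mod_cast hz
  have hlz : 1 < Real.log z := by
    have h1 : Real.exp 1 < 3 := Real.exp_one_lt_three
    rw [Real.lt_log_iff_exp_lt (by linarith)]
    linarith
  set k₀ : ℕ := max k₁ ⌈x⌉₊ with hk0
  set K : ℕ := ⌊Real.log z / 2⌋₊ with hK
  have hxk0 : x ≤ (k₀ : ℝ) := by
    have h1 : x ≤ (⌈x⌉₊ : ℝ) := Nat.le_ceil x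
    have h2 : ((⌈x⌉₊ : ℕ) : ℝ) ≤ (k₀ : ℝ) := by exact_mod_cast le_max_right _ _
    exact h1.trans h2
  have hk0x : (k₀ : ℝ) ≤ ((k₁ : ℝ) + 2) * x := by
    have h1 : ((⌈x⌉₊ : ℕ) : ℝ) < x + 1 := Nat.ceil_lt_add_one (by linarith)
    rw [hk0, Nat.cast_max]
    refine max_le ?_ ?_
    · nlinarith
    · nlinarith
  have hk0pos : (0 : ℝ) < k₀ := by linarith
  have hKz : Real.log z ≤ 2 * K + 2 := by
    have h1 : Real.log z / 2 < K + 1 := Nat.lt_floor_add_one _
    linarith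
  rcases le_or_gt k₀ K with hle | hlt
  · have hKR : (k₀ : ℝ) ≤ K := by exact_mod_cast hle
    have hKpos : (0 : ℝ) < K := by linarith
    have hK1 : (1 : ℝ) ≤ K := by linarith
    have h1 := H k₀ K l hl (le_max_left _ _) hle (hlx.trans hxk0)
      (fun k hk χ hχ => hnz k (hxk0.trans (by exact_mod_cast hk)) χ hχ)
    have h2 : ⌊Real.exp (2 * K)⌋₊ ≤ z := by
      have h3 : Real.exp (2 * K) ≤ z := by
        have h4 : 2 * (K : ℝ) ≤ Real.log z := by
          have h5 : (K : ℝ) ≤ Real.log z / 2 := Nat.floor_le (by linarith)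
          linarith
        calc Real.exp (2 * K) ≤ Real.exp (Real.log z) := Real.exp_le_exp.mpr h4
          _ = z := Real.exp_log (by linarith)
      exact Nat.floor_le_of_le h3
    have h3 : ∑ r ∈ Pl l ⌊Real.exp (2 * K)⌋₊, 1 / (r : ℝ) ≤ ∑ r ∈ Pl l z, 1 / (r : ℝ) := by
      refine Finset.sum_le_sum_of_subset_of_nonneg ?_ (fun r _ _ => by positivity)
      intro r hr
      unfold Pl prI at hr ⊢
      simp only [Finset.mem_filter, Finset.mem_Ioc] at hr ⊢
      refine ⟨?_, hr.2⟩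
      refine ⟨?_, hr.1.2⟩
      omega
    have h4 : ((l : ℝ) - 1) * ∑ r ∈ Pl l ⌊Real.exp (2 * K)⌋₊, 1 / (r : ℝ) ≤
        ((l : ℝ) - 1) * ∑ r ∈ Pl l z, 1 / (r : ℝ) := mul_le_mul_of_nonneg_left h3 hl1
    have h5 : Real.log ((K : ℝ) / k₀) = Real.log K - Real.log k₀ :=
      Real.log_div hKpos.ne' hk0pos.ne'
    have h6 : Real.log (Real.log z) ≤ Real.log 4 + Real.log K := by
      rw [← Real.log_mul (by norm_num) hKpos.ne']
      exact Real.log_le_log (by linarith) (by linarith)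
    have h7 : Real.log k₀ ≤ Real.log ((k₁ : ℝ) + 2) + Real.log x := by
      rw [← Real.log_mul (by linarith) (by linarith)]
      exact Real.log_le_log hk0pos hk0x
    have h8 : Real.log (4 * ((k₁ : ℝ) + 2)) = Real.log 4 + Real.log ((k₁ : ℝ) + 2) :=
      Real.log_mul (by norm_num) (by linarith)
    linarith
  · have hKk : (K : ℝ) + 1 ≤ k₀ := by exact_mod_cast hlt
    have h1 : Real.log z ≤ (4 * ((k₁ : ℝ) + 2)) * x := by nlinarith
    have h2 : Real.log (Real.log z) ≤ Real.log (4 * ((k₁ : ℝ) + 2)) + Real.log x := by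
      rw [← Real.log_mul (by linarith) (by linarith)]
      exact Real.log_le_log (by linarith) h1
    have h3 : 0 ≤ ((l : ℝ) - 1) * ∑ r ∈ Pl l z, 1 / (r : ℝ) := mul_nonneg hl1 (hsum0 z)
    linarith

/-- P10 (2). `bad = badl`, `B = 8`. For `l ∉ badl` take `x = 768 log (l + 2)` in `ap_from`; for all `l` take
`x = (C₁ + 80 * ..) √l (log (l+2))^4` with `C₁` from `no_near_all` (`80 log l ≤ 160 √l`, so `x = (C₁ + 160) √l Λ^4` works,
`Λ = log (l+2) ≥ 1`), `log x = log (C₁ + 160) + (1/2) log l + 4 log Λ`, and `log Λ ≥ 0`. -/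
theorem AP_main : ∃ (C : ℝ) (B : ℕ) (bad : Set ℕ), APhyp C B bad := by
  obtain ⟨C₁, hC₁, Hall⟩ := no_near_all
  obtain ⟨Cb, hCb, Hb⟩ := bad_card
  obtain ⟨C, hC, H⟩ := ap_from
  have hlog768 : 0 ≤ Real.log 768 := Real.log_nonneg (by norm_num)
  have hlogC : 0 ≤ Real.log (C₁ + 160) := Real.log_nonneg (by linarith)
  have hLam : ∀ l : ℕ, l.Prime → 1 ≤ Real.log ((l : ℝ) + 2) := by
    intro l hl
    have h1 : Real.exp 1 < 3 := Real.exp_one_lt_three
    have h2 : (2 : ℝ) ≤ l := by exact_mod_cast hl.two_le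
    rw [Real.le_log_iff_exp_le (by linarith)]
    linarith
  refine ⟨C + Cb + Real.log 768 + Real.log (C₁ + 160), 8, badl, ?_, ?_, ?_, ?_⟩
  · linarith
  · intro L hL
    refine (Hb L hL).trans ?_
    have h0 : 0 ≤ Real.log L := Real.log_nonneg (by
      have : (3 : ℝ) ≤ L := by exact_mod_cast hL
      linarith)
    exact mul_le_mul_of_nonneg_right (by linarith) (by positivity)
  · intro l z hl hbad hz
    have : NeZero l := ⟨hl.ne_zero⟩
    have hΛ := hLam l hl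
    have h1 := H l z (768 * Real.log (l + 2)) hl hz (by linarith) (by
      have h2 : Real.log l ≤ Real.log ((l : ℝ) + 2) := by
        have : (2 : ℝ) ≤ l := by exact_mod_cast hl.two_le
        exact Real.log_le_log (by linarith) (by linarith)
      linarith) (by
      intro k hk χ hχ hn
      exact hbad ⟨hl, inferInstance, k, χ, hk, hχ, hn⟩)
    rw [Real.log_mul (by norm_num) (by linarith)] at h1
    linarith
  · intro l z hl hz
    have : NeZero l := ⟨hl.ne_zero⟩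
    have hΛ := hLam l hl
    have hl2 : (2 : ℝ) ≤ l := by exact_mod_cast hl.two_le
    have hs1 : 1 ≤ Real.sqrt l := by
      rw [Real.one_le_sqrt]
      linarith
    have hΛ4 : 1 ≤ (Real.log ((l : ℝ) + 2)) ^ 4 := one_le_pow₀ hΛ
    have hss : 1 ≤ Real.sqrt l * (Real.log ((l : ℝ) + 2)) ^ 4 := by nlinarith
    have hlogl : Real.log l ≤ 2 * Real.sqrt l := by
      have h1 : Real.log (Real.sqrt l) ≤ Real.sqrt l - 1 := Real.log_le_sub_one_of_pos (by linarith)
      rw [Real.log_sqrt (by linarith)] at h1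
      linarith
    have h1 := H l z ((C₁ + 160) * Real.sqrt l * (Real.log (l + 2)) ^ 4) hl hz (by
      rw [mul_assoc]
      nlinarith) (by
      have h2 : Real.sqrt l ≤ Real.sqrt l * (Real.log ((l : ℝ) + 2)) ^ 4 :=
        le_mul_of_one_le_right (by linarith) hΛ4
      rw [mul_assoc]
      nlinarith) (by
      intro k hk χ hχ
      refine Hall l hl k (le_trans ?_ hk) χ hχ
      rw [mul_assoc, mul_assoc]
      exact mul_le_mul_of_nonneg_right (by linarith) (by linarith))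
    rw [Real.log_mul (by positivity) (by positivity), Real.log_mul (by linarith) (by linarith),
      Real.log_pow, Real.log_sqrt (by linarith)] at h1
    have h3 : 0 ≤ Real.log (Real.log ((l : ℝ) + 2)) := Real.log_nonneg hΛ
    push_cast at h1
    linarith

end Pool.Agent.TE
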