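import Pool.Agent.Lib.MP_f02ea4_nt.TE.F7
import Pool.Agent.Lib.MP_f02ea4_nt.TE.J5
import Pool.Agent.Lib.MP_f02ea4_nt.TE.P10
import Pool.Agent.Lib.MP_bae66e_nt.Cheb

/-!
# K1: uniform thinness when the exponents are polynomially bounded
-/

set_option autoImplicit false

namespace Pool.Agent.TE

open Finset Nat Pool.Agent.Lib.MP_bae66e_nt

/-- K1a. One class, all scales, if `v_q(N) ≤ q ^ a` for all primes `q` (`class_scale_exc` with `P = X`, `w = 0`). -/
theorem class_poly (a : ℝ) (ha : 0 ≤ a) : ∃ C : ℝ, 1 ≤ C ∧ ∃ P₀ : ℕ, 16 ≤ P₀ ∧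
    ∀ N : ℕ, N.Perfect → (∀ q : ℕ, q.Prime → (N.factorization q : ℝ) ≤ (q : ℝ) ^ a) →
    ∀ l X : ℕ, P₀ ≤ X → l.Prime → l ≠ 2 → (l : ℝ) ≤ Real.log X → ∀ κ A : ℝ, 1 ≤ κ → 0 ≤ A →
    (∀ z : ℕ, 3 ≤ z →
      Real.log (Real.log z) - Real.log κ - A ≤ ((l : ℝ) - 1) * ∑ r ∈ Pl l z, 1 / (r : ℝ)) →
      (#(Cl N l X) : ℝ) ≤ C * Real.exp A * κ * X / (Real.log X) ^ 2 := by
  have hε : 0 < 2 / (a + 2) := by positivity
  obtain ⟨C, hC, P₀, hP₀, h⟩ := class_scale_exc (2 / (a + 2)) hε
  refine ⟨C, hC, P₀, hP₀, ?_⟩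
  intro N hN hv l X hX hl hl2 hlX κ A hκ hA hz
  have hX1 : (1 : ℝ) ≤ X := by exact_mod_cast (by omega : 1 ≤ X)
  have h1 := h N X l hN hX 0 le_rfl (fun p hp => by
    by_cases hp1 : (X : ℝ) ^ (2 / (a + 2) / 2) < p
    · exact Or.inl hp1
    · right; right
      push Not at hp1
      have hpp := Nat.prime_of_mem_primeFactors hp
      calc (N.factorization p : ℝ) ≤ (p : ℝ) ^ a := hv p hpp
        _ ≤ ((X : ℝ) ^ (2 / (a + 2) / 2)) ^ a :=
            Real.rpow_le_rpow (Nat.cast_nonneg _) hp1 ha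
        _ = (X : ℝ) ^ (2 / (a + 2) / 2 * a) := by rw [← Real.rpow_mul (by linarith)]
        _ = (X : ℝ) ^ (1 - 2 / (a + 2)) := by
            congr 1
            field_simp
            ring) hl hl2 hlX κ A hκ hA hz X le_rfl
  rw [zero_div, add_zero, mul_one] at h1
  exact h1

/-- K1b. -/
theorem thin_poly (a : ℝ) (ha : 0 ≤ a) : ∃ C : ℝ, 0 ≤ C ∧ ∀ N : ℕ, N.Perfect →
    (∀ q : ℕ, q.Prime → (N.factorization q : ℝ) ≤ (q : ℝ) ^ a) →
    ∀ L x : ℕ, 1 ≤ L → 2 ≤ x → (#(Th N L x) : ℝ) ≤ C * L * x / (Real.log x) ^ 2 := by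
  obtain ⟨C', B, bad, hAP⟩ := AP_main
  obtain ⟨κ, A, D, hA, hD0, h1, h, hD⟩ := kappa_of_AP C' B bad hAP
  obtain ⟨C, hC, P₁, hP₁, hcs⟩ := class_poly a ha
  set M : ℝ := max (max (C * Real.exp A * D) 5) ((Real.log P₁) ^ 2) with hM
  have hM1 : C * Real.exp A * D ≤ M := le_trans (le_max_left _ _) (le_max_left _ _)
  have hM2 : 5 ≤ M := le_trans (le_max_right _ _) (le_max_left _ _)
  have hM3 : (Real.log P₁) ^ 2 ≤ M := le_max_right _ _
  have hM0 : 0 ≤ M := by linarith
  refine ⟨M, hM0, ?_⟩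
  intro N hN hv L x hL hx2
  have hxP : (2 : ℝ) ≤ x := by exact_mod_cast hx2
  have hQ0 : 0 < Real.log x := Real.log_pos (by linarith)
  have hx0 : (0 : ℝ) < x := by linarith
  have hL1 : (1 : ℝ) ≤ L := by exact_mod_cast hL
  have hsub : Th N L x ⊆ (range (x + 1)).filter Nat.Prime := by
    intro p hp
    simp only [Th, mem_filter] at hp
    simp only [mem_filter, mem_range]
    exact ⟨by omega, Nat.prime_of_mem_primeFactors hp.1⟩
  rcases lt_or_ge x P₁ with hPlt | hPge
  · -- small `x`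
    have hc : (#(Th N L x) : ℝ) ≤ x := by
      have h2 : #(Th N L x) ≤ #(Ioc 0 x) := by
        apply card_le_card
        intro p hp
        have := hsub hp
        simp only [mem_filter, mem_range] at this
        simp only [mem_Ioc]
        exact ⟨this.2.pos, by omega⟩
      rw [Nat.card_Ioc] at h2
      exact_mod_cast h2
    have hlogle : Real.log x ≤ Real.log P₁ :=
      Real.log_le_log (by linarith) (by exact_mod_cast hPlt.le)
    rw [le_div_iff₀ (by positivity)]
    calc (#(Th N L x) : ℝ) * (Real.log x) ^ 2 ≤ x * (Real.log P₁) ^ 2 := by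
          apply mul_le_mul hc (pow_le_pow_left₀ hQ0.le hlogle 2) (by positivity) hx0.le
      _ ≤ x * M := mul_le_mul_of_nonneg_left hM3 hx0.le
      _ = M * 1 * x := by ring
      _ ≤ M * L * x := by
          apply mul_le_mul_of_nonneg_right _ hx0.le
          exact mul_le_mul_of_nonneg_left hL1 hM0
  · rcases le_or_gt (L : ℝ) (Real.log x) with hLQ | hLQ
    · -- small `L`
      have hun : Th N L x ⊆ (oL L).biUnion (fun l => Cl N l x) := by
        intro p hp
        simp only [Th, mem_filter] at hp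
        obtain ⟨hp1, hp2, l, hl, hdvd⟩ := hp
        simp only [mem_biUnion, Cl, mem_filter]
        exact ⟨l, hl, hp1, hp2, hdvd⟩
      have hcard : (#(Th N L x) : ℝ) ≤ ∑ l ∈ oL L, (#(Cl N l x) : ℝ) := by
        have := (card_le_card hun).trans card_biUnion_le
        exact_mod_cast this
      have hterm : ∀ l ∈ oL L, (#(Cl N l x) : ℝ) ≤
          C * Real.exp A * x / (Real.log x) ^ 2 * (κ l * (1 + Real.log ((L : ℝ) / l))) := by
        intro l hl
        obtain ⟨hlr, hlp, hl2⟩ : l ∈ range (L + 1) ∧ l.Prime ∧ l ≠ 2 := by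
          simpa [oL, and_assoc] using hl
        have hlL : l ≤ L := by
          have := mem_range.mp hlr
          omega
        have hl0 : (0 : ℝ) < l := by exact_mod_cast hlp.pos
        have hκ := h1 l hlp
        have hT : 1 ≤ (L : ℝ) / l := by
          rw [le_div_iff₀ hl0, one_mul]
          exact_mod_cast hlL
        have hlogT : 0 ≤ Real.log ((L : ℝ) / l) := Real.log_nonneg hT
        have hlQ : (l : ℝ) ≤ Real.log x := le_trans (by exact_mod_cast hlL) hLQ
        have := hcs N hN hv l x hPge hlp hl2 hlQ (κ l) A hκ hA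
          (fun z hz => h l z hlp hl2 hz)
        calc _ ≤ C * Real.exp A * κ l * x / (Real.log x) ^ 2 := this
          _ = C * Real.exp A * x / (Real.log x) ^ 2 * (κ l * 1) := by ring
          _ ≤ _ := by
            apply mul_le_mul_of_nonneg_left _ (by positivity)
            apply mul_le_mul_of_nonneg_left _ (by linarith)
            linarith
      calc (#(Th N L x) : ℝ) ≤ ∑ l ∈ oL L, (#(Cl N l x) : ℝ) := hcard
        _ ≤ ∑ l ∈ oL L, C * Real.exp A * x / (Real.log x) ^ 2 *
              (κ l * (1 + Real.log ((L : ℝ) / l))) := sum_le_sum hterm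
        _ = C * Real.exp A * x / (Real.log x) ^ 2 *
              ∑ l ∈ oL L, κ l * (1 + Real.log ((L : ℝ) / l)) := by rw [mul_sum]
        _ ≤ C * Real.exp A * x / (Real.log x) ^ 2 * (D * L) :=
            mul_le_mul_of_nonneg_left (hD L hL) (by positivity)
        _ = C * Real.exp A * D * (L * x / (Real.log x) ^ 2) := by ring
        _ ≤ M * (L * x / (Real.log x) ^ 2) := mul_le_mul_of_nonneg_right hM1 (by positivity)
        _ = M * L * x / (Real.log x) ^ 2 := by ring
    · -- large `L`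
      have hpi : (#(Th N L x) : ℝ) ≤ Nat.primeCounting x := by
        have h2 := card_le_card hsub
        have h3 : #((range (x + 1)).filter Nat.Prime) = Nat.primeCounting x := by
          rw [Nat.primeCounting, Nat.primeCounting', Nat.count_eq_card_filter_range]
        rw [h3] at h2
        exact_mod_cast h2
      have hpu := pi_upper x hx2
      calc (#(Th N L x) : ℝ) ≤ 5 * x / Real.log x := le_trans hpi hpu
        _ = 5 * Real.log x * x / (Real.log x) ^ 2 := by
            field_simp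
        _ ≤ M * L * x / (Real.log x) ^ 2 := by
            apply div_le_div_of_nonneg_right _ (by positivity)
            apply mul_le_mul_of_nonneg_right _ hx0.le
            apply mul_le_mul hM2 hLQ.le hQ0.le hM0

end Pool.Agent.TE
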