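import Pool.Agent.Lib.MP_f02ea4_nt.TE.H3
import Pool.Agent.Lib.MP_f02ea4_nt.TE.K1

/-!
# K2: small exponents are thin, uniformly, when the exponents are polynomially bounded
-/

set_option autoImplicit false

namespace Pool.Agent.TE

open Finset Nat Pool.Agent.Lib.MP_f02ea4_nt

/-- primes with exponent at most `E` -/
lemma low_sub {N : ℕ} (hodd : Odd N) (hN : N.Perfect) : ∃ s : ℕ, ∀ (E x : ℝ), 0 ≤ E → 0 ≤ x →
    N.primeFactors.filter (fun p : ℕ => (p : ℝ) ≤ x ∧ (N.factorization p : ℝ) ≤ E) ⊆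
      insert s (Th N (⌊E⌋₊ + 1) ⌊x⌋₊) := by
  obtain ⟨s, _, _, _, hs⟩ := Rad.euler hodd hN
  refine ⟨s, fun E x hE hx p hp => ?_⟩
  obtain ⟨hpN, hpx, hpE⟩ := Finset.mem_filter.mp hp
  rw [Finset.mem_insert]
  by_cases hps : p = s
  · exact Or.inl hps
  · right
    have h2 := hs p hpN hps
    have he1 : 1 ≤ N.factorization p := by
      have := (Nat.mem_primeFactors.mp hpN)
      exact this.1.factorization_pos_of_dvd this.2.2 this.2.1
    have heE : N.factorization p ≤ ⌊E⌋₊ := Nat.le_floor hpE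
    have hne : N.factorization p + 1 ≠ 1 := by omega
    have hlp : (N.factorization p + 1).minFac.Prime := Nat.minFac_prime hne
    have hld := Nat.minFac_dvd (N.factorization p + 1)
    have hle := Nat.minFac_le (n := N.factorization p + 1) (by omega)
    unfold Th
    rw [Finset.mem_filter]
    refine ⟨hpN, Nat.le_floor hpx, (N.factorization p + 1).minFac, ?_, hld⟩
    unfold oL
    rw [Finset.mem_filter, Finset.mem_range]
    refine ⟨by omega, hlp, fun h3 => ?_⟩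
    rw [h3] at hld
    omega

/-- K2a. -/
theorem thin_poly_E (a : ℝ) (ha : 0 ≤ a) : ∃ C : ℝ, 0 < C ∧ ∀ N : ℕ, Odd N → N.Perfect →
    (∀ q : ℕ, q.Prime → (N.factorization q : ℝ) ≤ (q : ℝ) ^ a) →
    ∀ x E : ℝ, 2 ≤ x → 1 ≤ E →
      ((N.primeFactors.filter (fun p : ℕ => (p : ℝ) ≤ x ∧
        (N.factorization p : ℝ) ≤ E)).card : ℝ) ≤ C * E * x / (Real.log x) ^ 2 := by
  obtain ⟨C, hC, h⟩ := thin_poly a ha
  refine ⟨8 * C + 1, by positivity, ?_⟩
  intro N hodd hN hv x E hx hE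
  obtain ⟨s, hs⟩ := low_sub hodd hN
  have hx0 : 0 ≤ x := by linarith
  have hE0 : 0 ≤ E := by linarith
  have hf2 : 2 ≤ ⌊x⌋₊ := Nat.le_floor (by exact_mod_cast hx)
  have h1 := h N hN hv (⌊E⌋₊ + 1) ⌊x⌋₊ (by omega) hf2
  have hf : (2 : ℝ) ≤ (⌊x⌋₊ : ℝ) := by exact_mod_cast hf2
  have hfx : (⌊x⌋₊ : ℝ) ≤ x := Nat.floor_le hx0
  have hlt : x < (⌊x⌋₊ : ℝ) + 1 := Nat.lt_floor_add_one x
  have hlogf : 0 < Real.log (⌊x⌋₊ : ℝ) := Real.log_pos (by linarith)
  have hlogx : 0 < Real.log x := Real.log_pos (by linarith)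
  have h2 : Real.log x ≤ 2 * Real.log (⌊x⌋₊ : ℝ) := by
    have h3 : x ≤ (⌊x⌋₊ : ℝ) ^ 2 := by nlinarith
    calc Real.log x ≤ Real.log ((⌊x⌋₊ : ℝ) ^ 2) := Real.log_le_log (by linarith) h3
      _ = 2 * Real.log (⌊x⌋₊ : ℝ) := by rw [Real.log_pow]; push_cast; ring
  have h4 : (Real.log x) ^ 2 ≤ 4 * (Real.log (⌊x⌋₊ : ℝ)) ^ 2 := by
    calc (Real.log x) ^ 2 ≤ (2 * Real.log (⌊x⌋₊ : ℝ)) ^ 2 := pow_le_pow_left₀ hlogx.le h2 2
      _ = _ := by ring
  have hEE : ((⌊E⌋₊ + 1 : ℕ) : ℝ) ≤ 2 * E := by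
    have := Nat.floor_le hE0
    push_cast
    linarith
  have h5 : (#(Th N (⌊E⌋₊ + 1) ⌊x⌋₊) : ℝ) ≤ 8 * C * E * x / (Real.log x) ^ 2 := by
    refine h1.trans ?_
    rw [div_le_div_iff₀ (by positivity) (by positivity)]
    calc C * ((⌊E⌋₊ + 1 : ℕ) : ℝ) * (⌊x⌋₊ : ℝ) * (Real.log x) ^ 2
        ≤ C * (2 * E) * x * (4 * (Real.log (⌊x⌋₊ : ℝ)) ^ 2) := by
          gcongr
      _ = _ := by ring
  have h6 : (1 : ℝ) ≤ E * x / (Real.log x) ^ 2 := by
    rw [le_div_iff₀ (by positivity), one_mul]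
    have h7 : (Real.log x) ^ 2 ≤ x := by
      have h8 := Real.log_le_sub_one_of_pos (x := x ^ (1 / 2 : ℝ)) (by positivity)
      rw [Real.log_rpow (by linarith)] at h8
      have h9 : x ^ (1 / 2 : ℝ) * x ^ (1 / 2 : ℝ) = x := by
        rw [← Real.rpow_add (by linarith)]
        norm_num
      set u := x ^ (1 / 2 : ℝ) with hu
      have hu1 : 1 ≤ u := Real.one_le_rpow (by linarith) (by norm_num)
      -- log x ≤ 2 (u - 1)
      have h10 : Real.log x ≤ 2 * (u - 1) := by linarith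
      -- bound for large `x`: use the fourth root
      have h11 := Real.log_le_sub_one_of_pos (x := x ^ (1 / 4 : ℝ) / 2) (by positivity)
      rw [Real.log_div (by positivity) (by norm_num), Real.log_rpow (by linarith)] at h11
      have h12 : x ^ (1 / 4 : ℝ) * x ^ (1 / 4 : ℝ) = u := by
        rw [hu, ← Real.rpow_add (by linarith)]
        norm_num
      set v := x ^ (1 / 4 : ℝ) with hv'
      have hv1 : 1 ≤ v := Real.one_le_rpow (by linarith) (by norm_num)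
      have hl2 := Real.log_two_lt_d9
      have h13 : Real.log x ≤ 2 * v - 1.2 := by linarith
      have h14 : Real.log x ≤ u := by nlinarith
      calc (Real.log x) ^ 2 ≤ u ^ 2 := pow_le_pow_left₀ hlogx.le h14 2
        _ = x := by rw [sq]; exact h9
    nlinarith
  have h7 : ((N.primeFactors.filter (fun p : ℕ => (p : ℝ) ≤ x ∧
      (N.factorization p : ℝ) ≤ E)).card : ℝ) ≤ #(Th N (⌊E⌋₊ + 1) ⌊x⌋₊) + 1 := by
    have := (Finset.card_le_card (hs E x hE0 hx0)).trans (Finset.card_insert_le _ _)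
    exact_mod_cast this
  calc _ ≤ (#(Th N (⌊E⌋₊ + 1) ⌊x⌋₊) : ℝ) + 1 := h7
    _ ≤ 8 * C * E * x / (Real.log x) ^ 2 + E * x / (Real.log x) ^ 2 := add_le_add h5 h6
    _ = (8 * C + 1) * E * x / (Real.log x) ^ 2 := by ring

/-- K2b. -/
theorem mass_poly (a ε : ℝ) (ha : 0 ≤ a) (hε : 0 < ε) : ∃ c : ℝ, 0 < c ∧ ∃ y₀ : ℕ, 3 ≤ y₀ ∧
    ∀ N : ℕ, Odd N → N.Perfect →
    (∀ q : ℕ, q.Prime → (N.factorization q : ℝ) ≤ (q : ℝ) ^ a) → ∀ y : ℕ, y₀ ≤ y →
      ∑ p ∈ N.primeFactors.filter (fun p : ℕ => y ≤ p ∧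
        (N.factorization p : ℝ) ≤ c * Real.log y), 1 / (p : ℝ) ≤ ε := by
  obtain ⟨C, hC, h⟩ := thin_poly_E a ha
  have hc0 : 0 < ε / (4 * C) := by positivity
  refine ⟨ε / (4 * C), hc0, max 3 ⌈Real.exp (4 * C / ε)⌉₊, le_max_left _ _, ?_⟩
  intro N hodd hN hv y hy
  have hy3 : 3 ≤ y := (le_max_left _ _).trans hy
  have hye : Real.exp (4 * C / ε) ≤ y := Nat.ceil_le.mp ((le_max_right _ _).trans hy)
  have hy0 : (0 : ℝ) < y := lt_of_lt_of_le (Real.exp_pos _) hye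
  have hlog : 4 * C / ε ≤ Real.log y := (Real.le_log_iff_exp_le hy0).mpr hye
  have hlog0 : 0 < Real.log y := lt_of_lt_of_le (by positivity) hlog
  have hE : 1 ≤ ε / (4 * C) * Real.log y := by
    calc (1 : ℝ) = ε / (4 * C) * (4 * C / ε) := by field_simp
      _ ≤ _ := mul_le_mul_of_nonneg_left hlog hc0.le
  have key := dyadic2 (N.primeFactors.filter (fun p : ℕ => y ≤ p ∧
        (N.factorization p : ℝ) ≤ ε / (4 * C) * Real.log y)) y N hy3
        (C * (ε / (4 * C) * Real.log y)) (by positivity) ?_ ?_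
  · refine key.trans (le_of_eq ?_)
    field_simp
  · intro p hp
    rw [Finset.mem_filter] at hp
    exact ⟨hp.2.1, Nat.le_of_dvd hN.2 (Nat.dvd_of_mem_primeFactors hp.1)⟩
  · intro X hX _
    have hX2 : (2 : ℝ) ≤ X := by exact_mod_cast (by omega : 2 ≤ X)
    refine le_trans ?_ (h N hodd hN hv X _ hX2 hE)
    have hsub : (N.primeFactors.filter (fun p : ℕ => y ≤ p ∧
        (N.factorization p : ℝ) ≤ ε / (4 * C) * Real.log y)).filter (fun p => p ≤ X) ⊆
        N.primeFactors.filter (fun p : ℕ => (p : ℝ) ≤ X ∧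
          (N.factorization p : ℝ) ≤ ε / (4 * C) * Real.log y) := by
      intro p hp
      rw [Finset.mem_filter, Finset.mem_filter] at hp
      rw [Finset.mem_filter]
      exact ⟨hp.1.1, by exact_mod_cast hp.2, hp.1.2.2⟩
    exact_mod_cast Finset.card_le_card hsub

end Pool.Agent.TE
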