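import Pool.Agent.Lib.MP_f02ea4_nt.TE.J5

/-!
# K5: one class at all scales; the small primes of `N` with large exponents are lost
-/

set_option autoImplicit false

namespace Pool.Agent.TE

open Finset Nat

/-- the primes `q ≤ x ^ ε` of `N` with `v_q(N) > x ^ (1 - ε)` -/
noncomputable def Ex (N : ℕ) (ε x : ℝ) : Finset ℕ :=
  N.primeFactors.filter (fun q : ℕ => (q : ℝ) ≤ x ^ ε ∧ x ^ (1 - ε) < (N.factorization q : ℝ))

/-- K5. As `class_scale_exc` (J5.lean). -/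
theorem class_exc (ε : ℝ) (hε : 0 < ε) (hε1 : ε ≤ 1) : ∃ C : ℝ, 1 ≤ C ∧ ∃ P₀ : ℕ, 16 ≤ P₀ ∧
    ∀ N P l : ℕ, ∀ x : ℝ, (P : ℝ) ≤ x → x < P + 1 → N.Perfect → P₀ ≤ P →
    l.Prime → l ≠ 2 → (l : ℝ) ≤ Real.log P → ∀ κ A S : ℝ, 1 ≤ κ → 0 ≤ A → 0 ≤ S →
    ((l : ℝ) - 1) * ∑ r ∈ Ex N ε x, 1 / (r : ℝ) ≤ S →
    (∀ z : ℕ, 3 ≤ z →
      Real.log (Real.log z) - Real.log κ - A ≤ ((l : ℝ) - 1) * ∑ r ∈ Pl l z, 1 / (r : ℝ)) →
      (#(Cl N l P) : ℝ) ≤ C * Real.exp (A + S) * κ * P / (Real.log P) ^ 2 := by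
  obtain ⟨C₀, hC₀, hcb⟩ := class_bound_exc
  obtain ⟨c, hc⟩ : ∃ c : ℝ, c = min (1 / (32 * C₀)) (ε / 4) := ⟨_, rfl⟩
  have hc0 : 0 < c := by rw [hc]; positivity
  have hcC : c ≤ 1 / (32 * C₀) := by rw [hc]; exact min_le_left _ _
  have hcε : c ≤ ε / 4 := by rw [hc]; exact min_le_right _ _
  have hc32 : c ≤ 1 / 32 := by
    refine hcC.trans ?_
    exact one_div_le_one_div_of_le (by norm_num) (by linarith)
  obtain ⟨P₀, hP₀, hlarge⟩ := g5_large c hc0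
  obtain ⟨P₁, hP₁, hlarge1⟩ := j5_large ε hε
  refine ⟨3 + 8 / c ^ 2,
    by linarith [show 0 ≤ 8 / c ^ 2 by positivity], max P₀ P₁,
    hP₀.trans (le_max_left _ _), ?_⟩
  intro N P l x hPx hxP hNp hPP hl hl2 hlQ κ A S hκ hA hS hloss hz
  have hP : P₀ ≤ P := (le_max_left _ _).trans hPP
  have h5 := hlarge1 P ((le_max_right _ _).trans hPP)
  have hN0 : N ≠ 0 := hNp.2.ne'
  obtain ⟨h1, h2, h3, h4⟩ := hlarge P hP
  have hP16 : 16 ≤ P := hP₀.trans hP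
  have hPr : (16 : ℝ) ≤ P := by exact_mod_cast hP16
  have hP0 : (0 : ℝ) < P := by linarith
  set Q := Real.log (P : ℝ) with hQ
  have hQ1 : 1 ≤ Q := by
    rw [hQ, Real.le_log_iff_exp_le hP0]
    have := Real.exp_one_lt_d9
    linarith
  set z := ⌊(P : ℝ) ^ c⌋₊ with hzdef
  set R := ⌊(P : ℝ) ^ (1 / 16 : ℝ)⌋₊ with hRdef
  have e1 : (P : ℝ) ^ c = (P : ℝ) ^ (c / 2) * (P : ℝ) ^ (c / 2) := by
    rw [← Real.rpow_add hP0]
    ring_nf
  have e2 : (P : ℝ) ^ (1 / 16 : ℝ) = (P : ℝ) ^ (1 / 32 : ℝ) * (P : ℝ) ^ (1 / 32 : ℝ) := by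
    rw [← Real.rpow_add hP0]
    norm_num
  have hzle : (z : ℝ) ≤ (P : ℝ) ^ c := Nat.floor_le (Real.rpow_nonneg hP0.le _)
  have hRle : (R : ℝ) ≤ (P : ℝ) ^ (1 / 16 : ℝ) := Nat.floor_le (Real.rpow_nonneg hP0.le _)
  have hzgt : (P : ℝ) ^ c < z + 1 := Nat.lt_floor_add_one _
  have hRgt : (P : ℝ) ^ (1 / 16 : ℝ) < R + 1 := Nat.lt_floor_add_one _
  have hz3 : 3 ≤ z := by
    have : (3 : ℝ) < z + 1 := by nlinarith
    have h' : (2 : ℝ) < z := by linarith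
    have : 2 < z := by exact_mod_cast h'
    omega
  have hzge : (P : ℝ) ^ (c / 2) ≤ z := by nlinarith
  have hRge : (P : ℝ) ^ (1 / 32 : ℝ) ≤ R := by nlinarith
  have hR1 : 1 ≤ R := by
    have : (1 : ℝ) < R := by linarith
    have : 1 < R := by exact_mod_cast this
    omega
  have hz0 : (0 : ℝ) < z := by
    have : 0 < z := by omega
    exact_mod_cast this
  have hlogz : c * Q / 2 ≤ Real.log z := by
    have := Real.log_le_log (Real.rpow_pos_of_pos hP0 _) hzge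
    rw [Real.log_rpow hP0] at this
    linarith
  have hlogz' : Real.log z ≤ c * Q := by
    have := Real.log_le_log hz0 hzle
    rwa [Real.log_rpow hP0] at this
  have hlogR : Q / 32 ≤ Real.log R := by
    have := Real.log_le_log (Real.rpow_pos_of_pos hP0 _) hRge
    rw [Real.log_rpow hP0] at this
    linarith
  have hCz : C₀ * Real.log z ≤ Real.log R := by
    have : C₀ * Real.log z ≤ C₀ * (c * Q) := mul_le_mul_of_nonneg_left hlogz' (by linarith)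
    have e : C₀ * (c * Q) ≤ Q / 32 := by
      calc C₀ * (c * Q) ≤ C₀ * (1 / (32 * C₀) * Q) := by gcongr
        _ = Q / 32 := by field_simp
    linarith
  have hzε : (z : ℝ) ≤ (P : ℝ) ^ (ε / 4) :=
    hzle.trans (Real.rpow_le_rpow_of_exponent_le (by linarith) hcε)
  obtain ⟨U, hUdef⟩ : ∃ U : Finset ℕ,
      U = (Pl l z).filter (fun r : ℕ => ¬ x ^ (1 - ε) < N.factorization r) := ⟨_, rfl⟩
  have hU : U ⊆ Pl l z := by rw [hUdef]; exact Finset.filter_subset _ _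
  have hUz : ∀ r ∈ U, r.Prime ∧ 0 < r ∧ r ≤ z ∧ ¬ x ^ (1 - ε) < N.factorization r := by
    intro r hr
    rw [hUdef, Finset.mem_filter, Pl, Finset.mem_filter,
      Pool.Agent.Lib.MP_bae66e_nt.AP3.mem_prI] at hr
    exact ⟨hr.1.1.2, hr.1.1.1.1, hr.1.1.1.2, hr.2⟩
  have hx0 : 0 < x := by linarith
  have hUv : ∀ r ∈ U, (N.factorization r : ℝ) ≤ 2 * (P : ℝ) ^ (1 - ε) := by
    intro r hr
    obtain ⟨hrp, _, hrz, hrw⟩ := hUz r hr
    have h6 : x ≤ 2 * (P : ℝ) := by linarith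
    have h7 : (2 : ℝ) ^ (1 - ε) ≤ 2 := by
      calc (2 : ℝ) ^ (1 - ε) ≤ (2 : ℝ) ^ (1 : ℝ) :=
            Real.rpow_le_rpow_of_exponent_le (by norm_num) (by linarith)
        _ = 2 := Real.rpow_one 2
    calc (N.factorization r : ℝ) ≤ x ^ (1 - ε) := not_lt.1 hrw
      _ ≤ (2 * (P : ℝ)) ^ (1 - ε) := Real.rpow_le_rpow hx0.le h6 (by linarith)
      _ = (2 : ℝ) ^ (1 - ε) * (P : ℝ) ^ (1 - ε) := Real.mul_rpow (by norm_num) hP0.le
      _ ≤ 2 * (P : ℝ) ^ (1 - ε) := mul_le_mul_of_nonneg_right h7 (by positivity)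
  have hUsum : ∑ r ∈ U, (N.factorization r : ℝ) ≤
      2 * ((P : ℝ) ^ (ε / 4) * (P : ℝ) ^ (1 - ε)) := by
    have hUcard : (#U : ℝ) ≤ z := by
      have h6 : U ⊆ Finset.Ioc 0 z := by
        intro r hr
        obtain ⟨_, h0, hrz, _⟩ := hUz r hr
        exact Finset.mem_Ioc.2 ⟨h0, hrz⟩
      have h7 := Finset.card_le_card h6
      rw [Nat.card_Ioc, Nat.sub_zero] at h7
      exact_mod_cast h7
    calc ∑ r ∈ U, (N.factorization r : ℝ) ≤ ∑ r ∈ U, 2 * (P : ℝ) ^ (1 - ε) :=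
          Finset.sum_le_sum hUv
      _ = #U * (2 * (P : ℝ) ^ (1 - ε)) := by rw [Finset.sum_const, nsmul_eq_mul]
      _ ≤ (P : ℝ) ^ (ε / 4) * (2 * (P : ℝ) ^ (1 - ε)) :=
          mul_le_mul_of_nonneg_right (hUcard.trans hzε) (by positivity)
      _ = 2 * ((P : ℝ) ^ (ε / 4) * (P : ℝ) ^ (1 - ε)) := by ring
  have hmass : Real.log (Real.log z) - Real.log κ - (A + S) ≤
      ((l : ℝ) - 1) * ∑ r ∈ U, 1 / (r : ℝ) := by
    have hlr : (1 : ℝ) ≤ l := by exact_mod_cast hl.one_lt.le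
    have hz' := hz z hz3
    have hsplit : ∑ r ∈ Pl l z, 1 / (r : ℝ) ≤ ∑ r ∈ U, 1 / (r : ℝ) +
        ∑ r ∈ Ex N ε x, 1 / (r : ℝ) := by
      rw [hUdef, ← Finset.sum_filter_add_sum_filter_not (Pl l z)
        (fun r : ℕ => ¬ x ^ (1 - ε) < N.factorization r)]
      refine add_le_add le_rfl ?_
      apply Finset.sum_le_sum_of_subset_of_nonneg
      · intro r hr
        rw [Finset.mem_filter, not_not] at hr
        unfold Ex
        rw [Finset.mem_filter]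
        have hrz : (r : ℝ) ≤ z := by
          have h9 := hr.1
          rw [Pl, Finset.mem_filter, Pool.Agent.Lib.MP_bae66e_nt.AP3.mem_prI] at h9
          exact_mod_cast h9.1.1.2
        refine ⟨?_, ?_, hr.2⟩
        swap
        · calc (r : ℝ) ≤ (P : ℝ) ^ (ε / 4) := hrz.trans hzε
            _ ≤ (P : ℝ) ^ ε := Real.rpow_le_rpow_of_exponent_le (by linarith) (by linarith)
            _ ≤ x ^ ε := Real.rpow_le_rpow hP0.le hPx hε.le
        have h6 : (0 : ℝ) < N.factorization r :=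
          lt_of_le_of_lt (Real.rpow_nonneg hx0.le _) hr.2
        have h7 : N.factorization r ≠ 0 := by
          intro h8
          rw [h8, Nat.cast_zero] at h6
          exact lt_irrefl _ h6
        exact Nat.support_factorization N ▸ Finsupp.mem_support_iff.2 h7
      · intro r _ _
        positivity
    have hmul := mul_le_mul_of_nonneg_left hsplit (by linarith : (0 : ℝ) ≤ (l : ℝ) - 1)
    rw [mul_add] at hmul
    linarith
  have hlog : Real.log l ≤ Real.sqrt (Real.log z) := by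
    have hl0 : (0 : ℝ) < l := by exact_mod_cast hl.pos
    calc Real.log l ≤ Real.log Q := Real.log_le_log hl0 hlQ
      _ ≤ Real.sqrt (c * Q / 2) := h3
      _ ≤ Real.sqrt (Real.log z) := Real.sqrt_le_sqrt hlogz
  have hmain := hcb N hNp l z R P U κ (A + S) hU hl hl2 hz3 hR1 (by linarith) hlog hCz hmass
  have hexp : 1 ≤ Real.exp (A + S) := Real.one_le_exp (by linarith)
  have hEK : 1 ≤ Real.exp (A + S) * κ := by nlinarith
  have hzP : (z : ℝ) ≤ (P : ℝ) ^ (1 / 4 : ℝ) :=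
    hzle.trans (Real.rpow_le_rpow_of_exponent_le (by linarith) (by linarith))
  have hR4 : (R : ℝ) ^ 4 ≤ (P : ℝ) ^ (1 / 4 : ℝ) := by
    calc (R : ℝ) ^ 4 ≤ ((P : ℝ) ^ (1 / 16 : ℝ)) ^ 4 :=
          pow_le_pow_left₀ (by positivity) hRle 4
      _ = (P : ℝ) ^ (1 / 4 : ℝ) := by
          rw [← Real.rpow_natCast, ← Real.rpow_mul hP0.le]
          norm_num
  have hEX : (P : ℝ) ≤ Real.exp (A + S) * κ * P := by nlinarith
  have hsmall : (z : ℝ) + ∑ r ∈ U, (N.factorization r : ℝ) + (R : ℝ) ^ 4 ≤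
      3 * (Real.exp (A + S) * κ * P / Q ^ 2) := by
    rw [← mul_div_assoc, le_div_iff₀ (by positivity)]
    have h6 : ((z : ℝ) + (R : ℝ) ^ 4) * Q ^ 2 ≤ P := by
      calc ((z : ℝ) + (R : ℝ) ^ 4) * Q ^ 2
          ≤ (2 * (P : ℝ) ^ (1 / 4 : ℝ)) * Q ^ 2 :=
            mul_le_mul_of_nonneg_right (by linarith) (by positivity)
        _ ≤ P := h4
    have h7 : (∑ r ∈ U, (N.factorization r : ℝ)) * Q ^ 2 ≤ 2 * P := by
      refine (mul_le_mul_of_nonneg_right hUsum (by positivity)).trans ?_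
      rw [mul_assoc]
      exact mul_le_mul_of_nonneg_left h5 (by norm_num)
    have h8 : ((z : ℝ) + ∑ r ∈ U, (N.factorization r : ℝ) + (R : ℝ) ^ 4) * Q ^ 2 =
        ((z : ℝ) + (R : ℝ) ^ 4) * Q ^ 2 + (∑ r ∈ U, (N.factorization r : ℝ)) * Q ^ 2 := by ring
    rw [h8]
    linarith
  have hbig : 2 * Real.exp (A + S) * κ * P / (Real.log z) ^ 2 ≤
      8 / c ^ 2 * (Real.exp (A + S) * κ * P / Q ^ 2) := by
    have hcQ : 0 < c * Q / 2 := by positivity
    calc 2 * Real.exp (A + S) * κ * P / (Real.log z) ^ 2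
        ≤ 2 * Real.exp (A + S) * κ * P / (c * Q / 2) ^ 2 := by
          refine div_le_div_of_nonneg_left (by positivity) (by positivity) ?_
          exact pow_le_pow_left₀ hcQ.le hlogz 2
      _ = 8 / c ^ 2 * (Real.exp (A + S) * κ * P / Q ^ 2) := by
          field_simp
          ring
  calc (#(Cl N l P) : ℝ) ≤ z + ∑ r ∈ U, (N.factorization r : ℝ) + (R : ℝ) ^ 4 +
          2 * Real.exp (A + S) * κ * P / (Real.log z) ^ 2 := hmain
    _ ≤ 3 * (Real.exp (A + S) * κ * P / Q ^ 2) +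
          8 / c ^ 2 * (Real.exp (A + S) * κ * P / Q ^ 2) :=
        add_le_add hsmall hbig
    _ = (3 + 8 / c ^ 2) * Real.exp (A + S) * κ * P / Q ^ 2 := by ring

end Pool.Agent.TE
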