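import Pool.Agent.Lib.MP_f02ea4_nt.TE.F7
import Pool.Agent.Lib.MP_f02ea4_nt.TE.K2
import Pool.Agent.Lib.MP_f02ea4_nt.TE.K5
import Pool.Agent.Lib.MP_f02ea4_nt.TE.P10
import Pool.Agent.Lib.MP_bae66e_nt.Cheb

/-!
# K6: primes with small exponents are rare, uniformly
-/

set_option autoImplicit false

namespace Pool.Agent.TE

open Finset Nat Pool.Agent.Lib.MP_bae66e_nt Pool.Agent.Lib.MP_f02ea4_nt

/-- K6a. -/
theorem thin_S (ε : ℝ) (hε : 0 < ε) (hε1 : ε ≤ 1) : ∃ C : ℝ, 0 ≤ C ∧ ∀ N : ℕ, N.Perfect →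
    ∀ (L X : ℕ) (x : ℝ), (X : ℝ) ≤ x → x < X + 1 → 1 ≤ L → 2 ≤ X →
      (#(Th N L X) : ℝ) ≤
        C * L * Real.exp (((L : ℝ) - 1) * ∑ r ∈ Ex N ε x, 1 / (r : ℝ)) * X / (Real.log X) ^ 2 := by
  obtain ⟨C', B, bad, hAP⟩ := AP_main
  obtain ⟨κ, A, D, hA, hD0, h1, h, hD⟩ := kappa_of_AP C' B bad hAP
  obtain ⟨C, hC, P₁, hP₁, hcs⟩ := class_exc ε hε hε1
  set M : ℝ := max (max (C * Real.exp A * D) 5) ((Real.log P₁) ^ 2) with hM
  have hM1 : C * Real.exp A * D ≤ M := le_trans (le_max_left _ _) (le_max_left _ _)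
  have hM2 : 5 ≤ M := le_trans (le_max_right _ _) (le_max_left _ _)
  have hM3 : (Real.log P₁) ^ 2 ≤ M := le_max_right _ _
  have hM0 : 0 ≤ M := by linarith
  refine ⟨M, hM0, ?_⟩
  intro N hN L X x hXx hxX hL hx2
  have hxP : (2 : ℝ) ≤ X := by exact_mod_cast hx2
  have hQ0 : 0 < Real.log X := Real.log_pos (by linarith)
  have hx0 : (0 : ℝ) < X := by linarith
  have hL1 : (1 : ℝ) ≤ L := by exact_mod_cast hL
  have hSg : 0 ≤ ∑ r ∈ Ex N ε x, 1 / (r : ℝ) := sum_nonneg fun r _ => by positivity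
  obtain ⟨F, hFdef⟩ : ∃ F : ℝ, F = Real.exp (((L : ℝ) - 1) * ∑ r ∈ Ex N ε x, 1 / (r : ℝ)) :=
    ⟨_, rfl⟩
  have hF1 : 1 ≤ F := by
    rw [hFdef]
    exact Real.one_le_exp (mul_nonneg (by linarith) hSg)
  rw [← hFdef]
  have hsub : Th N L X ⊆ (range (X + 1)).filter Nat.Prime := by
    intro p hp
    simp only [Th, mem_filter] at hp
    simp only [mem_filter, mem_range]
    exact ⟨by omega, Nat.prime_of_mem_primeFactors hp.1⟩
  rcases lt_or_ge X P₁ with hPlt | hPge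
  · -- small `x`
    have hc : (#(Th N L X) : ℝ) ≤ X := by
      have h2 : #(Th N L X) ≤ #(Ioc 0 X) := by
        apply card_le_card
        intro p hp
        have := hsub hp
        simp only [mem_filter, mem_range] at this
        simp only [mem_Ioc]
        exact ⟨this.2.pos, by omega⟩
      rw [Nat.card_Ioc] at h2
      exact_mod_cast h2
    have hlogle : Real.log X ≤ Real.log P₁ :=
      Real.log_le_log (by linarith) (by exact_mod_cast hPlt.le)
    rw [le_div_iff₀ (by positivity)]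
    calc (#(Th N L X) : ℝ) * (Real.log X) ^ 2 ≤ X * (Real.log P₁) ^ 2 := by
          apply mul_le_mul hc (pow_le_pow_left₀ hQ0.le hlogle 2) (by positivity) hx0.le
      _ ≤ X * M := mul_le_mul_of_nonneg_left hM3 hx0.le
      _ = M * 1 * 1 * X := by ring
      _ ≤ M * L * F * X := by
          gcongr
  · rcases le_or_gt (L : ℝ) (Real.log X) with hLQ | hLQ
    · -- small `L`
      have hun : Th N L X ⊆ (oL L).biUnion (fun l => Cl N l X) := by
        intro p hp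
        simp only [Th, mem_filter] at hp
        obtain ⟨hp1, hp2, l, hl, hdvd⟩ := hp
        simp only [mem_biUnion, Cl, mem_filter]
        exact ⟨l, hl, hp1, hp2, hdvd⟩
      have hcard : (#(Th N L X) : ℝ) ≤ ∑ l ∈ oL L, (#(Cl N l X) : ℝ) := by
        have := (card_le_card hun).trans card_biUnion_le
        exact_mod_cast this
      have hterm : ∀ l ∈ oL L, (#(Cl N l X) : ℝ) ≤
          C * Real.exp A * F * X / (Real.log X) ^ 2 * (κ l * (1 + Real.log ((L : ℝ) / l))) := by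
        intro l hl
        obtain ⟨hlr, hlp, hl2⟩ : l ∈ range (L + 1) ∧ l.Prime ∧ l ≠ 2 := by
          simpa [oL, and_assoc] using hl
        have hlL : l ≤ L := by
          have := mem_range.mp hlr
          omega
        have hl0 : (0 : ℝ) < l := by exact_mod_cast hlp.pos
        have hκ := h1 l hlp
        have hT : 1 ≤ (L : ℝ) / l := by
          rw [le_div_iff₀ hl0, one_mul]
          exact_mod_cast hlL
        have hlogT : 0 ≤ Real.log ((L : ℝ) / l) := Real.log_nonneg hT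
        have hlQ : (l : ℝ) ≤ Real.log X := le_trans (by exact_mod_cast hlL) hLQ
        have hlLr : (l : ℝ) ≤ L := by exact_mod_cast hlL
        have := hcs N X l x hXx hxX hN hPge hlp hl2 hlQ (κ l) A
          (((L : ℝ) - 1) * ∑ r ∈ Ex N ε x, 1 / (r : ℝ)) hκ hA
          (mul_nonneg (by linarith) hSg) (mul_le_mul_of_nonneg_right (by linarith) hSg)
          (fun z hz => h l z hlp hl2 hz)
        rw [Real.exp_add, ← hFdef] at this
        calc _ ≤ C * (Real.exp A * F) * κ l * X / (Real.log X) ^ 2 := this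
          _ = C * Real.exp A * F * X / (Real.log X) ^ 2 * (κ l * 1) := by ring
          _ ≤ _ := by
            apply mul_le_mul_of_nonneg_left _ (by positivity)
            apply mul_le_mul_of_nonneg_left _ (by linarith)
            linarith
      calc (#(Th N L X) : ℝ) ≤ ∑ l ∈ oL L, (#(Cl N l X) : ℝ) := hcard
        _ ≤ ∑ l ∈ oL L, C * Real.exp A * F * X / (Real.log X) ^ 2 *
              (κ l * (1 + Real.log ((L : ℝ) / l))) := sum_le_sum hterm
        _ = C * Real.exp A * F * X / (Real.log X) ^ 2 *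
              ∑ l ∈ oL L, κ l * (1 + Real.log ((L : ℝ) / l)) := by rw [mul_sum]
        _ ≤ C * Real.exp A * F * X / (Real.log X) ^ 2 * (D * L) :=
            mul_le_mul_of_nonneg_left (hD L hL) (by positivity)
        _ = C * Real.exp A * D * (L * F * X / (Real.log X) ^ 2) := by ring
        _ ≤ M * (L * F * X / (Real.log X) ^ 2) := mul_le_mul_of_nonneg_right hM1 (by positivity)
        _ = M * L * F * X / (Real.log X) ^ 2 := by ring
    · -- large `L`
      have hpi : (#(Th N L X) : ℝ) ≤ Nat.primeCounting X := by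
        have h2 := card_le_card hsub
        have h3 : #((range (X + 1)).filter Nat.Prime) = Nat.primeCounting X := by
          rw [Nat.primeCounting, Nat.primeCounting', Nat.count_eq_card_filter_range]
        rw [h3] at h2
        exact_mod_cast h2
      have hpu := pi_upper X hx2
      calc (#(Th N L X) : ℝ) ≤ 5 * X / Real.log X := le_trans hpi hpu
        _ = 5 * Real.log X * 1 * X / (Real.log X) ^ 2 := by
            field_simp
        _ ≤ M * L * F * X / (Real.log X) ^ 2 := by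
            gcongr

lemma log_sq_le {x : ℝ} (hx : 2 ≤ x) : (Real.log x) ^ 2 ≤ x := by
  have hlogx : 0 < Real.log x := Real.log_pos (by linarith)
  have h8 := Real.log_le_sub_one_of_pos (x := x ^ (1 / 2 : ℝ)) (by positivity)
  rw [Real.log_rpow (by linarith)] at h8
  have h9 : x ^ (1 / 2 : ℝ) * x ^ (1 / 2 : ℝ) = x := by
    rw [← Real.rpow_add (by linarith)]
    norm_num
  set u := x ^ (1 / 2 : ℝ) with hu
  have hu1 : 1 ≤ u := Real.one_le_rpow (by linarith) (by norm_num)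
  have h11 := Real.log_le_sub_one_of_pos (x := x ^ (1 / 4 : ℝ) / 2) (by positivity)
  rw [Real.log_div (by positivity) (by norm_num), Real.log_rpow (by linarith)] at h11
  have h12 : x ^ (1 / 4 : ℝ) * x ^ (1 / 4 : ℝ) = u := by
    rw [hu, ← Real.rpow_add (by linarith)]
    norm_num
  set v := x ^ (1 / 4 : ℝ) with hv'
  have hv1 : 1 ≤ v := Real.one_le_rpow (by linarith) (by norm_num)
  have hl2 := Real.log_two_lt_d9
  have h13 : Real.log x ≤ 2 * u - 2 := by linarith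
  have h13' : Real.log x ≤ 4 * v - 1.2 := by linarith
  have h14 : Real.log x ≤ u := by nlinarith [sq_nonneg (v - 2)]
  calc (Real.log x) ^ 2 ≤ u ^ 2 := pow_le_pow_left₀ hlogx.le h14 2
    _ = x := by rw [sq]; exact h9

/-- K6b. For every `0 < ε ≤ 1`: at most `C E exp (E S) x / (log x) ^ 2` primes `p ≤ x` of `N` have
`v_p(N) ≤ E`, where `S` is the sum of `1/q` over the primes `q ≤ x ^ ε` of `N` with
`v_q(N) > x ^ (1 - ε)`. -/
theorem thin_uniform (ε : ℝ) (hε : 0 < ε) (hε1 : ε ≤ 1) : ∃ C : ℝ, 0 < C ∧ ∀ N : ℕ, Odd N →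
    N.Perfect → ∀ x E : ℝ, 2 ≤ x → 1 ≤ E →
      ((N.primeFactors.filter (fun p : ℕ => (p : ℝ) ≤ x ∧
        (N.factorization p : ℝ) ≤ E)).card : ℝ) ≤
          C * E * Real.exp (E * ∑ q ∈ Ex N ε x, 1 / (q : ℝ)) * x / (Real.log x) ^ 2 := by
  obtain ⟨C, hC, h⟩ := thin_S ε hε hε1
  refine ⟨8 * C + 1, by positivity, ?_⟩
  intro N hodd hN x E hx hE
  obtain ⟨s, hs⟩ := low_sub hodd hN
  have hx0 : 0 ≤ x := by linarith
  have hE0 : 0 ≤ E := by linarith
  have hf2 : 2 ≤ ⌊x⌋₊ := Nat.le_floor (by exact_mod_cast hx)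
  have hfx : (⌊x⌋₊ : ℝ) ≤ x := Nat.floor_le hx0
  have hlt : x < (⌊x⌋₊ : ℝ) + 1 := Nat.lt_floor_add_one x
  have hSg : 0 ≤ ∑ r ∈ Ex N ε x, 1 / (r : ℝ) := sum_nonneg fun r _ => by positivity
  have h1 := h N hN (⌊E⌋₊ + 1) ⌊x⌋₊ x hfx hlt (by omega) hf2
  obtain ⟨F, hFdef⟩ : ∃ F : ℝ, F = Real.exp (E * ∑ r ∈ Ex N ε x, 1 / (r : ℝ)) := ⟨_, rfl⟩
  have hF1 : 1 ≤ F := by
    rw [hFdef]
    exact Real.one_le_exp (mul_nonneg hE0 hSg)
  have hF2 : Real.exp ((((⌊E⌋₊ + 1 : ℕ) : ℝ) - 1) * ∑ r ∈ Ex N ε x, 1 / (r : ℝ)) ≤ F := by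
    rw [hFdef]
    apply Real.exp_le_exp.mpr
    refine mul_le_mul_of_nonneg_right ?_ hSg
    have := Nat.floor_le hE0
    push_cast
    linarith
  rw [← hFdef]
  have hf : (2 : ℝ) ≤ (⌊x⌋₊ : ℝ) := by exact_mod_cast hf2
  have hlogf : 0 < Real.log (⌊x⌋₊ : ℝ) := Real.log_pos (by linarith)
  have hlogx : 0 < Real.log x := Real.log_pos (by linarith)
  have h2 : Real.log x ≤ 2 * Real.log (⌊x⌋₊ : ℝ) := by
    have h3 : x ≤ (⌊x⌋₊ : ℝ) ^ 2 := by nlinarith
    calc Real.log x ≤ Real.log ((⌊x⌋₊ : ℝ) ^ 2) := Real.log_le_log (by linarith) h3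
      _ = 2 * Real.log (⌊x⌋₊ : ℝ) := by rw [Real.log_pow]; push_cast; ring
  have h4 : (Real.log x) ^ 2 ≤ 4 * (Real.log (⌊x⌋₊ : ℝ)) ^ 2 := by
    calc (Real.log x) ^ 2 ≤ (2 * Real.log (⌊x⌋₊ : ℝ)) ^ 2 := pow_le_pow_left₀ hlogx.le h2 2
      _ = _ := by ring
  have hEE : ((⌊E⌋₊ + 1 : ℕ) : ℝ) ≤ 2 * E := by
    have := Nat.floor_le hE0
    push_cast
    linarith
  have h5 : (#(Th N (⌊E⌋₊ + 1) ⌊x⌋₊) : ℝ) ≤ 8 * C * E * F * x / (Real.log x) ^ 2 := by
    refine h1.trans ?_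
    rw [div_le_div_iff₀ (by positivity) (by positivity)]
    calc C * ((⌊E⌋₊ + 1 : ℕ) : ℝ) *
          Real.exp ((((⌊E⌋₊ + 1 : ℕ) : ℝ) - 1) * ∑ r ∈ Ex N ε x, 1 / (r : ℝ)) *
          (⌊x⌋₊ : ℝ) * (Real.log x) ^ 2
        ≤ C * (2 * E) * F * x * (4 * (Real.log (⌊x⌋₊ : ℝ)) ^ 2) := by
          gcongr
      _ = _ := by ring
  have h6 : (1 : ℝ) ≤ E * F * x / (Real.log x) ^ 2 := by
    rw [le_div_iff₀ (by positivity), one_mul]
    have h7 : (Real.log x) ^ 2 ≤ x := log_sq_le hx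
    have h8 : 1 ≤ E * F := one_le_mul_of_one_le_of_one_le hE hF1
    nlinarith
  have h7 : ((N.primeFactors.filter (fun p : ℕ => (p : ℝ) ≤ x ∧
      (N.factorization p : ℝ) ≤ E)).card : ℝ) ≤ #(Th N (⌊E⌋₊ + 1) ⌊x⌋₊) + 1 := by
    have := (Finset.card_le_card (hs E x hE0 hx0)).trans (Finset.card_insert_le _ _)
    exact_mod_cast this
  calc _ ≤ (#(Th N (⌊E⌋₊ + 1) ⌊x⌋₊) : ℝ) + 1 := h7
    _ ≤ 8 * C * E * F * x / (Real.log x) ^ 2 + E * F * x / (Real.log x) ^ 2 := add_le_add h5 h6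
    _ = (8 * C + 1) * E * F * x / (Real.log x) ^ 2 := by ring

end Pool.Agent.TE
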