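import Pool.Agent.Lib.MP_f02ea4_nt.TE.A2

/-!
# K7: `∑ 1/q ≤ log 2` for the primes of exponent `≥ 2`
-/

set_option autoImplicit false

namespace Pool.Agent.TE

open Finset Pool.Agent.Lib.MP_f02ea4_nt

/-- K7. -/
theorem sum_inv_le_log_two {N : ℕ} (hN : N.Perfect) (T : Finset ℕ) (hT : T ⊆ N.primeFactors)
    (h2 : ∀ q ∈ T, 2 ≤ N.factorization q) : ∑ q ∈ T, 1 / (q : ℝ) ≤ Real.log 2 := by
  have hN0 : (0 : ℝ) < N := by exact_mod_cast hN.2
  have hpos : ∀ p ∈ N.primeFactors, (0 : ℝ) < p := fun p hp => by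
    exact_mod_cast (Nat.prime_of_mem_primeFactors hp).pos
  have e1 : ∏ p ∈ N.primeFactors, ((p : ℝ) ^ (N.factorization p)) = (N : ℝ) := by
    have h : ∏ p ∈ N.primeFactors, p ^ (N.factorization p) = N :=
      Nat.prod_factorization_pow_eq_self hN.2.ne'
    have h2 := congrArg (fun n : ℕ => (n : ℝ)) h
    simp only [Nat.cast_prod, Nat.cast_pow] at h2
    exact h2
  have e2 : ∏ p ∈ N.primeFactors, ((Rad.sg p (N.factorization p) : ℕ) : ℝ) = 2 * (N : ℝ) := by
    have h := Rad.perfect_eq hN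
    have h2 := congrArg (fun n : ℕ => (n : ℝ)) h
    simp only [Nat.cast_prod, Nat.cast_mul, Nat.cast_ofNat] at h2
    exact h2
  have e3 : ∏ p ∈ N.primeFactors,
      (((Rad.sg p (N.factorization p) : ℕ) : ℝ) / (p : ℝ) ^ (N.factorization p)) = 2 := by
    rw [Finset.prod_div_distrib, e1, e2]
    field_simp
  have hge1 : ∀ p ∈ N.primeFactors,
      1 ≤ ((Rad.sg p (N.factorization p) : ℕ) : ℝ) / (p : ℝ) ^ (N.factorization p) := by
    intro p hp
    have hp0 := hpos p hp
    rw [le_div_iff₀ (by positivity), one_mul]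
    have h3 : p ^ (N.factorization p) ≤ Rad.sg p (N.factorization p) := by
      unfold Rad.sg
      rw [Finset.sum_range_succ]
      omega
    exact_mod_cast h3
  have hT1 : ∀ q ∈ T, Real.exp (1 / (q : ℝ)) ≤
      ((Rad.sg q (N.factorization q) : ℕ) : ℝ) / (q : ℝ) ^ (N.factorization q) := by
    intro q hq
    have hqN := hT hq
    have hq0 := hpos q hqN
    have hq2 : (2 : ℝ) ≤ q := by exact_mod_cast (Nat.prime_of_mem_primeFactors hqN).two_le
    have hu : |1 / (q : ℝ)| ≤ 1 := by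
      rw [abs_of_nonneg (by positivity), div_le_one hq0]
      linarith
    have h3 := (abs_le.mp (Real.abs_exp_sub_one_sub_id_le hu)).2
    obtain ⟨e, he⟩ : ∃ e, N.factorization q = e + 2 :=
      ⟨N.factorization q - 2, by have := h2 q hq; omega⟩
    rw [he]
    have h4 : q ^ e + q ^ (e + 1) + q ^ (e + 2) ≤ Rad.sg q (e + 2) := by
      unfold Rad.sg
      rw [Finset.sum_range_succ, Finset.sum_range_succ, Finset.sum_range_succ]
      omega
    have h5 : ((q ^ e + q ^ (e + 1) + q ^ (e + 2) : ℕ) : ℝ) ≤ ((Rad.sg q (e + 2) : ℕ) : ℝ) := by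
      exact_mod_cast h4
    rw [le_div_iff₀ (by positivity)]
    refine le_trans ?_ h5
    calc Real.exp (1 / (q : ℝ)) * (q : ℝ) ^ (e + 2)
        ≤ (1 + 1 / (q : ℝ) + (1 / (q : ℝ)) ^ 2) * (q : ℝ) ^ (e + 2) := by
          apply mul_le_mul_of_nonneg_right _ (by positivity)
          linarith
      _ = ((q ^ e + q ^ (e + 1) + q ^ (e + 2) : ℕ) : ℝ) := by
          push_cast
          field_simp
          ring
  have h6 : Real.exp (∑ q ∈ T, 1 / (q : ℝ)) ≤ 2 := by
    rw [Real.exp_sum]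
    calc ∏ q ∈ T, Real.exp (1 / (q : ℝ))
        ≤ ∏ q ∈ T, (((Rad.sg q (N.factorization q) : ℕ) : ℝ) / (q : ℝ) ^ (N.factorization q)) :=
          Finset.prod_le_prod (fun q _ => (Real.exp_pos _).le) hT1
      _ ≤ ∏ q ∈ N.primeFactors,
            (((Rad.sg q (N.factorization q) : ℕ) : ℝ) / (q : ℝ) ^ (N.factorization q)) := by
          apply Finset.prod_le_prod_of_subset_of_one_le hT
          · intro q hq
            exact zero_le_one.trans (hge1 q (hT hq))
          · intro q hq _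
            exact hge1 q hq
      _ = 2 := e3
  rwa [Real.le_log_iff_exp_le (by norm_num)]

end Pool.Agent.TE
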