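import Pool.Agent.Lib.MP_f02ea4_nt.TE.G1

/-!
# G2: the mass beyond `c P ^ β`
-/

set_option autoImplicit false

namespace Pool.Agent.TE

open Finset Pool.Agent.Lib.MP_bae66e_nt.AP3

/-- G2. (Generalization of `tail_mass` in E1.lean, where `β = 2`; copy that proof.) Let `β = bt B`, `1 ≤ β ≤ 2` (`one_le_bt`), `c`
small, `K ≥ 1/c`. `y = c P^β = c P P^(β-1) ≥ c K P ≥ P`. By `mass_ge`, `∑_{p ∣ B} 1/p ≥ log β - 1/(P-1)`. The primes `p ∣ B`
with `p ≤ z := ⌊y⌋` are `P` (at most) and primes in `prI P z`, so their sum is `≤ 1/P + log (log z/log P) + C/log P`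
(`exists_sum_inv_le`). With `log z ≤ β log P + log c`: `log (log z/log P) ≤ log β + log c/(β log P)
≤ log β + log c/(2 log P)` (`log c ≤ 0`, `β ≤ 2`). The rest is `≥ (-log c/2 - C - 2)/log P ≥ 3/log P` for
`c = exp (-2 (C + 5))`. -/
theorem tail_mass' : ∃ c K : ℝ, 0 < c ∧ c ≤ 1 ∧ 1 ≤ K ∧ ∀ B P : ℕ, B ≠ 0 → 3 ≤ P →
    (∀ p ∈ B.primeFactors, P ≤ p) → bt B ≤ 2 → K ≤ (P : ℝ) ^ (bt B - 1) →
      (P : ℝ) ≤ c * (P : ℝ) ^ (bt B) ∧
      3 / Real.log P ≤
        ∑ p ∈ B.primeFactors.filter (fun p : ℕ => c * (P : ℝ) ^ (bt B) < (p : ℝ)), 1 / (p : ℝ) := by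
  obtain ⟨C, hC0, hC⟩ := exists_sum_inv_le
  set c : ℝ := Real.exp (-2 * (C + 5)) with hc
  have hc0 : 0 < c := Real.exp_pos _
  have hc1 : c ≤ 1 := by
    rw [hc, Real.exp_le_one_iff]; nlinarith
  have hlc : Real.log c = -2 * (C + 5) := by rw [hc, Real.log_exp]
  refine ⟨c, 1 / c, hc0, hc1, ?_, ?_⟩
  · rw [le_div_iff₀ hc0]
    linarith
  intro B P hB hP3 hPp hb2 hK
  have hb1 := one_le_bt hB
  have hmass := mass_ge hB (by omega : 2 ≤ P) hPp
  set β : ℝ := bt B with hβ
  have hβ0 : 0 < β := by linarith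
  have hP3r : (3 : ℝ) ≤ P := by exact_mod_cast hP3
  have hPpos : (0 : ℝ) < P := by linarith
  have hcP : 1 ≤ c * (P : ℝ) ^ (β - 1) := by
    rw [div_le_iff₀ hc0] at hK
    linarith
  have hPβ : (P : ℝ) ^ β = P * (P : ℝ) ^ (β - 1) := by
    rw [← Real.rpow_one_add' hPpos.le (by linarith)]
    congr 1
    ring
  have hPle : (P : ℝ) ≤ c * (P : ℝ) ^ β := by
    rw [hPβ]
    nlinarith
  refine ⟨hPle, ?_⟩
  set z : ℕ := ⌊c * (P : ℝ) ^ β⌋₊ with hz
  have hPz : P ≤ z := Nat.le_floor hPle
  have hzle : (z : ℝ) ≤ c * (P : ℝ) ^ β := Nat.floor_le (by positivity)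
  have hzpos : (0 : ℝ) < z := lt_of_lt_of_le hPpos (by exact_mod_cast hPz)
  have hlP : 0 < Real.log P := Real.log_pos (by linarith)
  have hlPz : Real.log P ≤ Real.log z := Real.log_le_log hPpos (by exact_mod_cast hPz)
  have hlz : Real.log z ≤ Real.log c + β * Real.log P := by
    have h1 := Real.log_le_log hzpos hzle
    rw [Real.log_mul hc0.ne' (by positivity), Real.log_rpow hPpos] at h1
    exact h1
  -- split the sum
  have hsplit := Finset.sum_filter_add_sum_filter_not B.primeFactors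
    (fun p : ℕ => c * (P : ℝ) ^ β < (p : ℝ)) (fun p => 1 / (p : ℝ))
  have hsub : B.primeFactors.filter (fun p : ℕ => ¬ c * (P : ℝ) ^ β < (p : ℝ)) ⊆
      insert P (prI P z) := by
    intro p hp
    rw [Finset.mem_filter] at hp
    have hp1 := hPp p hp.1
    have hp2 : p ≤ z := Nat.le_floor (not_lt.mp hp.2)
    rw [Finset.mem_insert]
    rcases hp1.eq_or_lt with h | h
    · left; exact h.symm
    · right
      exact mem_prI.mpr ⟨⟨h, hp2⟩, Nat.prime_of_mem_primeFactors hp.1⟩
  have hnot : P ∉ prI P z := by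
    intro h
    have := (mem_prI.mp h).1.1
    omega
  have hsmall : ∑ p ∈ B.primeFactors.filter (fun p : ℕ => ¬ c * (P : ℝ) ^ β < (p : ℝ)), 1 / (p : ℝ)
      ≤ 1 / (P : ℝ) + ∑ p ∈ prI P z, 1 / (p : ℝ) := by
    rw [← Finset.sum_insert hnot (f := fun p : ℕ => 1 / (p : ℝ))]
    apply Finset.sum_le_sum_of_subset_of_nonneg hsub
    intro i _ _
    positivity
  have hM := (abs_le.mp (hC P z (by omega) hPz)).2
  have hlc0 : Real.log c ≤ 0 := by
    rw [hlc]
    linarith
  have hlog : Real.log (Real.log z / Real.log P) ≤ Real.log β + (Real.log c / (2 * Real.log P)) := by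
    have hx : 0 < Real.log z / Real.log P := div_pos (by linarith) hlP
    have h2 : Real.log (Real.log z / Real.log P) =
        Real.log β + Real.log (Real.log z / Real.log P / β) := by
      rw [Real.log_div hx.ne' hβ0.ne']
      ring
    have h3 := Real.log_le_sub_one_of_pos (by positivity : 0 < Real.log z / Real.log P / β)
    have h4 : Real.log z / Real.log P / β - 1 ≤ Real.log c / (β * Real.log P) := by
      have : Real.log z / Real.log P / β ≤ (Real.log c + β * Real.log P) / Real.log P / β := by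
        gcongr
      refine (sub_le_sub_right this 1).trans (le_of_eq ?_)
      field_simp
      ring
    have h5 : Real.log c / (β * Real.log P) ≤ Real.log c / (2 * Real.log P) := by
      rw [div_le_div_iff₀ (by positivity) (by positivity)]
      have h6 : Real.log c * Real.log P * 2 ≤ Real.log c * Real.log P * β := by
        apply mul_le_mul_of_nonpos_left hb2
        exact mul_nonpos_of_nonpos_of_nonneg hlc0 hlP.le
      nlinarith
    linarith
  have hinv1 : 1 / ((P : ℝ) - 1) ≤ 1 / Real.log P := by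
    apply one_div_le_one_div_of_le hlP
    exact Real.log_le_sub_one_of_pos hPpos
  have hinv2 : 1 / (P : ℝ) ≤ 1 / Real.log P := by
    apply one_div_le_one_div_of_le hlP
    have := Real.log_le_sub_one_of_pos hPpos
    linarith
  have hfin : Real.log c / (2 * Real.log P) = -(C + 5) / Real.log P := by
    rw [hlc]
    field_simp
  have hsum : 3 / Real.log P = 5 / Real.log P - 1 / Real.log P - 1 / Real.log P := by ring
  have h5 : -(C + 5) / Real.log P = -(C / Real.log P) - 5 / Real.log P := by ring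
  rw [hsum]
  rw [hfin, h5] at hlog
  linarith

end Pool.Agent.TE
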