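import Pool.Agent.Lib.MP_f02ea4_nt.TE.Defs

/-!
# G6: the weighted sum with the factor `1 + w / l`
-/

set_option autoImplicit false

namespace Pool.Agent.TE

open Finset

private theorem g6_mem {L l : ℕ} : l ∈ oL L ↔ l < L + 1 ∧ l.Prime ∧ l ≠ 2 := by
  unfold oL
  rw [mem_filter, mem_range]

private theorem g6_K (κ : ℕ → ℝ) (D : ℝ) (h0 : ∀ l : ℕ, l.Prime → 0 ≤ κ l)
    (hD : ∀ L : ℕ, 1 ≤ L → ∑ l ∈ oL L, κ l * (1 + Real.log ((L : ℝ) / l)) ≤ D * L)
    (L : ℕ) (hL : 1 ≤ L) : ∑ l ∈ oL L, κ l ≤ D * L := by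
  refine le_trans (sum_le_sum fun l hl => ?_) (hD L hL)
  obtain ⟨h1, h2, -⟩ := g6_mem.1 hl
  have h3 : (0 : ℝ) < l := by exact_mod_cast h2.pos
  have h4 : (1 : ℝ) ≤ (L : ℝ) / l := by
    rw [one_le_div h3]
    exact_mod_cast Nat.lt_succ_iff.1 h1
  have h5 := Real.log_nonneg h4
  nlinarith [h0 l h2]

private theorem g6_abel (κ : ℕ → ℝ) (D : ℝ) (hD0 : 0 ≤ D)
    (hK : ∀ L : ℕ, 1 ≤ L → ∑ l ∈ oL L, κ l ≤ D * L) (L : ℕ) (hL : 1 ≤ L) :
    ∑ l ∈ oL L, κ l / l - (∑ l ∈ oL L, κ l) / L ≤ D * Real.log L := by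
  induction L, hL using Nat.le_induction with
  | base =>
    have h1 : oL 1 = ∅ := by
      refine filter_eq_empty_iff.2 fun l hl h => ?_
      have h2 := mem_range.1 hl
      have h3 := h.1.two_le
      omega
    simp [h1]
  | succ L hL ih =>
    have hLp : (0 : ℝ) < L := by exact_mod_cast hL
    have hL1 : (0 : ℝ) < (L : ℝ) + 1 := by positivity
    -- the increments
    have hinc : ∃ a : ℝ, ∑ l ∈ oL (L + 1), κ l = ∑ l ∈ oL L, κ l + a ∧
        ∑ l ∈ oL (L + 1), κ l / l = ∑ l ∈ oL L, κ l / l + a / ((L : ℝ) + 1) := by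
      by_cases hp : (L + 1).Prime ∧ L + 1 ≠ 2
      · have h1 : oL (L + 1) = insert (L + 1) (oL L) := by
          unfold oL
          rw [range_add_one (n := L + 1), filter_insert, if_pos hp]
        have h2 : L + 1 ∉ oL L := fun h => by
          have := (g6_mem.1 h).1
          omega
        refine ⟨κ (L + 1), ?_, ?_⟩
        · rw [h1, sum_insert h2, add_comm]
        · rw [h1, sum_insert h2, add_comm]
          push_cast
          rfl
      · have h1 : oL (L + 1) = oL L := by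
          unfold oL
          rw [range_add_one (n := L + 1), filter_insert, if_neg hp]
        refine ⟨0, ?_, ?_⟩
        · rw [h1, add_zero]
        · rw [h1, zero_div, add_zero]
    obtain ⟨a, ha1, ha2⟩ := hinc
    have hKL := hK L hL
    have hlog : 1 / ((L : ℝ) + 1) ≤ Real.log ((L : ℝ) + 1) - Real.log L := by
      rw [← Real.log_div hL1.ne' hLp.ne']
      have h2 := Real.one_sub_inv_le_log_of_pos (x := ((L : ℝ) + 1) / L) (by positivity)
      have h3 : 1 - (((L : ℝ) + 1) / L)⁻¹ = 1 / ((L : ℝ) + 1) := by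
        field_simp
        ring
      linarith
    rw [ha1, ha2]
    push_cast
    have h4 : ∑ l ∈ oL L, κ l / l + a / ((L : ℝ) + 1) - (∑ l ∈ oL L, κ l + a) / ((L : ℝ) + 1) =
        (∑ l ∈ oL L, κ l / l - (∑ l ∈ oL L, κ l) / L) +
          (∑ l ∈ oL L, κ l) * (1 / (L * ((L : ℝ) + 1))) := by
      field_simp
      ring
    rw [h4]
    have h5 : (∑ l ∈ oL L, κ l) * (1 / (L * ((L : ℝ) + 1))) ≤ D * (1 / ((L : ℝ) + 1)) := by
      calc (∑ l ∈ oL L, κ l) * (1 / (L * ((L : ℝ) + 1)))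
          ≤ (D * L) * (1 / (L * ((L : ℝ) + 1))) := by
            refine mul_le_mul_of_nonneg_right hKL (by positivity)
        _ = D * (1 / ((L : ℝ) + 1)) := by
            field_simp
    have h6 := mul_le_mul_of_nonneg_left hlog hD0
    nlinarith [ih, h5, h6]

/-- G6. As `1 + log (L/l) ≥ 1` the hypothesis gives `K(M) := ∑_{l ∈ oL M} κ l ≤ D M` for all `M ≥ 1`. Abel summation:
`∑_{l ∈ oL L} κ l/l = K(L)/L + ∑_{M < L} K(M)/(M (M+1)) ≤ D (2 + log L)`. And `1 + log (L/l) ≤ 1 + log L`, so the sum is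
`≤ D L + w (1 + log L) D (2 + log L) ≤ D L + D' w √L` (`(1 + log L)(2 + log L) ≤ C √L`). -/
theorem sum_w (κ : ℕ → ℝ) (D : ℝ) (hD0 : 0 ≤ D) (h0 : ∀ l : ℕ, l.Prime → 0 ≤ κ l)
    (hD : ∀ L : ℕ, 1 ≤ L → ∑ l ∈ oL L, κ l * (1 + Real.log ((L : ℝ) / l)) ≤ D * L) :
    ∃ D' : ℝ, 0 ≤ D' ∧ ∀ L : ℕ, 1 ≤ L → ∀ w : ℝ, 0 ≤ w →
      ∑ l ∈ oL L, κ l * (1 + w / l) * (1 + Real.log ((L : ℝ) / l)) ≤ D * L + D' * w * Real.sqrt L := by
  have hK := g6_K κ D h0 hD
  refine ⟨16 * D, by positivity, fun L hL w hw => ?_⟩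
  have hL1 : (1 : ℝ) ≤ L := by exact_mod_cast hL
  have hLp : (0 : ℝ) < L := by linarith
  have hlogL : 0 ≤ Real.log L := Real.log_nonneg hL1
  have h1 := g6_abel κ D hD0 hK L hL
  have h2 : (∑ l ∈ oL L, κ l) / L ≤ D := by
    rw [div_le_iff₀ hLp]
    exact hK L hL
  have h3 : ∑ l ∈ oL L, κ l / l ≤ D * (1 + Real.log L) := by
    nlinarith
  have h4 : (1 + Real.log L) ^ 2 ≤ 16 * Real.sqrt L := by
    have ht0 : 0 < Real.sqrt (Real.sqrt L) := Real.sqrt_pos.2 (Real.sqrt_pos.2 hLp)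
    have ht2 : Real.sqrt (Real.sqrt L) ^ 2 = Real.sqrt L := Real.sq_sqrt (Real.sqrt_nonneg _)
    have ht4 : Real.sqrt (Real.sqrt L) ^ 4 = (L : ℝ) := by
      calc Real.sqrt (Real.sqrt (L : ℝ)) ^ 4 = (Real.sqrt (Real.sqrt L) ^ 2) ^ 2 := by ring
        _ = (L : ℝ) := by rw [ht2, Real.sq_sqrt hLp.le]
    have h5 : Real.log L = 4 * Real.log (Real.sqrt (Real.sqrt L)) := by
      conv_lhs => rw [← ht4, Real.log_pow]
      norm_num
    have h6 := Real.log_le_sub_one_of_pos ht0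
    have h7 : 1 + Real.log L ≤ 4 * Real.sqrt (Real.sqrt L) := by
      rw [h5]
      linarith
    calc (1 + Real.log L) ^ 2 ≤ (4 * Real.sqrt (Real.sqrt L)) ^ 2 :=
          pow_le_pow_left₀ (by linarith) h7 2
      _ = 16 * Real.sqrt L := by rw [mul_pow, ht2]; norm_num
  have h8 : ∑ l ∈ oL L, κ l * (1 + w / l) * (1 + Real.log ((L : ℝ) / l)) ≤
      ∑ l ∈ oL L, κ l * (1 + Real.log ((L : ℝ) / l)) +
        w * (1 + Real.log L) * ∑ l ∈ oL L, κ l / l := by
    rw [mul_sum, ← sum_add_distrib]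
    refine sum_le_sum fun l hl => ?_
    obtain ⟨-, h9, -⟩ := g6_mem.1 hl
    have h10 : (1 : ℝ) ≤ l := by exact_mod_cast h9.one_le
    have h10' : (0 : ℝ) < l := by linarith
    have h11 : Real.log ((L : ℝ) / l) ≤ Real.log L :=
      Real.log_le_log (by positivity) (div_le_self hLp.le h10)
    have h12 : 0 ≤ κ l / l * w := mul_nonneg (div_nonneg (h0 l h9) h10'.le) hw
    calc κ l * (1 + w / l) * (1 + Real.log ((L : ℝ) / l))
        = κ l * (1 + Real.log ((L : ℝ) / l)) + κ l / l * w * (1 + Real.log ((L : ℝ) / l)) := by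
          ring
      _ ≤ κ l * (1 + Real.log ((L : ℝ) / l)) + κ l / l * w * (1 + Real.log L) := by
          have := mul_le_mul_of_nonneg_left (add_le_add_right h11 1) h12
          linarith
      _ = _ := by ring
  have h13 := mul_le_mul_of_nonneg_left h3 (mul_nonneg hw (by linarith : 0 ≤ 1 + Real.log L))
  have h14 := mul_le_mul_of_nonneg_left h4 (mul_nonneg hD0 hw)
  calc _ ≤ _ := h8
    _ ≤ D * L + w * (1 + Real.log L) * (D * (1 + Real.log L)) := add_le_add (hD L hL) h13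
    _ = D * L + D * w * (1 + Real.log L) ^ 2 := by ring
    _ ≤ D * L + D * w * (16 * Real.sqrt L) := by linarith
    _ = _ := by ring

end Pool.Agent.TE
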