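import Pool.Agent.Lib.MP_f02ea4_nt.TE.G8
import Pool.Agent.Lib.MP_f02ea4_nt.TE.J7

/-!
# J8: the final theorem, general version
-/

set_option autoImplicit false

namespace Pool.Agent.TE

open Finset Nat

/-- The general form: `N = M B`, `B` the `P`-rough part of `N`. -/
theorem rough_all (ε : ℝ) (hε : 0 < ε) (hε1 : ε ≤ 1) : ∃ c K : ℝ, 0 < c ∧ 1 ≤ K ∧
    ∀ N M B : ℕ, Odd N → N.Perfect → N = M * B → B ≠ 1 →
    (∀ q : ℕ, q.Prime → q ∣ M → q < B.minFac) →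
    (∀ q : ℕ, q.Prime → q ∣ M → Real.log B.minFac < (q : ℝ) ^ 2 →
      (q : ℝ) ≤ (B.minFac : ℝ) ^ (ε / 2) →
      (N.factorization q : ℝ) ≤ (B.minFac : ℝ) ^ (1 - ε)) →
    K ≤ (B.minFac : ℝ) ^ (bt B - 1) →
      c * (B.minFac : ℝ) ^ (bt B) ≤ (ArithmeticFunction.cardFactors B : ℕ) ∧
      c * (B.minFac : ℝ) ^ (bt B) * Real.log B.minFac ≤ Real.log B := by
  obtain ⟨C, B', bad, h⟩ := AP_main
  obtain ⟨κ, A, D, hA, hD0, h1, h2, hD⟩ := kappa_of_AP C B' bad h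
  obtain ⟨c, K, hc, hK, h3⟩ := rough_of_kappa ε hε hε1 κ A D hA hD0 h1 h2 hD
  refine ⟨c, K, hc, hK, ?_⟩
  intro N M B hodd hN hNMB hB1 hq1 hq2 hKP
  have hB0 : B ≠ 0 := by
    rintro rfl
    rw [hNMB, Nat.mul_zero] at hodd
    exact absurd hodd (by decide)
  have hcop : Nat.Coprime M B := by
    rw [Nat.coprime_iff_gcd_eq_one]
    by_contra hne
    obtain ⟨p, hp, hpd⟩ := Nat.exists_prime_and_dvd hne
    have hpM := hpd.trans (Nat.gcd_dvd_left M B)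
    have hpB := hpd.trans (Nat.gcd_dvd_right M B)
    have h5 := hq1 p hp hpM
    have h6 := Nat.minFac_le_of_dvd hp.two_le hpB
    omega
  have h4 := h3 N M B hodd hN hNMB hcop hB1 (fun q hq hqM => ⟨hq1 q hq hqM, by
    by_cases ha : (q : ℝ) ^ 2 ≤ Real.log B.minFac
    · exact Or.inl ha
    · by_cases hb : (B.minFac : ℝ) ^ (ε / 2) < q
      · exact Or.inr (Or.inl hb)
      · exact Or.inr (Or.inr (hq2 q hq hqM (not_le.1 ha) (not_lt.1 hb)))⟩) hKP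
  refine ⟨h4, ?_⟩
  have hP := Nat.minFac_prime hB1
  have hlog0 : 0 ≤ Real.log B.minFac := Real.log_nonneg (by exact_mod_cast hP.one_lt.le)
  exact (mul_le_mul_of_nonneg_right h4 hlog0).trans (omega_mul_log_le hB0 hB1)

end Pool.Agent.TE
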