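import Pool.Agent.Lib.MP_f02ea4_nt.TE.Defs

set_option autoImplicit false

namespace Pool.Agent.TE

open Finset Pool.Agent.Lib.MP_f02ea4_nt

/-- A1a. `sg p e = ∑_{i < e+1} p^i`; with `e + 1 = l m` it is `(∑_{i<l} p^i) (∑_{j<m} p^{l j})`. -/
lemma ph_dvd_sg (l p e : ℕ) (h : l ∣ e + 1) : ph l p ∣ Rad.sg p e := by
  have key : ∀ m : ℕ, ph l p ∣ ∑ i ∈ range (l * m), p ^ i := by
    intro m
    induction m with
    | zero => simp
    | succ m ih =>
      rw [Nat.mul_succ, Finset.sum_range_add]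
      refine dvd_add ih ?_
      have h1 : ∑ i ∈ range l, p ^ (l * m + i) = p ^ (l * m) * ph l p := by
        unfold ph
        rw [Finset.mul_sum]
        exact Finset.sum_congr rfl fun i _ => pow_add _ _ _
      rw [h1]
      exact Dvd.intro_left _ rfl
  obtain ⟨m, hm⟩ := h
  unfold Rad.sg
  rw [hm]
  exact key m

/-- A1b. An odd number of odd terms. (`Rad.sum_mod2`) -/
lemma ph_odd (l p : ℕ) (hl : Odd l) (hp : Odd p) : Odd (ph l p) := by
  rw [Nat.odd_iff] at hl hp ⊢
  unfold ph
  rw [Rad.sum_mod2 hp, hl]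

/-- A1c. `r ∣ ph l p ∣ sg p e_p ∣ ∏ sg = 2 N` (`Rad.perfect_eq`), and `r ≠ 2` by `ph_odd`
(`p` is odd as it divides the odd number `N`). -/
theorem dvd_of_ph {N p l r : ℕ} (hodd : Odd N) (hN : N.Perfect) (hp : p ∈ N.primeFactors)
    (hl : Odd l) (hle : l ∣ N.factorization p + 1) (hr : r.Prime) (hrp : r ∣ ph l p) : r ∣ N := by
  have hpN : p ∣ N := Nat.dvd_of_mem_primeFactors hp
  have hpo : Odd p := by
    rcases Nat.even_or_odd p with h | h
    · exfalso
      have h2 : 2 ∣ N := (even_iff_two_dvd.mp h).trans hpN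
      rw [Nat.odd_iff] at hodd
      omega
    · exact h
  have h1 : r ∣ 2 * N := by
    rw [← Rad.perfect_eq hN]
    exact (hrp.trans (ph_dvd_sg l p _ hle)).trans
      (Finset.dvd_prod_of_mem (fun p => Rad.sg p (N.factorization p)) hp)
  rcases hr.dvd_mul.mp h1 with h2 | h2
  · exfalso
    have h3 : r = 2 := (Nat.prime_dvd_prime_iff_eq hr Nat.prime_two).mp h2
    have h4 := ph_odd l p hl hpo
    rw [h3] at hrp
    rw [Nat.odd_iff] at h4
    omega
  · exact h2

/-- A1d. By Euler (`Rad.euler`) all exponents but that of one prime `s` are even. If `p ≠ s` and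
`e_p ≤ E` then `e_p + 1` is odd and `≥ 3` (`e_p ≥ 1`, even), so its least prime factor `l` is an odd
prime `≤ E + 1`, `l ∣ e_p + 1`. So `Lo N E x ⊆ {s} ∪ ⋃_{l ∈ ol E} Cl N l x`. -/
theorem card_Lo_le {N : ℕ} (hodd : Odd N) (hN : N.Perfect) (E x : ℕ) :
    #(Lo N E x) ≤ 1 + ∑ l ∈ ol E, #(Cl N l x) := by
  classical
  obtain ⟨s, _, _, _, hs⟩ := Rad.euler hodd hN
  have hsub : Lo N E x ⊆ {s} ∪ (ol E).biUnion (fun l => Cl N l x) := by
    intro p hp
    obtain ⟨hpN, hpx, hpE⟩ := Finset.mem_filter.mp hp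
    rw [Finset.mem_union, Finset.mem_singleton]
    by_cases hps : p = s
    · exact Or.inl hps
    · right
      have h2 := hs p hpN hps
      set e : ℕ := N.factorization p with he
      have he1 : 1 ≤ e := by
        have := (Nat.mem_primeFactors.mp hpN)
        exact this.1.factorization_pos_of_dvd this.2.2 this.2.1
      have hne : e + 1 ≠ 1 := by omega
      have hlp : (e + 1).minFac.Prime := Nat.minFac_prime hne
      have hld : (e + 1).minFac ∣ e + 1 := Nat.minFac_dvd _
      have hll : (e + 1).minFac ≤ e + 1 := Nat.minFac_le (by omega)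
      have hl2 : (e + 1).minFac ≠ 2 := by
        intro h
        rw [h] at hld
        omega
      rw [Finset.mem_biUnion]
      refine ⟨(e + 1).minFac, ?_, ?_⟩
      · unfold ol
        rw [Finset.mem_filter, Finset.mem_range]
        exact ⟨by omega, hlp, hl2⟩
      · unfold Cl
        rw [Finset.mem_filter]
        exact ⟨hpN, hpx, hld⟩
  calc #(Lo N E x) ≤ #({s} ∪ (ol E).biUnion (fun l => Cl N l x)) := Finset.card_le_card hsub
    _ ≤ #({s} : Finset ℕ) + #((ol E).biUnion (fun l => Cl N l x)) := Finset.card_union_le _ _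
    _ ≤ 1 + ∑ l ∈ ol E, #(Cl N l x) := by
        rw [Finset.card_singleton]
        exact Nat.add_le_add_left Finset.card_biUnion_le _

end Pool.Agent.TE
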