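import Pool.Agent.Lib.MP_f02ea4_nt.TE.Defs

set_option autoImplicit false

namespace Pool.Agent.TE

open Finset Pool.Agent.Lib.MP_f02ea4_nt

private theorem a2_one_add {S : Finset ℕ} (f : ℕ → ℝ) (hf : ∀ p ∈ S, 0 ≤ f p) :
    1 + ∑ p ∈ S, f p ≤ ∏ p ∈ S, (1 + f p) := by
  classical
  induction S using Finset.induction_on with
  | empty => simp
  | insert a S ha ih =>
    rw [Finset.sum_insert ha, Finset.prod_insert ha]
    have h1 := ih (fun p hp => hf p (Finset.mem_insert_of_mem hp))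
    have h2 := hf a (Finset.mem_insert_self a S)
    have h3 : 0 ≤ ∑ p ∈ S, f p :=
      Finset.sum_nonneg (fun p hp => hf p (Finset.mem_insert_of_mem hp))
    nlinarith [mul_le_mul_of_nonneg_left h1 (by linarith : (0 : ℝ) ≤ 1 + f a), mul_nonneg h2 h3]

private theorem a2_prod_pow {N : ℕ} (hN : N ≠ 0) :
    ∏ p ∈ N.primeFactors, ((p : ℝ) ^ (N.factorization p)) = (N : ℝ) := by
  have h : ∏ p ∈ N.primeFactors, p ^ (N.factorization p) = N :=
    Nat.prod_factorization_pow_eq_self hN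
  have h2 := congrArg (fun n : ℕ => (n : ℝ)) h
  simp only [Nat.cast_prod, Nat.cast_pow] at h2
  exact h2

private theorem a2_prod_sg {N : ℕ} (hN : N.Perfect) :
    ∏ p ∈ N.primeFactors, ((Rad.sg p (N.factorization p) : ℕ) : ℝ) = 2 * (N : ℝ) := by
  have h := Rad.perfect_eq hN
  have h2 := congrArg (fun n : ℕ => (n : ℝ)) h
  simp only [Nat.cast_prod, Nat.cast_mul, Nat.cast_ofNat] at h2
  exact h2

private theorem a2_fact_pos {N p : ℕ} (hp : p ∈ N.primeFactors) : 1 ≤ N.factorization p :=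
  Nat.one_le_iff_ne_zero.2 (Finsupp.mem_support_iff.1 hp)

/-- A2a. `∏ (1 + 1/p) ≤ ∏ sg p e_p / p^{e_p} = 2` (`Rad.perfect_eq`; `sg p e ≥ p^e + p^(e-1)` for
`e ≥ 1`; `N = ∏ p^{e_p}`), and `∏ (1 + a) ≥ 1 + ∑ a` for `a ≥ 0`. -/
theorem sum_inv_le_one {N : ℕ} (hN : N.Perfect) : ∑ p ∈ N.primeFactors, 1 / (p : ℝ) ≤ 1 := by
  have hN0 : (0 : ℝ) < N := by exact_mod_cast hN.2
  have h1 : (∏ p ∈ N.primeFactors, (1 + 1 / (p : ℝ))) *
      ∏ p ∈ N.primeFactors, ((p : ℝ) ^ (N.factorization p)) ≤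
      ∏ p ∈ N.primeFactors, ((Rad.sg p (N.factorization p) : ℕ) : ℝ) := by
    rw [← Finset.prod_mul_distrib]
    apply Finset.prod_le_prod
    · intro p _
      positivity
    · intro p hp
      have hpp := (Nat.prime_of_mem_primeFactors hp).pos
      have hp0 : (0 : ℝ) < p := by exact_mod_cast hpp
      obtain ⟨e, he⟩ : ∃ e, N.factorization p = e + 1 :=
        ⟨N.factorization p - 1, by have := a2_fact_pos hp; omega⟩
      rw [he]
      have h2 : p ^ e + p ^ (e + 1) ≤ Rad.sg p (e + 1) := by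
        unfold Rad.sg
        rw [Finset.sum_range_succ, Finset.sum_range_succ]
        omega
      have h3 : ((p : ℝ) ^ e + (p : ℝ) ^ (e + 1)) ≤ ((Rad.sg p (e + 1) : ℕ) : ℝ) := by
        exact_mod_cast h2
      have h4 : (1 + 1 / (p : ℝ)) * (p : ℝ) ^ (e + 1) = (p : ℝ) ^ e + (p : ℝ) ^ (e + 1) := by
        field_simp
        ring
      rw [h4]
      exact h3
  rw [a2_prod_pow hN.2.ne', a2_prod_sg hN] at h1
  have h2 : ∏ p ∈ N.primeFactors, (1 + 1 / (p : ℝ)) ≤ 2 := le_of_mul_le_mul_right h1 hN0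
  have h3 := a2_one_add (S := N.primeFactors) (fun p => 1 / (p : ℝ)) (fun p _ => by positivity)
  linarith

private theorem a2_tele (P k : ℕ) (hP : 2 ≤ P) :
    ∑ n ∈ Finset.Ico P (P + k), 1 / ((n : ℝ) * ((n : ℝ) - 1)) ≤
      1 / ((P : ℝ) - 1) - 1 / ((P : ℝ) + k - 1) := by
  induction k with
  | zero => simp
  | succ k ih =>
    have hle : P ≤ P + k := Nat.le_add_right _ _
    rw [← add_assoc, Finset.sum_Ico_succ_top hle]
    have hP' : (2 : ℝ) ≤ P := by exact_mod_cast hP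
    have hk : (0 : ℝ) ≤ k := Nat.cast_nonneg k
    have h1 : 1 / (((P + k : ℕ) : ℝ) * (((P + k : ℕ) : ℝ) - 1)) =
        1 / ((P : ℝ) + k - 1) - 1 / ((P : ℝ) + ((k + 1 : ℕ) : ℝ) - 1) := by
      push_cast
      have h2 : (P : ℝ) + k - 1 ≠ 0 := by
        have : (0 : ℝ) < (P : ℝ) + k - 1 := by linarith
        exact this.ne'
      have h3 : (P : ℝ) + k ≠ 0 := by
        have : (0 : ℝ) < (P : ℝ) + k := by linarith
        exact this.ne'
      have h4 : (P : ℝ) + (k + 1) - 1 = P + k := by ring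
      rw [h4]
      field_simp
      ring
    rw [h1]
    linarith

/-- A2b. `2 N = ∏ sg p e_p ≤ ∏ p^{e_p} p/(p-1)` (`(p-1) sg p e = p^{e+1} - 1`), so
`2 ≤ ∏ (1 + 1/(p-1))` and `log 2 ≤ ∑ 1/(p-1) = ∑ 1/p + ∑ 1/(p(p-1))`. The primes of `N` are
distinct integers `≥ P`, so `∑ 1/(p(p-1)) ≤ ∑_{n ≥ P} (1/(n-1) - 1/n) ≤ 1/(P-1)` (finite telescoping sum
over `n` from `P` to the largest prime factor). -/
theorem sum_inv_ge {N P : ℕ} (hN : N.Perfect) (hP : 2 ≤ P) (h : ∀ p ∈ N.primeFactors, P ≤ p) :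
    Real.log 2 - 1 / ((P : ℝ) - 1) ≤ ∑ p ∈ N.primeFactors, 1 / (p : ℝ) := by
  have hN0 : (0 : ℝ) < N := by exact_mod_cast hN.2
  have h2p : ∀ p ∈ N.primeFactors, (2 : ℝ) ≤ p := by
    intro p hp
    exact_mod_cast (Nat.prime_of_mem_primeFactors hp).two_le
  have h1 : ∏ p ∈ N.primeFactors, ((Rad.sg p (N.factorization p) : ℕ) : ℝ) ≤
      (∏ p ∈ N.primeFactors, (1 + 1 / ((p : ℝ) - 1))) *
      ∏ p ∈ N.primeFactors, ((p : ℝ) ^ (N.factorization p)) := by
    rw [← Finset.prod_mul_distrib]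
    apply Finset.prod_le_prod
    · intro p _
      positivity
    · intro p hp
      have hp2 := h2p p hp
      have hp1 : (0 : ℝ) < (p : ℝ) - 1 := by linarith
      have hg : ((Rad.sg p (N.factorization p) : ℕ) : ℝ) * ((p : ℝ) - 1)
          = (p : ℝ) ^ (N.factorization p + 1) - 1 := by
        unfold Rad.sg
        push_cast
        exact geom_sum_mul (p : ℝ) (N.factorization p + 1)
      have h4 : (1 + 1 / ((p : ℝ) - 1)) * (p : ℝ) ^ (N.factorization p) * ((p : ℝ) - 1)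
          = (p : ℝ) ^ (N.factorization p + 1) := by
        field_simp
        ring
      have h5 : ((Rad.sg p (N.factorization p) : ℕ) : ℝ) * ((p : ℝ) - 1) ≤
          (1 + 1 / ((p : ℝ) - 1)) * (p : ℝ) ^ (N.factorization p) * ((p : ℝ) - 1) := by
        rw [hg, h4]
        linarith
      exact le_of_mul_le_mul_right h5 hp1
  rw [a2_prod_pow hN.2.ne', a2_prod_sg hN] at h1
  have h2 : (2 : ℝ) ≤ ∏ p ∈ N.primeFactors, (1 + 1 / ((p : ℝ) - 1)) :=
    le_of_mul_le_mul_right h1 hN0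
  have hpos : ∀ p ∈ N.primeFactors, (0 : ℝ) < 1 + 1 / ((p : ℝ) - 1) := by
    intro p hp
    have hp2 := h2p p hp
    have hp1 : (0 : ℝ) < (p : ℝ) - 1 := by linarith
    positivity
  have h3 : Real.log 2 ≤ ∑ p ∈ N.primeFactors, 1 / ((p : ℝ) - 1) := by
    calc Real.log 2 ≤ Real.log (∏ p ∈ N.primeFactors, (1 + 1 / ((p : ℝ) - 1))) :=
          Real.log_le_log (by norm_num) h2
      _ = ∑ p ∈ N.primeFactors, Real.log (1 + 1 / ((p : ℝ) - 1)) :=
          Real.log_prod (fun p hp => (hpos p hp).ne')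
      _ ≤ ∑ p ∈ N.primeFactors, 1 / ((p : ℝ) - 1) := by
          apply Finset.sum_le_sum
          intro p hp
          have := Real.log_le_sub_one_of_pos (hpos p hp)
          linarith
  have h4 : ∑ p ∈ N.primeFactors, 1 / ((p : ℝ) - 1) =
      ∑ p ∈ N.primeFactors, 1 / (p : ℝ) + ∑ p ∈ N.primeFactors, 1 / ((p : ℝ) * ((p : ℝ) - 1)) := by
    rw [← Finset.sum_add_distrib]
    apply Finset.sum_congr rfl
    intro p hp
    have hp2 := h2p p hp
    have h5 : (p : ℝ) - 1 ≠ 0 := by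
      have : (0 : ℝ) < (p : ℝ) - 1 := by linarith
      exact this.ne'
    have h6 : (p : ℝ) ≠ 0 := by
      have : (0 : ℝ) < (p : ℝ) := by linarith
      exact this.ne'
    field_simp
    ring
  have h5 : ∑ p ∈ N.primeFactors, 1 / ((p : ℝ) * ((p : ℝ) - 1)) ≤ 1 / ((P : ℝ) - 1) := by
    have hsub : N.primeFactors ⊆ Finset.Ico P (P + (N + 1)) := by
      intro p hp
      rw [Finset.mem_Ico]
      refine ⟨h p hp, ?_⟩
      have := Nat.le_of_dvd hN.2 (Nat.dvd_of_mem_primeFactors hp)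
      omega
    have hP' : (2 : ℝ) ≤ P := by exact_mod_cast hP
    have hN' : (0 : ℝ) ≤ ((N + 1 : ℕ) : ℝ) := Nat.cast_nonneg _
    calc ∑ p ∈ N.primeFactors, 1 / ((p : ℝ) * ((p : ℝ) - 1))
        ≤ ∑ n ∈ Finset.Ico P (P + (N + 1)), 1 / ((n : ℝ) * ((n : ℝ) - 1)) := by
          apply Finset.sum_le_sum_of_subset_of_nonneg hsub
          intro n hn _
          have h7 : P ≤ n := (Finset.mem_Ico.1 hn).1
          have h8 : (P : ℝ) ≤ n := by exact_mod_cast h7
          have h9 : (0 : ℝ) ≤ (n : ℝ) - 1 := by linarith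
          positivity
      _ ≤ 1 / ((P : ℝ) - 1) - 1 / ((P : ℝ) + ((N + 1 : ℕ) : ℝ) - 1) := a2_tele P (N + 1) hP
      _ ≤ 1 / ((P : ℝ) - 1) := by
          have : 0 ≤ 1 / ((P : ℝ) + ((N + 1 : ℕ) : ℝ) - 1) := by
            apply div_nonneg zero_le_one
            linarith
          linarith
  linarith

/-- A2c. logarithm of `N = ∏ p^{e_p}` -/
theorem log_eq {N : ℕ} (hN : N ≠ 0) :
    Real.log N = ∑ p ∈ N.primeFactors, (N.factorization p : ℝ) * Real.log p := by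
  rw [← a2_prod_pow hN, Real.log_prod]
  · apply Finset.sum_congr rfl
    intro p _
    rw [Real.log_pow]
  · intro p hp
    have hpp := (Nat.prime_of_mem_primeFactors hp).pos
    have hp0 : (0 : ℝ) < p := by exact_mod_cast hpp
    positivity

/-- A2d. `Ω(N) = ∑ e_p` -/
theorem Omega_eq {N : ℕ} (hN : N ≠ 0) :
    ((ArithmeticFunction.cardFactors N : ℕ) : ℝ) = ∑ p ∈ N.primeFactors, (N.factorization p : ℝ) := by
  have h := ArithmeticFunction.cardFactors_eq_sum_factorization (n := N)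
  rw [h, Finsupp.sum]
  push_cast
  rfl

end Pool.Agent.TE
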