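import Pool.Agent.Lib.MP_f02ea4_nt.TE.Defs

set_option autoImplicit false

namespace Pool.Agent.TE

open Finset

/-- A3a. -/
lemma ph_zero (l : ℕ) (hl : 1 ≤ l) : ph l 0 = 1 := by
  unfold ph
  rw [Finset.sum_eq_single 0]
  · simp
  · intro i _ hi
    exact zero_pow hi
  · intro h
    exact absurd (Finset.mem_range.2 (by omega)) h

/-- auxiliary: the value of `ph` in `ZMod r` -/
lemma a3_cast (l r t : ℕ) : ((ph l t : ℕ) : ZMod r) = ∑ i ∈ range l, (t : ZMod r) ^ i := by
  unfold ph
  push_cast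
  rfl

/-- A3b. `ph l` is a polynomial. -/
lemma dvd_ph_mod (l r t : ℕ) : r ∣ ph l t ↔ r ∣ ph l (t % r) := by
  rw [← ZMod.natCast_eq_zero_iff, ← ZMod.natCast_eq_zero_iff, a3_cast, a3_cast, ZMod.natCast_mod]

/-- auxiliary: the units of order `l` are the roots -/
lemma a3_root {l r : ℕ} (hl : l.Prime) (hr : r.Prime) (h : r ≡ 1 [MOD l]) [Fact r.Prime]
    (u : (ZMod r)ˣ) : orderOf u = l ↔ ∑ i ∈ range l, (u : ZMod r) ^ i = 0 := by
  have : Fact l.Prime := ⟨hl⟩
  have hg := geom_sum_mul (u : ZMod r) l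
  have hl0 : ((l : ℕ) : ZMod r) ≠ 0 := by
    rw [Ne, ZMod.natCast_eq_zero_iff]
    intro hd
    rcases (Nat.dvd_prime hl).1 hd with h1 | h1
    · exact hr.one_lt.ne' h1
    · subst h1
      have h2 : r % r = 1 % r := h
      rw [Nat.mod_self, Nat.mod_eq_of_lt hr.one_lt] at h2
      exact absurd h2 (by norm_num)
  rw [orderOf_eq_prime_iff]
  constructor
  · rintro ⟨h1, h2⟩
    have h3 : (u : ZMod r) ^ l = 1 := by
      rw [← Units.val_pow_eq_pow_val, h1, Units.val_one]
    rw [h3, sub_self] at hg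
    rcases mul_eq_zero.1 hg with h4 | h4
    · exact h4
    · exact absurd (Units.ext (sub_eq_zero.1 h4)) h2
  · intro h1
    rw [h1, zero_mul] at hg
    refine ⟨?_, ?_⟩
    · apply Units.ext
      rw [Units.val_pow_eq_pow_val, Units.val_one]
      exact (sub_eq_zero.1 hg.symm)
    · rintro rfl
      simp at h1
      exact hl0 h1

/-- A3c. In the field `ZMod r` we have `(t - 1) ∑_{i<l} t^i = t^l - 1`. For `t = 1` the sum is `l ≠ 0`
(`l < r`, as `r ≡ 1 mod l` and `r ≠ 1`). So the roots of the sum are the solutions of `t ^ l = 1`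
other than `1`; there are exactly `l` solutions of `t ^ l = 1` as the group of units is cyclic of order
`r - 1`, which is divisible by `l` (e.g. `IsCyclic.card_pow_eq_one_eq_gcd` or
`IsCyclic.card_orderOf_eq_totient`: the roots are the elements of order `l`, `φ(l) = l - 1`). -/
theorem card_roots {l r : ℕ} (hl : l.Prime) (hr : r.Prime) (h : r ≡ 1 [MOD l]) :
    #((range r).filter (fun t => r ∣ ph l t)) = l - 1 := by
  have : Fact r.Prime := ⟨hr⟩
  have hd : l ∣ Fintype.card (ZMod r)ˣ := by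
    rw [ZMod.card_units]
    exact (Nat.modEq_iff_dvd' hr.one_lt.le).1 h.symm
  have h1 := IsCyclic.card_orderOf_eq_totient hd
  rw [Nat.totient_prime hl] at h1
  rw [← h1]
  symm
  refine Finset.card_bij (fun u _ => (u : ZMod r).val) ?_ ?_ ?_
  · intro u hu
    rw [Finset.mem_filter] at hu
    rw [Finset.mem_filter, Finset.mem_range]
    refine ⟨ZMod.val_lt _, ?_⟩
    rw [← ZMod.natCast_eq_zero_iff, a3_cast, ZMod.natCast_zmod_val]
    exact (a3_root hl hr h u).1 hu.2
  · intro u _ v _ huv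
    exact Units.ext (ZMod.val_injective r huv)
  · intro t ht
    rw [Finset.mem_filter, Finset.mem_range, ← ZMod.natCast_eq_zero_iff, a3_cast] at ht
    have ht0 : ((t : ℕ) : ZMod r) ≠ 0 := by
      intro h0
      have h2 := ht.2
      rw [h0, Finset.sum_eq_single 0] at h2
      · simp at h2
      · intro i _ hi
        exact zero_pow hi
      · intro h3
        exact absurd (Finset.mem_range.2 hl.pos) h3
    refine ⟨Units.mk0 _ ht0, ?_, ?_⟩
    · rw [Finset.mem_filter]
      refine ⟨Finset.mem_univ _, ?_⟩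
      rw [a3_root hl hr h]
      exact ht.2
    · rw [Units.val_mk0]
      exact ZMod.val_cast_of_lt ht.1

end Pool.Agent.TE
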