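import Pool.Agent.Lib.MP_f02ea4_nt.TE.Defs
import Pool.Agent.Lib.MP_bae66e_nt.TL.S2
import Pool.Agent.Lib.MP_bae66e_nt.Selberg

/-!
# B1: the sieve problem with variable sets of residue classes (after MP_bae66e_nt/TL/S4)
-/

set_option autoImplicit false

open Finset Nat ArithmeticFunction

namespace Pool.Agent.TE

open Pool.Agent.Lib.MP_bae66e_nt Pool.Agent.Lib.MP_bae66e_nt.TL

/-- the product of the primes `p ∈ S`, for which `t` lies in one of the classes `Rs p` -/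
def bad (S : Finset ℕ) (Rs : ℕ → Finset ℕ) (t : ℕ) : ℕ :=
  ∏ p ∈ S.filter (fun p => t % p ∈ Rs p), p

/-- `∏_{p ∣ d} #(Rs p) / d` -/
noncomputable def dens (Rs : ℕ → Finset ℕ) : ArithmeticFunction ℝ :=
  ⟨fun d => (∏ p ∈ d.primeFactors, (#(Rs p) : ℝ)) / d, by simp⟩

lemma dens_apply (Rs : ℕ → Finset ℕ) (d : ℕ) :
    dens Rs d = (∏ p ∈ d.primeFactors, (#(Rs p) : ℝ)) / d := rfl

lemma dens_isMultiplicative (Rs : ℕ → Finset ℕ) : (dens Rs).IsMultiplicative := by
  rw [ArithmeticFunction.IsMultiplicative.iff_ne_zero]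
  refine ⟨by simp [dens_apply], ?_⟩
  intro m n _ _ hmn
  rw [dens_apply, dens_apply, dens_apply, hmn.primeFactors_mul,
    Finset.prod_union hmn.disjoint_primeFactors]
  push_cast
  rw [mul_div_mul_comm]

lemma dens_prime (Rs : ℕ → Finset ℕ) {p : ℕ} (hp : p.Prime) : dens Rs p = (#(Rs p) : ℝ) / p := by
  rw [dens_apply, Nat.Prime.primeFactors hp, Finset.prod_singleton]

lemma prod_squarefree {S : Finset ℕ} (hS : ∀ p ∈ S, p.Prime) : Squarefree (∏ p ∈ S, p) := by
  apply Finset.squarefree_prod_of_pairwise_isCoprime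
  · intro p hp q hq hpq
    exact Nat.coprime_iff_isRelPrime.mp ((Nat.coprime_primes (hS p hp) (hS q hq)).mpr hpq)
  · intro p hp
    exact (hS p hp).squarefree

lemma prime_dvd_prod_iff {S : Finset ℕ} (hS : ∀ p ∈ S, p.Prime) {p : ℕ} (hp : p.Prime) :
    p ∣ ∏ q ∈ S, q ↔ p ∈ S := by
  rw [Prime.dvd_finsetProd_iff hp.prime]
  constructor
  · rintro ⟨q, hq, hpq⟩
    rwa [(Nat.prime_dvd_prime_iff_eq hp (hS q hq)).mp hpq]
  · intro h
    exact ⟨p, h, dvd_refl p⟩

/-- The sieve problem: `t ∈ (0, X]` is represented by the number `bad S Rs t`. -/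
noncomputable def sv (S : Finset ℕ) (Rs : ℕ → Finset ℕ) (X : ℕ) (h : Dat S Rs) : BoundingSieve where
  support := (Finset.Ioc 0 X).image (bad S Rs)
  prodPrimes := ∏ p ∈ S, p
  prodPrimes_squarefree := prod_squarefree h.prime
  weights := fun n => ((#{t ∈ Finset.Ioc 0 X | bad S Rs t = n} : ℕ) : ℝ)
  weights_nonneg := fun _ => Nat.cast_nonneg _
  totalMass := X
  nu := dens Rs
  nu_mult := dens_isMultiplicative Rs
  nu_pos_of_prime := by
    intro p hp hpd
    rw [dens_prime Rs hp]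
    have hpS : p ∈ S := (prime_dvd_prod_iff h.prime hp).mp hpd
    have h1 : (0 : ℝ) < p := by exact_mod_cast hp.pos
    have h2 : (0 : ℝ) < #(Rs p) := by exact_mod_cast h.pos p hpS
    positivity
  nu_lt_one_of_prime := by
    intro p hp hpd
    rw [dens_prime Rs hp]
    have hpS : p ∈ S := (prime_dvd_prod_iff h.prime hp).mp hpd
    have h1 : (0 : ℝ) < p := by exact_mod_cast hp.pos
    rw [div_lt_one h1]
    exact_mod_cast h.lt p hpS

lemma bad_ne_zero {S : Finset ℕ} (hS : ∀ p ∈ S, p.Prime) (Rs : ℕ → Finset ℕ) (t : ℕ) :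
    bad S Rs t ≠ 0 := by
  unfold bad
  rw [Finset.prod_ne_zero_iff]
  intro p hp
  rw [Finset.mem_filter] at hp
  exact (hS p hp.1).ne_zero

lemma prime_dvd_bad_iff {S : Finset ℕ} (hS : ∀ p ∈ S, p.Prime) {Rs : ℕ → Finset ℕ} {t p : ℕ}
    (hp : p.Prime) : p ∣ bad S Rs t ↔ p ∈ S ∧ t % p ∈ Rs p := by
  unfold bad
  rw [prime_dvd_prod_iff (fun q hq => hS q (Finset.mem_filter.mp hq).1) hp, Finset.mem_filter]

/-- summation over the fibres of `bad` -/
lemma sum_fibres' (S : Finset ℕ) (X : ℕ) (Rs : ℕ → Finset ℕ) (P : ℕ → Prop) [DecidablePred P] :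
    ∑ n ∈ (Finset.Ioc 0 X).image (bad S Rs),
        (if P n then ((#{t ∈ Finset.Ioc 0 X | bad S Rs t = n} : ℕ) : ℝ) else 0)
      = ((#{t ∈ Finset.Ioc 0 X | P (bad S Rs t)} : ℕ) : ℝ) := by
  have h1 : #{t ∈ Finset.Ioc 0 X | P (bad S Rs t)}
      = ∑ n ∈ (Finset.Ioc 0 X).image (bad S Rs),
        #{t ∈ {t ∈ Finset.Ioc 0 X | P (bad S Rs t)} | bad S Rs t = n} := by
    apply Finset.card_eq_sum_card_fiberwise
    intro t ht
    rw [Finset.mem_coe, Finset.mem_filter] at ht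
    rw [Finset.mem_coe]
    exact Finset.mem_image_of_mem _ ht.1
  rw [h1]
  push_cast
  apply Finset.sum_congr rfl
  intro n _
  split_ifs with h
  · congr 2
    ext t
    simp only [Finset.mem_filter]
    constructor
    · rintro ⟨h2, h3⟩
      exact ⟨⟨h2, by rw [h3]; exact h⟩, h3⟩
    · rintro ⟨⟨h2, _⟩, h3⟩
      exact ⟨h2, h3⟩
  · symm
    rw [Nat.cast_eq_zero, Finset.card_eq_zero, Finset.filter_eq_empty_iff]
    intro t ht h3
    rw [Finset.mem_filter, h3] at ht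
    exact h ht.2

lemma sv_multSum (S : Finset ℕ) (Rs : ℕ → Finset ℕ) (X : ℕ) (h : Dat S Rs) {d : ℕ}
    (hd : d ∣ ∏ p ∈ S, p) :
    (sv S Rs X h).multSum d
      = ((#{t ∈ Finset.Ioc 0 X | ∀ p ∈ d.primeFactors, t % p ∈ Rs p} : ℕ) : ℝ) := by
  unfold BoundingSieve.multSum
  change ∑ n ∈ (Finset.Ioc 0 X).image (bad S Rs),
    (if d ∣ n then ((#{t ∈ Finset.Ioc 0 X | bad S Rs t = n} : ℕ) : ℝ) else 0) = _
  rw [sum_fibres' S X Rs (fun n => d ∣ n)]
  congr 2
  ext t
  simp only [Finset.mem_filter, and_congr_right_iff]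
  intro _
  have hsq : Squarefree d := (prod_squarefree h.prime).squarefree_of_dvd hd
  constructor
  · intro h' p hp
    have hp' := Nat.prime_of_mem_primeFactors hp
    exact ((prime_dvd_bad_iff h.prime hp').mp ((Nat.dvd_of_mem_primeFactors hp).trans h')).2
  · intro h'
    rw [← Nat.prod_primeFactors_of_squarefree hsq,
      Nat.prod_primeFactors_dvd_iff (bad_ne_zero h.prime Rs t)]
    intro p hp
    have hp' := Nat.prime_of_mem_primeFactors hp
    rw [Nat.mem_primeFactors]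
    refine ⟨hp', ?_, bad_ne_zero h.prime Rs t⟩
    rw [prime_dvd_bad_iff h.prime hp']
    refine ⟨?_, h' p hp⟩
    rw [← prime_dvd_prod_iff h.prime hp']
    exact (Nat.dvd_of_mem_primeFactors hp).trans hd

lemma sv_siftedSum (S : Finset ℕ) (Rs : ℕ → Finset ℕ) (X : ℕ) (h : Dat S Rs) :
    (sv S Rs X h).siftedSum
      = ((#{t ∈ Finset.Ioc 0 X | ∀ p ∈ S, t % p ∉ Rs p} : ℕ) : ℝ) := by
  unfold BoundingSieve.siftedSum
  change ∑ n ∈ (Finset.Ioc 0 X).image (bad S Rs),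
    (if Nat.Coprime (∏ p ∈ S, p) n then
      ((#{t ∈ Finset.Ioc 0 X | bad S Rs t = n} : ℕ) : ℝ) else 0) = _
  rw [sum_fibres' S X Rs (fun n => Nat.Coprime (∏ p ∈ S, p) n)]
  congr 2
  ext t
  simp only [Finset.mem_filter, and_congr_right_iff]
  intro _
  constructor
  · intro h' p hp hmem
    have hp' := h.prime p hp
    have h2 : p ∣ ∏ q ∈ S, q := (prime_dvd_prod_iff h.prime hp').mpr hp
    have h3 : p ∣ bad S Rs t := (prime_dvd_bad_iff h.prime hp').mpr ⟨hp, hmem⟩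
    exact hp'.not_dvd_one (h' ▸ Nat.dvd_gcd h2 h3)
  · intro h'
    rw [Nat.coprime_iff_gcd_eq_one]
    by_contra hne
    obtain ⟨p, hp, hpd⟩ := Nat.exists_prime_and_dvd hne
    have h3 := (prime_dvd_bad_iff h.prime hp).mp (hpd.trans (Nat.gcd_dvd_right _ _))
    exact h' p h3.1 h3.2

lemma sv_rem_le (S : Finset ℕ) (Rs : ℕ → Finset ℕ) (X : ℕ) (h : Dat S Rs) {d : ℕ}
    (hd : d ∣ ∏ p ∈ S, p) : |(sv S Rs X h).rem d| ≤ d := by
  unfold BoundingSieve.rem
  rw [sv_multSum S Rs X h hd]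
  have hsq : Squarefree d := (prod_squarefree h.prime).squarefree_of_dvd hd
  have hpr : ∀ p ∈ d.primeFactors, p.Prime := fun p hp => Nat.prime_of_mem_primeFactors hp
  have hcond : ∀ p ∈ d.primeFactors, p ∈ S := by
    intro p hp
    exact (prime_dvd_prod_iff h.prime (hpr p hp)).mp ((Nat.dvd_of_mem_primeFactors hp).trans hd)
  have h' := abs_card_res_sub_le d.primeFactors hpr Rs (fun p hp => h.sub p (hcond p hp)) X
  have h2 : ∏ p ∈ d.primeFactors, (p : ℝ) = (d : ℝ) := by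
    rw [← Nat.cast_prod, Nat.prod_primeFactors_of_squarefree hsq]
  rw [h2] at h'
  have h3 : (sv S Rs X h).nu d * (sv S Rs X h).totalMass
      = (∏ p ∈ d.primeFactors, (#(Rs p) : ℝ)) / d * X := rfl
  rw [h3]
  refine h'.trans ?_
  rw [← h2]
  apply Finset.prod_le_prod
  · intro p _
    positivity
  · intro p hp
    exact_mod_cast (h.lt p (hcond p hp)).le

end Pool.Agent.TE
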