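import Pool.Agent.Lib.MP_f02ea4_nt.TE.B1

/-!
# B2: Selberg's sieve for variable sets of residue classes, main term by Markov's inequality
-/

set_option autoImplicit false

open Finset Nat ArithmeticFunction

namespace Pool.Agent.TE

open Pool.Agent.Lib.MP_bae66e_nt Pool.Agent.Lib.MP_bae66e_nt.TL

lemma sum_dvd_eq {f : ArithmeticFunction ℝ} (hf : f.IsMultiplicative) {P p : ℕ} (hP : Squarefree P)
    (hp : p.Prime) (hpP : p ∣ P) :
    ∑ l ∈ P.divisors with p ∣ l, f l = f p * ∑ l ∈ P.divisors with ¬ p ∣ l, f l := by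
  have hP0 : P ≠ 0 := hP.ne_zero
  rw [Finset.mul_sum]
  symm
  apply Finset.sum_bij (fun m _ => p * m)
  · intro m hm
    rw [Finset.mem_filter, Nat.mem_divisors] at hm ⊢
    refine ⟨⟨?_, hP0⟩, dvd_mul_right p m⟩
    exact Nat.Coprime.mul_dvd_of_dvd_of_dvd ((Nat.Prime.coprime_iff_not_dvd hp).mpr hm.2) hpP hm.1.1
  · intro a _ b _ hab
    exact Nat.eq_of_mul_eq_mul_left hp.pos hab
  · intro l hl
    rw [Finset.mem_filter, Nat.mem_divisors] at hl
    obtain ⟨m, rfl⟩ := hl.2
    refine ⟨m, ?_, rfl⟩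
    rw [Finset.mem_filter, Nat.mem_divisors]
    refine ⟨⟨(dvd_mul_left m p).trans hl.1.1, hP0⟩, ?_⟩
    intro h
    have h1 : Squarefree (p * m) := hP.squarefree_of_dvd hl.1.1
    have h2 := h1 p (mul_dvd_mul_left p h)
    exact hp.one_lt.ne' (Nat.isUnit_iff.mp h2)
  · intro m hm
    rw [Finset.mem_filter, Nat.mem_divisors] at hm
    rw [hf.map_mul_of_coprime ((Nat.Prime.coprime_iff_not_dvd hp).mpr hm.2)]

lemma sum_dvd_eq' {f : ArithmeticFunction ℝ} (hf : f.IsMultiplicative) {P p : ℕ}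
    (hP : Squarefree P) (hp : p.Prime) (hpP : p ∣ P) (hfp : 0 ≤ f p) :
    ∑ l ∈ P.divisors with p ∣ l, f l = f p / (1 + f p) * ∑ l ∈ P.divisors, f l := by
  have h1 := sum_dvd_eq hf hP hp hpP
  have h2 := Finset.sum_filter_add_sum_filter_not P.divisors (fun l => p ∣ l) (fun l => f l)
  have h3 : 0 < 1 + f p := by linarith
  rw [← h2, h1]
  field_simp
  ring

lemma log_divisor {P l : ℕ} (hP : Squarefree P) (hl : l ∈ P.divisors) :
    Real.log l = ∑ p ∈ P.primeFactors, if p ∣ l then Real.log p else 0 := by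
  have hlP := Nat.dvd_of_mem_divisors hl
  have hsq : Squarefree l := hP.squarefree_of_dvd hlP
  rw [← Finset.sum_filter]
  have h1 : P.primeFactors.filter (fun p => p ∣ l) = l.primeFactors := by
    ext p
    rw [Finset.mem_filter, Nat.mem_primeFactors, Nat.mem_primeFactors]
    constructor
    · rintro ⟨⟨h1, _, _⟩, h2⟩
      exact ⟨h1, h2, hsq.ne_zero⟩
    · rintro ⟨h1, h2, _⟩
      exact ⟨⟨h1, h2.trans hlP, hP.ne_zero⟩, h2⟩
  rw [h1, ← Real.log_prod (fun p hp => by
    exact_mod_cast (Nat.prime_of_mem_primeFactors hp).ne_zero), ← Nat.cast_prod,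
    Nat.prod_primeFactors_of_squarefree hsq]

/-- Markov's inequality for the sum of a multiplicative function over the divisors `≤ R` -/
lemma markov {f : ArithmeticFunction ℝ} (hf : f.IsMultiplicative) {P R : ℕ} (hP : Squarefree P)
    (h0 : ∀ l, l ∣ P → 0 ≤ f l) (hR : 1 ≤ R)
    (h : 2 * ∑ p ∈ P.primeFactors, f p / (1 + f p) * Real.log p ≤ Real.log R) :
    (1 / 2) * ∑ l ∈ P.divisors, f l ≤ ∑ l ∈ P.divisors with l ≤ R, f l := by
  set T := ∑ l ∈ P.divisors, f l with hT
  have hT0 : 0 ≤ T := Finset.sum_nonneg fun l hl => h0 l (Nat.dvd_of_mem_divisors hl)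
  have hmean : ∑ l ∈ P.divisors, f l * Real.log l
      = T * ∑ p ∈ P.primeFactors, f p / (1 + f p) * Real.log p := by
    calc ∑ l ∈ P.divisors, f l * Real.log l
        = ∑ l ∈ P.divisors, ∑ p ∈ P.primeFactors, (if p ∣ l then f l * Real.log p else 0) := by
          apply Finset.sum_congr rfl
          intro l hl
          rw [log_divisor hP hl, Finset.mul_sum]
          apply Finset.sum_congr rfl
          intro p _
          split_ifs <;> simp
      _ = ∑ p ∈ P.primeFactors, ∑ l ∈ P.divisors, (if p ∣ l then f l * Real.log p else 0) :=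
          Finset.sum_comm
      _ = ∑ p ∈ P.primeFactors, T * (f p / (1 + f p) * Real.log p) := by
          apply Finset.sum_congr rfl
          intro p hp
          have hp' := Nat.prime_of_mem_primeFactors hp
          have hpP := Nat.dvd_of_mem_primeFactors hp
          rw [← Finset.sum_filter, ← Finset.sum_mul, sum_dvd_eq' hf hP hp' hpP (h0 p hpP)]
          ring
      _ = _ := by rw [← Finset.mul_sum]
  have hsplit := Finset.sum_filter_add_sum_filter_not P.divisors (fun l => l ≤ R) (fun l => f l)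
  rw [← hT] at hsplit
  rcases Nat.eq_or_lt_of_le hR with hR1 | hR1
  · -- R = 1: the sum vanishes
    rw [← hR1] at h ⊢
    rw [Nat.cast_one, Real.log_one] at h
    have h1 : ∀ p ∈ P.primeFactors, 0 ≤ f p / (1 + f p) * Real.log p := by
      intro p hp
      have h2 := h0 p (Nat.dvd_of_mem_primeFactors hp)
      have h3 : (1 : ℝ) ≤ p := by exact_mod_cast (Nat.prime_of_mem_primeFactors hp).one_lt.le
      have := Real.log_nonneg h3
      positivity
    have h2 : ∑ p ∈ P.primeFactors, f p / (1 + f p) * Real.log p = 0 :=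
      le_antisymm (by linarith) (Finset.sum_nonneg h1)
    rw [h2, mul_zero] at hmean
    have h3 : ∀ l ∈ P.divisors, f l * Real.log l = 0 := by
      rw [Finset.sum_eq_zero_iff_of_nonneg] at hmean
      · exact hmean
      · intro l hl
        have h4 := Nat.pos_of_mem_divisors hl
        have h5 : (1 : ℝ) ≤ l := by exact_mod_cast h4
        exact mul_nonneg (h0 l (Nat.dvd_of_mem_divisors hl)) (Real.log_nonneg h5)
    have h4 : ∑ l ∈ P.divisors with ¬ l ≤ 1, f l = 0 := by
      apply Finset.sum_eq_zero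
      intro l hl
      rw [Finset.mem_filter] at hl
      have h5 := h3 l hl.1
      have h6 : 0 < Real.log l := Real.log_pos (by exact_mod_cast (not_le.mp hl.2))
      rcases mul_eq_zero.mp h5 with h7 | h7
      · exact h7
      · exact absurd h7 h6.ne'
    rw [← hR1, h4, add_zero] at hsplit
    rw [hsplit]
    linarith
  · have hlogR : 0 < Real.log R := Real.log_pos (by exact_mod_cast hR1)
    have h1 : Real.log R * ∑ l ∈ P.divisors with ¬ l ≤ R, f l ≤ Real.log R * (T / 2) := by
      calc Real.log R * ∑ l ∈ P.divisors with ¬ l ≤ R, f l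
          = ∑ l ∈ P.divisors with ¬ l ≤ R, f l * Real.log R := by
            rw [Finset.mul_sum]
            exact Finset.sum_congr rfl fun _ _ => mul_comm _ _
        _ ≤ ∑ l ∈ P.divisors with ¬ l ≤ R, f l * Real.log l := by
            apply Finset.sum_le_sum
            intro l hl
            rw [Finset.mem_filter] at hl
            have h2 := h0 l (Nat.dvd_of_mem_divisors hl.1)
            have h3 : (R : ℝ) ≤ l := by exact_mod_cast (not_le.mp hl.2).le
            have h4 : (0 : ℝ) < R := by exact_mod_cast hR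
            exact mul_le_mul_of_nonneg_left (Real.log_le_log h4 h3) h2
        _ ≤ ∑ l ∈ P.divisors, f l * Real.log l := by
            apply Finset.sum_le_sum_of_subset_of_nonneg (Finset.filter_subset _ _)
            intro l hl _
            have h4 := Nat.pos_of_mem_divisors hl
            have h5 : (1 : ℝ) ≤ l := by exact_mod_cast h4
            exact mul_nonneg (h0 l (Nat.dvd_of_mem_divisors hl)) (Real.log_nonneg h5)
        _ = T * ∑ p ∈ P.primeFactors, f p / (1 + f p) * Real.log p := hmean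
        _ ≤ T * (Real.log R / 2) := by
            apply mul_le_mul_of_nonneg_left _ hT0
            linarith
        _ = Real.log R * (T / 2) := by ring
    have h2 := le_of_mul_le_mul_left h1 hlogR
    linarith

/-- **Selberg's sieve with variable sets of residue classes.** -/
theorem class_sieve (S : Finset ℕ) (Rs : ℕ → Finset ℕ) (h : Dat S Rs) (X R : ℕ) (hR : 1 ≤ R)
    (hlog : 2 * ∑ p ∈ S, (#(Rs p) : ℝ) * Real.log p / p ≤ Real.log R) :
    ((#{t ∈ Finset.Ioc 0 X | ∀ p ∈ S, t % p ∉ Rs p} : ℕ) : ℝ)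
      ≤ 2 * X * ∏ p ∈ S, (1 - (#(Rs p) : ℝ) / p) + (R : ℝ) ^ 4 := by
  set s := sv S Rs X h with hs
  have hPs : s.prodPrimes = ∏ p ∈ S, p := rfl
  have hsq : Squarefree s.prodPrimes := s.prodPrimes_squarefree
  have hpf : s.prodPrimes.primeFactors = S := by
    rw [hPs]
    exact Nat.primeFactors_prod h.prime
  have hν : ∀ p ∈ S, s.nu p = (#(Rs p) : ℝ) / p := fun p hp => dens_prime Rs (h.prime p hp)
  have hν1 : ∀ p ∈ S, 0 < (#(Rs p) : ℝ) / p ∧ (#(Rs p) : ℝ) / p < 1 := by
    intro p hp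
    have h1 : (0 : ℝ) < p := by exact_mod_cast (h.prime p hp).pos
    have h2 : (0 : ℝ) < #(Rs p) := by exact_mod_cast h.pos p hp
    refine ⟨by positivity, ?_⟩
    rw [div_lt_one h1]
    exact_mod_cast h.lt p hp
  have hg : ∀ p ∈ S, s.selbergTerms p
      = ((#(Rs p) : ℝ) / p) * (1 - (#(Rs p) : ℝ) / p)⁻¹ := by
    intro p hp
    rw [BoundingSieve.selbergTerms_apply, Nat.Prime.primeFactors (h.prime p hp),
      Finset.prod_singleton, hν p hp]
  have h1 := selberg_bound (s := s) hR
  rw [hs, sv_siftedSum, ← hs] at h1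
  have hmk := markov (BoundingSieve.selbergTerms_isMultiplicative (s := s)) hsq
    (fun l hl => (BoundingSieve.selbergTerms_pos hl).le) hR (by
      rw [hpf]
      refine le_trans (le_of_eq ?_) hlog
      congr 1
      apply Finset.sum_congr rfl
      intro p hp
      have h2 := hν1 p hp
      rw [hg p hp]
      have h3 : (1 : ℝ) - (#(Rs p) : ℝ) / p ≠ 0 := by linarith [h2.2]
      have h4 : 1 + (#(Rs p) : ℝ) / p * (1 - (#(Rs p) : ℝ) / p)⁻¹
          = (1 - (#(Rs p) : ℝ) / p)⁻¹ := by
        field_simp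
        ring
      rw [h4, mul_div_assoc, div_self (inv_ne_zero h3), mul_one]
      ring)
  have hprod : ∑ l ∈ s.prodPrimes.divisors, s.selbergTerms l
      = (∏ p ∈ S, (1 - (#(Rs p) : ℝ) / p))⁻¹ := by
    rw [← (BoundingSieve.selbergTerms_isMultiplicative
      (s := s)).prodPrimeFactors_one_add_of_squarefree hsq, hpf, ← Finset.prod_inv_distrib]
    apply Finset.prod_congr rfl
    intro p hp
    have h2 := hν1 p hp
    rw [hg p hp]
    have h3 : (1 : ℝ) - (#(Rs p) : ℝ) / p ≠ 0 := by linarith [h2.2]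
    field_simp
    ring
  have hpos : 0 < ∏ p ∈ S, (1 - (#(Rs p) : ℝ) / p) :=
    Finset.prod_pos fun p hp => by linarith [(hν1 p hp).2]
  refine h1.trans (add_le_add ?_ ?_)
  · change (X : ℝ) / selS s R ≤ _
    rw [hprod] at hmk
    have h2 : (0 : ℝ) < 1 / 2 * (∏ p ∈ S, (1 - (#(Rs p) : ℝ) / p))⁻¹ := by positivity
    calc (X : ℝ) / selS s R ≤ X / (1 / 2 * (∏ p ∈ S, (1 - (#(Rs p) : ℝ) / p))⁻¹) :=
          div_le_div_of_nonneg_left (Nat.cast_nonneg X) h2 hmk
      _ = _ := by field_simp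
  · have h5 : ∀ d ∈ ({d ∈ s.prodPrimes.divisors | d ≤ R} : Finset ℕ),
        d ∣ ∏ p ∈ S, p ∧ d ≤ R ∧ 0 < d := by
      intro d hd
      rw [Finset.mem_filter, Nat.mem_divisors] at hd
      exact ⟨hd.1.1, hd.2, Nat.pos_of_dvd_of_pos hd.1.1 (Nat.pos_of_ne_zero hd.1.2)⟩
    have hcard : ((#({d ∈ s.prodPrimes.divisors | d ≤ R} : Finset ℕ) : ℕ) : ℝ) ≤ R := by
      have : #({d ∈ s.prodPrimes.divisors | d ≤ R} : Finset ℕ) ≤ #(Finset.Icc 1 R) := by
        apply Finset.card_le_card
        intro d hd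
        have h6 := h5 d hd
        rw [Finset.mem_Icc]
        exact ⟨h6.2.2, h6.2.1⟩
      rw [Nat.card_Icc, Nat.add_sub_cancel] at this
      exact_mod_cast this
    calc ∑ d1 ∈ s.prodPrimes.divisors with d1 ≤ R, ∑ d2 ∈ s.prodPrimes.divisors with d2 ≤ R,
        |s.rem (d1.lcm d2)|
        ≤ ∑ _d1 ∈ s.prodPrimes.divisors with _d1 ≤ R, ∑ _d2 ∈ s.prodPrimes.divisors with _d2 ≤ R,
        ((R : ℝ) ^ 2) := by
          apply Finset.sum_le_sum
          intro d1 hd1
          apply Finset.sum_le_sum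
          intro d2 hd2
          have a1 := h5 d1 hd1
          have a2 := h5 d2 hd2
          have h7 := sv_rem_le S Rs X h (d := d1.lcm d2) (Nat.lcm_dvd a1.1 a2.1)
          refine h7.trans ?_
          have h8 : d1.lcm d2 ≤ d1 * d2 :=
            Nat.le_of_dvd (Nat.mul_pos a1.2.2 a2.2.2) (Nat.lcm_dvd_mul d1 d2)
          have h9 : d1 * d2 ≤ R * R := Nat.mul_le_mul a1.2.1 a2.2.1
          calc ((d1.lcm d2 : ℕ) : ℝ) ≤ ((R * R : ℕ) : ℝ) := by exact_mod_cast h8.trans h9
            _ = (R : ℝ) ^ 2 := by push_cast; ring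
      _ = ((#({d ∈ s.prodPrimes.divisors | d ≤ R} : Finset ℕ) : ℕ) : ℝ)
          * (((#({d ∈ s.prodPrimes.divisors | d ≤ R} : Finset ℕ) : ℕ) : ℝ) * (R : ℝ) ^ 2) := by
          simp [Finset.sum_const, nsmul_eq_mul]
      _ ≤ R * (R * (R : ℝ) ^ 2) := by gcongr
      _ = (R : ℝ) ^ 4 := by ring

end Pool.Agent.TE
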