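import Pool.Agent.Lib.MP_f02ea4_nt.TE.A1
import Pool.Agent.Lib.MP_f02ea4_nt.TE.A3
import Pool.Agent.Lib.MP_f02ea4_nt.TE.B2

/-!
# B3: the number of primes `p ≤ X` of `N` with `l ∣ e_p + 1`
-/

set_option autoImplicit false

namespace Pool.Agent.TE

open Finset Nat Pool.Agent.Lib.MP_bae66e_nt.AP3

/-- the sieved classes: `0`, and the roots of `ph l` if `r ∈ Sp N l z` -/
def Rc (N l z r : ℕ) : Finset ℕ :=
  if r ∈ Sp N l z then insert 0 ((range r).filter (fun t => r ∣ ph l t)) else {0}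

lemma b3_mem_Sp {N l z r : ℕ} : r ∈ Sp N l z ↔ (r ∈ prI 0 z ∧ r ≡ 1 [MOD l]) ∧ ¬ r ∣ N := by
  simp [Sp, Pl]

/-- B3a. `card_roots`, `ph_zero` (so `0` is not a root as `r ∤ 1`) -/
lemma card_Rc {N l z r : ℕ} (hl : l.Prime) (hr : r.Prime) :
    #(Rc N l z r) = if r ∈ Sp N l z then l else 1 := by
  unfold Rc
  split_ifs with h
  · have h1 := (b3_mem_Sp.1 h).1.2
    rw [Finset.card_insert_of_notMem, card_roots hl hr h1]
    · have := hl.pos
      omega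
    · rw [Finset.mem_filter, ph_zero l hl.pos]
      rintro ⟨_, h2⟩
      exact hr.one_lt.ne' (Nat.dvd_one.1 h2)
  · exact Finset.card_singleton 0

lemma b3_lt {l r : ℕ} (hr : r.Prime) (h : r ≡ 1 [MOD l]) : l < r := by
  have h1 : l ∣ r - 1 := (Nat.modEq_iff_dvd' hr.one_lt.le).1 h.symm
  have h2 := hr.one_lt
  have h3 := Nat.le_of_dvd (by omega) h1
  omega

/-- B3b. For `r ∈ Sp`: `r ≡ 1 mod l`, `r` prime, so `l < r`. -/
lemma Rc_dat {N l z : ℕ} (hl : l.Prime) : Dat (prI 0 z) (Rc N l z) where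
  prime := fun p hp => (mem_prI.1 hp).2
  sub := by
    intro p hp
    have hpp := (mem_prI.1 hp).2
    unfold Rc
    split_ifs with h
    · intro t ht
      rcases Finset.mem_insert.1 ht with rfl | ht
      · exact Finset.mem_range.2 hpp.pos
      · exact (Finset.mem_filter.1 ht).1
    · intro t ht
      rw [Finset.mem_singleton.1 ht]
      exact Finset.mem_range.2 hpp.pos
  pos := by
    intro p hp
    rw [card_Rc hl (mem_prI.1 hp).2]
    split_ifs with h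
    · exact hl.pos
    · exact le_rfl
  lt := by
    intro p hp
    have hpp := (mem_prI.1 hp).2
    rw [card_Rc hl hpp]
    split_ifs with h
    · exact b3_lt hpp (b3_mem_Sp.1 h).1.2
    · exact hpp.one_lt

/-- B3c. Every `p ∈ Cl N l X` with `p > z` avoids the classes: for a prime `r ≤ z < p`,
`p % r ≠ 0`; if `r ∈ Sp N l z` and `r ∣ ph l (p % r)` then `r ∣ ph l p` (`dvd_ph_mod`), so `r ∣ N`
by `dvd_of_ph`, contradiction. So `#(Cl N l X) ≤ z + #{t ∈ (0, X] | ∀ r ∈ prI 0 z, t % r ∉ Rc N l z r}`. -/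
lemma card_Cl_le {N : ℕ} (hodd : Odd N) (hN : N.Perfect) {l : ℕ} (hl : l.Prime) (hl2 : l ≠ 2)
    (z X : ℕ) :
    #(Cl N l X) ≤ z + #{t ∈ Ioc 0 X | ∀ r ∈ prI 0 z, t % r ∉ Rc N l z r} := by
  classical
  have hlo : Odd l := hl.odd_of_ne_two hl2
  have hsub : Cl N l X ⊆ Ioc 0 z ∪ {t ∈ Ioc 0 X | ∀ r ∈ prI 0 z, t % r ∉ Rc N l z r} := by
    intro p hp
    unfold Cl at hp
    rw [Finset.mem_filter] at hp
    obtain ⟨hp1, hp2, hp3⟩ := hp
    have hpp := Nat.prime_of_mem_primeFactors hp1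
    rw [Finset.mem_union, Finset.mem_Ioc, Finset.mem_filter, Finset.mem_Ioc]
    rcases Nat.lt_or_ge z p with hz | hz
    · right
      refine ⟨⟨hpp.pos, hp2⟩, ?_⟩
      intro r hr
      obtain ⟨⟨_, hrz⟩, hrp⟩ := mem_prI.1 hr
      have h0 : p % r ≠ 0 := by
        intro h
        have h1 := Nat.dvd_of_mod_eq_zero h
        rcases (Nat.dvd_prime hpp).1 h1 with h2 | h2
        · exact hrp.one_lt.ne' h2
        · omega
      unfold Rc
      split_ifs with h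
      · rw [Finset.mem_insert, not_or]
        refine ⟨h0, ?_⟩
        rw [Finset.mem_filter]
        rintro ⟨_, h2⟩
        rw [← dvd_ph_mod] at h2
        exact (b3_mem_Sp.1 h).2 (dvd_of_ph hodd hN hp1 hlo hp3 hrp h2)
      · rw [Finset.mem_singleton]
        exact h0
    · left
      exact ⟨hpp.pos, hz⟩
  calc #(Cl N l X) ≤ _ := Finset.card_le_card hsub
    _ ≤ #(Ioc 0 z) + #{t ∈ Ioc 0 X | ∀ r ∈ prI 0 z, t % r ∉ Rc N l z r} :=
        Finset.card_union_le _ _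
    _ = _ := by rw [Nat.card_Ioc, Nat.sub_zero]

/-- B3d. For `ν = l` on `Sp`, else `1`: `1 - l/r ≤ (1 - 1/r) (1 - (l-1)/r)` and
`1 - (l-1)/r ≤ exp (-(l-1)/r)`, `∏_{r ≤ z} (1 - 1/r) = KT z ≤ 1 / log (z+1)` (`KT_le`). -/
lemma prod_le {N l z : ℕ} (hl : l.Prime) (hz : 1 ≤ z) :
    ∏ r ∈ prI 0 z, (1 - (#(Rc N l z r) : ℝ) / r)
      ≤ 1 / Real.log (z + 1) * Real.exp (-(((l : ℝ) - 1) * ∑ r ∈ Sp N l z, 1 / (r : ℝ))) := by
  have hsub : Sp N l z ⊆ prI 0 z := fun r hr => (b3_mem_Sp.1 hr).1.1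
  have h1 : ∏ r ∈ prI 0 z, (1 - (#(Rc N l z r) : ℝ) / r) ≤
      ∏ r ∈ prI 0 z, ((1 - 1 / (r : ℝ)) *
        (if r ∈ Sp N l z then Real.exp (-(((l : ℝ) - 1) * (1 / (r : ℝ)))) else 1)) := by
    refine Finset.prod_le_prod ?_ ?_
    · intro r hr
      have h2 := (Rc_dat (N := N) (z := z) hl).lt r hr
      have h3 : (0 : ℝ) < r := by exact_mod_cast (mem_prI.1 hr).2.pos
      rw [sub_nonneg, div_le_one h3]
      exact_mod_cast h2.le
    · intro r hr
      have hrp := (mem_prI.1 hr).2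
      have h3 : (0 : ℝ) < r := by exact_mod_cast hrp.pos
      rw [card_Rc hl hrp]
      split_ifs with h
      · have h4 : (0 : ℝ) < 1 - 1 / (r : ℝ) := one_sub_inv_pos hrp
        have h5 : 1 - ((l : ℝ) - 1) * (1 / (r : ℝ)) ≤
            Real.exp (-(((l : ℝ) - 1) * (1 / (r : ℝ)))) := by
          have := Real.add_one_le_exp (-(((l : ℝ) - 1) * (1 / (r : ℝ))))
          linarith
        have h6 : 1 - (l : ℝ) / r ≤ (1 - 1 / (r : ℝ)) * (1 - ((l : ℝ) - 1) * (1 / (r : ℝ))) := by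
          have h7 : (1 : ℝ) ≤ l := by exact_mod_cast hl.pos
          have e1 : (1 - 1 / (r : ℝ)) * (1 - ((l : ℝ) - 1) * (1 / (r : ℝ))) =
              1 - (l : ℝ) / r + ((l : ℝ) - 1) * (1 / (r : ℝ)) ^ 2 := by
            field_simp
            ring
          rw [e1]
          have : 0 ≤ ((l : ℝ) - 1) * (1 / (r : ℝ)) ^ 2 :=
            mul_nonneg (by linarith) (by positivity)
          linarith
        exact h6.trans (mul_le_mul_of_nonneg_left h5 h4.le)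
      · rw [mul_one, Nat.cast_one]
  refine h1.trans ?_
  rw [Finset.prod_mul_distrib, Finset.prod_ite_mem, Finset.inter_eq_right.2 hsub,
    ← Real.exp_sum]
  have e2 : ∑ r ∈ Sp N l z, -(((l : ℝ) - 1) * (1 / (r : ℝ))) =
      -(((l : ℝ) - 1) * ∑ r ∈ Sp N l z, 1 / (r : ℝ)) := by
    rw [Finset.sum_neg_distrib, Finset.mul_sum]
  rw [e2]
  exact mul_le_mul_of_nonneg_right (KT_le z hz) (Real.exp_pos _).le

/-- B3e. `class_sieve` with `S = prI 0 z` and `Rc`; the sum in its hypothesis is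
`∑_{r ≤ z} log r / r + (l-1) ∑_{Sp} log r / r ≤ ∑_{r ≤ z} log r / r + (l-1) ∑_{Pl} log r / r`
(`Sp ⊆ Pl ⊆ prI 0 z`). -/
theorem class_count {N : ℕ} (hodd : Odd N) (hN : N.Perfect) {l : ℕ} (hl : l.Prime) (hl2 : l ≠ 2)
    (z X R : ℕ) (hz : 1 ≤ z) (hR : 1 ≤ R)
    (hlog : 2 * (∑ r ∈ prI 0 z, Real.log r / r + ((l : ℝ) - 1) * ∑ r ∈ Pl l z, Real.log r / r)
      ≤ Real.log R) :
    (#(Cl N l X) : ℝ) ≤ z + (2 * X / Real.log (z + 1) *
      Real.exp (-(((l : ℝ) - 1) * ∑ r ∈ Sp N l z, 1 / (r : ℝ))) + (R : ℝ) ^ 4) := by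
  have hl1 : (0 : ℝ) ≤ (l : ℝ) - 1 := by
    have : (1 : ℝ) ≤ l := by exact_mod_cast hl.pos
    linarith
  have hsub : Sp N l z ⊆ prI 0 z := fun r hr => (b3_mem_Sp.1 hr).1.1
  have hsub' : Sp N l z ⊆ Pl l z := Finset.filter_subset _ _
  have hlogn : ∀ r ∈ prI 0 z, 0 ≤ Real.log r / (r : ℝ) := by
    intro r hr
    have h3 : (1 : ℝ) ≤ r := by exact_mod_cast (mem_prI.1 hr).2.pos
    exact div_nonneg (Real.log_nonneg h3) (by linarith)
  have hsum : ∑ r ∈ prI 0 z, (#(Rc N l z r) : ℝ) * Real.log r / r ≤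
      ∑ r ∈ prI 0 z, Real.log r / r + ((l : ℝ) - 1) * ∑ r ∈ Pl l z, Real.log r / r := by
    have e1 : ∑ r ∈ prI 0 z, (#(Rc N l z r) : ℝ) * Real.log r / r =
        ∑ r ∈ prI 0 z, Real.log r / r + ((l : ℝ) - 1) * ∑ r ∈ Sp N l z, Real.log r / r := by
      have e2 : ∀ r ∈ prI 0 z, (#(Rc N l z r) : ℝ) * Real.log r / r =
          Real.log r / r + (if r ∈ Sp N l z then ((l : ℝ) - 1) * (Real.log r / r) else 0) := by
        intro r hr
        rw [card_Rc hl (mem_prI.1 hr).2]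
        split_ifs with h
        · ring
        · rw [Nat.cast_one, one_mul, add_zero]
      rw [Finset.sum_congr rfl e2, Finset.sum_add_distrib, Finset.sum_ite_mem,
        Finset.inter_eq_right.2 hsub, Finset.mul_sum]
    rw [e1]
    have h2 : ∑ r ∈ Sp N l z, Real.log r / (r : ℝ) ≤ ∑ r ∈ Pl l z, Real.log r / (r : ℝ) :=
      Finset.sum_le_sum_of_subset_of_nonneg hsub' fun r hr _ =>
        hlogn r (Finset.mem_filter.1 hr).1
    have := mul_le_mul_of_nonneg_left h2 hl1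
    linarith
  have h1 := class_sieve (prI 0 z) (Rc N l z) (Rc_dat hl) X R hR (by linarith)
  have h2 : (#(Cl N l X) : ℝ) ≤ z + #{t ∈ Ioc 0 X | ∀ r ∈ prI 0 z, t % r ∉ Rc N l z r} := by
    exact_mod_cast card_Cl_le hodd hN hl hl2 z X
  have h3 := mul_le_mul_of_nonneg_left (prod_le (N := N) (z := z) hl hz)
    (show (0 : ℝ) ≤ 2 * X by positivity)
  have e3 : 2 * (X : ℝ) * (1 / Real.log (z + 1) *
      Real.exp (-(((l : ℝ) - 1) * ∑ r ∈ Sp N l z, 1 / (r : ℝ)))) =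
      2 * X / Real.log (z + 1) *
      Real.exp (-(((l : ℝ) - 1) * ∑ r ∈ Sp N l z, 1 / (r : ℝ))) := by ring
  rw [e3] at h3
  linarith

end Pool.Agent.TE
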