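import Pool.Agent.Lib.MP_f02ea4_nt.TE.Defs
import Pool.Agent.Lib.MP_bae66e_nt.AP3.PrimeAP

/-!
# C1: reciprocal sums of primes in the progression `1 mod l`, `l` fixed
-/

set_option autoImplicit false

namespace Pool.Agent.TE

open Finset Nat Pool.Agent.Lib.MP_bae66e_nt.AP3

private lemma c1_cum {l : ℕ} (hl : l.Prime) : ∃ E : ℝ, 0 ≤ E ∧ ∀ z : ℕ, 2 ≤ z →
    ∀ t ∈ Set.Icc (Real.log 2) (Real.log z),
      1 / ((l : ℝ) - 1) * t - E
        ≤ cum (Pl l z) (fun p => Real.log p) (fun p => Real.log p / p) t := by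
  haveI : NeZero l := ⟨hl.ne_zero⟩
  obtain ⟨C, hC0, hC⟩ := exists_mertens_ap l
  have hl1 : (0 : ℝ) < (l : ℝ) - 1 := by
    have : (1 : ℝ) < l := by exact_mod_cast hl.one_lt
    linarith
  have hφ : ((φ l : ℕ) : ℝ) = (l : ℝ) - 1 := by
    rw [Nat.totient_prime hl, Nat.cast_sub hl.one_lt.le]; simp
  refine ⟨1 / ((l : ℝ) - 1) + C, by positivity, ?_⟩
  intro z hz t ht
  set n := ⌊Real.exp t⌋₊ with hn
  have hz0 : (0 : ℝ) < z := by positivity
  have h2t : (2 : ℝ) ≤ Real.exp t := by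
    rw [← Real.log_le_iff_le_exp (by norm_num)]; exact ht.1
  have htz : Real.exp t ≤ z := by
    rw [← Real.le_log_iff_exp_le hz0]; exact ht.2
  have h2n : 2 ≤ n := Nat.le_floor (by exact_mod_cast h2t)
  have hnz : n ≤ z := by
    have : (n : ℝ) ≤ z := (Nat.floor_le (Real.exp_pos t).le).trans htz
    exact_mod_cast this
  have hcum : cum (Pl l z) (fun p => Real.log p) (fun p => Real.log p / p) t
      = ∑ p ∈ (prI 1 n).filter (fun p => p ≡ 1 [MOD l]), Real.log p / p := by
    unfold cum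
    apply sum_congr _ fun _ _ => rfl
    ext p
    simp only [Pl, mem_filter, mem_prI]
    constructor
    · rintro ⟨⟨⟨⟨h1, h2⟩, h3⟩, h5⟩, h4⟩
      refine ⟨⟨⟨h3.one_lt, ?_⟩, h3⟩, h5⟩
      apply Nat.le_floor
      rwa [← Real.log_le_iff_le_exp (by exact_mod_cast h3.pos)]
    · rintro ⟨⟨⟨h1, h2⟩, h3⟩, h5⟩
      refine ⟨⟨⟨⟨h3.pos, h2.trans hnz⟩, h3⟩, h5⟩, ?_⟩
      rw [Real.log_le_iff_le_exp (by exact_mod_cast h3.pos)]
      exact (by exact_mod_cast h2 : (p : ℝ) ≤ n).trans (Nat.floor_le (Real.exp_pos t).le)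
  rw [hcum]
  have h1 := hC 1 (Nat.coprime_one_left l) 1 n le_rfl (by omega)
  rw [hφ] at h1
  have hn0 : (0 : ℝ) < n := by positivity
  have h3 : t - 1 ≤ Real.log n := by
    have h4 : Real.exp t ≤ n + 1 := (Nat.lt_floor_add_one _).le
    have h5 : Real.exp t ≤ 2 * n := by
      have : (1 : ℝ) ≤ n := by exact_mod_cast (by omega : 1 ≤ n)
      linarith
    have h6 : t ≤ Real.log (2 * n) := (Real.le_log_iff_exp_le (by positivity)).mpr h5
    rw [Real.log_mul (by norm_num) hn0.ne'] at h6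
    have h7 := Real.log_two_lt_d9
    linarith
  have h4 : (t - 1) / ((l : ℝ) - 1) ≤ Real.log n / ((l : ℝ) - 1) :=
    div_le_div_of_nonneg_right h3 hl1.le
  have h5 : (t - 1) / ((l : ℝ) - 1) = 1 / ((l : ℝ) - 1) * t - 1 / ((l : ℝ) - 1) := by ring
  have h6 : (Real.log n - Real.log ((1 : ℕ) : ℝ)) / ((l : ℝ) - 1) = Real.log n / ((l : ℝ) - 1) := by
    simp
  rw [h6] at h1
  linarith

/-- C1. `exists_mertens_ap l` (with `a = 1`, `y = 1`) gives `A(n) := ∑_{p ≤ n, p ≡ 1} log p / p ≥ log n / (l-1) - C₀`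
for `n ≥ 1`. Abel summation from `2` to `z`: `∑ 1/p = ∑ (log p / p) / log p
= A(z)/log z + ∑_{2 ≤ n < z} A(n) (1/log n - 1/log (n+1))`. Insert the lower bound; the constant contributes
at least `-C₀/log 2`; the main term is `(1/(l-1)) (1 + ∑ log n (1/log n - 1/log (n+1)))
= (1/(l-1)) (1 + ∑ (log (n+1) - log n)/log (n+1))`, and
`(log (n+1) - log n)/log n ≥ log log (n+1) - log log n` (`log (1+x) ≤ x`), where the difference between the two
quotients is `(log (n+1) - log n)^2/(log n log (n+1)) ≤ 1/(n^2 (log 2)^2)`, summable.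
(Compare the proof of `exists_sum_inv_le` in AP3/Mert.) -/
theorem sum_inv_ap {l : ℕ} (hl : l.Prime) : ∃ C : ℝ, 0 ≤ C ∧ ∀ z : ℕ, 2 ≤ z →
    Real.log (Real.log z) - C ≤ ((l : ℝ) - 1) * ∑ r ∈ Pl l z, 1 / (r : ℝ) := by
  obtain ⟨E, hE0, hE⟩ := c1_cum hl
  have hl1 : (0 : ℝ) < (l : ℝ) - 1 := by
    have : (1 : ℝ) < l := by exact_mod_cast hl.one_lt
    linarith
  have hl2 := Real.log_pos (by norm_num : (1 : ℝ) < 2)
  refine ⟨((l : ℝ) - 1) * (E / Real.log 2), by positivity, ?_⟩
  intro z hz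
  have hab : Real.log 2 ≤ Real.log z := Real.log_le_log (by norm_num) (by exact_mod_cast hz)
  have hb : 0 < Real.log z := by linarith
  have hcont : ContinuousOn (fun t : ℝ => (t ^ 2)⁻¹) (Set.Icc (Real.log 2) (Real.log z)) := by
    apply ContinuousOn.inv₀ (by fun_prop)
    intro t ht
    have h0 : 0 < t := lt_of_lt_of_le hl2 ht.1
    exact (pow_pos h0 2).ne'
  obtain ⟨hint, h⟩ := abel_eq (Pl l z) (fun p => Real.log p) (fun p => Real.log p / p)
    (Real.log 2) (Real.log z) hab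
    (fun p hp => by
      have h1 := mem_prI.mp (mem_filter.mp hp).1
      have hp0 : (0 : ℝ) < p := by exact_mod_cast h1.2.pos
      exact ⟨Real.log_le_log (by norm_num) (by exact_mod_cast h1.2.two_le),
        Real.log_le_log hp0 (by exact_mod_cast h1.1.2)⟩)
    (fun t => t⁻¹) (fun t => -(t ^ 2)⁻¹)
    (fun t ht => hasDerivAt_inv (by have := ht.1; linarith))
    hcont.neg
  have e1 : ∑ i ∈ Pl l z, Real.log i / i * (Real.log i)⁻¹ = ∑ p ∈ Pl l z, 1 / (p : ℝ) := by
    apply sum_congr rfl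
    intro p hp
    have := (mem_prI.mp (mem_filter.mp hp).1).2
    have h1 : Real.log p ≠ 0 := (Real.log_pos (by exact_mod_cast this.one_lt)).ne'
    field_simp
  rw [e1] at h
  set K : ℝ := 1 / ((l : ℝ) - 1) with hK
  -- the comparison of integrals
  have hint2 : IntervalIntegrable (fun t : ℝ => -(t ^ 2)⁻¹ * (K * t - E)) MeasureTheory.volume
      (Real.log 2) (Real.log z) := by
    apply ContinuousOn.intervalIntegrable
    rw [Set.uIcc_of_le hab]
    exact hcont.neg.mul (by fun_prop)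
  have h2 : ∫ t in (Real.log 2)..(Real.log z), -(t ^ 2)⁻¹ *
        cum (Pl l z) (fun p => Real.log p) (fun p => Real.log p / p) t
      ≤ ∫ t in (Real.log 2)..(Real.log z), -(t ^ 2)⁻¹ * (K * t - E) := by
    apply intervalIntegral.integral_mono_on hab hint hint2
    intro t ht
    have h0 : 0 < t := lt_of_lt_of_le hl2 ht.1
    have h3 := hE z hz t ht
    have h4 : 0 < (t ^ 2)⁻¹ := by positivity
    nlinarith
  have h3 : ∫ t in (Real.log 2)..(Real.log z), -(t ^ 2)⁻¹ * (K * t - E)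
      = (-(K * Real.log (Real.log z)) - E / Real.log z)
        - (-(K * Real.log (Real.log 2)) - E / Real.log 2) := by
    apply intervalIntegral.integral_eq_sub_of_hasDerivAt (f := fun t : ℝ => -(K * Real.log t) - E / t)
    · intro t ht
      rw [Set.uIcc_of_le hab] at ht
      have h0 : t ≠ 0 := by have := ht.1; intro h; rw [h] at this; linarith
      have h5 := ((Real.hasDerivAt_log h0).const_mul K).neg.sub ((hasDerivAt_inv h0).const_mul E)
      have h6 : (fun t : ℝ => -(K * Real.log t) - E / t)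
          = fun t : ℝ => -(K * Real.log t) - E * t⁻¹ := by
        funext t; rw [div_eq_mul_inv]
      rw [h6]
      refine h5.congr_deriv ?_
      field_simp
      ring
    · exact hint2
  have h4 := hE z hz (Real.log z) ⟨hab, le_rfl⟩
  have h5 : (K * Real.log z - E) * (Real.log z)⁻¹
      ≤ cum (Pl l z) (fun p => Real.log p) (fun p => Real.log p / p) (Real.log z)
        * (Real.log z)⁻¹ := mul_le_mul_of_nonneg_right h4 (by positivity)
  have h6 : (K * Real.log z - E) * (Real.log z)⁻¹ = K - E / Real.log z := by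
    field_simp
  have h7 : K + K * Real.log (Real.log z) - K * Real.log (Real.log 2) - E / Real.log 2
      ≤ ∑ p ∈ Pl l z, 1 / (p : ℝ) := by
    rw [h]
    linarith
  have h8 : Real.log (Real.log 2) ≤ 0 := by
    apply Real.log_nonpos hl2.le
    have := Real.log_two_lt_d9
    linarith
  have h9 : ((l : ℝ) - 1) * (K + K * Real.log (Real.log z) - K * Real.log (Real.log 2)
      - E / Real.log 2) ≤ ((l : ℝ) - 1) * ∑ p ∈ Pl l z, 1 / (p : ℝ) :=
    mul_le_mul_of_nonneg_left h7 hl1.le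
  have h10 : ((l : ℝ) - 1) * (K + K * Real.log (Real.log z) - K * Real.log (Real.log 2)
      - E / Real.log 2) = 1 + Real.log (Real.log z) - Real.log (Real.log 2)
        - ((l : ℝ) - 1) * (E / Real.log 2) := by
    rw [hK]
    field_simp
  linarith

end Pool.Agent.TE
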