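import Pool.Agent.Lib.MP_f02ea4_nt.TE.A2
import Pool.Agent.Lib.MP_f02ea4_nt.TE.B3
import Pool.Agent.Lib.MP_f02ea4_nt.TE.C1

/-!
# C2: low exponents are thin
-/

set_option autoImplicit false

namespace Pool.Agent.TE

open Finset Nat Pool.Agent.Lib.MP_bae66e_nt.AP3

private lemma c2_card_le (N l x : ℕ) : #(Cl N l x) ≤ x := by
  calc #(Cl N l x) ≤ #(Ioc 0 x) := card_le_card (by
        intro p hp
        have h := mem_filter.mp hp
        exact mem_Ioc.mpr ⟨(Nat.prime_of_mem_primeFactors h.1).pos, h.2.1⟩)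
    _ = x := by rw [Nat.card_Ioc]; omega

private lemma c2_sum_Sp {N : ℕ} (hN : N.Perfect) {l : ℕ} (hl : l.Prime) (z : ℕ) :
    ((l : ℝ) - 1) * ∑ r ∈ Pl l z, 1 / (r : ℝ) - l
      ≤ ((l : ℝ) - 1) * ∑ r ∈ Sp N l z, 1 / (r : ℝ) := by
  have hl1 : (0 : ℝ) < (l : ℝ) - 1 := by
    have : (1 : ℝ) < l := by exact_mod_cast hl.one_lt
    linarith
  have h1 : ∑ r ∈ (Pl l z).filter (fun r => r ∣ N), 1 / (r : ℝ) ≤ 1 := by
    refine le_trans ?_ (sum_inv_le_one hN)
    apply sum_le_sum_of_subset_of_nonneg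
    · intro r hr
      have h2 := mem_filter.mp hr
      have h3 := (mem_prI.mp (mem_filter.mp h2.1).1).2
      exact Nat.mem_primeFactors.mpr ⟨h3, h2.2, hN.2.ne'⟩
    · intro r _ _; positivity
  have h2 : ∑ r ∈ Pl l z, 1 / (r : ℝ) = ∑ r ∈ (Pl l z).filter (fun r => r ∣ N), 1 / (r : ℝ)
      + ∑ r ∈ Sp N l z, 1 / (r : ℝ) := by
    unfold Sp
    rw [sum_filter_add_sum_filter_not]
  rw [h2]
  nlinarith

private lemma c2_hyp {l : ℕ} (hl : l.Prime) {C₁ : ℝ}
    (hC : ∀ y z : ℕ, 1 ≤ y → y ≤ z →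
      |∑ p ∈ prI y z, Real.log p / p - (Real.log z - Real.log y)| ≤ C₁) (z : ℕ) (hz : 1 ≤ z) :
    2 * (∑ r ∈ prI 0 z, Real.log r / r + ((l : ℝ) - 1) * ∑ r ∈ Pl l z, Real.log r / r)
      ≤ 2 * l * (Real.log z + C₁) := by
  have hl1 : (0 : ℝ) < (l : ℝ) - 1 := by
    have : (1 : ℝ) < l := by exact_mod_cast hl.one_lt
    linarith
  have h0 : prI 0 z = prI 1 z := by
    ext p
    rw [mem_prI, mem_prI]
    constructor
    · rintro ⟨⟨_, h1⟩, h2⟩; exact ⟨⟨h2.one_lt, h1⟩, h2⟩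
    · rintro ⟨⟨_, h1⟩, h2⟩; exact ⟨⟨h2.pos, h1⟩, h2⟩
  have h1 : ∑ r ∈ prI 0 z, Real.log r / r ≤ Real.log z + C₁ := by
    rw [h0]
    have := (abs_le.mp (hC 1 z le_rfl hz)).2
    simp at this
    linarith
  have h2 : ∑ r ∈ Pl l z, Real.log r / r ≤ ∑ r ∈ prI 0 z, Real.log r / r := by
    apply sum_le_sum_of_subset_of_nonneg
    · exact filter_subset _ _
    · intro r _ _
      exact log_div_nonneg r
  have h3 : ((l : ℝ) - 1) * ∑ r ∈ Pl l z, Real.log r / r ≤ ((l : ℝ) - 1) * (Real.log z + C₁) :=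
    mul_le_mul_of_nonneg_left (h2.trans h1) hl1.le
  nlinarith

private lemma c2_sq (u : ℝ) (hu : 0 ≤ u) : u ^ 2 ≤ 8 * Real.exp (u / 2) := by
  have h := Real.quadratic_le_exp_of_nonneg (x := u / 2) (by positivity)
  nlinarith

/-- C2a. Parameters, `l` fixed. `C₁ ≥ 0` the constant of `exists_mertens` (`∑_{p ∈ prI 1 z} log p / p ≤ log z + C₁`, `prI 0 z = prI 1 z`
as `1` is not prime), `C₂` the constant of `sum_inv_ap`. For `x` large (depending on `l`) let
`z = ⌊x ^ (1/(64 l))⌋`, `R = ⌊x ^ (1/8)⌋`. As `Pl ⊆ prI 0 z`, the sum in the hypothesis of `class_count` is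
`≤ l (log z + C₁)`; so the hypothesis follows from `2 l (log z + C₁) ≤ (1/32) log x + 2 l C₁ ≤ (1/8) log x - log 2 ≤ log R`.
Further `(l-1) ∑_{Sp} 1/r ≥ (l-1) ∑_{Pl} 1/r - (l-1) ∑_{r ∣ N} 1/r ≥ log log z - C₂ - l` (`sum_inv_le_one`), so the
bound of `class_count` is `≤ x^(1/64) + 2 x e^(C₂ + l) / (log z)^2 + x^(1/2) ≤ C x / (log x)^2`. For the finitely many
other `x ≥ 2` use `#(Cl N l x) ≤ x ≤ C x / (log x)^2`. -/
theorem class_thin {l : ℕ} (hl : l.Prime) (hl2 : l ≠ 2) : ∃ C : ℝ, 0 ≤ C ∧ ∀ N : ℕ, Odd N →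
    N.Perfect → ∀ x : ℕ, 2 ≤ x → (#(Cl N l x) : ℝ) ≤ C * x / (Real.log x) ^ 2 := by
  obtain ⟨C₁, hC₁, hM⟩ := exists_mertens
  obtain ⟨C₂, hC₂, hS⟩ := sum_inv_ap hl
  have hl1 : (1 : ℝ) < l := by exact_mod_cast hl.one_lt
  have hl0 : (0 : ℝ) < l := by linarith
  set U : ℝ := 128 * l + 32 * l * C₁ + 32 with hU
  have hU0 : 0 < U := by positivity
  set A : ℝ := 16 + 2 * (128 * l) ^ 2 * Real.exp (C₂ + l) with hA
  have hA0 : 0 < A := by positivity
  refine ⟨A + U ^ 2, by positivity, ?_⟩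
  intro N hodd hN x hx
  have hx0 : (0 : ℝ) < x := by positivity
  set u : ℝ := Real.log x with hu
  have hu0 : 0 < u := Real.log_pos (by exact_mod_cast hx)
  have hxe : (x : ℝ) = Real.exp u := (Real.exp_log hx0).symm
  rcases lt_or_ge u U with hlt | hge
  · -- small `x`
    have h1 : (#(Cl N l x) : ℝ) ≤ x := by exact_mod_cast c2_card_le N l x
    refine h1.trans ?_
    rw [le_div_iff₀ (by positivity)]
    have h2 : u ^ 2 ≤ U ^ 2 := by nlinarith
    nlinarith
  · -- large `x`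
    have hlog2 := Real.log_two_lt_d9
    have hlog20 := Real.log_two_gt_d9
    have hUl : 128 * (l : ℝ) ≤ u := by
      have : 0 ≤ 32 * (l : ℝ) * C₁ := by positivity
      linarith
    set v : ℝ := u / (64 * l) with hv
    have hv2 : 2 ≤ v := by
      rw [hv, le_div_iff₀ (by positivity)]; linarith
    have hvu : v ≤ u / 64 := by
      rw [hv, div_le_div_iff₀ (by positivity) (by norm_num)]
      nlinarith
    have hev : (4 : ℝ) ≤ Real.exp v := by
      have h1 : Real.exp 2 ≤ Real.exp v := Real.exp_le_exp.mpr hv2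
      have h2 : (4 : ℝ) ≤ Real.exp 2 := by
        have h3 := Real.quadratic_le_exp_of_nonneg (x := 2) (by norm_num)
        linarith
      linarith
    set z : ℕ := ⌊Real.exp v⌋₊ with hz
    have hz2 : 2 ≤ z := Nat.le_floor (by push_cast; linarith)
    have hzR : (2 : ℝ) ≤ z := by exact_mod_cast hz2
    have hzle : (z : ℝ) ≤ Real.exp v := Nat.floor_le (Real.exp_pos v).le
    have hzge : Real.exp v ≤ 2 * z := by
      have h4 : Real.exp v ≤ z + 1 := (Nat.lt_floor_add_one _).le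
      linarith
    have hz0 : (0 : ℝ) < z := by linarith
    have hlogz : v / 2 ≤ Real.log z := by
      have h6 : v ≤ Real.log (2 * z) := (Real.le_log_iff_exp_le (by positivity)).mpr hzge
      rw [Real.log_mul (by norm_num) hz0.ne'] at h6
      linarith
    have hlogz' : Real.log z ≤ v := by
      rw [Real.log_le_iff_le_exp hz0]; exact hzle
    set R : ℕ := ⌊Real.exp (u / 8)⌋₊ with hR
    have hu8 : 2 ≤ u / 8 := by linarith
    have heR : (4 : ℝ) ≤ Real.exp (u / 8) := by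
      have h1 : Real.exp 2 ≤ Real.exp (u / 8) := Real.exp_le_exp.mpr hu8
      have h2 : (4 : ℝ) ≤ Real.exp 2 := by
        have h3 := Real.quadratic_le_exp_of_nonneg (x := 2) (by norm_num)
        linarith
      linarith
    have hR1 : 1 ≤ R := Nat.le_floor (by push_cast; linarith)
    have hR0 : (1 : ℝ) ≤ R := by exact_mod_cast hR1
    have hRle : (R : ℝ) ≤ Real.exp (u / 8) := Nat.floor_le (Real.exp_pos _).le
    have hRge : Real.exp (u / 8) ≤ 2 * R := by
      have h4 : Real.exp (u / 8) ≤ R + 1 := (Nat.lt_floor_add_one _).le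
      linarith
    have hlogR : u / 8 - 1 ≤ Real.log R := by
      have h6 : u / 8 ≤ Real.log (2 * R) := (Real.le_log_iff_exp_le (by positivity)).mpr hRge
      rw [Real.log_mul (by norm_num) (by positivity)] at h6
      linarith
    have hhyp : 2 * (∑ r ∈ prI 0 z, Real.log r / r + ((l : ℝ) - 1) *
        ∑ r ∈ Pl l z, Real.log r / r) ≤ Real.log R := by
      refine (c2_hyp hl hM z (by omega)).trans (le_trans ?_ hlogR)
      have h1 : 2 * (l : ℝ) * (Real.log z + C₁) ≤ 2 * l * (v + C₁) := by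
        apply mul_le_mul_of_nonneg_left _ (by positivity)
        linarith
      have h2 : 2 * (l : ℝ) * v = u / 32 := by
        rw [hv]; field_simp; ring
      have h3 : 2 * (l : ℝ) * (v + C₁) = u / 32 + 2 * l * C₁ := by
        rw [mul_add, h2]
      have h4 : 32 * (l : ℝ) * C₁ + 32 ≤ u := by
        have : 0 ≤ 128 * (l : ℝ) := by positivity
        linarith
      linarith
    have hmain := class_count hodd hN hl hl2 z x R (by omega) hR1 hhyp
    refine hmain.trans ?_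
    -- the small terms
    have hz' : (z : ℝ) ≤ Real.exp (u / 2) := by
      refine hzle.trans (Real.exp_le_exp.mpr ?_)
      linarith
    have hR4 : (R : ℝ) ^ 4 ≤ Real.exp (u / 2) := by
      calc (R : ℝ) ^ 4 ≤ Real.exp (u / 8) ^ 4 := by gcongr
        _ = Real.exp (u / 2) := by rw [← Real.exp_nat_mul]; congr 1; push_cast; ring
    have hsq := c2_sq u hu0.le
    have hhalf : Real.exp (u / 2) ≤ 8 * x / u ^ 2 := by
      rw [le_div_iff₀ (by positivity), hxe]
      calc Real.exp (u / 2) * u ^ 2 ≤ Real.exp (u / 2) * (8 * Real.exp (u / 2)) :=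
            mul_le_mul_of_nonneg_left hsq (Real.exp_pos _).le
        _ = 8 * (Real.exp (u / 2) * Real.exp (u / 2)) := by ring
        _ = 8 * Real.exp u := by rw [← Real.exp_add]; congr 2; ring
    -- the main term
    have hlz0 : 0 < Real.log z := by linarith
    have hsum : Real.log (Real.log z) - C₂ - l ≤ ((l : ℝ) - 1) * ∑ r ∈ Sp N l z, 1 / (r : ℝ) := by
      have h1 := c2_sum_Sp hN hl z
      have h2 := hS z hz2
      linarith
    have hexp : Real.exp (-(((l : ℝ) - 1) * ∑ r ∈ Sp N l z, 1 / (r : ℝ)))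
        ≤ Real.exp (C₂ + l) / Real.log z := by
      calc Real.exp (-(((l : ℝ) - 1) * ∑ r ∈ Sp N l z, 1 / (r : ℝ)))
          ≤ Real.exp ((C₂ + l) - Real.log (Real.log z)) := by
            apply Real.exp_le_exp.mpr; linarith
        _ = Real.exp (C₂ + l) / Real.log z := by rw [Real.exp_sub, Real.exp_log hlz0]
    have hvu' : v / 2 = u / (128 * l) := by
      rw [hv]; field_simp; ring
    have hw0 : 0 < u / (128 * (l : ℝ)) := by positivity
    have hlzu : u / (128 * l) ≤ Real.log z := by rw [← hvu']; exact hlogz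
    have hlz1 : u / (128 * l) ≤ Real.log (z + 1) :=
      hlzu.trans (Real.log_le_log hz0 (by linarith))
    have hA2 : 2 * (x : ℝ) / Real.log (z + 1) *
        Real.exp (-(((l : ℝ) - 1) * ∑ r ∈ Sp N l z, 1 / (r : ℝ)))
        ≤ 2 * (128 * l) ^ 2 * Real.exp (C₂ + l) * x / u ^ 2 := by
      calc 2 * (x : ℝ) / Real.log (z + 1) *
            Real.exp (-(((l : ℝ) - 1) * ∑ r ∈ Sp N l z, 1 / (r : ℝ)))
          ≤ 2 * (x : ℝ) / (u / (128 * l)) * (Real.exp (C₂ + l) / (u / (128 * l))) := by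
            apply mul_le_mul
            · exact div_le_div_of_nonneg_left (by positivity) hw0 hlz1
            · exact hexp.trans (div_le_div_of_nonneg_left (Real.exp_pos _).le hw0 hlzu)
            · exact (Real.exp_pos _).le
            · positivity
        _ = 2 * (128 * l) ^ 2 * Real.exp (C₂ + l) * x / u ^ 2 := by
            field_simp
    have hfin : 2 * (8 * x / u ^ 2) + 2 * (128 * l) ^ 2 * Real.exp (C₂ + l) * x / u ^ 2
        = A * x / u ^ 2 := by
      rw [hA]; ring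
    have hU2 : A * x / u ^ 2 ≤ (A + U ^ 2) * x / u ^ 2 := by
      apply div_le_div_of_nonneg_right _ (by positivity)
      apply mul_le_mul_of_nonneg_right _ hx0.le
      have := sq_nonneg U
      linarith
    linarith

/-- C2b. `card_Lo_le` and `class_thin` for the finitely many `l ∈ ol E`; `1 ≤ 4 x/(log x)^2`. -/
theorem thin (E : ℕ) : ∃ C : ℝ, 0 ≤ C ∧ ∀ N : ℕ, Odd N →
    N.Perfect → ∀ x : ℕ, 2 ≤ x → (#(Lo N E x) : ℝ) ≤ C * x / (Real.log x) ^ 2 := by
  classical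
  have h : ∀ l : ℕ, ∃ C : ℝ, 0 ≤ C ∧ (l ∈ ol E → ∀ N : ℕ, Odd N →
      N.Perfect → ∀ x : ℕ, 2 ≤ x → (#(Cl N l x) : ℝ) ≤ C * x / (Real.log x) ^ 2) := by
    intro l
    by_cases hl : l ∈ ol E
    · have h1 := (mem_filter.mp hl).2
      obtain ⟨C, hC, h2⟩ := class_thin h1.1 h1.2
      exact ⟨C, hC, fun _ => h2⟩
    · exact ⟨0, le_rfl, fun h => absurd h hl⟩
  choose C hC0 hC using h
  refine ⟨8 + ∑ l ∈ ol E, C l, add_nonneg (by norm_num) (sum_nonneg fun l _ => hC0 l), ?_⟩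
  intro N hodd hN x hx
  have hx0 : (0 : ℝ) < x := by positivity
  set u : ℝ := Real.log x with hu
  have hu0 : 0 < u := Real.log_pos (by exact_mod_cast hx)
  have h1 : (#(Lo N E x) : ℝ) ≤ 1 + ∑ l ∈ ol E, (#(Cl N l x) : ℝ) := by
    exact_mod_cast card_Lo_le hodd hN E x
  have h2 : ∑ l ∈ ol E, (#(Cl N l x) : ℝ) ≤ ∑ l ∈ ol E, C l * x / u ^ 2 :=
    sum_le_sum fun l hl => hC l hl N hodd hN x hx
  have h3 : ∑ l ∈ ol E, C l * x / u ^ 2 = (∑ l ∈ ol E, C l) * x / u ^ 2 := by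
    rw [Finset.sum_mul, Finset.sum_div]
  have h4 : (1 : ℝ) ≤ 8 * x / u ^ 2 := by
    rw [le_div_iff₀ (by positivity), one_mul]
    have hxe : (x : ℝ) = Real.exp u := (Real.exp_log hx0).symm
    have h5 := c2_sq u hu0.le
    have h6 : Real.exp (u / 2) ≤ Real.exp u := Real.exp_le_exp.mpr (by linarith)
    rw [hxe]
    linarith
  have h5 : (8 + ∑ l ∈ ol E, C l) * x / u ^ 2 = 8 * x / u ^ 2 + (∑ l ∈ ol E, C l) * x / u ^ 2 := by
    ring
  rw [h5]
  linarith

end Pool.Agent.TE
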