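import Mathlib

/-!
# D1a: Monsky's sequence
-/

set_option autoImplicit false

namespace Pool.Agent.TE

open Finset

/-- `c_n = 1 / (n (1 - r)) - r^n / (1 - r^n)` -/
noncomputable def cm (r : ℝ) (n : ℕ) : ℝ := 1 / (n * (1 - r)) - r ^ n / (1 - r ^ n)

/-- D1a (1). `1/(1-r) - r/(1-r) = 1`. -/
lemma cm_one (r : ℝ) (h0 : 0 < r) (h1 : r < 1) : cm r 1 = 1 := by
  have h : (1 : ℝ) - r ≠ 0 := by linarith
  unfold cm
  rw [Nat.cast_one, pow_one, one_mul, ← sub_div, div_self h]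

/-- the finite geometric sum -/
private lemma d1a_geom (r : ℝ) (n : ℕ) : (1 - r) * ∑ i ∈ range n, r ^ i = 1 - r ^ n := by
  have := geom_sum_mul_neg r n
  linarith

/-- D1a (2). `(1 - r^n)/(1 - r) = 1 + r + ⋯ + r^(n-1) ≥ n r^n`. -/
lemma cm_nonneg (r : ℝ) (h0 : 0 < r) (h1 : r < 1) (n : ℕ) (hn : 1 ≤ n) : 0 ≤ cm r n := by
  have hn' : (0 : ℝ) < n := by exact_mod_cast hn
  have h1r : (0 : ℝ) < 1 - r := by linarith
  have hrn : r ^ n < 1 := pow_lt_one₀ h0.le h1 (by omega)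
  have h1rn : (0 : ℝ) < 1 - r ^ n := by linarith
  have hsum : (n : ℝ) * r ^ n ≤ ∑ i ∈ range n, r ^ i := by
    calc (n : ℝ) * r ^ n = ∑ _i ∈ range n, r ^ n := by
          rw [Finset.sum_const, Finset.card_range, nsmul_eq_mul]
      _ ≤ ∑ i ∈ range n, r ^ i := by
          refine Finset.sum_le_sum fun i hi => ?_
          exact pow_le_pow_of_le_one h0.le h1.le (Finset.mem_range.1 hi).le
  unfold cm
  rw [sub_nonneg, div_le_div_iff₀ h1rn (by positivity), ← d1a_geom r n]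
  nlinarith [mul_le_mul_of_nonneg_left hsum h1r.le]

/-- one pair of terms -/
private lemma d1a_pair (r : ℝ) (h0 : 0 < r) (h1 : r < 1) (n s t : ℕ) (hst : s + t + 1 = 2 * n) :
    2 * r ^ n ≤ r ^ s + r ^ t := by
  have hs : (0 : ℝ) < r ^ s := pow_pos h0 s
  have ht : (0 : ℝ) < r ^ t := pow_pos h0 t
  have h2 : r ^ (2 * n) ≤ r ^ (s + t) := pow_le_pow_of_le_one h0.le h1.le (by omega)
  rw [pow_add, mul_comm 2 n, pow_mul] at h2
  refine le_of_sq_le_sq ?_ (by positivity)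
  nlinarith [sq_nonneg (r ^ s - r ^ t)]

/-- the product of the two geometric sums -/
private lemma d1a_prod (r : ℝ) (h0 : 0 < r) (h1 : r < 1) (n : ℕ) (hn : 1 ≤ n) :
    (n : ℝ) * (n + 1) * r ^ n ≤ (∑ i ∈ range n, r ^ i) * ∑ j ∈ range (n + 1), r ^ j := by
  have e1 : ∑ i ∈ range n, r ^ i = ∑ i ∈ range n, r ^ (n - 1 - i) :=
    (Finset.sum_range_reflect (fun i => r ^ i) n).symm
  have e2 : ∑ j ∈ range (n + 1), r ^ j = ∑ j ∈ range (n + 1), r ^ (n - j) := by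
    rw [← Finset.sum_range_reflect (fun i => r ^ i) (n + 1)]
    rfl
  have k1 : (∑ i ∈ range n, r ^ i) * ∑ j ∈ range (n + 1), r ^ j
      = ∑ i ∈ range n, ∑ j ∈ range (n + 1), r ^ (i + j) := by
    rw [Finset.sum_mul_sum]
    simp only [pow_add]
  have k2 : (∑ i ∈ range n, r ^ i) * ∑ j ∈ range (n + 1), r ^ j
      = ∑ i ∈ range n, ∑ j ∈ range (n + 1), r ^ ((n - 1 - i) + (n - j)) := by
    rw [e1, e2, Finset.sum_mul_sum]
    simp only [pow_add]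
  have k3 : ∑ i ∈ range n, ∑ j ∈ range (n + 1), (2 * r ^ n)
      ≤ ∑ i ∈ range n, ∑ j ∈ range (n + 1), (r ^ (i + j) + r ^ ((n - 1 - i) + (n - j))) := by
    refine Finset.sum_le_sum fun i hi => Finset.sum_le_sum fun j hj => ?_
    have hi' := Finset.mem_range.1 hi
    have hj' := Finset.mem_range.1 hj
    exact d1a_pair r h0 h1 n _ _ (by omega)
  simp only [Finset.sum_add_distrib] at k3
  rw [← k1, ← k2] at k3
  simp only [Finset.sum_const, Finset.card_range, nsmul_eq_mul] at k3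
  push_cast at k3
  nlinarith [k3]

/-- D1a (3). `(1-r) (c_n - c_{n+1}) = 1/(n(n+1)) - r^n (1-r)^2 / ((1-r^n)(1-r^(n+1)))` and, with
`A = (1-r^n)/(1-r) = ∑_{i<n} r^i` and `B = (1-r^(n+1))/(1-r) = ∑_{i ≤ n} r^i`, one has `A B ≥ n (n+1) r^n`:
by AM-GM `A ≥ n r^((n-1)/2)`, `B ≥ (n+1) r^(n/2)`, i.e. `A^2 ≥ n^2 r^(n-1)`, `B^2 ≥ (n+1)^2 r^n` (pairing
`r^i + r^(n-1-i) ≥ 2 r^((n-1)/2)`; or with `u = √r`: `∑_{i<n} u^(2i) ≥ n u^(n-1)`), so
`(A B)^2 ≥ n^2 (n+1)^2 r^(2n-1) ≥ (n (n+1) r^n)^2`. -/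
lemma cm_anti (r : ℝ) (h0 : 0 < r) (h1 : r < 1) (n : ℕ) (hn : 1 ≤ n) : cm r (n + 1) ≤ cm r n := by
  have hn' : (0 : ℝ) < n := by exact_mod_cast hn
  have h1r : (0 : ℝ) < 1 - r := by linarith
  have hrn : r ^ n < 1 := pow_lt_one₀ h0.le h1 (by omega)
  have hrn1 : r ^ (n + 1) < 1 := pow_lt_one₀ h0.le h1 (by omega)
  have h1rn : (0 : ℝ) < 1 - r ^ n := by linarith
  have h1rn1 : (0 : ℝ) < 1 - r ^ (n + 1) := by linarith
  have hp := d1a_prod r h0 h1 n hn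
  have hkey : (n : ℝ) * (n + 1) * r ^ n * (1 - r) ^ 2 ≤ (1 - r ^ n) * (1 - r ^ (n + 1)) := by
    rw [← d1a_geom r n, ← d1a_geom r (n + 1)]
    nlinarith [mul_le_mul_of_nonneg_left hp (sq_nonneg (1 - r))]
  have hid : cm r n - cm r (n + 1)
      = ((1 - r ^ n) * (1 - r ^ (n + 1)) - (n : ℝ) * (n + 1) * r ^ n * (1 - r) ^ 2)
        / (n * (n + 1) * (1 - r) * ((1 - r ^ n) * (1 - r ^ (n + 1)))) := by
    unfold cm
    push_cast
    have hn1 : (n : ℝ) + 1 ≠ 0 := by positivity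
    field_simp
    ring
  have : 0 ≤ cm r n - cm r (n + 1) := by
    rw [hid]
    refine div_nonneg (by linarith) (by positivity)
  linarith

end Pool.Agent.TE
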