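import Pool.Agent.Lib.MP_f02ea4_nt.TE.D1a
import Pool.Agent.Lib.MP_bae66e_nt.AP3.PrimeAP

/-!
# D1b: lower bound for `L(1, χ)`, `χ` real (after Monsky)
-/

set_option autoImplicit false

namespace Pool.Agent.TE

open Finset Nat Pool.Agent.Lib.MP_bae66e_nt.AP3

private lemma d1b_zm (q : ℕ) [NeZero q] (χ : DirichletCharacter ℂ q) (n : ℕ) :
    ∑ d ∈ n.divisors, χ (d : ZMod q) = DirichletCharacter.zetaMul χ n := by
  unfold DirichletCharacter.zetaMul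
  rw [ArithmeticFunction.coe_zeta_mul_apply]
  refine Finset.sum_congr rfl fun d hd => ?_
  have hd0 : d ≠ 0 := (Nat.pos_of_mem_divisors hd).ne'
  simp [toArithmeticFunction, hd0]

private lemma d1b_pp (q : ℕ) [NeZero q] (χ : DirichletCharacter ℂ q) (h2 : χ ^ 2 = 1) (p : ℕ)
    (hp : p.Prime) (k : ℕ) (hk : Even k) :
    ∃ a : ℝ, 1 ≤ a ∧ DirichletCharacter.zetaMul χ (p ^ k) = (a : ℂ) := by
  rw [← d1b_zm, Nat.sum_divisors_prime_pow hp]
  have h3 : ∀ i ∈ range (k + 1), χ ((p ^ i : ℕ) : ZMod q) = χ (p : ZMod q) ^ i := by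
    intro i _
    push_cast
    rw [map_pow]
  rw [Finset.sum_congr rfl h3]
  rcases MulChar.isQuadratic_iff_sq_eq_one.mpr h2 (p : ZMod q) with h | h | h
  · refine ⟨1, le_rfl, ?_⟩
    rw [h, Finset.sum_range_succ']
    simp
  · refine ⟨k + 1, by linarith [(Nat.cast_nonneg k : (0 : ℝ) ≤ k)], ?_⟩
    rw [h]
    simp
  · refine ⟨1, le_rfl, ?_⟩
    rw [h, neg_one_geom_sum, if_neg]
    · simp
    · intro h4
      rw [Nat.even_add_one] at h4
      exact h4 hk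

/-- D1b (1). `a(n) = ∑_{d ∣ n} χ(d)` is real and `≥ 0`, and `≥ 1` if `n = m ^ 2`, `m ≥ 1`: `χ` is real valued
(`χ ^ 2 = 1`: values `0, 1, -1`), `a` is multiplicative, `a(p^k) = ∑_{j ≤ k} χ(p)^j ≥ 0`, `≥ 1` for even `k`.
(Mathlib's file NumberTheory/LSeries/Nonvanishing has `DirichletCharacter.zetaMul` with
`zetaMul_nonneg`, `zetaMul_prime_pow_nonneg`; some of these may be private.) -/
lemma a_nonneg (q : ℕ) [NeZero q] (χ : DirichletCharacter ℂ q) (h2 : χ ^ 2 = 1) (n : ℕ)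
    (hn : 1 ≤ n) : ∃ a : ℝ, 0 ≤ a ∧ ∑ d ∈ n.divisors, χ (d : ZMod q) = (a : ℂ) := by
  rw [d1b_zm]
  have h := DirichletCharacter.zetaMul_nonneg h2 n
  rw [Complex.le_def] at h
  refine ⟨(DirichletCharacter.zetaMul χ n).re, h.1, ?_⟩
  refine Complex.ext rfl ?_
  rw [Complex.ofReal_im]
  exact h.2.symm

lemma a_sq (q : ℕ) [NeZero q] (χ : DirichletCharacter ℂ q) (h2 : χ ^ 2 = 1) (m : ℕ)
    (hm : 1 ≤ m) : ∃ a : ℝ, 1 ≤ a ∧ ∑ d ∈ (m ^ 2).divisors, χ (d : ZMod q) = (a : ℂ) := by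
  classical
  rw [d1b_zm]
  have hm2 : m ^ 2 ≠ 0 := by positivity
  rw [χ.isMultiplicative_zetaMul.multiplicative_factorization _ hm2]
  have hpp : ∀ p ∈ (m ^ 2).factorization.support, ∃ a : ℝ, 1 ≤ a ∧
      DirichletCharacter.zetaMul χ (p ^ (m ^ 2).factorization p) = (a : ℂ) := by
    intro p hp
    rw [Nat.support_factorization] at hp
    refine d1b_pp q χ h2 p (Nat.prime_of_mem_primeFactors hp) _ ?_
    rw [Nat.factorization_pow]
    exact ⟨m.factorization p, by simp [two_mul]⟩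
  choose! b hb1 hb2 using hpp
  refine ⟨∏ p ∈ (m ^ 2).factorization.support, b p, ?_, ?_⟩
  · calc (1 : ℝ) = ∏ p ∈ (m ^ 2).factorization.support, (1 : ℝ) := by simp
      _ ≤ ∏ p ∈ (m ^ 2).factorization.support, b p :=
        Finset.prod_le_prod (fun _ _ => zero_le_one) hb1
  · rw [Complex.ofReal_prod]
    exact Finset.prod_congr rfl hb2

private lemma d1b_swap (y : ℕ) (F : ℕ → ℕ → ℂ) :
    ∑ n ∈ Ioc 0 y, ∑ d ∈ n.divisors, F d n =
      ∑ d ∈ Ioc 0 y, ∑ m ∈ Ioc 0 (y / d), F d (d * m) := by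
  rw [Finset.sum_sigma', Finset.sum_sigma']
  refine Finset.sum_nbij' (fun x => ⟨x.2, x.1 / x.2⟩) (fun x => ⟨x.1 * x.2, x.1⟩) ?_ ?_ ?_ ?_ ?_
  · rintro ⟨n, d⟩ h
    simp only [Finset.mem_sigma, Finset.mem_Ioc, Nat.mem_divisors] at h ⊢
    obtain ⟨⟨h1, h2⟩, h3, h4⟩ := h
    have hd : 0 < d := Nat.pos_of_dvd_of_pos h3 h1
    have hdn : d ≤ n := Nat.le_of_dvd h1 h3
    refine ⟨⟨hd, hdn.trans h2⟩, Nat.div_pos hdn hd, Nat.div_le_div_right h2⟩
  · rintro ⟨d, m⟩ h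
    simp only [Finset.mem_sigma, Finset.mem_Ioc, Nat.mem_divisors] at h ⊢
    obtain ⟨⟨h1, h2⟩, h3, h4⟩ := h
    refine ⟨⟨Nat.mul_pos h1 h3, ?_⟩, Dvd.intro m rfl, (Nat.mul_pos h1 h3).ne'⟩
    calc d * m ≤ d * (y / d) := Nat.mul_le_mul_left d h4
      _ ≤ y := Nat.mul_div_le y d
  · rintro ⟨n, d⟩ h
    simp only [Finset.mem_sigma, Finset.mem_Ioc, Nat.mem_divisors] at h
    obtain ⟨⟨h1, h2⟩, h3, h4⟩ := h
    simp only [Nat.mul_div_cancel' h3]
  · rintro ⟨d, m⟩ h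
    simp only [Finset.mem_sigma, Finset.mem_Ioc] at h
    obtain ⟨⟨h1, h2⟩, h3, h4⟩ := h
    simp only [Nat.mul_div_cancel_left m h1]
  · rintro ⟨n, d⟩ h
    simp only [Finset.mem_sigma, Finset.mem_Ioc, Nat.mem_divisors] at h
    obtain ⟨⟨h1, h2⟩, h3, h4⟩ := h
    simp only [Nat.mul_div_cancel' h3]

private lemma d1b_geom (r : ℝ) (h0 : 0 < r) (h1 : r < 1) (d k : ℕ) (hd : 1 ≤ d) :
    ∑ m ∈ Ioc 0 k, r ^ (d * m) = r ^ d / (1 - r ^ d) - r ^ (d * (k + 1)) / (1 - r ^ d) := by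
  have hrd : r ^ d < 1 := pow_lt_one₀ h0.le h1 (by omega)
  have hne : 1 - r ^ d ≠ 0 := by linarith
  induction k with
  | zero => simp
  | succ k ih =>
    rw [← Finset.insert_Ioc_right_eq_Ioc_add_one (by omega : 0 ≤ k), Finset.sum_insert (by simp), ih]
    rw [show d * (k + 1 + 1) = d * (k + 1) + d by ring, pow_add]
    field_simp
    ring

/-- D1b (2). Finite form of the Lambert series. For `y ≥ M ^ 2`, `0 < r < 1`:
`∑_{d ≤ y} χ(d) ∑_{m ≤ y/d} r^(dm) = ∑_{n ≤ y} a(n) r^n`, real, `≥ ∑_{m ≤ M} r^(m^2) ≥ M r^(M^2)`. And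
`∑_{m ≤ y/d} r^(dm) = r^d/(1-r^d) - r^(d (y/d + 1))/(1-r^d)` where `d (⌊y/d⌋ + 1) ≥ y + 1` and `1 - r^d ≥ 1 - r`. -/
lemma lambert_lower (q : ℕ) [NeZero q] (χ : DirichletCharacter ℂ q) (h2 : χ ^ 2 = 1) (r : ℝ)
    (h0 : 0 < r) (h1 : r < 1) (M y : ℕ) (hy : M ^ 2 ≤ y) :
    M * r ^ (M ^ 2) ≤ ‖∑ d ∈ Ioc 0 y, χ (d : ZMod q) * ((r ^ d / (1 - r ^ d) : ℝ) : ℂ)‖
      + y * (r ^ (y + 1) / (1 - r)) := by
  have h1r : 0 < 1 - r := by linarith
  -- the coefficients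
  have ha : ∀ n : ℕ, ∃ a : ℝ, 0 ≤ a ∧ ∑ d ∈ n.divisors, χ (d : ZMod q) = (a : ℂ) := by
    intro n
    rcases Nat.eq_zero_or_pos n with rfl | hn
    · exact ⟨0, le_rfl, by simp⟩
    · exact a_nonneg q χ h2 n hn
  choose a ha0 ha1 using ha
  have hsq : ∀ m : ℕ, 1 ≤ m → 1 ≤ a (m ^ 2) := by
    intro m hm
    obtain ⟨b, hb1, hb2⟩ := a_sq q χ h2 m hm
    have : (a (m ^ 2) : ℂ) = (b : ℂ) := by rw [← ha1, hb2]
    have h3 : a (m ^ 2) = b := by exact_mod_cast this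
    rw [h3]
    exact hb1
  -- lower bound of the power series
  have hlow : (M : ℝ) * r ^ (M ^ 2) ≤ ∑ n ∈ Ioc 0 y, a n * r ^ n := by
    have hinj : Set.InjOn (fun m : ℕ => m ^ 2) (Ioc 0 M : Finset ℕ) := by
      intro m _ m' _ h
      exact Nat.pow_left_injective (by norm_num : (2 : ℕ) ≠ 0) h
    have hsub : (Ioc 0 M).image (fun m : ℕ => m ^ 2) ⊆ Ioc 0 y := by
      intro n hn
      obtain ⟨m, hm, rfl⟩ := Finset.mem_image.1 hn
      rw [Finset.mem_Ioc] at hm ⊢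
      refine ⟨by have := hm.1; positivity, le_trans (Nat.pow_le_pow_left hm.2 2) hy⟩
    calc (M : ℝ) * r ^ (M ^ 2) = ∑ _m ∈ Ioc 0 M, r ^ (M ^ 2) := by
          rw [Finset.sum_const, Nat.card_Ioc, nsmul_eq_mul, Nat.sub_zero]
      _ ≤ ∑ m ∈ Ioc 0 M, a (m ^ 2) * r ^ (m ^ 2) := by
          refine Finset.sum_le_sum fun m hm => ?_
          rw [Finset.mem_Ioc] at hm
          have h3 : r ^ (M ^ 2) ≤ r ^ (m ^ 2) :=
            pow_le_pow_of_le_one h0.le h1.le (Nat.pow_le_pow_left hm.2 2)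
          have h4 : 0 < r ^ (m ^ 2) := by positivity
          have h5 := hsq m hm.1
          nlinarith
      _ = ∑ n ∈ (Ioc 0 M).image (fun m : ℕ => m ^ 2), a n * r ^ n := by
          rw [Finset.sum_image hinj]
      _ ≤ ∑ n ∈ Ioc 0 y, a n * r ^ n := by
          refine Finset.sum_le_sum_of_subset_of_nonneg hsub fun n _ _ => ?_
          have := ha0 n
          positivity
  -- the identity
  have hid : ((∑ n ∈ Ioc 0 y, a n * r ^ n : ℝ) : ℂ) =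
      ∑ d ∈ Ioc 0 y, χ (d : ZMod q) * ((r ^ d / (1 - r ^ d) : ℝ) : ℂ) -
      ∑ d ∈ Ioc 0 y, χ (d : ZMod q) * ((r ^ (d * (y / d + 1)) / (1 - r ^ d) : ℝ) : ℂ) := by
    rw [← Finset.sum_sub_distrib]
    have e1 : ((∑ n ∈ Ioc 0 y, a n * r ^ n : ℝ) : ℂ) =
        ∑ n ∈ Ioc 0 y, ∑ d ∈ n.divisors, χ (d : ZMod q) * (r : ℂ) ^ n := by
      push_cast
      refine Finset.sum_congr rfl fun n _ => ?_
      rw [← ha1, Finset.sum_mul]
    rw [e1, d1b_swap y (fun d n => χ (d : ZMod q) * (r : ℂ) ^ n)]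
    refine Finset.sum_congr rfl fun d hd => ?_
    rw [Finset.mem_Ioc] at hd
    rw [← mul_sub, ← Complex.ofReal_sub, ← d1b_geom r h0 h1 d (y / d) hd.1, ← Finset.mul_sum]
    push_cast
    rfl
  have herr : ‖∑ d ∈ Ioc 0 y, χ (d : ZMod q) * ((r ^ (d * (y / d + 1)) / (1 - r ^ d) : ℝ) : ℂ)‖ ≤
      y * (r ^ (y + 1) / (1 - r)) := by
    refine (norm_sum_le _ _).trans ?_
    calc ∑ d ∈ Ioc 0 y, ‖χ (d : ZMod q) * ((r ^ (d * (y / d + 1)) / (1 - r ^ d) : ℝ) : ℂ)‖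
        ≤ ∑ _d ∈ Ioc 0 y, r ^ (y + 1) / (1 - r) := by
          refine Finset.sum_le_sum fun d hd => ?_
          rw [Finset.mem_Ioc] at hd
          have hrd : r ^ d ≤ r := by
            calc r ^ d ≤ r ^ 1 := pow_le_pow_of_le_one h0.le h1.le hd.1
              _ = r := pow_one r
          have h3 : r ^ (d * (y / d + 1)) ≤ r ^ (y + 1) := by
            refine pow_le_pow_of_le_one h0.le h1.le ?_
            have := Nat.lt_mul_div_succ y hd.1
            omega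
          have h4 : 0 < r ^ (d * (y / d + 1)) := by positivity
          rw [norm_mul, Complex.norm_real, Real.norm_eq_abs, abs_of_nonneg (by
            apply div_nonneg h4.le; linarith)]
          calc ‖χ (d : ZMod q)‖ * (r ^ (d * (y / d + 1)) / (1 - r ^ d))
              ≤ 1 * (r ^ (d * (y / d + 1)) / (1 - r ^ d)) := by
                apply mul_le_mul_of_nonneg_right (χ.norm_le_one _)
                apply div_nonneg h4.le; linarith
            _ = r ^ (d * (y / d + 1)) / (1 - r ^ d) := one_mul _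
            _ ≤ r ^ (y + 1) / (1 - r) := by
                apply div_le_div₀ (by positivity) h3 h1r
                linarith
      _ = y * (r ^ (y + 1) / (1 - r)) := by
          rw [Finset.sum_const, Nat.card_Ioc, nsmul_eq_mul, Nat.sub_zero]
  have hS : (∑ n ∈ Ioc 0 y, a n * r ^ n) ≤
      ‖∑ d ∈ Ioc 0 y, χ (d : ZMod q) * ((r ^ d / (1 - r ^ d) : ℝ) : ℂ)‖ +
      ‖∑ d ∈ Ioc 0 y, χ (d : ZMod q) * ((r ^ (d * (y / d + 1)) / (1 - r ^ d) : ℝ) : ℂ)‖ := by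
    refine le_trans ?_ (norm_sub_le _ _)
    rw [← hid, Complex.norm_real]
    exact Real.le_norm_self _
  linarith

end Pool.Agent.TE
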