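import Mathlib
import Pool.Agent.Lib.MP_9cfc0a_nt.An3

/-!
# D2: bounds for `L(s, χ)` and `L'(s, χ)` near `s = 1`
-/

set_option autoImplicit false

namespace Pool.Agent.TE

open Complex Metric Set

/-- trivial bound for the partial sums of a non-principal character -/
theorem RC_norm_le_self (q : ℕ) [NeZero q] (χ : DirichletCharacter ℂ q) (hχ : χ ≠ 1) (t : ℝ)
    (ht : 1 < t) : ‖MC.RC q χ t‖ ≤ t := by
  unfold MC.RC MC.SumC
  rw [MC.densC_eq_zero q χ hχ, zero_mul, sub_zero]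
  refine (norm_sum_le _ _).trans ?_
  calc ∑ k ∈ Finset.Icc 1 ⌊t⌋₊, ‖χ (k : ZMod q)‖ ≤ ∑ _k ∈ Finset.Icc 1 ⌊t⌋₊, (1 : ℝ) :=
        Finset.sum_le_sum fun k _ => χ.norm_le_one _
    _ = (⌊t⌋₊ : ℝ) := by simp
    _ ≤ t := Nat.floor_le (by linarith)

/-- interpolation between the two bounds -/
theorem RC_interp (q : ℕ) [NeZero q] (χ : DirichletCharacter ℂ q) (hχ : χ ≠ 1) (θ : ℝ)
    (h0 : 0 ≤ θ) (h1 : θ ≤ 1) (t : ℝ) (ht : 1 < t) :
    ‖MC.RC q χ t‖ ≤ (2 * q + 1 : ℝ) ^ θ * t ^ (1 - θ) := by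
  have ha := RC_norm_le_self q χ hχ t ht
  have hb := MC.RC_bound q χ t ht
  rw [Real.rpow_zero, mul_one] at hb
  have hn : 0 ≤ ‖MC.RC q χ t‖ := norm_nonneg _
  calc ‖MC.RC q χ t‖ = ‖MC.RC q χ t‖ ^ (θ + (1 - θ)) := by
        rw [show θ + (1 - θ) = 1 by ring, Real.rpow_one]
    _ = ‖MC.RC q χ t‖ ^ θ * ‖MC.RC q χ t‖ ^ (1 - θ) := by
        rw [Real.rpow_add_of_nonneg hn h0 (by linarith)]
    _ ≤ (2 * q + 1 : ℝ) ^ θ * t ^ (1 - θ) := by
        apply mul_le_mul
        · exact Real.rpow_le_rpow hn hb h0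
        · exact Real.rpow_le_rpow hn ha (by linarith)
        · exact Real.rpow_nonneg hn _
        · positivity

theorem chi_ne_one_three_le (q : ℕ) [NeZero q] (χ : DirichletCharacter ℂ q) (hχ : χ ≠ 1) :
    3 ≤ q := by
  by_contra h
  have hq : q = 1 ∨ q = 2 := by
    have := NeZero.ne q
    omega
  rcases hq with rfl | rfl
  · apply hχ
    exact Subsingleton.elim _ _
  · apply hχ
    have : Subsingleton (ZMod 2)ˣ := by
      constructor
      decide
    apply MulChar.ext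
    intro a
    rw [Subsingleton.elim a 1]
    simp

/-- D2a. -/
theorem L_bound : ∃ C : ℝ, 1 ≤ C ∧ ∀ (q : ℕ) [NeZero q] (χ : DirichletCharacter ℂ q), χ ≠ 1 →
    ∀ s : ℂ, 1 - 1 / Real.log (q + 2) ≤ s.re → ‖s‖ ≤ 3 →
      ‖χ.LFunction s‖ ≤ C * Real.log (q + 2) := by
  refine ⟨3 * Real.exp 4 + 132, ?_, ?_⟩
  · have := Real.exp_pos 4
    linarith
  intro q _ χ hχ s hs hs3
  have hq3 := chi_ne_one_three_le q χ hχ
  have hq3' : (3 : ℝ) ≤ q := by exact_mod_cast hq3
  have he4 : 0 < Real.exp 4 := Real.exp_pos 4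
  set l : ℝ := Real.log (q + 2) with hl
  have hexp1 : Real.exp 1 < 2.7182818286 := Real.exp_one_lt_d9
  have hl43 : 4 / 3 < l := by
    rw [hl, Real.lt_log_iff_exp_lt (by linarith)]
    have h1 : Real.exp (4 / 3) ^ 3 = Real.exp 1 ^ 4 := by
      rw [← Real.exp_nat_mul, ← Real.exp_nat_mul]
      congr 1
      norm_num
    have h2 : Real.exp 1 ^ 4 < (5 : ℝ) ^ 3 := by
      have h3 : Real.exp 1 ^ 4 < (2.7182818286 : ℝ) ^ 4 :=
        pow_lt_pow_left₀ hexp1 (Real.exp_pos 1).le (by norm_num)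
      refine h3.trans ?_
      norm_num
    have h4 : Real.exp (4 / 3) < 5 := by
      refine lt_of_pow_lt_pow_left₀ 3 (by norm_num) ?_
      rw [h1]; exact h2
    linarith
  have hl0 : 0 < l := by linarith
  have hre : 1 / 4 < s.re := by
    have : 1 / l < 3 / 4 := by
      rw [div_lt_iff₀ hl0]
      linarith
    linarith
  have hLM : χ.LFunction s = s * MC.MT (MC.RC q χ) s := by
    rw [← MC.FF_of_ne q χ hχ]
    exact MC.FF_eq_MT q χ hχ s (by linarith)
  rw [hLM, norm_mul]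
  rcases le_or_gt 6 q with h6 | h6
  · -- large q
    have h6' : (6 : ℝ) ≤ q := by exact_mod_cast h6
    have hl2 : 2 ≤ l := by
      rw [hl, Real.le_log_iff_exp_le (by linarith)]
      have h1 : Real.exp 2 = Real.exp 1 ^ 2 := by
        rw [← Real.exp_nat_mul]
        norm_num
      rw [h1]
      have h3 : Real.exp 1 ^ 2 < (2.7182818286 : ℝ) ^ 2 :=
        pow_lt_pow_left₀ hexp1 (Real.exp_pos 1).le (by norm_num)
      have h4 : (2.7182818286 : ℝ) ^ 2 < 8 := by norm_num
      linarith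
    have hθ0 : 0 ≤ 2 / l := by positivity
    have hθ1 : 2 / l ≤ 1 := by
      rw [div_le_one hl0]
      exact hl2
    have hM := MC.MT_norm_le (MC.RC q χ) ((2 * q + 1 : ℝ) ^ (2 / l)) (1 - 2 / l)
      (fun t ht => RC_interp q χ hχ (2 / l) hθ0 hθ1 t ht) s (by
        have : 1 / l < 2 / l := by
          apply div_lt_div_of_pos_right _ hl0
          norm_num
        linarith)
    have hC : (2 * q + 1 : ℝ) ^ (2 / l) ≤ Real.exp 4 := by
      have h1 : (2 * q + 1 : ℝ) ≤ Real.exp (2 * l) := by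
        have h2 : Real.exp (2 * l) = (q + 2 : ℝ) ^ 2 := by
          rw [two_mul, Real.exp_add, hl, Real.exp_log (by linarith)]
          ring
        rw [h2]
        nlinarith
      calc (2 * q + 1 : ℝ) ^ (2 / l) ≤ (Real.exp (2 * l)) ^ (2 / l) :=
            Real.rpow_le_rpow (by positivity) h1 hθ0
        _ = Real.exp 4 := by
            rw [← Real.exp_mul]
            congr 1
            field_simp
            norm_num
    have hden : 1 / l ≤ s.re - (1 - 2 / l) := by
      have : 2 / l = 1 / l + 1 / l := by ring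
      rw [this]
      linarith
    have hM2 : ‖MC.MT (MC.RC q χ) s‖ ≤ Real.exp 4 * l := by
      refine hM.trans ?_
      have h1l : 0 < 1 / l := by positivity
      rw [div_le_iff₀ (lt_of_lt_of_le h1l hden)]
      calc (2 * q + 1 : ℝ) ^ (2 / l) ≤ Real.exp 4 := hC
        _ = Real.exp 4 * l * (1 / l) := by
            field_simp
        _ ≤ Real.exp 4 * l * (s.re - (1 - 2 / l)) := by
            apply mul_le_mul_of_nonneg_left hden
            positivity
    calc ‖s‖ * ‖MC.MT (MC.RC q χ) s‖ ≤ 3 * (Real.exp 4 * l) := by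
          apply mul_le_mul hs3 hM2 (norm_nonneg _) (by norm_num)
      _ ≤ (3 * Real.exp 4 + 132) * l := by nlinarith
  · have h5 : (q : ℝ) ≤ 5 := by
      have : q ≤ 5 := by omega
      exact_mod_cast this
    have hM := MC.MT_norm_le (MC.RC q χ) (2 * q + 1 : ℝ) 0
      (fun t ht => MC.RC_bound q χ t ht) s (by linarith)
    have hM2 : ‖MC.MT (MC.RC q χ) s‖ ≤ 44 := by
      refine hM.trans ?_
      rw [div_le_iff₀ (by linarith)]
      nlinarith
    calc ‖s‖ * ‖MC.MT (MC.RC q χ) s‖ ≤ 3 * 44 := by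
          apply mul_le_mul hs3 hM2 (norm_nonneg _) (by norm_num)
      _ ≤ (3 * Real.exp 4 + 132) * l := by nlinarith

/-- D2b. -/
theorem L_deriv_bound : ∃ C : ℝ, 1 ≤ C ∧ ∀ (q : ℕ) [NeZero q] (χ : DirichletCharacter ℂ q), χ ≠ 1 →
    ∀ σ : ℝ, 1 - 1 / (4 * Real.log (q + 2)) ≤ σ → σ ≤ 1 →
      ‖deriv χ.LFunction (σ : ℂ)‖ ≤ C * (Real.log (q + 2)) ^ 2 := by
  obtain ⟨C, hC1, hC⟩ := L_bound
  refine ⟨2 * C, by linarith, ?_⟩
  intro q _ χ hχ σ hσ hσ1
  have hq3 := chi_ne_one_three_le q χ hχ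
  have hq3' : (3 : ℝ) ≤ q := by exact_mod_cast hq3
  set l : ℝ := Real.log (q + 2) with hl
  have hexp1 : Real.exp 1 < 2.7182818286 := Real.exp_one_lt_d9
  have hl1 : 1 < l := by
    rw [hl, Real.lt_log_iff_exp_lt (by linarith)]
    linarith
  have hl0 : 0 < l := by linarith
  have hinv : 1 / l < 1 := by
    rw [div_lt_one hl0]; exact hl1
  have hinv0 : 0 < 1 / l := by positivity
  have e4 : 1 / (4 * l) = 1 / 4 * (1 / l) := by field_simp
  have e2 : 1 / (2 * l) = 1 / 2 * (1 / l) := by field_simp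
  rw [e4] at hσ
  have hr : 0 < 1 / (2 * l) := by positivity
  have hd : Differentiable ℂ χ.LFunction := DirichletCharacter.differentiable_LFunction hχ
  have hcauchy := Complex.norm_deriv_le_of_forall_mem_sphere_norm_le (c := (σ : ℂ))
    (R := 1 / (2 * l)) (C := C * l) (f := χ.LFunction) hr hd.diffContOnCl (by
      intro z hz
      rw [mem_sphere_iff_norm] at hz
      have hre : |(z - (σ : ℂ)).re| ≤ 1 / (2 * l) := by
        rw [← hz]; exact Complex.abs_re_le_norm _
      rw [Complex.sub_re, Complex.ofReal_re, abs_le] at hre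
      rw [e2] at hre
      have hzn : ‖z‖ ≤ 3 := by
        calc ‖z‖ = ‖(z - (σ : ℂ)) + (σ : ℂ)‖ := by ring_nf
          _ ≤ ‖z - (σ : ℂ)‖ + ‖(σ : ℂ)‖ := norm_add_le _ _
          _ ≤ 1 / (2 * l) + 1 := by
              rw [hz]
              have : ‖(σ : ℂ)‖ ≤ 1 := by
                rw [Complex.norm_real, Real.norm_eq_abs, abs_le]
                constructor <;> linarith
              linarith
          _ ≤ 3 := by
              rw [e2]
              linarith
      refine hC q χ hχ z ?_ hzn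
      rw [← hl]
      linarith [hre.1])
  refine hcauchy.trans (le_of_eq ?_)
  field_simp

end Pool.Agent.TE
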