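import Pool.Agent.Lib.MP_f02ea4_nt.TE.P2
import Pool.Agent.Lib.MP_f02ea4_nt.TE.D2

/-!
# D3: real zeros are not too close to `1`
-/

set_option autoImplicit false

namespace Pool.Agent.TE

open Complex Metric Set

/-- D3. `1/(72 √l (1 + log l)) ≤ ‖L(1)‖ = ‖L(1) - L(β)‖ ≤ (1 - β) C (log (l+2))^2` by `L1_lower` and the mean value
inequality on the real segment `[β, 1]` (`L_deriv_bound`, `Convex.norm_image_sub_le_of_norm_deriv_le` for the segment in
`ℂ`, or `norm_image_sub_le_of_norm_deriv_le_segment'` for `t ↦ L(t)`); `1 + log l ≤ 2 log (l+2)` (`l ≥ 2`, `log 4 ≥ 1`). -/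
theorem real_zero_gap : ∃ c : ℝ, 0 < c ∧ ∀ (l : ℕ) [NeZero l] (χ : DirichletCharacter ℂ l),
    l.Prime → χ ≠ 1 → χ ^ 2 = 1 → ∀ β : ℝ, 1 - 1 / (4 * Real.log (l + 2)) ≤ β → β ≤ 1 →
      χ.LFunction (β : ℂ) = 0 → c / (Real.sqrt l * (Real.log (l + 2)) ^ 3) ≤ 1 - β := by
  obtain ⟨C, hC1, hC⟩ := L_deriv_bound
  have hC0 : 0 < C := by linarith
  refine ⟨1 / (144 * C), by positivity, ?_⟩
  intro l _ χ hl hχ h2 β hβ hβ1 hz
  have hl2 : (2 : ℝ) ≤ l := by exact_mod_cast hl.two_le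
  have hl0 : (0 : ℝ) < l := by linarith
  set Λ : ℝ := Real.log (l + 2) with hΛ
  have hΛ1 : 1 ≤ Λ := by
    rw [hΛ, Real.le_log_iff_exp_le (by linarith)]
    have := Real.exp_one_lt_d9
    linarith
  have hΛ0 : 0 < Λ := by linarith
  have hsq : 0 < Real.sqrt l := Real.sqrt_pos.mpr hl0
  have hlog : Real.log l ≤ Λ := Real.log_le_log hl0 (by linarith)
  have hlog0 : 0 ≤ Real.log l := Real.log_nonneg (by linarith)
  have hlow := L1_lower l hl χ hχ h2
  -- the mean value inequality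
  have hmv := norm_image_sub_le_of_norm_deriv_le_segment' (a := β) (b := 1)
    (f := fun t : ℝ => χ.LFunction (t : ℂ)) (f' := fun t : ℝ => deriv χ.LFunction (t : ℂ))
    (C := C * Λ ^ 2)
    (fun t _ => by
      have hd : HasDerivAt χ.LFunction (deriv χ.LFunction (t : ℂ)) (t : ℂ) :=
        (DirichletCharacter.differentiable_LFunction hχ (t : ℂ)).hasDerivAt
      exact hd.comp_ofReal.hasDerivWithinAt)
    (fun t ht => hC l χ hχ t (hβ.trans ht.1) ht.2.le) 1 ⟨hβ1, le_rfl⟩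
  simp only [Complex.ofReal_one] at hmv
  rw [hz, sub_zero] at hmv
  have h3 : 1 / (144 * (Real.sqrt l * Λ)) ≤ 1 / (72 * (Real.sqrt l * (1 + Real.log l))) := by
    apply one_div_le_one_div_of_le (by positivity)
    have : 1 + Real.log l ≤ 2 * Λ := by linarith
    nlinarith
  have h4 : 1 / (144 * (Real.sqrt l * Λ)) ≤ C * Λ ^ 2 * (1 - β) := (h3.trans hlow).trans hmv
  have h5 : 1 / (144 * C) / (Real.sqrt l * Λ ^ 3) =
      1 / (144 * (Real.sqrt l * Λ)) / (C * Λ ^ 2) := by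
    field_simp
  rw [h5, div_le_iff₀ (by positivity)]
  linarith

end Pool.Agent.TE
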