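import Pool.Agent.Lib.MP_f02ea4_nt.TE.D3
import Pool.Agent.Lib.MP_bae66e_nt.GM.S2
import Pool.Agent.Lib.MP_bae66e_nt.GM.Z8

/-!
# D4: no zeros near `1` (all primes `l`)
-/

set_option autoImplicit false

namespace Pool.Agent.TE

open Complex Metric Set Pool.Agent.GM

/-- D4 (0). `64 log k / k` is decreasing for `k ≥ 3`: if `x ≥ 3` is real, `k ≥ x`, then
`64 log k / k ≤ 64 log x / x` (`Real.log_div_self_antitoneOn`). -/
lemma kap_le (x : ℝ) (hx : 3 ≤ x) (k : ℕ) (hk : x ≤ k) :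
    64 * Real.log k / k ≤ 64 * Real.log x / x := by
  have he : Real.exp 1 ≤ x := by
    have := Real.exp_one_lt_d9
    linarith
  have h := Real.log_div_self_antitoneOn (a := x) (b := (k : ℝ)) (mem_Ici.2 he)
    (mem_Ici.2 (he.trans hk)) hk
  simp only at h
  rw [mul_div_assoc, mul_div_assoc]
  exact mul_le_mul_of_nonneg_left h (by norm_num)

/-- a large constant -/
private lemma D4_const (m : ℝ) (hm : 0 < m) :
    ∃ C : ℝ, 3 ≤ C ∧ 64 * (Real.log C + 5) < m * C := by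
  have h1 := Real.isLittleO_log_id_atTop.def (c := m / 128) (by positivity)
  have h2 : ∀ᶠ C : ℝ in Filter.atTop, 640 / m < C := Filter.eventually_gt_atTop _
  have h3 : ∀ᶠ C : ℝ in Filter.atTop, 3 ≤ C := Filter.eventually_ge_atTop _
  obtain ⟨C, h4, h5, h6⟩ := (h1.and (h2.and h3)).exists
  refine ⟨C, h6, ?_⟩
  rw [div_lt_iff₀ hm] at h5
  simp only [id_eq, Real.norm_eq_abs] at h4
  rw [abs_of_nonneg (show (0 : ℝ) ≤ C by linarith)] at h4
  have h7 := (le_abs_self (Real.log C)).trans h4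
  nlinarith

/-- the estimate of `log x` -/
private lemma D4_logx (C : ℝ) (hC : 3 ≤ C) (l : ℕ) (hl : 2 ≤ l) :
    1 ≤ Real.log (l + 2) ∧ 1 ≤ Real.sqrt l ∧
    Real.log (C * Real.sqrt l * (Real.log (l + 2)) ^ 4) ≤
      (Real.log C + 5) * Real.log (l + 2) := by
  have hl2 : (2 : ℝ) ≤ l := by exact_mod_cast hl
  have h1 : (1 : ℝ) ≤ Real.log (l + 2) := by
    rw [Real.le_log_iff_exp_le (by linarith)]
    have := Real.exp_one_lt_d9
    linarith
  have h2 : (1 : ℝ) ≤ Real.sqrt l := by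
    rw [Real.one_le_sqrt]
    linarith
  refine ⟨h1, h2, ?_⟩
  have h3 : 0 ≤ Real.log C := Real.log_nonneg (by linarith)
  have h4 : Real.log l ≤ Real.log (l + 2) := Real.log_le_log (by linarith) (by linarith)
  have h5 : Real.log (Real.log (l + 2)) ≤ Real.log (l + 2) := by
    have := Real.log_le_sub_one_of_pos (x := Real.log (l + 2)) (by linarith)
    linarith
  rw [Real.log_mul (by positivity) (by positivity), Real.log_mul (by positivity) (by positivity),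
    Real.log_pow, Real.log_sqrt (by linarith)]
  push_cast
  nlinarith

/-- D4 (i). Let `c` be the constant of `zfr`, `c'` that of `real_zero_gap`. Let `l ≥ 2` be prime and `Λ = log (l+2) ≥ 1`.
For `k ≥ x := C₁ √l Λ^4` we have by `kap_le` `κ := 64 log k / k ≤ 64 log x / x`,
`log x ≤ log C₁ + (1/2) log l + 4 log Λ ≤ (log C₁ + 5) Λ`, so `κ ≤ 64 (log C₁ + 5) / (C₁ √l Λ^3)`, which for `C₁` large
(depending on `c, c'`) is smaller than `1/12`, `c/Λ`, `1/(4 Λ)` and `c' / (√l Λ^3)`. If `NearZero l χ κ` with the zero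
`ρ`, then `nearZero_re_im` gives `1 - κ ≤ Re ρ < 1`, `|Im ρ| ≤ 1`, and `zfr` gives `χ^2 = 1`, `Im ρ = 0`; so `ρ = β` is
real, `β ≥ 1 - κ ≥ 1 - 1/(4 Λ)`, `β ≤ 1`, and `real_zero_gap` gives `c'/(√l Λ^3) ≤ 1 - β ≤ κ`, contradiction. -/
theorem no_near_all : ∃ C₁ : ℝ, 1 ≤ C₁ ∧ ∀ (l : ℕ) [NeZero l], l.Prime → ∀ k : ℕ,
    C₁ * Real.sqrt l * (Real.log (l + 2)) ^ 4 ≤ k → ∀ χ : DirichletCharacter ℂ l, χ ≠ 1 →
      ¬ NearZero l χ (64 * Real.log k / k) := by
  obtain ⟨c, hc, _, hz⟩ := zfr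
  obtain ⟨c', hc', hg⟩ := real_zero_gap
  obtain ⟨m, hm0, hm1, hm2, hm3, hm4⟩ : ∃ m : ℝ, 0 < m ∧ m ≤ 1 / 12 ∧ m ≤ c ∧ m ≤ 1 / 4 ∧
      m ≤ c' := by
    refine ⟨min (min (1 / 12) c) (min (1 / 4) c'), ?_, ?_, ?_, ?_, ?_⟩
    · exact lt_min (lt_min (by norm_num) hc) (lt_min (by norm_num) hc')
    · exact (min_le_left _ _).trans (min_le_left _ _)
    · exact (min_le_left _ _).trans (min_le_right _ _)
    · exact (min_le_right _ _).trans (min_le_left _ _)
    · exact (min_le_right _ _).trans (min_le_right _ _)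
  obtain ⟨C, hC3, hC⟩ := D4_const m hm0
  refine ⟨C, by linarith, fun l _ hl k hk χ hχ hn => ?_⟩
  obtain ⟨hL1, hS1, hlog⟩ := D4_logx C hC3 l hl.two_le
  have hkap := kap_le (C * Real.sqrt l * (Real.log (l + 2)) ^ 4) (by
    have h1 : (1 : ℝ) ≤ (Real.log (l + 2)) ^ 4 := one_le_pow₀ hL1
    have h2 : (1 : ℝ) ≤ Real.sqrt l * (Real.log (l + 2)) ^ 4 :=
      one_le_mul_of_one_le_of_one_le hS1 h1
    nlinarith) k hk
  set L : ℝ := Real.log (l + 2) with hLdef
  set S : ℝ := Real.sqrt l with hSdef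
  set κ : ℝ := 64 * Real.log k / k with hκdef
  have hS0 : 0 < S := by linarith
  have hL0 : 0 < L := by linarith
  have hSL : L ≤ S * L ^ 3 := by
    have h1 : (1 : ℝ) ≤ L ^ 2 := one_le_pow₀ hL1
    have h2 : 1 ≤ S * L ^ 2 := one_le_mul_of_one_le_of_one_le hS1 h1
    nlinarith
  have hκ1 : κ < m / (S * L ^ 3) := by
    refine lt_of_le_of_lt hkap ?_
    rw [div_lt_div_iff₀ (by positivity) (by positivity)]
    have h1 : 64 * Real.log (C * S * L ^ 4) ≤ 64 * ((Real.log C + 5) * L) := by linarith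
    have h2 : 64 * (Real.log C + 5) * L < m * C * L := mul_lt_mul_of_pos_right hC hL0
    have h3 : 64 * Real.log (C * S * L ^ 4) < m * C * L := by linarith
    calc 64 * Real.log (C * S * L ^ 4) * (S * L ^ 3) < m * C * L * (S * L ^ 3) :=
          mul_lt_mul_of_pos_right h3 (by positivity)
      _ = m * (C * S * L ^ 4) := by ring
  have hκ2 : κ < m / L :=
    lt_of_lt_of_le hκ1 (div_le_div_of_nonneg_left hm0.le hL0 hSL)
  have hκ3 : κ ≤ 1 / 12 := by
    have h1 : m / L ≤ m := div_le_self hm0.le hL1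
    linarith
  obtain ⟨ρ, hρ, hρn⟩ := hn
  obtain ⟨h1, h2, h3⟩ := nearZero_re_im l χ hχ κ hκ3 ρ hρ hρn
  have h4 : m / L ≤ c / L := div_le_div_of_nonneg_right hm2 hL0.le
  obtain ⟨h5, h6⟩ := (hz l χ hχ).1 ρ hρ (by linarith) h3
  have er : ((ρ.re : ℝ) : ℂ) = ρ := by apply Complex.ext <;> simp [h6]
  have h7 : m / L ≤ 1 / (4 * L) := by
    have h8 : m / L ≤ (1 / 4) / L := div_le_div_of_nonneg_right hm3 hL0.le
    rw [div_div] at h8
    exact h8
  have h9 := hg l χ hl hχ h5 ρ.re (by linarith) h2.le (by rw [er]; exact hρ)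
  have h10 : m / (S * L ^ 3) ≤ c' / (S * L ^ 3) :=
    div_le_div_of_nonneg_right hm4 (by positivity)
  linarith

end Pool.Agent.TE
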