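import Mathlib
import Pool.Agent.Lib.MP_bae66e_nt.AP3.Mert
import Pool.Agent.Lib.MP_f02ea4_nt.Mg.G002

/-!
# Thin exponents of odd perfect numbers: definitions
-/

set_option autoImplicit false

namespace Pool.Agent.TE

open Finset Pool.Agent.Lib.MP_bae66e_nt.AP3

/-- `1 + t + ⋯ + t ^ (l - 1)` -/
def ph (l t : ℕ) : ℕ := ∑ i ∈ range l, t ^ i

/-- the primes `p ≤ x` of `N` with `l ∣ v_p(N) + 1` -/
def Cl (N l x : ℕ) : Finset ℕ :=
  N.primeFactors.filter (fun p => p ≤ x ∧ l ∣ N.factorization p + 1)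

/-- the primes `p ≤ x` of `N` with exponent at most `E` -/
def Lo (N E x : ℕ) : Finset ℕ :=
  N.primeFactors.filter (fun p => p ≤ x ∧ N.factorization p ≤ E)

/-- the odd primes `l ≤ E + 1` -/
def ol (E : ℕ) : Finset ℕ := (range (E + 2)).filter (fun l => l.Prime ∧ l ≠ 2)

/-- the odd primes `l ≤ L` -/
def oL (L : ℕ) : Finset ℕ := (range (L + 1)).filter (fun l => l.Prime ∧ l ≠ 2)

/-- the primes `p` of `N` with `l ∣ v_p(N) + 1` -/
def Cc (N l : ℕ) : Finset ℕ := N.primeFactors.filter (fun p => l ∣ N.factorization p + 1)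

/-- the primes `r ≤ z`, `r ≡ 1 mod l` -/
def Pl (l z : ℕ) : Finset ℕ := (prI 0 z).filter (fun r => r ≡ 1 [MOD l])

/-- the primes `r ≤ z`, `r ≡ 1 mod l`, that do not divide `N` -/
def Sp (N l z : ℕ) : Finset ℕ := (Pl l z).filter (fun r => ¬ r ∣ N)

/-- What is needed on primes `≡ 1 mod l`: for all primes `l`, uniformly, apart from a thin set `bad`,
`(l-1) ∑_{r ≤ z, r ≡ 1 mod l} 1/r ≥ log log z - log log (l + 2) - C`; and a weaker bound for all `l`. -/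
structure APhyp (C : ℝ) (B : ℕ) (bad : Set ℕ) : Prop where
  one : 1 ≤ C
  card : ∀ L : ℕ, 3 ≤ L → (Nat.card {l : ℕ // l ∈ bad ∧ l ≤ L} : ℝ) ≤ C * (Real.log L) ^ B
  good : ∀ l z : ℕ, l.Prime → l ∉ bad → 3 ≤ z →
    Real.log (Real.log z) - Real.log (Real.log (l + 2)) - C
      ≤ ((l : ℝ) - 1) * ∑ r ∈ Pl l z, 1 / (r : ℝ)
  all : ∀ l z : ℕ, l.Prime → 3 ≤ z →
    Real.log (Real.log z) - (1 / 2) * Real.log l - 5 * Real.log (Real.log (l + 2)) - C
      ≤ ((l : ℝ) - 1) * ∑ r ∈ Pl l z, 1 / (r : ℝ)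

/-- a sieve problem: a finite set `S` of primes with residue classes `Rs p ⊆ [0, p)` -/
structure Dat (S : Finset ℕ) (Rs : ℕ → Finset ℕ) : Prop where
  prime : ∀ p ∈ S, p.Prime
  sub : ∀ p ∈ S, Rs p ⊆ range p
  pos : ∀ p ∈ S, 1 ≤ #(Rs p)
  lt : ∀ p ∈ S, #(Rs p) < p

end Pool.Agent.TE
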