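import Mathlib

/-!
# F2: dyadic summation
-/

set_option autoImplicit false

namespace Pool.Agent.TE

open Finset

/-- one dyadic block contributes at most `2 δ` -/
private theorem F2_block (S : Finset ℕ) (y δ : ℝ) (hy : 1 ≤ y) (hδ : 0 ≤ δ)
    (h : ∀ X : ℕ, y ≤ X → (#(S.filter (fun p => p ≤ X)) : ℝ) ≤ δ * X) (m : ℕ) :
    ∑ p ∈ S.filter (fun p : ℕ => 2 ^ m * y < (p : ℝ) ∧ (p : ℝ) ≤ 2 ^ (m + 1) * y), 1 / (p : ℝ)
      ≤ 2 * δ := by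
  have hy0 : 0 < y := by linarith
  have hpow : (1 : ℝ) ≤ 2 ^ m := one_le_pow₀ (by norm_num)
  have hpos : 0 < 2 ^ m * y := by positivity
  set X : ℕ := ⌊2 ^ (m + 1) * y⌋₊ with hX
  have hX1 : (X : ℝ) ≤ 2 ^ (m + 1) * y := Nat.floor_le (by positivity)
  have hX2 : 2 ^ (m + 1) * y < X + 1 := Nat.lt_floor_add_one _
  have hyX : y ≤ X := by
    have h1 : 2 * y ≤ 2 ^ (m + 1) * y := by
      rw [pow_succ]
      nlinarith
    linarith
  have hcard : (#(S.filter (fun p : ℕ => 2 ^ m * y < (p : ℝ) ∧ (p : ℝ) ≤ 2 ^ (m + 1) * y)) : ℝ) ≤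
      δ * (2 ^ (m + 1) * y) := by
    have h1 : S.filter (fun p : ℕ => 2 ^ m * y < (p : ℝ) ∧ (p : ℝ) ≤ 2 ^ (m + 1) * y) ⊆
        S.filter (fun p => p ≤ X) := by
      intro p hp
      rw [mem_filter] at hp ⊢
      exact ⟨hp.1, Nat.le_floor hp.2.2⟩
    calc (#(S.filter (fun p : ℕ => 2 ^ m * y < (p : ℝ) ∧ (p : ℝ) ≤ 2 ^ (m + 1) * y)) : ℝ)
        ≤ #(S.filter (fun p => p ≤ X)) := by exact_mod_cast card_le_card h1
      _ ≤ δ * X := h X hyX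
      _ ≤ δ * (2 ^ (m + 1) * y) := by gcongr
  calc ∑ p ∈ S.filter (fun p : ℕ => 2 ^ m * y < (p : ℝ) ∧ (p : ℝ) ≤ 2 ^ (m + 1) * y), 1 / (p : ℝ)
      ≤ ∑ p ∈ S.filter (fun p : ℕ => 2 ^ m * y < (p : ℝ) ∧ (p : ℝ) ≤ 2 ^ (m + 1) * y),
          1 / (2 ^ m * y) := by
        refine sum_le_sum fun p hp => ?_
        rw [mem_filter] at hp
        exact one_div_le_one_div_of_le hpos hp.2.1.le
    _ = #(S.filter (fun p : ℕ => 2 ^ m * y < (p : ℝ) ∧ (p : ℝ) ≤ 2 ^ (m + 1) * y)) *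
          (1 / (2 ^ m * y)) := by
        rw [sum_const, nsmul_eq_mul]
    _ ≤ (δ * (2 ^ (m + 1) * y)) * (1 / (2 ^ m * y)) := by
        gcongr
    _ = 2 * δ := by
        rw [pow_succ]
        field_simp

private theorem F2_sum (S : Finset ℕ) (y δ : ℝ) (hy : 1 ≤ y) (hδ : 0 ≤ δ)
    (h : ∀ X : ℕ, y ≤ X → (#(S.filter (fun p => p ≤ X)) : ℝ) ≤ δ * X) (m : ℕ) :
    ∑ p ∈ S.filter (fun p : ℕ => y < (p : ℝ) ∧ (p : ℝ) ≤ 2 ^ m * y), 1 / (p : ℝ)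
      ≤ 2 * δ * m := by
  have hy0 : 0 < y := by linarith
  induction m with
  | zero =>
    have h1 : S.filter (fun p : ℕ => y < (p : ℝ) ∧ (p : ℝ) ≤ 2 ^ 0 * y) = ∅ := by
      rw [filter_eq_empty_iff]
      rintro p _ ⟨h1, h2⟩
      rw [pow_zero, one_mul] at h2
      linarith
    rw [h1, sum_empty]
    simp
  | succ m ih =>
    have h1 : S.filter (fun p : ℕ => y < (p : ℝ) ∧ (p : ℝ) ≤ 2 ^ (m + 1) * y) =
        S.filter (fun p : ℕ => y < (p : ℝ) ∧ (p : ℝ) ≤ 2 ^ m * y) ∪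
        S.filter (fun p : ℕ => 2 ^ m * y < (p : ℝ) ∧ (p : ℝ) ≤ 2 ^ (m + 1) * y) := by
      have hp1 : y ≤ 2 ^ m * y := by
        have : (1 : ℝ) ≤ 2 ^ m := one_le_pow₀ (by norm_num)
        nlinarith
      have hp2 : 2 ^ m * y ≤ 2 ^ (m + 1) * y := by
        rw [pow_succ]
        nlinarith [show (0 : ℝ) < 2 ^ m * y by positivity]
      ext p
      rw [mem_union, mem_filter, mem_filter, mem_filter]
      constructor
      · rintro ⟨hp, h1, h2⟩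
        by_cases h3 : (p : ℝ) ≤ 2 ^ m * y
        · exact Or.inl ⟨hp, h1, h3⟩
        · exact Or.inr ⟨hp, not_le.1 h3, h2⟩
      · rintro (⟨hp, h1, h2⟩ | ⟨hp, h1, h2⟩)
        · exact ⟨hp, h1, h2.trans hp2⟩
        · exact ⟨hp, hp1.trans_lt h1, h2⟩
    have h2 : Disjoint (S.filter (fun p : ℕ => y < (p : ℝ) ∧ (p : ℝ) ≤ 2 ^ m * y))
        (S.filter (fun p : ℕ => 2 ^ m * y < (p : ℝ) ∧ (p : ℝ) ≤ 2 ^ (m + 1) * y)) := by
      rw [disjoint_filter]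
      rintro p _ ⟨_, h3⟩ ⟨h4, _⟩
      linarith
    rw [h1, sum_union h2]
    have h3 := F2_block S y δ hy hδ h m
    push_cast
    linarith

/-- F2. Take `m : ℕ` with `T ≤ 2^m` and `m ≤ log T / log 2 + 1`. Every `p` of the sum lies in a block
`2^i y < p ≤ 2^(i+1) y`, `i < m`. The block has at most `#{p ∈ S, p ≤ X} ≤ δ X ≤ δ 2^(i+1) y` elements, where
`X = ⌊2^(i+1) y⌋₊ ≥ 2 y - 1 ≥ y`, each with `1/p ≤ 1/(2^i y)`; so it contributes `≤ 2 δ`. Total `≤ 2 δ m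
≤ 2 δ (1 + log T / log 2) ≤ 4 δ (1 + log T)`. -/
theorem dyadic (S : Finset ℕ) (y δ T : ℝ) (hy : 1 ≤ y) (hT : 1 ≤ T) (hδ : 0 ≤ δ)
    (h : ∀ X : ℕ, y ≤ X → (#(S.filter (fun p => p ≤ X)) : ℝ) ≤ δ * X) :
    ∑ p ∈ S.filter (fun p : ℕ => y < (p : ℝ) ∧ (p : ℝ) ≤ T * y), 1 / (p : ℝ)
      ≤ 4 * δ * (1 + Real.log T) := by
  have hy0 : 0 < y := by linarith
  have hlT : 0 ≤ Real.log T := Real.log_nonneg hT
  have hl2 : 1 / 2 ≤ Real.log 2 := by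
    have := Real.log_two_gt_d9
    linarith
  have hl2' : 0 < Real.log 2 := by linarith
  set m : ℕ := ⌈Real.log T / Real.log 2⌉₊ with hm
  have hm1 : Real.log T / Real.log 2 ≤ m := Nat.le_ceil _
  have hm2 : (m : ℝ) < Real.log T / Real.log 2 + 1 := Nat.ceil_lt_add_one (by positivity)
  have hTm : T ≤ 2 ^ m := by
    have h1 : Real.log T ≤ m * Real.log 2 := by
      rwa [div_le_iff₀ hl2'] at hm1
    have h2 : Real.log T ≤ Real.log (2 ^ m) := by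
      rw [Real.log_pow]
      exact h1
    exact (Real.log_le_log_iff (by linarith) (by positivity)).1 h2
  have h1 : S.filter (fun p : ℕ => y < (p : ℝ) ∧ (p : ℝ) ≤ T * y) ⊆
      S.filter (fun p : ℕ => y < (p : ℝ) ∧ (p : ℝ) ≤ 2 ^ m * y) := by
    intro p hp
    rw [mem_filter] at hp ⊢
    exact ⟨hp.1, hp.2.1, hp.2.2.trans (by gcongr)⟩
  have h2 : Real.log T / Real.log 2 ≤ 2 * Real.log T := by
    rw [div_le_iff₀ hl2']
    nlinarith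
  calc ∑ p ∈ S.filter (fun p : ℕ => y < (p : ℝ) ∧ (p : ℝ) ≤ T * y), 1 / (p : ℝ)
      ≤ ∑ p ∈ S.filter (fun p : ℕ => y < (p : ℝ) ∧ (p : ℝ) ≤ 2 ^ m * y), 1 / (p : ℝ) :=
        sum_le_sum_of_subset_of_nonneg h1 fun p _ _ => by positivity
    _ ≤ 2 * δ * m := F2_sum S y δ hy hδ h m
    _ ≤ 2 * δ * (2 * Real.log T + 1) := by
        gcongr
        linarith
    _ ≤ 4 * δ * (1 + Real.log T) := by nlinarith

end Pool.Agent.TE
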