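import Pool.Agent.Lib.MP_f02ea4_nt.TE.A2

/-!
# F3: layers
-/

set_option autoImplicit false

namespace Pool.Agent.TE

open Finset Pool.Agent.Lib.MP_f02ea4_nt

/-- F3 (1). By Euler (`Rad.euler`) all exponents but that of one prime `s` are even. Pointwise bound: for `p ∣ N`, `p > y`:
if `p = s` then `1/p ≤ 1/y`. Otherwise `e_p` is even, `≥ 2`, and `l = minFac (e_p + 1)` is an odd prime, `l ∣ e_p + 1`. If `l ≤ L`
and `p ≤ (L/l) y` then `p` is a term of the double sum. If `l ≤ L` and `p > (L/l) y`: `1/p ≤ l/(L y) ≤ (3/2) e_p/(L y)`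
(`e_p ≥ l - 1 ≥ (2/3) l` as `l ≥ 3`). If `l > L`: `e_p + 1 ≥ l ≥ L + 1`, so `1/p ≤ 1/y ≤ e_p/(L y)`. Sum over `p`
(`Omega_eq`). -/
theorem layers {N : ℕ} (hodd : Odd N) (hN : N.Perfect) (L : ℕ) (hL : 1 ≤ L) (y : ℝ) (hy : 0 < y) :
    ∑ p ∈ N.primeFactors.filter (fun p : ℕ => y < (p : ℝ)), 1 / (p : ℝ)
      ≤ 1 / y + (∑ l ∈ oL L, ∑ p ∈ (Cc N l).filter (fun p : ℕ => y < (p : ℝ) ∧
          (p : ℝ) ≤ (L : ℝ) / l * y), 1 / (p : ℝ))
        + 3 / 2 * (ArithmeticFunction.cardFactors N : ℕ) / (L * y) := by
  classical
  have hN0 : N ≠ 0 := by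
    rintro rfl
    exact absurd hodd (by decide)
  obtain ⟨s, hsmem, -, -, hs⟩ := Rad.euler hodd hN
  have hLr : (0 : ℝ) < L := by exact_mod_cast hL
  set T : Finset ℕ := N.primeFactors.filter (fun p : ℕ => y < (p : ℝ)) with hT
  set A : ℕ → Finset ℕ := fun l => (Cc N l).filter (fun p : ℕ => y < (p : ℝ) ∧
          (p : ℝ) ≤ (L : ℝ) / l * y) with hA
  have hAT : ∀ l, A l ⊆ T := by
    intro l p hp
    simp only [hA, Cc, mem_filter] at hp
    simp only [hT, mem_filter]
    exact ⟨hp.1.1, hp.2.1⟩
  -- pointwise
  have key : ∀ p ∈ T, 1 / (p : ℝ) ≤ (if p = s then 1 / y else 0)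
      + (∑ l ∈ oL L, if p ∈ A l then 1 / (p : ℝ) else 0)
      + 3 / 2 * (N.factorization p : ℝ) / (L * y) := by
    intro p hp
    simp only [hT, mem_filter] at hp
    obtain ⟨hpN, hyp⟩ := hp
    have hp0 : (0 : ℝ) < p := hy.trans hyp
    have hinv : 1 / (p : ℝ) ≤ 1 / y := one_div_le_one_div_of_le hy hyp.le
    have hsum0 : 0 ≤ ∑ l ∈ oL L, (if p ∈ A l then 1 / (p : ℝ) else 0) := by
      apply sum_nonneg
      intro l _
      split_ifs
      · positivity
      · exact le_rfl
    have he0 : 0 ≤ 3 / 2 * (N.factorization p : ℝ) / (L * y) := by positivity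
    by_cases hps : p = s
    · rw [if_pos hps]
      linarith
    · rw [if_neg hps, zero_add]
      have hev := hs p hpN hps
      have hpos : 0 < N.factorization p := by
        have := Nat.support_factorization N
        rw [← Nat.support_factorization] at hpN
        exact Nat.pos_of_ne_zero (Finsupp.mem_support_iff.1 hpN)
      set e := N.factorization p with he
      have hne1 : e + 1 ≠ 1 := by omega
      have hlp := Nat.minFac_prime hne1
      have hld := Nat.minFac_dvd (e + 1)
      set l := Nat.minFac (e + 1) with hl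
      have hl2 : l ≠ 2 := by
        intro h2
        rw [h2] at hld
        omega
      have hl3 : 3 ≤ l := by
        have := hlp.two_le
        omega
      have hle : l ≤ e + 1 := Nat.le_of_dvd (by omega) hld
      have hleR : (l : ℝ) ≤ (e : ℝ) + 1 := by exact_mod_cast hle
      have hl3R : (3 : ℝ) ≤ l := by exact_mod_cast hl3
      by_cases hlL : l ≤ L
      · by_cases hpL : (p : ℝ) ≤ (L : ℝ) / l * y
        · have hlmem : l ∈ oL L := by
            simp only [oL, mem_filter, mem_range]
            exact ⟨by omega, hlp, hl2⟩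
          have hpA : p ∈ A l := by
            simp only [hA, Cc, mem_filter]
            exact ⟨⟨hpN, hld⟩, hyp, hpL⟩
          have h1 : (if p ∈ A l then 1 / (p : ℝ) else 0)
              ≤ ∑ l ∈ oL L, (if p ∈ A l then 1 / (p : ℝ) else 0) := by
            refine single_le_sum (f := fun l => if p ∈ A l then 1 / (p : ℝ) else 0) ?_ hlmem
            intro l' _
            show (0 : ℝ) ≤ if p ∈ A l' then 1 / (p : ℝ) else 0
            split_ifs
            · positivity
            · exact le_rfl
          rw [if_pos hpA] at h1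
          linarith
        · push Not at hpL
          have h2 : 1 / (p : ℝ) ≤ 3 / 2 * (e : ℝ) / (L * y) := by
            rw [div_le_div_iff₀ hp0 (by positivity)]
            have h3 : (L : ℝ) * y < p * l := by
              have h4 : (L : ℝ) / l * y = L * y / l := by ring
              rw [h4, div_lt_iff₀ (by linarith)] at hpL
              exact hpL
            have h5 : (l : ℝ) ≤ 3 / 2 * e := by linarith
            calc 1 * ((L : ℝ) * y) ≤ p * l := by linarith
              _ ≤ p * (3 / 2 * e) := by gcongr
              _ = 3 / 2 * (e : ℝ) * p := by ring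
          linarith
      · have h6 : (L : ℝ) ≤ e := by
          have : L ≤ e := by omega
          exact_mod_cast this
        have h7 : 1 / y ≤ 3 / 2 * (e : ℝ) / (L * y) := by
          rw [div_le_div_iff₀ hy (by positivity)]
          have : (L : ℝ) * y ≤ e * y := by gcongr
          have h8 : 0 ≤ (e : ℝ) * y := by positivity
          linarith
        linarith
  calc ∑ p ∈ T, 1 / (p : ℝ)
      ≤ ∑ p ∈ T, ((if p = s then 1 / y else 0)
      + (∑ l ∈ oL L, if p ∈ A l then 1 / (p : ℝ) else 0)
      + 3 / 2 * (N.factorization p : ℝ) / (L * y)) := sum_le_sum key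
    _ = (∑ p ∈ T, if p = s then 1 / y else 0)
        + (∑ p ∈ T, ∑ l ∈ oL L, if p ∈ A l then 1 / (p : ℝ) else 0)
        + ∑ p ∈ T, 3 / 2 * (N.factorization p : ℝ) / (L * y) := by
          rw [sum_add_distrib, sum_add_distrib]
    _ ≤ _ := by
          refine add_le_add (add_le_add ?_ ?_) ?_
          · rw [sum_ite_eq']
            split_ifs
            · exact le_rfl
            · positivity
          · rw [sum_comm]
            apply sum_le_sum
            intro l _
            rw [← sum_filter]
            apply le_of_eq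
            refine sum_congr ?_ (fun _ _ => rfl)
            have hAl : T.filter (fun p => p ∈ A l) = A l := by
              ext p
              rw [mem_filter]
              exact ⟨fun h => h.2, fun h => ⟨hAT l h, h⟩⟩
            exact hAl
          · rw [Omega_eq hN0, mul_sum, sum_div]
            apply sum_le_sum_of_subset_of_nonneg
            · exact filter_subset _ _
            · intro p _ _
              positivity

end Pool.Agent.TE
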