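import Pool.Agent.Lib.MP_f02ea4_nt.TE.Defs

/-!
# F4: Chebyshev sums
-/

set_option autoImplicit false

namespace Pool.Agent.TE

open Finset

theorem f4_mem {l L : ℕ} (h : l ∈ oL L) : l.Prime ∧ 3 ≤ l ∧ l ≤ L := by
  unfold oL at h
  rw [mem_filter, mem_range] at h
  obtain ⟨h1, h2, h3⟩ := h
  have := h2.two_le
  refine ⟨h2, ?_, by omega⟩
  omega

theorem f4_theta (n L : ℕ) :
    ∑ l ∈ (oL L).filter (fun l => l ≤ n), Real.log (l : ℝ) ≤ Real.log 4 * n := by
  refine le_trans ?_ (Chebyshev.theta_le_log4_mul_x (x := (n : ℝ)) (by positivity))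
  rw [Chebyshev.theta_eq_sum_primesLE_log]
  refine sum_le_sum_of_subset_of_nonneg ?_ ?_
  · intro l hl
    rw [mem_filter] at hl
    have h1 := f4_mem hl.1
    rw [Nat.mem_primesLE]
    exact ⟨hl.2, h1.1⟩
  · intro l _ _
    exact Real.log_natCast_nonneg l

theorem f4_log (l : ℕ) (hl : 1 ≤ l) (L : ℕ) (hL : l ≤ L) :
    Real.log ((L : ℝ) / l) ≤ ∑ n ∈ Ico l L, 1 / (n : ℝ) := by
  induction L, hL using Nat.le_induction with
  | base =>
    have : (l : ℝ) ≠ 0 := by positivity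
    rw [div_self this]
    simp
  | succ m hm ih =>
    rw [sum_Ico_succ_top hm]
    have hlp : (0 : ℝ) < l := by exact_mod_cast hl
    have hmp : (0 : ℝ) < m := by
      have : 1 ≤ m := le_trans hl hm
      exact_mod_cast this
    have e : ((m + 1 : ℕ) : ℝ) / l = ((m : ℝ) / l) * (1 + 1 / (m : ℝ)) := by
      push_cast
      field_simp
    rw [e, Real.log_mul (by positivity) (by positivity)]
    have h2 : Real.log (1 + 1 / (m : ℝ)) ≤ 1 / (m : ℝ) := by
      have := Real.log_le_sub_one_of_pos (x := 1 + 1 / (m : ℝ)) (by positivity)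
      linarith
    linarith

/-- F4 (1). `log (l + 2) ≤ 2 log l` for `l ≥ 2`. `∑_{l ≤ L} log l ≤ log 4 * L` (Mathlib: `Chebyshev.theta_le_log4_mul_x`
or `primorial_le_4_pow`). And `log (L/l) = ∑_{l ≤ n < L} log ((n+1)/n) ≤ ∑_{l ≤ n < L} 1/n`, so
`∑_{l ≤ L} log l log (L/l) ≤ ∑_{n < L} (1/n) ∑_{l ≤ n} log l ≤ log 4 * L`. -/
theorem cheb_sum : ∃ C : ℝ, 0 ≤ C ∧ ∀ L : ℕ, 1 ≤ L →
    ∑ l ∈ oL L, Real.log (l + 2) * (1 + Real.log ((L : ℝ) / l)) ≤ C * L := by
  have hlog4 : 0 ≤ Real.log 4 := Real.log_nonneg (by norm_num)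
  refine ⟨4 * Real.log 4, by positivity, ?_⟩
  intro L hL
  have h1 : ∑ l ∈ oL L, Real.log (l + 2) * (1 + Real.log ((L : ℝ) / l)) ≤
      ∑ l ∈ oL L, 2 * (Real.log l + Real.log l * ∑ n ∈ Ico l L, 1 / (n : ℝ)) := by
    refine sum_le_sum fun l hl => ?_
    obtain ⟨_, h3, hlL⟩ := f4_mem hl
    have hl3 : (3 : ℝ) ≤ l := by exact_mod_cast h3
    have hlog : Real.log ((l : ℝ) + 2) ≤ 2 * Real.log l := by
      have : 2 * Real.log (l : ℝ) = Real.log ((l : ℝ) ^ 2) := by
        rw [Real.log_pow]; push_cast; ring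
      rw [this]
      refine Real.log_le_log (by linarith) ?_
      nlinarith
    have hll : 0 ≤ Real.log (l : ℝ) := Real.log_natCast_nonneg l
    have hr : Real.log ((L : ℝ) / l) ≤ ∑ n ∈ Ico l L, 1 / (n : ℝ) := f4_log l (by omega) L hlL
    have hr0 : 0 ≤ Real.log ((L : ℝ) / l) := by
      refine Real.log_nonneg ?_
      rw [le_div_iff₀ (by linarith)]
      have : (l : ℝ) ≤ L := by exact_mod_cast hlL
      linarith
    calc Real.log ((l : ℝ) + 2) * (1 + Real.log ((L : ℝ) / l))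
        ≤ (2 * Real.log l) * (1 + Real.log ((L : ℝ) / l)) :=
          mul_le_mul_of_nonneg_right hlog (by linarith)
      _ ≤ (2 * Real.log l) * (1 + ∑ n ∈ Ico l L, 1 / (n : ℝ)) :=
          mul_le_mul_of_nonneg_left (by linarith) (by linarith)
      _ = _ := by ring
  have h2 : ∑ l ∈ oL L, Real.log (l : ℝ) ≤ Real.log 4 * L := by
    have := f4_theta L L
    rwa [filter_true_of_mem] at this
    intro l hl
    exact (f4_mem hl).2.2
  have h3 : ∑ l ∈ oL L, Real.log (l : ℝ) * ∑ n ∈ Ico l L, 1 / (n : ℝ) ≤ Real.log 4 * L := by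
    have e : ∑ l ∈ oL L, Real.log (l : ℝ) * ∑ n ∈ Ico l L, 1 / (n : ℝ) =
        ∑ n ∈ Ico 1 L, (1 / (n : ℝ)) * ∑ l ∈ (oL L).filter (fun l => l ≤ n), Real.log (l : ℝ) := by
      have e1 : ∀ l ∈ oL L, Real.log (l : ℝ) * ∑ n ∈ Ico l L, 1 / (n : ℝ) =
          ∑ n ∈ Ico 1 L, if l ≤ n then Real.log (l : ℝ) * (1 / (n : ℝ)) else 0 := by
        intro l hl
        obtain ⟨_, h3, _⟩ := f4_mem hl
        rw [mul_sum, ← sum_filter]
        refine sum_congr ?_ fun _ _ => rfl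
        ext n
        simp only [mem_Ico, mem_filter]
        omega
      rw [sum_congr rfl e1, sum_comm]
      refine sum_congr rfl fun n _ => ?_
      rw [mul_sum, ← sum_filter]
      refine sum_congr rfl fun l _ => ?_
      ring
    rw [e]
    calc ∑ n ∈ Ico 1 L, (1 / (n : ℝ)) * ∑ l ∈ (oL L).filter (fun l => l ≤ n), Real.log (l : ℝ)
        ≤ ∑ n ∈ Ico 1 L, Real.log 4 := by
          refine sum_le_sum fun n hn => ?_
          rw [mem_Ico] at hn
          have hn0 : (0 : ℝ) < n := by exact_mod_cast hn.1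
          calc (1 / (n : ℝ)) * ∑ l ∈ (oL L).filter (fun l => l ≤ n), Real.log (l : ℝ)
              ≤ (1 / (n : ℝ)) * (Real.log 4 * n) :=
                mul_le_mul_of_nonneg_left (f4_theta n L) (by positivity)
            _ = Real.log 4 := by field_simp
      _ = ((L - 1 : ℕ) : ℝ) * Real.log 4 := by
          rw [sum_const, Nat.card_Ico, nsmul_eq_mul]
      _ ≤ Real.log 4 * L := by
          have : ((L - 1 : ℕ) : ℝ) ≤ L := by exact_mod_cast Nat.sub_le L 1
          nlinarith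
  refine h1.trans ?_
  rw [← mul_sum, sum_add_distrib]
  nlinarith

/-- F4 (2). For `3 ≤ L`: each term is `≤ √L (log (L+2))^5 (1 + log L)`, there are at most
`Nat.card {l // l ∈ bad ∧ l ≤ L} ≤ C (log L)^B` of them, and `√L (log (L+2))^(B+6) ≤ C' L`. (`L < 3`: empty sum.) -/
theorem bad_sum (C : ℝ) (B : ℕ) (bad : Set ℕ) [DecidablePred (· ∈ bad)] (hC : 0 ≤ C)
    (h : ∀ L : ℕ, 3 ≤ L → (Nat.card {l : ℕ // l ∈ bad ∧ l ≤ L} : ℝ) ≤ C * (Real.log L) ^ B) :
    ∃ D : ℝ, 0 ≤ D ∧ ∀ L : ℕ, 1 ≤ L →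
      ∑ l ∈ (oL L).filter (· ∈ bad), Real.sqrt l * (Real.log (l + 2)) ^ 5 *
        (1 + Real.log ((L : ℝ) / l)) ≤ D * L := by
  refine ⟨4 * C * 2 ^ (B + 6) * (B + 6).factorial, by positivity, ?_⟩
  intro L hL
  by_cases hL3 : L < 3
  · have : (oL L).filter (· ∈ bad) = ∅ := by
      rw [filter_eq_empty_iff]
      intro l hl
      have := f4_mem hl
      omega
    rw [this, sum_empty]
    positivity
  push Not at hL3
  have hLr : (3 : ℝ) ≤ L := by exact_mod_cast hL3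
  set y := Real.log ((L : ℝ) + 2) with hy
  have hexp1 : Real.exp 1 ≤ (L : ℝ) + 2 := by
    have := Real.exp_one_lt_d9
    linarith
  have hy1 : 1 ≤ y := by
    rw [hy, Real.le_log_iff_exp_le (by linarith)]
    exact hexp1
  have hlogL : Real.log (L : ℝ) ≤ y := Real.log_le_log (by linarith) (by linarith)
  have hlogL0 : 0 ≤ Real.log (L : ℝ) := Real.log_natCast_nonneg L
  have hterm : ∀ l ∈ (oL L).filter (· ∈ bad), Real.sqrt l * (Real.log (l + 2)) ^ 5 *
        (1 + Real.log ((L : ℝ) / l)) ≤ Real.sqrt L * y ^ 5 * (2 * y) := by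
    intro l hl
    rw [mem_filter] at hl
    obtain ⟨_, h3, hlL⟩ := f4_mem hl.1
    have hl3 : (3 : ℝ) ≤ l := by exact_mod_cast h3
    have hlL' : (l : ℝ) ≤ L := by exact_mod_cast hlL
    have a1 : Real.sqrt l ≤ Real.sqrt L := Real.sqrt_le_sqrt hlL'
    have a2 : Real.log ((l : ℝ) + 2) ≤ y := Real.log_le_log (by linarith) (by linarith)
    have a20 : 0 ≤ Real.log ((l : ℝ) + 2) := Real.log_nonneg (by linarith)
    have a3 : Real.log ((L : ℝ) / l) ≤ y := by
      refine le_trans (Real.log_le_log (by positivity) ?_) hlogL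
      rw [div_le_iff₀ (by linarith)]
      nlinarith
    have a30 : 0 ≤ Real.log ((L : ℝ) / l) := by
      refine Real.log_nonneg ?_
      rw [le_div_iff₀ (by linarith)]
      linarith
    have b1 : Real.sqrt l * (Real.log ((l : ℝ) + 2)) ^ 5 ≤ Real.sqrt L * y ^ 5 :=
      mul_le_mul a1 (pow_le_pow_left₀ a20 a2 5) (by positivity) (by positivity)
    exact mul_le_mul b1 (by linarith) (by linarith) (by positivity)
  have hcard : (#((oL L).filter (· ∈ bad)) : ℝ) ≤ C * y ^ B := by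
    have c1 : #((oL L).filter (· ∈ bad)) ≤ Nat.card {l : ℕ // l ∈ bad ∧ l ≤ L} := by
      have hfin : Finite {l : ℕ // l ∈ bad ∧ l ≤ L} := by
        have : ({l : ℕ | l ∈ bad ∧ l ≤ L}).Finite :=
          (Set.finite_Iic L).subset fun l hl => hl.2
        exact this.to_subtype
      have : Nat.card ((oL L).filter (· ∈ bad)) ≤ Nat.card {l : ℕ // l ∈ bad ∧ l ≤ L} := by
        refine Nat.card_le_card_of_injective
          (fun l => (⟨l.1, (mem_filter.1 l.2).2, (f4_mem (mem_filter.1 l.2).1).2.2⟩ :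
            {l : ℕ // l ∈ bad ∧ l ≤ L})) ?_
        intro a b hab
        exact Subtype.ext (congrArg (fun z : {l : ℕ // l ∈ bad ∧ l ≤ L} => z.1) hab)
      rwa [Nat.card_eq_fintype_card, Fintype.card_coe] at this
    calc (#((oL L).filter (· ∈ bad)) : ℝ) ≤ (Nat.card {l : ℕ // l ∈ bad ∧ l ≤ L} : ℝ) := by
          exact_mod_cast c1
      _ ≤ C * (Real.log L) ^ B := h L hL3
      _ ≤ C * y ^ B := mul_le_mul_of_nonneg_left (pow_le_pow_left₀ hlogL0 hlogL B) hC
  have hpow : y ^ (B + 6) ≤ 2 ^ (B + 6) * (B + 6).factorial * Real.sqrt ((L : ℝ) + 2) := by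
    have d1 := Real.pow_div_factorial_le_exp (x := y / 2) (by linarith) (B + 6)
    have d2 : Real.exp (y / 2) = Real.sqrt ((L : ℝ) + 2) := by
      rw [Real.exp_half, hy, Real.exp_log (by linarith)]
    rw [d2, div_le_iff₀ (by positivity), div_pow, div_le_iff₀ (by positivity)] at d1
    linarith
  have hsq : Real.sqrt L * Real.sqrt ((L : ℝ) + 2) ≤ 2 * L := by
    rw [← Real.sqrt_mul (by positivity)]
    rw [Real.sqrt_le_left (by positivity)]
    nlinarith
  calc ∑ l ∈ (oL L).filter (· ∈ bad), Real.sqrt l * (Real.log (l + 2)) ^ 5 *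
        (1 + Real.log ((L : ℝ) / l))
      ≤ ∑ l ∈ (oL L).filter (· ∈ bad), Real.sqrt L * y ^ 5 * (2 * y) := sum_le_sum hterm
    _ = #((oL L).filter (· ∈ bad)) * (Real.sqrt L * y ^ 5 * (2 * y)) := by
        rw [sum_const, nsmul_eq_mul]
    _ ≤ (C * y ^ B) * (Real.sqrt L * y ^ 5 * (2 * y)) :=
        mul_le_mul_of_nonneg_right hcard (by positivity)
    _ = 2 * C * Real.sqrt L * y ^ (B + 6) := by ring
    _ ≤ 2 * C * Real.sqrt L * (2 ^ (B + 6) * (B + 6).factorial * Real.sqrt ((L : ℝ) + 2)) :=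
        mul_le_mul_of_nonneg_left hpow (by positivity)
    _ = 2 * C * 2 ^ (B + 6) * (B + 6).factorial * (Real.sqrt L * Real.sqrt ((L : ℝ) + 2)) := by
        ring
    _ ≤ 2 * C * 2 ^ (B + 6) * (B + 6).factorial * (2 * L) :=
        mul_le_mul_of_nonneg_left hsq (by positivity)
    _ = 4 * C * 2 ^ (B + 6) * (B + 6).factorial * L := by ring

end Pool.Agent.TE
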