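import Pool.Agent.Lib.MP_f02ea4_nt.TE.F1

/-!
# F5: one class at the scale of the least prime factor
-/

set_option autoImplicit false

namespace Pool.Agent.TE

open Finset Nat

theorem f5_large (c : ℝ) (hc : 0 < c) : ∃ P₀ : ℕ, 16 ≤ P₀ ∧ ∀ P : ℕ, P₀ ≤ P →
    2 ≤ (P : ℝ) ^ (c / 2) ∧ 2 ≤ (P : ℝ) ^ (1 / 32 : ℝ) ∧
    Real.log (Real.log P) ≤ Real.sqrt (c * Real.log P / 2) ∧
    2 * (P : ℝ) ^ (1 / 4 : ℝ) * (Real.log P) ^ 2 ≤ P := by
  have hcast := tendsto_natCast_atTop_atTop (R := ℝ)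
  have h1 : ∀ᶠ P : ℕ in Filter.atTop, (2 : ℝ) ≤ (P : ℝ) ^ (c / 2) :=
    ((tendsto_rpow_atTop (half_pos hc)).comp hcast).eventually_ge_atTop 2
  have h2 : ∀ᶠ P : ℕ in Filter.atTop, (2 : ℝ) ≤ (P : ℝ) ^ (1 / 32 : ℝ) :=
    ((tendsto_rpow_atTop (by norm_num)).comp hcast).eventually_ge_atTop 2
  have h3 : ∀ᶠ P : ℕ in Filter.atTop,
      Real.log (Real.log P) ≤ Real.sqrt (c * Real.log P / 2) := by
    have hs : 0 < Real.sqrt (c / 2) := Real.sqrt_pos.2 (by positivity)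
    have hb := (isLittleO_log_rpow_atTop (r := 1 / 2) (by norm_num)).bound hs
    have hl : Filter.Tendsto (fun P : ℕ => Real.log (P : ℝ)) Filter.atTop Filter.atTop :=
      Real.tendsto_log_atTop.comp hcast
    have := hl.eventually hb
    filter_upwards [this, hl.eventually_ge_atTop 1] with P hP hP1
    rw [Real.norm_eq_abs, Real.norm_eq_abs, abs_of_nonneg (Real.rpow_nonneg (by linarith) _),
      ← Real.sqrt_eq_rpow, ← Real.sqrt_mul (by positivity)] at hP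
    refine (le_abs_self _).trans (hP.trans (le_of_eq ?_))
    congr 1
    ring
  have h4 : ∀ᶠ P : ℕ in Filter.atTop,
      2 * (P : ℝ) ^ (1 / 4 : ℝ) * (Real.log P) ^ 2 ≤ P := by
    have hb := (isLittleO_log_rpow_rpow_atTop (s := 3 / 4) 2 (by norm_num)).bound
      (c := 1 / 2) (by norm_num)
    have := hcast.eventually hb
    filter_upwards [this, Filter.eventually_ge_atTop 1] with P hP hP1
    have hP0 : (0 : ℝ) < P := by exact_mod_cast hP1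
    rw [Real.norm_eq_abs, Real.norm_eq_abs, abs_of_nonneg (Real.rpow_nonneg hP0.le _),
      show ((2 : ℝ)) = ((2 : ℕ) : ℝ) by norm_num, Real.rpow_natCast,
      abs_of_nonneg (by positivity)] at hP
    push_cast at hP
    have e : (P : ℝ) ^ (1 / 4 : ℝ) * (P : ℝ) ^ (3 / 4 : ℝ) = P := by
      rw [← Real.rpow_add hP0]
      norm_num
    have hq : 0 ≤ (P : ℝ) ^ (1 / 4 : ℝ) := Real.rpow_nonneg hP0.le _
    calc 2 * (P : ℝ) ^ (1 / 4 : ℝ) * (Real.log P) ^ 2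
        = (P : ℝ) ^ (1 / 4 : ℝ) * (2 * (Real.log P) ^ 2) := by ring
      _ ≤ (P : ℝ) ^ (1 / 4 : ℝ) * (P : ℝ) ^ (3 / 4 : ℝ) :=
          mul_le_mul_of_nonneg_left (by linarith) hq
      _ = P := e
  obtain ⟨P₁, hP₁⟩ := Filter.eventually_atTop.1 (h1.and (h2.and (h3.and h4)))
  refine ⟨max 16 P₁, le_max_left _ _, fun P hP => ?_⟩
  exact hP₁ P ((le_max_right _ _).trans hP)

/-- F5. `C₀` from `class_bound`. `c = 1/(32 C₀)`, `z = ⌊P^c⌋₊`, `R = ⌊P^(1/16)⌋₊`. For `P` large (`Q = log P`):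
`z ≥ 3`, `z < P`, `log z ≥ c Q / 2`, `C₀ log z ≤ Q/32 ≤ Q/16 - 1 ≤ log R`, `R ≥ 1`,
`log l ≤ log Q ≤ √(c Q/2) ≤ √(log z)`. `class_bound` gives
`#Cl ≤ P^c + P^(1/4) + 2 e^A κ X (2/(c Q))^2`, and `P^c + P^(1/4) ≤ 2 P^(1/4) ≤ P/Q^2 ≤ e^A κ X/Q^2` for large `P`
(`c ≤ 1/4`). So `C = 1 + 8/c^2`. -/
theorem class_scale : ∃ C : ℝ, 1 ≤ C ∧ ∃ P₀ : ℕ, 16 ≤ P₀ ∧
    ∀ N P l : ℕ, Odd N → N.Perfect → P₀ ≤ P → (∀ p ∈ N.primeFactors, P ≤ p) →
    l.Prime → l ≠ 2 → (l : ℝ) ≤ Real.log P → ∀ κ A : ℝ, 1 ≤ κ → 0 ≤ A →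
    (∀ z : ℕ, 3 ≤ z →
      Real.log (Real.log z) - Real.log κ - A ≤ ((l : ℝ) - 1) * ∑ r ∈ Pl l z, 1 / (r : ℝ)) →
    ∀ X : ℕ, P ≤ X →
      (#(Cl N l X) : ℝ) ≤ C * Real.exp A * κ * X / (Real.log P) ^ 2 := by
  obtain ⟨C₀, hC₀, hcb⟩ := class_bound
  set c : ℝ := 1 / (32 * C₀) with hc
  have hc0 : 0 < c := by positivity
  have hc32 : c ≤ 1 / 32 := by
    rw [hc]
    exact one_div_le_one_div_of_le (by norm_num) (by linarith)
  obtain ⟨P₀, hP₀, hlarge⟩ := f5_large c hc0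
  refine ⟨1 + 8 / c ^ 2, by linarith [show 0 ≤ 8 / c ^ 2 by positivity], P₀, hP₀, ?_⟩
  intro N P l hN hNp hP hmin hl hl2 hlQ κ A hκ hA hz X hX
  obtain ⟨h1, h2, h3, h4⟩ := hlarge P hP
  have hP16 : 16 ≤ P := hP₀.trans hP
  have hPr : (16 : ℝ) ≤ P := by exact_mod_cast hP16
  have hP0 : (0 : ℝ) < P := by linarith
  set Q := Real.log (P : ℝ) with hQ
  have hQ1 : 1 ≤ Q := by
    rw [hQ, Real.le_log_iff_exp_le hP0]
    have := Real.exp_one_lt_d9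
    linarith
  set z := ⌊(P : ℝ) ^ c⌋₊ with hzdef
  set R := ⌊(P : ℝ) ^ (1 / 16 : ℝ)⌋₊ with hRdef
  have e1 : (P : ℝ) ^ c = (P : ℝ) ^ (c / 2) * (P : ℝ) ^ (c / 2) := by
    rw [← Real.rpow_add hP0]
    ring_nf
  have e2 : (P : ℝ) ^ (1 / 16 : ℝ) = (P : ℝ) ^ (1 / 32 : ℝ) * (P : ℝ) ^ (1 / 32 : ℝ) := by
    rw [← Real.rpow_add hP0]
    norm_num
  have hzle : (z : ℝ) ≤ (P : ℝ) ^ c := Nat.floor_le (Real.rpow_nonneg hP0.le _)
  have hRle : (R : ℝ) ≤ (P : ℝ) ^ (1 / 16 : ℝ) := Nat.floor_le (Real.rpow_nonneg hP0.le _)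
  have hzgt : (P : ℝ) ^ c < z + 1 := Nat.lt_floor_add_one _
  have hRgt : (P : ℝ) ^ (1 / 16 : ℝ) < R + 1 := Nat.lt_floor_add_one _
  have hz3 : 3 ≤ z := by
    have : (3 : ℝ) < z + 1 := by nlinarith
    have h' : (2 : ℝ) < z := by linarith
    have : 2 < z := by exact_mod_cast h'
    omega
  have hzge : (P : ℝ) ^ (c / 2) ≤ z := by nlinarith
  have hRge : (P : ℝ) ^ (1 / 32 : ℝ) ≤ R := by nlinarith
  have hR1 : 1 ≤ R := by
    have : (1 : ℝ) < R := by linarith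
    have : 1 < R := by exact_mod_cast this
    omega
  have hz0 : (0 : ℝ) < z := by
    have : 0 < z := by omega
    exact_mod_cast this
  have hlogz : c * Q / 2 ≤ Real.log z := by
    have := Real.log_le_log (Real.rpow_pos_of_pos hP0 _) hzge
    rw [Real.log_rpow hP0] at this
    linarith
  have hlogz' : Real.log z ≤ c * Q := by
    have := Real.log_le_log hz0 hzle
    rwa [Real.log_rpow hP0] at this
  have hlogR : Q / 32 ≤ Real.log R := by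
    have := Real.log_le_log (Real.rpow_pos_of_pos hP0 _) hRge
    rw [Real.log_rpow hP0] at this
    linarith
  have hCz : C₀ * Real.log z ≤ Real.log R := by
    have : C₀ * Real.log z ≤ C₀ * (c * Q) := mul_le_mul_of_nonneg_left hlogz' (by linarith)
    have e : C₀ * (c * Q) = Q / 32 := by
      rw [hc]
      field_simp
    linarith
  have hzp : ∀ p ∈ N.primeFactors, z < p := by
    intro p hp
    have hPp : (P : ℝ) ≤ p := by exact_mod_cast hmin p hp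
    have : (P : ℝ) ^ c < P := by
      calc (P : ℝ) ^ c < (P : ℝ) ^ (1 : ℝ) :=
            Real.rpow_lt_rpow_of_exponent_lt (by linarith) (by linarith)
        _ = P := Real.rpow_one _
    have : (z : ℝ) < p := by linarith
    exact_mod_cast this
  have hlog : Real.log l ≤ Real.sqrt (Real.log z) := by
    have hl0 : (0 : ℝ) < l := by exact_mod_cast hl.pos
    calc Real.log l ≤ Real.log Q := Real.log_le_log hl0 hlQ
      _ ≤ Real.sqrt (c * Q / 2) := h3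
      _ ≤ Real.sqrt (Real.log z) := Real.sqrt_le_sqrt hlogz
  have hmain := hcb N hN hNp l z R X κ A hl hl2 hz3 hR1 (by linarith) hzp hlog hCz (hz z hz3)
  have hXr : (P : ℝ) ≤ X := by exact_mod_cast hX
  have hX0 : (0 : ℝ) < X := by linarith
  have hexp : 1 ≤ Real.exp A := Real.one_le_exp hA
  have hEK : 1 ≤ Real.exp A * κ := by nlinarith
  have hzP : (z : ℝ) ≤ (P : ℝ) ^ (1 / 4 : ℝ) :=
    hzle.trans (Real.rpow_le_rpow_of_exponent_le (by linarith) (by linarith))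
  have hR4 : (R : ℝ) ^ 4 ≤ (P : ℝ) ^ (1 / 4 : ℝ) := by
    calc (R : ℝ) ^ 4 ≤ ((P : ℝ) ^ (1 / 16 : ℝ)) ^ 4 :=
          pow_le_pow_left₀ (by positivity) hRle 4
      _ = (P : ℝ) ^ (1 / 4 : ℝ) := by
          rw [← Real.rpow_natCast, ← Real.rpow_mul hP0.le]
          norm_num
  have hsmall : (z : ℝ) + (R : ℝ) ^ 4 ≤ Real.exp A * κ * X / Q ^ 2 := by
    rw [le_div_iff₀ (by positivity)]
    have : ((z : ℝ) + (R : ℝ) ^ 4) * Q ^ 2 ≤ P := by
      calc ((z : ℝ) + (R : ℝ) ^ 4) * Q ^ 2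
          ≤ (2 * (P : ℝ) ^ (1 / 4 : ℝ)) * Q ^ 2 :=
            mul_le_mul_of_nonneg_right (by linarith) (by positivity)
        _ ≤ P := h4
    nlinarith
  have hbig : 2 * Real.exp A * κ * X / (Real.log z) ^ 2 ≤
      8 / c ^ 2 * (Real.exp A * κ * X / Q ^ 2) := by
    have hcQ : 0 < c * Q / 2 := by positivity
    calc 2 * Real.exp A * κ * X / (Real.log z) ^ 2
        ≤ 2 * Real.exp A * κ * X / (c * Q / 2) ^ 2 := by
          refine div_le_div_of_nonneg_left (by positivity) (by positivity) ?_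
          exact pow_le_pow_left₀ hcQ.le hlogz 2
      _ = 8 / c ^ 2 * (Real.exp A * κ * X / Q ^ 2) := by
          field_simp
          ring
  calc (#(Cl N l X) : ℝ) ≤ z + (R : ℝ) ^ 4 + 2 * Real.exp A * κ * X / (Real.log z) ^ 2 := hmain
    _ ≤ Real.exp A * κ * X / Q ^ 2 + 8 / c ^ 2 * (Real.exp A * κ * X / Q ^ 2) :=
        add_le_add hsmall hbig
    _ = (1 + 8 / c ^ 2) * Real.exp A * κ * X / Q ^ 2 := by ring

end Pool.Agent.TE
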