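import Pool.Agent.Lib.MP_f02ea4_nt.TE.E1
import Pool.Agent.Lib.MP_f02ea4_nt.TE.F2
import Pool.Agent.Lib.MP_f02ea4_nt.TE.F3
import Pool.Agent.Lib.MP_f02ea4_nt.TE.F5

/-!
# F6: lower bound for `Ω(N)` from a hypothesis on the primes `1 mod l`
-/

set_option autoImplicit false

namespace Pool.Agent.TE

open Finset Nat

/-- F6. Let `c₁` be from `tail_mass`, `y = c₁ P^2` (`≥ P` for `P ≥ 1/c₁`), `Q = log P`, `C` from `class_scale`,
`L = ⌊c₂ Q⌋₊` with `c₂ = min 1 (1/(4 C e^A (D + 1)))` (`L ≥ 1` and `L ≥ c₂ Q/2` for large `P`). By `tail_mass` and `layers`: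
`3/Q ≤ 1/y + ∑_{l ∈ oL L} W_l + (3/2) Ω/(L y)`. For `l ∈ oL L`: `l ≤ L ≤ Q`, so `class_scale` with `κ l` gives
`#{p ∈ Cc N l, p ≤ X} = #(Cl N l X) ≤ δ X` for `X ≥ y ≥ P`, `δ = C e^A κ_l/Q^2`, and `dyadic` (`T = L/l ≥ 1`) gives
`W_l ≤ 4 δ (1 + log (L/l))`. So `∑ W_l ≤ (4 C e^A/Q^2) ∑ κ_l (1 + log (L/l)) ≤ (4 C e^A/Q^2) D c₂ Q ≤ 1/Q`. And
`1/y ≤ 1/Q` for large `P`. So `(3/2) Ω/(L y) ≥ 1/Q`, `Ω ≥ (2/3) L y/Q ≥ (1/3) c₁ c₂ P^2`. -/
theorem omega_of_kappa (κ : ℕ → ℝ) (A D : ℝ) (hA : 0 ≤ A) (hD0 : 0 ≤ D)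
    (h1 : ∀ l : ℕ, l.Prime → 1 ≤ κ l)
    (h : ∀ l z : ℕ, l.Prime → l ≠ 2 → 3 ≤ z →
      Real.log (Real.log z) - Real.log (κ l) - A ≤ ((l : ℝ) - 1) * ∑ r ∈ Pl l z, 1 / (r : ℝ))
    (hD : ∀ L : ℕ, 1 ≤ L → ∑ l ∈ oL L, κ l * (1 + Real.log ((L : ℝ) / l)) ≤ D * L) :
    ∃ c : ℝ, 0 < c ∧ ∃ P₂ : ℕ, ∀ N P : ℕ, Odd N → N.Perfect → P₂ ≤ P →
      (∀ p ∈ N.primeFactors, P ≤ p) →
        c * (P : ℝ) ^ 2 ≤ (ArithmeticFunction.cardFactors N : ℕ) := by
  obtain ⟨c₁, hc0, hc1, P₀, hP₀, hmass⟩ := tail_mass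
  obtain ⟨C, hC, P₁, hP₁, hcs⟩ := class_scale
  have hK0 : 0 < 4 * C * Real.exp A * (D + 1) := by positivity
  set c₂ : ℝ := min 1 (1 / (4 * C * Real.exp A * (D + 1))) with hc₂
  have hc20 : 0 < c₂ := lt_min one_pos (by positivity)
  have hc2K : 4 * C * Real.exp A * (D + 1) * c₂ ≤ 1 := by
    have h2 : c₂ ≤ 1 / (4 * C * Real.exp A * (D + 1)) := min_le_right _ _
    calc 4 * C * Real.exp A * (D + 1) * c₂
        ≤ 4 * C * Real.exp A * (D + 1) * (1 / (4 * C * Real.exp A * (D + 1))) :=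
          mul_le_mul_of_nonneg_left h2 hK0.le
      _ = 1 := by field_simp
  have hc21 : c₂ ≤ 1 := min_le_left _ _
  refine ⟨c₁ * c₂ / 3, by positivity,
    max (max P₀ P₁) (max ⌈1 / c₁⌉₊ ⌈Real.exp (2 / c₂)⌉₊), fun N P hodd hN hP hmin => ?_⟩
  have hP0 : P₀ ≤ P := le_trans (le_trans (le_max_left _ _) (le_max_left _ _)) hP
  have hP1 : P₁ ≤ P := le_trans (le_trans (le_max_right _ _) (le_max_left _ _)) hP
  have hP2 : 1 / c₁ ≤ P :=
    Nat.ceil_le.mp (le_trans (le_trans (le_max_left _ _) (le_max_right _ _)) hP)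
  have hP3 : Real.exp (2 / c₂) ≤ P :=
    Nat.ceil_le.mp (le_trans (le_trans (le_max_right _ _) (le_max_right _ _)) hP)
  have hPpos : (0 : ℝ) < P := lt_of_lt_of_le (Real.exp_pos _) hP3
  have hP1' : (1 : ℝ) ≤ P := by
    have : (3 : ℝ) ≤ P := by exact_mod_cast le_trans hP₀ hP0
    linarith
  set Q : ℝ := Real.log P with hQ
  have hQ2 : 2 / c₂ ≤ Q := (Real.le_log_iff_exp_le hPpos).mpr hP3
  have hcQ : 2 ≤ c₂ * Q := by
    have := (div_le_iff₀ hc20).mp hQ2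
    linarith
  have hQpos : 0 < Q := lt_of_lt_of_le (by positivity) hQ2
  have hQP : Q ≤ P := by
    have := Real.log_le_sub_one_of_pos hPpos
    linarith
  set y : ℝ := c₁ * (P : ℝ) ^ 2 with hy
  have hyP : (P : ℝ) ≤ y := by
    have h1 : 1 ≤ c₁ * P := by
      have := (div_le_iff₀ hc0).mp hP2
      linarith
    calc (P : ℝ) = 1 * P := (one_mul _).symm
      _ ≤ c₁ * P * P := mul_le_mul_of_nonneg_right h1 hPpos.le
      _ = y := by rw [hy]; ring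
  have hy1 : 1 ≤ y := le_trans hP1' hyP
  have hy0 : 0 < y := lt_of_lt_of_le one_pos hy1
  set L : ℕ := ⌊c₂ * Q⌋₊ with hL
  have hLle : (L : ℝ) ≤ c₂ * Q := Nat.floor_le (by positivity)
  have hLge : c₂ * Q / 2 ≤ L := by
    have := Nat.lt_floor_add_one (c₂ * Q)
    rw [← hL] at this
    linarith
  have hL1 : 1 ≤ L := by
    have : (1 : ℝ) ≤ L := by linarith
    exact_mod_cast this
  have hL0 : (0 : ℝ) < L := by
    have : (1 : ℝ) ≤ L := by exact_mod_cast hL1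
    linarith
  have hLQ : (L : ℝ) ≤ Q := by
    have : c₂ * Q ≤ 1 * Q := mul_le_mul_of_nonneg_right hc21 hQpos.le
    linarith
  -- the classes
  have hW : ∀ l ∈ oL L, ∑ p ∈ (Cc N l).filter (fun p : ℕ => y < (p : ℝ) ∧
      (p : ℝ) ≤ (L : ℝ) / l * y), 1 / (p : ℝ)
        ≤ 4 * (C * Real.exp A / Q ^ 2) * (κ l * (1 + Real.log ((L : ℝ) / l))) := by
    intro l hl
    obtain ⟨hlr, hlp, hl2⟩ : l ∈ range (L + 1) ∧ l.Prime ∧ l ≠ 2 := by
      simpa [oL, and_assoc] using hl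
    have hlL : l ≤ L := by
      have := mem_range.mp hlr
      omega
    have hl0 : (0 : ℝ) < l := by exact_mod_cast hlp.pos
    have hκ := h1 l hlp
    have hT : 1 ≤ (L : ℝ) / l := by
      rw [le_div_iff₀ hl0, one_mul]
      exact_mod_cast hlL
    have hlQ : (l : ℝ) ≤ Real.log P := le_trans (by exact_mod_cast hlL) hLQ
    have key := dyadic (Cc N l) y (C * Real.exp A * κ l / Q ^ 2) ((L : ℝ) / l) hy1 hT
      (by positivity) (fun X hX => ?_)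
    · calc _ ≤ 4 * (C * Real.exp A * κ l / Q ^ 2) * (1 + Real.log ((L : ℝ) / l)) := key
        _ = _ := by ring
    · have hPX : P ≤ X := by exact_mod_cast le_trans hyP hX
      have := hcs N P l hodd hN hP1 hmin hlp hl2 hlQ (κ l) A hκ hA
        (fun z hz => h l z hlp hl2 hz) X hPX
      have hset : (Cc N l).filter (fun p => p ≤ X) = Cl N l X := by
        ext p
        simp only [Cc, Cl, mem_filter]
        tauto
      rw [hset]
      calc _ ≤ C * Real.exp A * κ l * X / (Real.log P) ^ 2 := this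
        _ = C * Real.exp A * κ l / Q ^ 2 * X := by rw [← hQ]; ring
  have hsum : ∑ l ∈ oL L, ∑ p ∈ (Cc N l).filter (fun p : ℕ => y < (p : ℝ) ∧
      (p : ℝ) ≤ (L : ℝ) / l * y), 1 / (p : ℝ) ≤ 1 / Q := by
    calc _ ≤ ∑ l ∈ oL L, 4 * (C * Real.exp A / Q ^ 2) * (κ l * (1 + Real.log ((L : ℝ) / l))) :=
          sum_le_sum hW
      _ = 4 * (C * Real.exp A / Q ^ 2) * ∑ l ∈ oL L, κ l * (1 + Real.log ((L : ℝ) / l)) := by
          rw [mul_sum]
      _ ≤ 4 * (C * Real.exp A / Q ^ 2) * (D * L) :=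
          mul_le_mul_of_nonneg_left (hD L hL1) (by positivity)
      _ ≤ 4 * (C * Real.exp A / Q ^ 2) * ((D + 1) * (c₂ * Q)) := by
          apply mul_le_mul_of_nonneg_left _ (by positivity)
          apply mul_le_mul (by linarith) hLle hL0.le (by linarith)
      _ = 4 * C * Real.exp A * (D + 1) * c₂ * (1 / Q) := by
          field_simp
      _ ≤ 1 * (1 / Q) := mul_le_mul_of_nonneg_right hc2K (by positivity)
      _ = 1 / Q := one_mul _
  have hm := hmass N P hN hP0 hmin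
  have hla := layers hodd hN L hL1 y hy0
  have hyQ : 1 / y ≤ 1 / Q := one_div_le_one_div_of_le hQpos (le_trans hQP hyP)
  set W : ℝ := ((ArithmeticFunction.cardFactors N : ℕ) : ℝ) with hWdef
  have hfin : 1 / Q ≤ 3 / 2 * W / (L * y) := by
    have h3 : (3 : ℝ) / Q = 1 / Q + 1 / Q + 1 / Q := by ring
    rw [← hQ, h3] at hm
    linarith
  have hLy : 0 < (L : ℝ) * y := by positivity
  have h5 : (L : ℝ) * y / Q ≤ 3 / 2 * W := by
    have := (le_div_iff₀ hLy).mp hfin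
    calc (L : ℝ) * y / Q = 1 / Q * (L * y) := by ring
      _ ≤ 3 / 2 * W := this
  have h6 : c₂ / 2 * y ≤ (L : ℝ) * y / Q := by
    rw [le_div_iff₀ hQpos]
    calc c₂ / 2 * y * Q = c₂ * Q / 2 * y := by ring
      _ ≤ L * y := mul_le_mul_of_nonneg_right hLge hy0.le
  calc c₁ * c₂ / 3 * (P : ℝ) ^ 2 = 2 / 3 * (c₂ / 2 * y) := by rw [hy]; ring
    _ ≤ W := by linarith

end Pool.Agent.TE
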