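import Pool.Agent.Lib.MP_f02ea4_nt.TE.F4
import Pool.Agent.Lib.MP_f02ea4_nt.TE.F6
import Pool.Agent.Lib.MP_f02ea4_nt.TE.F8

/-!
# F7: the theorem from `APhyp`
-/

set_option autoImplicit false

namespace Pool.Agent.TE

open Finset Nat

/-- F7 (1). `κ l = log (l+2)` if `l ∉ bad`, `κ l = √l (log (l+2))^5` if `l ∈ bad` (both `≥ 1` for `l ≥ 2`),
`A = C`. `log κ l = log log (l+2)` resp. `(1/2) log l + 5 log log (l+2)`. The sum condition: `cheb_sum`, `bad_sum`. -/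
theorem kappa_of_AP (C : ℝ) (B : ℕ) (bad : Set ℕ) (h : APhyp C B bad) :
    ∃ (κ : ℕ → ℝ) (A D : ℝ), 0 ≤ A ∧ 0 ≤ D ∧ (∀ l : ℕ, l.Prime → 1 ≤ κ l) ∧
      (∀ l z : ℕ, l.Prime → l ≠ 2 → 3 ≤ z →
        Real.log (Real.log z) - Real.log (κ l) - A ≤ ((l : ℝ) - 1) * ∑ r ∈ Pl l z, 1 / (r : ℝ)) ∧
      (∀ L : ℕ, 1 ≤ L → ∑ l ∈ oL L, κ l * (1 + Real.log ((L : ℝ) / l)) ≤ D * L) := by
  classical
  have hC : 0 ≤ C := by linarith [h.one]
  obtain ⟨C1, hC1, h1⟩ := cheb_sum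
  obtain ⟨D1, hD1, h2⟩ := bad_sum C B bad hC h.card
  have hlog : ∀ l : ℕ, 2 ≤ l → 1 ≤ Real.log ((l : ℝ) + 2) := by
    intro l hl
    have hl' : (2 : ℝ) ≤ l := by exact_mod_cast hl
    have h3 : Real.exp 1 ≤ (l : ℝ) + 2 := by
      have := Real.exp_one_lt_d9
      linarith
    rw [← Real.log_exp 1]
    exact Real.log_le_log (Real.exp_pos 1) h3
  refine ⟨fun l => if l ∈ bad then Real.sqrt l * (Real.log (l + 2)) ^ 5
    else Real.log (l + 2), C, C1 + D1, hC, by positivity, ?_, ?_, ?_⟩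
  · intro l hl
    have h3 := hlog l hl.two_le
    show (1 : ℝ) ≤ if l ∈ bad then Real.sqrt l * (Real.log (l + 2)) ^ 5 else Real.log (l + 2)
    split_ifs
    · have h4 : (1 : ℝ) ≤ Real.sqrt l := by
        rw [Real.one_le_sqrt]
        exact_mod_cast hl.one_lt.le
      have h5 : (1 : ℝ) ≤ (Real.log ((l : ℝ) + 2)) ^ 5 := one_le_pow₀ h3
      nlinarith
    · exact h3
  · intro l z hl _ hz
    have h3 := hlog l hl.two_le
    have hl0 : (0 : ℝ) < l := by exact_mod_cast hl.pos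
    show Real.log (Real.log z) - Real.log (if l ∈ bad then Real.sqrt l * (Real.log (l + 2)) ^ 5
      else Real.log (l + 2)) - C ≤ _
    split_ifs with hb
    · have h4 := h.all l z hl hz
      have h5 : Real.log (Real.sqrt l * (Real.log ((l : ℝ) + 2)) ^ 5) =
          (1 / 2) * Real.log l + 5 * Real.log (Real.log ((l : ℝ) + 2)) := by
        rw [Real.log_mul (by positivity) (by positivity), Real.log_sqrt hl0.le, Real.log_pow]
        push_cast
        ring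
      rw [h5]
      linarith
    · exact h.good l z hl hb hz
  · intro L hL
    have hmem : ∀ l ∈ oL L, 2 ≤ l ∧ l ≤ L := by
      intro l hl
      unfold oL at hl
      rw [Finset.mem_filter, Finset.mem_range] at hl
      exact ⟨hl.2.1.two_le, by omega⟩
    have ht : ∀ l ∈ oL L, 0 ≤ 1 + Real.log ((L : ℝ) / l) := by
      intro l hl
      obtain ⟨a, b⟩ := hmem l hl
      have hl0 : (0 : ℝ) < l := by exact_mod_cast (by omega : 0 < l)
      have : 0 ≤ Real.log ((L : ℝ) / l) := by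
        apply Real.log_nonneg
        rw [le_div_iff₀ hl0, one_mul]
        exact_mod_cast b
      linarith
    have e1 : ∑ l ∈ oL L, (if l ∈ bad then Real.sqrt l * (Real.log (l + 2)) ^ 5
        else Real.log (l + 2)) * (1 + Real.log ((L : ℝ) / l)) ≤
        ∑ l ∈ oL L, (Real.log (l + 2) * (1 + Real.log ((L : ℝ) / l)) +
          if l ∈ bad then Real.sqrt l * (Real.log (l + 2)) ^ 5 * (1 + Real.log ((L : ℝ) / l))
          else 0) := by
      refine Finset.sum_le_sum fun l hl => ?_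
      have h3 := hlog l (hmem l hl).1
      have h4 := ht l hl
      split_ifs
      · have : 0 ≤ Real.log ((l : ℝ) + 2) * (1 + Real.log ((L : ℝ) / l)) :=
          mul_nonneg (by linarith) h4
        linarith
      · linarith
    refine e1.trans ?_
    rw [Finset.sum_add_distrib, ← Finset.sum_filter, add_mul]
    exact add_le_add (h1 L hL) (h2 L hL)

theorem omega_large (C : ℝ) (B : ℕ) (bad : Set ℕ) (h : APhyp C B bad) :
    ∃ c : ℝ, 0 < c ∧ ∃ P₂ : ℕ, ∀ N P : ℕ, Odd N → N.Perfect → P₂ ≤ P →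
      (∀ p ∈ N.primeFactors, P ≤ p) →
        c * (P : ℝ) ^ 2 ≤ (ArithmeticFunction.cardFactors N : ℕ) := by
  obtain ⟨κ, A, D, hA, hD0, h1, h2, hD⟩ := kappa_of_AP C B bad h
  exact omega_of_kappa κ A D hA hD0 h1 h2 hD

/-- Thinness, `P = N.minFac`. -/
theorem thin_all (C : ℝ) (B : ℕ) (bad : Set ℕ) (h : APhyp C B bad) :
    ∃ C' : ℝ, 0 ≤ C' ∧ ∀ N : ℕ, Odd N → N.Perfect → ∀ L x : ℕ, 1 ≤ L → N.minFac ≤ x →
      (#(Th N L x) : ℝ) ≤ C' * L * x / (Real.log N.minFac) ^ 2 := by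
  obtain ⟨κ, A, D, hA, hD0, h1, h2, hD⟩ := kappa_of_AP C B bad h
  obtain ⟨C', hC', h3⟩ := thin_of_kappa κ A D hA hD0 h1 h2 hD
  refine ⟨C', hC', fun N hodd hN L x hL hx => ?_⟩
  have hN1 : N ≠ 1 := by
    rintro rfl
    have := hN.1
    simp at this
  have hP := Nat.minFac_prime hN1
  refine h3 N N.minFac hodd hN hP.two_le (fun p hp => ?_) L x hL hx
  exact Nat.minFac_le_of_dvd (Nat.prime_of_mem_primeFactors hp).two_le
    (Nat.dvd_of_mem_primeFactors hp)

/-- F7 (2). `P = N.minFac`. For `P < P₂` use `Ω(N) ≥ 1` (`N > 1`) and `c ≤ 1/P₂^2`. And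
`log N = ∑ e_p log p ≥ Ω(N) log P` (`log_eq`, `Omega_eq`). -/
theorem omega_all (C : ℝ) (B : ℕ) (bad : Set ℕ) (h : APhyp C B bad) :
    ∃ c : ℝ, 0 < c ∧ ∀ N : ℕ, Odd N → N.Perfect →
      c * (N.minFac : ℝ) ^ 2 ≤ (ArithmeticFunction.cardFactors N : ℕ) ∧
      c * (N.minFac : ℝ) ^ 2 * Real.log N.minFac ≤ Real.log N := by
  obtain ⟨c₀, hc₀, P₂, h1⟩ := omega_large C B bad h
  refine ⟨min c₀ (1 / ((P₂ : ℝ) ^ 2 + 1)), by positivity, fun N hodd hN => ?_⟩
  have hN0 : N ≠ 0 := hN.2.ne'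
  have hN1 : N ≠ 1 := by
    rintro rfl
    have := hN.1
    simp at this
  have hP := Nat.minFac_prime hN1
  have hmin : ∀ p ∈ N.primeFactors, N.minFac ≤ p := fun p hp =>
    Nat.minFac_le_of_dvd (Nat.prime_of_mem_primeFactors hp).two_le (Nat.dvd_of_mem_primeFactors hp)
  have hO : (1 : ℝ) ≤ ((ArithmeticFunction.cardFactors N : ℕ) : ℝ) := by
    rw [Omega_eq hN0]
    have hm : N.minFac ∈ N.primeFactors := Nat.mem_primeFactors.2 ⟨hP, Nat.minFac_dvd N, hN0⟩
    have h2 : (1 : ℝ) ≤ (N.factorization N.minFac : ℝ) := by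
      have : 1 ≤ N.factorization N.minFac :=
        (hP.dvd_iff_one_le_factorization hN0).1 (Nat.minFac_dvd N)
      exact_mod_cast this
    exact h2.trans (Finset.single_le_sum (f := fun p => (N.factorization p : ℝ))
      (fun _ _ => Nat.cast_nonneg _) hm)
  have key : min c₀ (1 / ((P₂ : ℝ) ^ 2 + 1)) * (N.minFac : ℝ) ^ 2 ≤
      ((ArithmeticFunction.cardFactors N : ℕ) : ℝ) := by
    by_cases hc : P₂ ≤ N.minFac
    · refine le_trans ?_ (h1 N N.minFac hodd hN hc hmin)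
      exact mul_le_mul_of_nonneg_right (min_le_left _ _) (by positivity)
    · refine le_trans ?_ hO
      have h3 : (N.minFac : ℝ) ≤ P₂ := by exact_mod_cast (by omega : N.minFac ≤ P₂)
      have h4 : (N.minFac : ℝ) ^ 2 ≤ (P₂ : ℝ) ^ 2 := pow_le_pow_left₀ (Nat.cast_nonneg _) h3 2
      calc min c₀ (1 / ((P₂ : ℝ) ^ 2 + 1)) * (N.minFac : ℝ) ^ 2
          ≤ (1 / ((P₂ : ℝ) ^ 2 + 1)) * ((P₂ : ℝ) ^ 2 + 1) :=
            mul_le_mul (min_le_right _ _) (by linarith) (by positivity) (by positivity)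
        _ = 1 := by field_simp
  refine ⟨key, ?_⟩
  have hlog0 : 0 ≤ Real.log N.minFac := Real.log_nonneg (by exact_mod_cast hP.one_lt.le)
  refine (mul_le_mul_of_nonneg_right key hlog0).trans ?_
  rw [Omega_eq hN0, log_eq hN0, Finset.sum_mul]
  refine Finset.sum_le_sum fun p hp => ?_
  refine mul_le_mul_of_nonneg_left ?_ (Nat.cast_nonneg _)
  exact Real.log_le_log (by exact_mod_cast hP.pos) (by exact_mod_cast hmin p hp)

end Pool.Agent.TE
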