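import Pool.Agent.Lib.MP_f02ea4_nt.TE.C2
import Pool.Agent.Lib.MP_f02ea4_nt.TE.F7

set_option autoImplicit false

namespace Pool.Agent.TE

open Finset

/-- real `x` form of `thin` (`#{p ≤ x} = #Lo N E ⌊x⌋₊`; `⌊x⌋₊ ≥ 2`, `⌊x⌋₊ ≤ x`, `log x ≤ 2 log ⌊x⌋₊` as `x ≤ ⌊x⌋₊ + 1 ≤ ⌊x⌋₊ ^ 2`) -/
theorem thin_real (E : ℕ) : ∃ C : ℝ, ∀ N : ℕ, Odd N → N.Perfect → ∀ x : ℝ, 2 ≤ x →
    ((N.primeFactors.filter (fun p : ℕ => (p : ℝ) ≤ x ∧ N.factorization p ≤ E)).card : ℝ)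
      ≤ C * x / (Real.log x) ^ 2 := by
  obtain ⟨C, hC, h⟩ := thin E
  refine ⟨4 * C, fun N hodd hN x hx => ?_⟩
  have hx0 : 0 ≤ x := by linarith
  have hf2 : 2 ≤ ⌊x⌋₊ := Nat.le_floor (by exact_mod_cast hx)
  have h1 := h N hodd hN ⌊x⌋₊ hf2
  have e1 : N.primeFactors.filter (fun p : ℕ => (p : ℝ) ≤ x ∧ N.factorization p ≤ E) =
      Lo N E ⌊x⌋₊ := by
    unfold Lo
    refine Finset.filter_congr fun p _ => ?_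
    rw [Nat.le_floor_iff hx0]
  rw [e1]
  refine h1.trans ?_
  have hf : (2 : ℝ) ≤ (⌊x⌋₊ : ℝ) := by exact_mod_cast hf2
  have hfx : (⌊x⌋₊ : ℝ) ≤ x := Nat.floor_le hx0
  have hlt : x < (⌊x⌋₊ : ℝ) + 1 := Nat.lt_floor_add_one x
  have hlogf : 0 < Real.log (⌊x⌋₊ : ℝ) := Real.log_pos (by linarith)
  have hlogx : 0 < Real.log x := Real.log_pos (by linarith)
  have h2 : Real.log x ≤ 2 * Real.log (⌊x⌋₊ : ℝ) := by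
    have h3 : x ≤ (⌊x⌋₊ : ℝ) ^ 2 := by nlinarith
    calc Real.log x ≤ Real.log ((⌊x⌋₊ : ℝ) ^ 2) := Real.log_le_log (by linarith) h3
      _ = 2 * Real.log (⌊x⌋₊ : ℝ) := by rw [Real.log_pow]; push_cast; ring
  rw [div_le_div_iff₀ (by positivity) (by positivity)]
  have h4 : (Real.log x) ^ 2 ≤ 4 * (Real.log (⌊x⌋₊ : ℝ)) ^ 2 := by
    calc (Real.log x) ^ 2 ≤ (2 * Real.log (⌊x⌋₊ : ℝ)) ^ 2 := pow_le_pow_left₀ hlogx.le h2 2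
      _ = _ := by ring
  calc C * (⌊x⌋₊ : ℝ) * (Real.log x) ^ 2 ≤ C * x * (4 * (Real.log (⌊x⌋₊ : ℝ)) ^ 2) :=
        mul_le_mul (mul_le_mul_of_nonneg_left hfx hC) h4 (by positivity) (by positivity)
    _ = _ := by ring

end Pool.Agent.TE
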