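import Pool.Agent.Lib.MP_f02ea4_nt.TE.A2

/-!
# G1: the mass of a number
-/

set_option autoImplicit false

namespace Pool.Agent.TE

open Finset Pool.Agent.Lib.MP_f02ea4_nt

/-- `σ(B) / B` -/
noncomputable def bt (B : ℕ) : ℝ := (∑ d ∈ B.divisors, (d : ℝ)) / B

private theorem g1_prod_pow {N : ℕ} (hN : N ≠ 0) :
    ∏ p ∈ N.primeFactors, ((p : ℝ) ^ (N.factorization p)) = (N : ℝ) := by
  have h : ∏ p ∈ N.primeFactors, p ^ (N.factorization p) = N :=
    Nat.prod_factorization_pow_eq_self hN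
  have h2 := congrArg (fun n : ℕ => (n : ℝ)) h
  simp only [Nat.cast_prod, Nat.cast_pow] at h2
  exact h2

/-- G1a. `σ(B) = ∏ sg p e_p`. (Multiplicativity; see the proof of `Rad.perfect_eq` in RadEuler.lean, or
`Nat.Coprime.sum_divisors_mul`/`ArithmeticFunction.isMultiplicative_sigma`, `Nat.sum_divisors`.) -/
lemma bt_eq {B : ℕ} (hB : B ≠ 0) :
    bt B = ∏ p ∈ B.primeFactors, ((Rad.sg p (B.factorization p) : ℕ) : ℝ) / (p : ℝ) ^ (B.factorization p) := by
  have hB0 : (B : ℝ) ≠ 0 := by exact_mod_cast hB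
  unfold bt
  rw [Finset.prod_div_distrib, g1_prod_pow hB]
  congr 1
  have h1 := Nat.sum_divisors hB
  have h2 := congrArg (fun n : ℕ => (n : ℝ)) h1
  simp only [Nat.cast_sum] at h2
  rw [h2]
  simp only [Nat.cast_prod, Rad.sg]

/-- G1b. `1 ∈ B.divisors`... `σ(B) ≥ B`. -/
lemma one_le_bt {B : ℕ} (hB : B ≠ 0) : 1 ≤ bt B := by
  have hB0 : (0 : ℝ) < B := by exact_mod_cast Nat.pos_of_ne_zero hB
  unfold bt
  rw [le_div_iff₀ hB0, one_mul]
  exact Finset.single_le_sum (f := fun d : ℕ => (d : ℝ)) (fun d _ => Nat.cast_nonneg d)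
    (Nat.mem_divisors_self B hB)

/-- G1c. `N = A B` coprime and perfect: `σ(A) σ(B) = 2 A B`, `σ(A) ≥ A`, so `σ(B)/B ≤ 2`. -/
lemma bt_le_two {N A B : ℕ} (hN : N.Perfect) (h : N = A * B) (hc : Nat.Coprime A B) : bt B ≤ 2 := by
  have hN0 := hN.2
  rw [h] at hN hN0
  have hA : A ≠ 0 := fun h0 => by simp [h0] at hN0
  have hB : B ≠ 0 := fun h0 => by simp [h0] at hN0
  have h1 := (Nat.perfect_iff_sum_divisors_eq_two_mul hN0).1 hN
  rw [hc.sum_divisors_mul] at h1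
  have hA0 : (0 : ℝ) < A := by exact_mod_cast Nat.pos_of_ne_zero hA
  have hB0 : (0 : ℝ) < B := by exact_mod_cast Nat.pos_of_ne_zero hB
  have h2 : (A : ℝ) ≤ ∑ d ∈ A.divisors, (d : ℝ) :=
    Finset.single_le_sum (f := fun d : ℕ => (d : ℝ)) (fun d _ => Nat.cast_nonneg d)
      (Nat.mem_divisors_self A hA)
  have h3 := congrArg (fun n : ℕ => (n : ℝ)) h1
  simp only [Nat.cast_sum, Nat.cast_mul, Nat.cast_ofNat] at h3
  have h4 : (0 : ℝ) ≤ ∑ d ∈ B.divisors, (d : ℝ) :=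
    Finset.sum_nonneg fun d _ => Nat.cast_nonneg d
  unfold bt
  rw [div_le_iff₀ hB0]
  have h5 := mul_le_mul_of_nonneg_right h2 h4
  rw [h3] at h5
  have h6 : (A : ℝ) * ∑ d ∈ B.divisors, (d : ℝ) ≤ (A : ℝ) * (2 * B) := by linarith
  exact le_of_mul_le_mul_left h6 hA0

/-- G1d. `bt N = 2` for perfect `N`. -/
lemma bt_perfect {N : ℕ} (hN : N.Perfect) : bt N = 2 := by
  have hN0 : (0 : ℝ) < N := by exact_mod_cast hN.2
  have h1 := (Nat.perfect_iff_sum_divisors_eq_two_mul hN.2).1 hN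
  have h2 := congrArg (fun n : ℕ => (n : ℝ)) h1
  simp only [Nat.cast_sum, Nat.cast_mul, Nat.cast_ofNat] at h2
  unfold bt
  rw [h2, mul_div_assoc, div_self hN0.ne', mul_one]

private theorem g1_tele (P k : ℕ) (hP : 2 ≤ P) :
    ∑ n ∈ Finset.Ico P (P + k), 1 / ((n : ℝ) * ((n : ℝ) - 1)) ≤
      1 / ((P : ℝ) - 1) - 1 / ((P : ℝ) + k - 1) := by
  induction k with
  | zero => simp
  | succ k ih =>
    have hle : P ≤ P + k := Nat.le_add_right _ _
    rw [← add_assoc, Finset.sum_Ico_succ_top hle]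
    have hP' : (2 : ℝ) ≤ P := by exact_mod_cast hP
    have hk : (0 : ℝ) ≤ k := Nat.cast_nonneg k
    have h1 : 1 / (((P + k : ℕ) : ℝ) * (((P + k : ℕ) : ℝ) - 1)) =
        1 / ((P : ℝ) + k - 1) - 1 / ((P : ℝ) + ((k + 1 : ℕ) : ℝ) - 1) := by
      push_cast
      have h2 : (P : ℝ) + k - 1 ≠ 0 := by
        have : (0 : ℝ) < (P : ℝ) + k - 1 := by linarith
        exact this.ne'
      have h3 : (P : ℝ) + k ≠ 0 := by
        have : (0 : ℝ) < (P : ℝ) + k := by linarith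
        exact this.ne'
      have h4 : (P : ℝ) + (k + 1) - 1 = P + k := by ring
      rw [h4]
      field_simp
      ring
    rw [h1]
    linarith

/-- G1e. As `sum_inv_ge` (A2.lean): `σ(B)/B ≤ ∏ (1 + 1/(p-1))`, so
`log (σ(B)/B) ≤ ∑ 1/(p-1) = ∑ 1/p + ∑ 1/(p(p-1))`, and `∑ 1/(p(p-1)) ≤ 1/(P-1)`. (Copy the proof of `sum_inv_ge`.) -/
theorem mass_ge {B P : ℕ} (hB : B ≠ 0) (hP : 2 ≤ P) (h : ∀ p ∈ B.primeFactors, P ≤ p) :
    Real.log (bt B) - 1 / ((P : ℝ) - 1) ≤ ∑ p ∈ B.primeFactors, 1 / (p : ℝ) := by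
  have hB0 : (0 : ℝ) < B := by exact_mod_cast Nat.pos_of_ne_zero hB
  have h2p : ∀ p ∈ B.primeFactors, (2 : ℝ) ≤ p := by
    intro p hp
    exact_mod_cast (Nat.prime_of_mem_primeFactors hp).two_le
  have h1 : ∏ p ∈ B.primeFactors, ((Rad.sg p (B.factorization p) : ℕ) : ℝ) ≤
      (∏ p ∈ B.primeFactors, (1 + 1 / ((p : ℝ) - 1))) *
      ∏ p ∈ B.primeFactors, ((p : ℝ) ^ (B.factorization p)) := by
    rw [← Finset.prod_mul_distrib]
    apply Finset.prod_le_prod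
    · intro p _
      positivity
    · intro p hp
      have hp2 := h2p p hp
      have hp1 : (0 : ℝ) < (p : ℝ) - 1 := by linarith
      have hg : ((Rad.sg p (B.factorization p) : ℕ) : ℝ) * ((p : ℝ) - 1)
          = (p : ℝ) ^ (B.factorization p + 1) - 1 := by
        unfold Rad.sg
        push_cast
        exact geom_sum_mul (p : ℝ) (B.factorization p + 1)
      have h4 : (1 + 1 / ((p : ℝ) - 1)) * (p : ℝ) ^ (B.factorization p) * ((p : ℝ) - 1)
          = (p : ℝ) ^ (B.factorization p + 1) := by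
        field_simp
        ring
      have h5 : ((Rad.sg p (B.factorization p) : ℕ) : ℝ) * ((p : ℝ) - 1) ≤
          (1 + 1 / ((p : ℝ) - 1)) * (p : ℝ) ^ (B.factorization p) * ((p : ℝ) - 1) := by
        rw [hg, h4]
        linarith
      exact le_of_mul_le_mul_right h5 hp1
  have hb := bt_eq hB
  rw [Finset.prod_div_distrib, g1_prod_pow hB] at hb
  rw [g1_prod_pow hB] at h1
  have h2 : bt B ≤ ∏ p ∈ B.primeFactors, (1 + 1 / ((p : ℝ) - 1)) := by
    rw [hb, div_le_iff₀ hB0]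
    exact h1
  have hpos : ∀ p ∈ B.primeFactors, (0 : ℝ) < 1 + 1 / ((p : ℝ) - 1) := by
    intro p hp
    have hp2 := h2p p hp
    have hp1 : (0 : ℝ) < (p : ℝ) - 1 := by linarith
    positivity
  have h3 : Real.log (bt B) ≤ ∑ p ∈ B.primeFactors, 1 / ((p : ℝ) - 1) := by
    calc Real.log (bt B) ≤ Real.log (∏ p ∈ B.primeFactors, (1 + 1 / ((p : ℝ) - 1))) :=
          Real.log_le_log (by linarith [one_le_bt hB]) h2
      _ = ∑ p ∈ B.primeFactors, Real.log (1 + 1 / ((p : ℝ) - 1)) :=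
          Real.log_prod (fun p hp => (hpos p hp).ne')
      _ ≤ ∑ p ∈ B.primeFactors, 1 / ((p : ℝ) - 1) := by
          apply Finset.sum_le_sum
          intro p hp
          have := Real.log_le_sub_one_of_pos (hpos p hp)
          linarith
  have h4 : ∑ p ∈ B.primeFactors, 1 / ((p : ℝ) - 1) =
      ∑ p ∈ B.primeFactors, 1 / (p : ℝ) + ∑ p ∈ B.primeFactors, 1 / ((p : ℝ) * ((p : ℝ) - 1)) := by
    rw [← Finset.sum_add_distrib]
    apply Finset.sum_congr rfl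
    intro p hp
    have hp2 := h2p p hp
    have h5 : (p : ℝ) - 1 ≠ 0 := by
      have : (0 : ℝ) < (p : ℝ) - 1 := by linarith
      exact this.ne'
    have h6 : (p : ℝ) ≠ 0 := by
      have : (0 : ℝ) < (p : ℝ) := by linarith
      exact this.ne'
    field_simp
    ring
  have h5 : ∑ p ∈ B.primeFactors, 1 / ((p : ℝ) * ((p : ℝ) - 1)) ≤ 1 / ((P : ℝ) - 1) := by
    have hsub : B.primeFactors ⊆ Finset.Ico P (P + (B + 1)) := by
      intro p hp
      rw [Finset.mem_Ico]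
      refine ⟨h p hp, ?_⟩
      have := Nat.le_of_dvd (Nat.pos_of_ne_zero hB) (Nat.dvd_of_mem_primeFactors hp)
      omega
    have hP' : (2 : ℝ) ≤ P := by exact_mod_cast hP
    have hB' : (0 : ℝ) ≤ ((B + 1 : ℕ) : ℝ) := Nat.cast_nonneg _
    calc ∑ p ∈ B.primeFactors, 1 / ((p : ℝ) * ((p : ℝ) - 1))
        ≤ ∑ n ∈ Finset.Ico P (P + (B + 1)), 1 / ((n : ℝ) * ((n : ℝ) - 1)) := by
          apply Finset.sum_le_sum_of_subset_of_nonneg hsub
          intro n hn _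
          have h7 : P ≤ n := (Finset.mem_Ico.1 hn).1
          have h8 : (P : ℝ) ≤ n := by exact_mod_cast h7
          have h9 : (0 : ℝ) ≤ (n : ℝ) - 1 := by linarith
          positivity
      _ ≤ 1 / ((P : ℝ) - 1) - 1 / ((P : ℝ) + ((B + 1 : ℕ) : ℝ) - 1) := g1_tele P (B + 1) hP
      _ ≤ 1 / ((P : ℝ) - 1) := by
          have : 0 ≤ 1 / ((P : ℝ) + ((B + 1 : ℕ) : ℝ) - 1) := by
            apply div_nonneg zero_le_one
            linarith
          linarith
  linarith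

end Pool.Agent.TE
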