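import Pool.Agent.Lib.MP_f02ea4_nt.TE.G4

/-!
# G5: one class at the scale of a prime factor after a gap
-/

set_option autoImplicit false

namespace Pool.Agent.TE

open Finset Nat

/-- G5a. `r = l j + 1` with `1 ≤ j ≤ w/l`, and `(l-1)/(l j + 1) ≤ 1/j`, so the sum is at most the harmonic number
`H_m`, `m = ⌊w/l⌋`, which is `0` if `m = 0` and `≤ 1 + log m` otherwise. -/
lemma small_sum (l z : ℕ) (hl : l.Prime) (w : ℝ) (hw : 0 ≤ w) :
    ((l : ℝ) - 1) * ∑ r ∈ (Pl l z).filter (fun r : ℕ => (r : ℝ) ≤ w), 1 / (r : ℝ)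
      ≤ 1 + Real.log (1 + w / l) := by
  have hl2 : 2 ≤ l := hl.two_le
  have hlr : (2 : ℝ) ≤ l := by exact_mod_cast hl2
  have hl0 : (0 : ℝ) < l := by linarith
  have hwl : 0 ≤ w / l := by positivity
  set m := ⌊w / l⌋₊ with hm
  set T := (Pl l z).filter (fun r : ℕ => (r : ℝ) ≤ w) with hT
  have key : ∀ r ∈ T, r = l * ((r - 1) / l) + 1 ∧ 1 ≤ (r - 1) / l ∧ (r - 1) / l ≤ m := by
    intro r hr
    rw [hT, Finset.mem_filter] at hr
    obtain ⟨hr, hrw⟩ := hr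
    rw [Pl, Finset.mem_filter, Pool.Agent.Lib.MP_bae66e_nt.AP3.mem_prI] at hr
    obtain ⟨⟨_, hrp⟩, hmod⟩ := hr
    have hr1 : 1 < r := hrp.one_lt
    have hd : l ∣ r - 1 := (Nat.modEq_iff_dvd' hr1.le).1 hmod.symm
    obtain ⟨j, hj⟩ := hd
    have hjq : (r - 1) / l = j := by rw [hj]; exact Nat.mul_div_cancel_left j hl.pos
    rw [hjq]
    have hj1 : 1 ≤ j := by
      rcases Nat.eq_zero_or_pos j with h | h
      · subst h
        rw [Nat.mul_zero] at hj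
        omega
      · exact h
    have hrj : r = l * j + 1 := by omega
    refine ⟨hrj, hj1, ?_⟩
    rw [hm, Nat.le_floor_iff hwl, le_div_iff₀ hl0]
    have : (r : ℝ) = l * j + 1 := by exact_mod_cast hrj
    nlinarith
  have h1 : ((l : ℝ) - 1) * ∑ r ∈ T, 1 / (r : ℝ) ≤ ∑ r ∈ T, 1 / (((r - 1) / l : ℕ) : ℝ) := by
    rw [Finset.mul_sum]
    apply Finset.sum_le_sum
    intro r hr
    obtain ⟨h1, h2, h3⟩ := key r hr
    have hj : (1 : ℝ) ≤ (((r - 1) / l : ℕ) : ℝ) := by exact_mod_cast h2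
    have hrr : (r : ℝ) = l * (((r - 1) / l : ℕ) : ℝ) + 1 := by exact_mod_cast h1
    rw [hrr]
    generalize (((r - 1) / l : ℕ) : ℝ) = t at hj
    rw [mul_one_div, div_le_div_iff₀ (by positivity) (by positivity)]
    nlinarith
  have h2 : ∑ r ∈ T, 1 / (((r - 1) / l : ℕ) : ℝ) ≤ ∑ j ∈ Finset.Icc 1 m, 1 / (j : ℝ) := by
    have hinj : Set.InjOn (fun r : ℕ => (r - 1) / l) (T : Set ℕ) := by
      intro a ha b hb hab
      have h1 := (key a ha).1
      have h2 := (key b hb).1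
      simp only at hab
      rw [h1, h2, hab]
    rw [← Finset.sum_image (f := fun j : ℕ => 1 / (j : ℝ)) hinj]
    apply Finset.sum_le_sum_of_subset_of_nonneg
    · intro j hj
      rw [Finset.mem_image] at hj
      obtain ⟨r, hr, rfl⟩ := hj
      rw [Finset.mem_Icc]
      exact (key r hr).2
    · intro j _ _
      positivity
  have h3 : ∑ j ∈ Finset.Icc 1 m, 1 / (j : ℝ) ≤ 1 + Real.log m := by
    have := harmonic_le_one_add_log m
    rw [harmonic_eq_sum_Icc] at this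
    push_cast at this
    simpa [one_div] using this
  have h4 : Real.log m ≤ Real.log (1 + w / l) := by
    rcases Nat.eq_zero_or_pos m with h | h
    · rw [h, Nat.cast_zero, Real.log_zero]
      exact Real.log_nonneg (by linarith)
    · apply Real.log_le_log (by exact_mod_cast h)
      have := Nat.floor_le hwl
      linarith
  linarith

theorem g5_large (c : ℝ) (hc : 0 < c) : ∃ P₀ : ℕ, 16 ≤ P₀ ∧ ∀ P : ℕ, P₀ ≤ P →
    2 ≤ (P : ℝ) ^ (c / 2) ∧ 2 ≤ (P : ℝ) ^ (1 / 32 : ℝ) ∧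
    Real.log (Real.log P) ≤ Real.sqrt (c * Real.log P / 2) ∧
    2 * (P : ℝ) ^ (1 / 4 : ℝ) * (Real.log P) ^ 2 ≤ P := by
  have hcast := tendsto_natCast_atTop_atTop (R := ℝ)
  have h1 : ∀ᶠ P : ℕ in Filter.atTop, (2 : ℝ) ≤ (P : ℝ) ^ (c / 2) :=
    ((tendsto_rpow_atTop (half_pos hc)).comp hcast).eventually_ge_atTop 2
  have h2 : ∀ᶠ P : ℕ in Filter.atTop, (2 : ℝ) ≤ (P : ℝ) ^ (1 / 32 : ℝ) :=
    ((tendsto_rpow_atTop (by norm_num)).comp hcast).eventually_ge_atTop 2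
  have h3 : ∀ᶠ P : ℕ in Filter.atTop,
      Real.log (Real.log P) ≤ Real.sqrt (c * Real.log P / 2) := by
    have hs : 0 < Real.sqrt (c / 2) := Real.sqrt_pos.2 (by positivity)
    have hb := (isLittleO_log_rpow_atTop (r := 1 / 2) (by norm_num)).bound hs
    have hl : Filter.Tendsto (fun P : ℕ => Real.log (P : ℝ)) Filter.atTop Filter.atTop :=
      Real.tendsto_log_atTop.comp hcast
    have := hl.eventually hb
    filter_upwards [this, hl.eventually_ge_atTop 1] with P hP hP1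
    rw [Real.norm_eq_abs, Real.norm_eq_abs, abs_of_nonneg (Real.rpow_nonneg (by linarith) _),
      ← Real.sqrt_eq_rpow, ← Real.sqrt_mul (by positivity)] at hP
    refine (le_abs_self _).trans (hP.trans (le_of_eq ?_))
    congr 1
    ring
  have h4 : ∀ᶠ P : ℕ in Filter.atTop,
      2 * (P : ℝ) ^ (1 / 4 : ℝ) * (Real.log P) ^ 2 ≤ P := by
    have hb := (isLittleO_log_rpow_rpow_atTop (s := 3 / 4) 2 (by norm_num)).bound
      (c := 1 / 2) (by norm_num)
    have := hcast.eventually hb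
    filter_upwards [this, Filter.eventually_ge_atTop 1] with P hP hP1
    have hP0 : (0 : ℝ) < P := by exact_mod_cast hP1
    rw [Real.norm_eq_abs, Real.norm_eq_abs, abs_of_nonneg (Real.rpow_nonneg hP0.le _),
      show ((2 : ℝ)) = ((2 : ℕ) : ℝ) by norm_num, Real.rpow_natCast,
      abs_of_nonneg (by positivity)] at hP
    push_cast at hP
    have e : (P : ℝ) ^ (1 / 4 : ℝ) * (P : ℝ) ^ (3 / 4 : ℝ) = P := by
      rw [← Real.rpow_add hP0]
      norm_num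
    have hq : 0 ≤ (P : ℝ) ^ (1 / 4 : ℝ) := Real.rpow_nonneg hP0.le _
    calc 2 * (P : ℝ) ^ (1 / 4 : ℝ) * (Real.log P) ^ 2
        = (P : ℝ) ^ (1 / 4 : ℝ) * (2 * (Real.log P) ^ 2) := by ring
      _ ≤ (P : ℝ) ^ (1 / 4 : ℝ) * (P : ℝ) ^ (3 / 4 : ℝ) :=
          mul_le_mul_of_nonneg_left (by linarith) hq
      _ = P := e
  obtain ⟨P₁, hP₁⟩ := Filter.eventually_atTop.1 (h1.and (h2.and (h3.and h4)))
  refine ⟨max 16 P₁, le_max_left _ _, fun P hP => ?_⟩
  exact hP₁ P ((le_max_right _ _).trans hP)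

/-- G5b. (Generalization of `class_scale` in F5.lean.) `C₀` from `class_bound'`. `c = 1/(32 C₀)`, `z = ⌊P^c⌋₊`,
`R = ⌊P^(1/16)⌋₊`. For `P` large (`Q = log P`): `z ≥ 3`, `z < P`, `log z ≥ c Q / 2`, `C₀ log z ≤ Q/32 ≤ Q/16 - 1 ≤ log R`,
`R ≥ 1`, `log l ≤ log Q ≤ √(c Q/2) ≤ √(log z)`. A prime `r ∈ Pl l z` that divides `N` is `≤ z < P`, so `≤ w`; by `small_sum`
`(l-1) ∑_{Sp} 1/r ≥ (l-1) ∑_{Pl} 1/r - 1 - log (1 + w/l)`. So `class_bound'` with `κ' = κ (1 + w/l)` and `A' = A + 1` gives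
`#Cl ≤ P^c + P^(1/4) + 2 e^(A+1) κ' X (2/(c Q))^2`, and `P^c + P^(1/4) ≤ 2 P^(1/4) ≤ P/Q^2 ≤ e^A κ' X/Q^2` for large `P`
(`c ≤ 1/4`). So `C = 1 + 8 e/c^2`. -/
theorem class_scale' : ∃ C : ℝ, 1 ≤ C ∧ ∃ P₀ : ℕ, 16 ≤ P₀ ∧
    ∀ N P l : ℕ, Odd N → N.Perfect → P₀ ≤ P → ∀ w : ℝ, 0 ≤ w →
    (∀ p ∈ N.primeFactors, P ≤ p ∨ (p : ℝ) ≤ w) →
    l.Prime → l ≠ 2 → (l : ℝ) ≤ Real.log P → ∀ κ A : ℝ, 1 ≤ κ → 0 ≤ A →
    (∀ z : ℕ, 3 ≤ z →
      Real.log (Real.log z) - Real.log κ - A ≤ ((l : ℝ) - 1) * ∑ r ∈ Pl l z, 1 / (r : ℝ)) →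
    ∀ X : ℕ, P ≤ X →
      (#(Cl N l X) : ℝ) ≤ C * Real.exp A * (κ * (1 + w / l)) * X / (Real.log P) ^ 2 := by
  obtain ⟨C₀, hC₀, hcb⟩ := class_bound'
  set c : ℝ := 1 / (32 * C₀) with hc
  have hc0 : 0 < c := by positivity
  have hc32 : c ≤ 1 / 32 := by
    rw [hc]
    exact one_div_le_one_div_of_le (by norm_num) (by linarith)
  obtain ⟨P₀, hP₀, hlarge⟩ := g5_large c hc0
  refine ⟨1 + 8 * Real.exp 1 / c ^ 2,
    by linarith [show 0 ≤ 8 * Real.exp 1 / c ^ 2 by positivity], P₀, hP₀, ?_⟩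
  intro N P l hN hNp hP w hw hmin hl hl2 hlQ κ₀ A hκ₀ hA hz X hX
  have hN0 : N ≠ 0 := by
    rintro rfl
    simp at hN
  have hwl : 0 ≤ w / l := by positivity
  set κ := κ₀ * (1 + w / l) with hκdef
  have hκ : 1 ≤ κ := by
    rw [hκdef]
    nlinarith
  obtain ⟨h1, h2, h3, h4⟩ := hlarge P hP
  have hP16 : 16 ≤ P := hP₀.trans hP
  have hPr : (16 : ℝ) ≤ P := by exact_mod_cast hP16
  have hP0 : (0 : ℝ) < P := by linarith
  set Q := Real.log (P : ℝ) with hQ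
  have hQ1 : 1 ≤ Q := by
    rw [hQ, Real.le_log_iff_exp_le hP0]
    have := Real.exp_one_lt_d9
    linarith
  set z := ⌊(P : ℝ) ^ c⌋₊ with hzdef
  set R := ⌊(P : ℝ) ^ (1 / 16 : ℝ)⌋₊ with hRdef
  have e1 : (P : ℝ) ^ c = (P : ℝ) ^ (c / 2) * (P : ℝ) ^ (c / 2) := by
    rw [← Real.rpow_add hP0]
    ring_nf
  have e2 : (P : ℝ) ^ (1 / 16 : ℝ) = (P : ℝ) ^ (1 / 32 : ℝ) * (P : ℝ) ^ (1 / 32 : ℝ) := by
    rw [← Real.rpow_add hP0]
    norm_num
  have hzle : (z : ℝ) ≤ (P : ℝ) ^ c := Nat.floor_le (Real.rpow_nonneg hP0.le _)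
  have hRle : (R : ℝ) ≤ (P : ℝ) ^ (1 / 16 : ℝ) := Nat.floor_le (Real.rpow_nonneg hP0.le _)
  have hzgt : (P : ℝ) ^ c < z + 1 := Nat.lt_floor_add_one _
  have hRgt : (P : ℝ) ^ (1 / 16 : ℝ) < R + 1 := Nat.lt_floor_add_one _
  have hz3 : 3 ≤ z := by
    have : (3 : ℝ) < z + 1 := by nlinarith
    have h' : (2 : ℝ) < z := by linarith
    have : 2 < z := by exact_mod_cast h'
    omega
  have hzge : (P : ℝ) ^ (c / 2) ≤ z := by nlinarith
  have hRge : (P : ℝ) ^ (1 / 32 : ℝ) ≤ R := by nlinarith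
  have hR1 : 1 ≤ R := by
    have : (1 : ℝ) < R := by linarith
    have : 1 < R := by exact_mod_cast this
    omega
  have hz0 : (0 : ℝ) < z := by
    have : 0 < z := by omega
    exact_mod_cast this
  have hlogz : c * Q / 2 ≤ Real.log z := by
    have := Real.log_le_log (Real.rpow_pos_of_pos hP0 _) hzge
    rw [Real.log_rpow hP0] at this
    linarith
  have hlogz' : Real.log z ≤ c * Q := by
    have := Real.log_le_log hz0 hzle
    rwa [Real.log_rpow hP0] at this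
  have hlogR : Q / 32 ≤ Real.log R := by
    have := Real.log_le_log (Real.rpow_pos_of_pos hP0 _) hRge
    rw [Real.log_rpow hP0] at this
    linarith
  have hCz : C₀ * Real.log z ≤ Real.log R := by
    have : C₀ * Real.log z ≤ C₀ * (c * Q) := mul_le_mul_of_nonneg_left hlogz' (by linarith)
    have e : C₀ * (c * Q) = Q / 32 := by
      rw [hc]
      field_simp
    linarith
  have hzP' : z < P := by
    have : (P : ℝ) ^ c < P := by
      calc (P : ℝ) ^ c < (P : ℝ) ^ (1 : ℝ) :=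
            Real.rpow_lt_rpow_of_exponent_lt (by linarith) (by linarith)
        _ = P := Real.rpow_one _
    have : (z : ℝ) < P := by linarith
    exact_mod_cast this
  have hmass : Real.log (Real.log z) - Real.log κ - (A + 1) ≤
      ((l : ℝ) - 1) * ∑ r ∈ Sp N l z, 1 / (r : ℝ) := by
    have hlr : (1 : ℝ) ≤ l := by exact_mod_cast hl.one_lt.le
    have hs := small_sum l z hl w hw
    have hz' := hz z hz3
    have hsplit : ∑ r ∈ Pl l z, 1 / (r : ℝ) ≤ ∑ r ∈ Sp N l z, 1 / (r : ℝ) +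
        ∑ r ∈ (Pl l z).filter (fun r : ℕ => (r : ℝ) ≤ w), 1 / (r : ℝ) := by
      rw [Sp, ← Finset.sum_filter_add_sum_filter_not (Pl l z) (fun r => ¬ r ∣ N)]
      refine add_le_add le_rfl ?_
      apply Finset.sum_le_sum_of_subset_of_nonneg
      · intro r hr
        rw [Finset.mem_filter] at hr ⊢
        obtain ⟨hr, hd⟩ := hr
        rw [not_not] at hd
        refine ⟨hr, ?_⟩
        have hr' := hr
        rw [Pl, Finset.mem_filter, Pool.Agent.Lib.MP_bae66e_nt.AP3.mem_prI] at hr'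
        obtain ⟨⟨⟨_, hrz⟩, hrp⟩, _⟩ := hr'
        rcases hmin r (Nat.mem_primeFactors.mpr ⟨hrp, hd, hN0⟩) with h | h
        · omega
        · exact h
      · intro r _ _
        positivity
    have hlogκ : Real.log κ = Real.log κ₀ + Real.log (1 + w / l) := by
      rw [hκdef, Real.log_mul (by linarith) (by linarith)]
    have hmul := mul_le_mul_of_nonneg_left hsplit (by linarith : (0 : ℝ) ≤ (l : ℝ) - 1)
    rw [mul_add] at hmul
    linarith
  have hlog : Real.log l ≤ Real.sqrt (Real.log z) := by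
    have hl0 : (0 : ℝ) < l := by exact_mod_cast hl.pos
    calc Real.log l ≤ Real.log Q := Real.log_le_log hl0 hlQ
      _ ≤ Real.sqrt (c * Q / 2) := h3
      _ ≤ Real.sqrt (Real.log z) := Real.sqrt_le_sqrt hlogz
  have hmain := hcb N hN hNp l z R X κ (A + 1) hl hl2 hz3 hR1 (by linarith) hlog hCz hmass
  have hXr : (P : ℝ) ≤ X := by exact_mod_cast hX
  have hX0 : (0 : ℝ) < X := by linarith
  have hexp : 1 ≤ Real.exp A := Real.one_le_exp hA
  have hEK : 1 ≤ Real.exp A * κ := by nlinarith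
  have hzP : (z : ℝ) ≤ (P : ℝ) ^ (1 / 4 : ℝ) :=
    hzle.trans (Real.rpow_le_rpow_of_exponent_le (by linarith) (by linarith))
  have hR4 : (R : ℝ) ^ 4 ≤ (P : ℝ) ^ (1 / 4 : ℝ) := by
    calc (R : ℝ) ^ 4 ≤ ((P : ℝ) ^ (1 / 16 : ℝ)) ^ 4 :=
          pow_le_pow_left₀ (by positivity) hRle 4
      _ = (P : ℝ) ^ (1 / 4 : ℝ) := by
          rw [← Real.rpow_natCast, ← Real.rpow_mul hP0.le]
          norm_num
  have hsmall : (z : ℝ) + (R : ℝ) ^ 4 ≤ Real.exp A * κ * X / Q ^ 2 := by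
    rw [le_div_iff₀ (by positivity)]
    have : ((z : ℝ) + (R : ℝ) ^ 4) * Q ^ 2 ≤ P := by
      calc ((z : ℝ) + (R : ℝ) ^ 4) * Q ^ 2
          ≤ (2 * (P : ℝ) ^ (1 / 4 : ℝ)) * Q ^ 2 :=
            mul_le_mul_of_nonneg_right (by linarith) (by positivity)
        _ ≤ P := h4
    nlinarith
  have hbig : 2 * Real.exp (A + 1) * κ * X / (Real.log z) ^ 2 ≤
      8 * Real.exp 1 / c ^ 2 * (Real.exp A * κ * X / Q ^ 2) := by
    have hcQ : 0 < c * Q / 2 := by positivity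
    calc 2 * Real.exp (A + 1) * κ * X / (Real.log z) ^ 2
        ≤ 2 * Real.exp (A + 1) * κ * X / (c * Q / 2) ^ 2 := by
          refine div_le_div_of_nonneg_left (by positivity) (by positivity) ?_
          exact pow_le_pow_left₀ hcQ.le hlogz 2
      _ = 8 * Real.exp 1 / c ^ 2 * (Real.exp A * κ * X / Q ^ 2) := by
          rw [Real.exp_add]
          field_simp
          ring
  calc (#(Cl N l X) : ℝ) ≤ z + (R : ℝ) ^ 4 + 2 * Real.exp (A + 1) * κ * X / (Real.log z) ^ 2 :=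
        hmain
    _ ≤ Real.exp A * κ * X / Q ^ 2 + 8 * Real.exp 1 / c ^ 2 * (Real.exp A * κ * X / Q ^ 2) :=
        add_le_add hsmall hbig
    _ = (1 + 8 * Real.exp 1 / c ^ 2) * Real.exp A * κ * X / Q ^ 2 := by ring

end Pool.Agent.TE
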