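import Pool.Agent.Lib.MP_f02ea4_nt.TE.F2
import Pool.Agent.Lib.MP_f02ea4_nt.TE.G2
import Pool.Agent.Lib.MP_f02ea4_nt.TE.G3
import Pool.Agent.Lib.MP_f02ea4_nt.TE.G5
import Pool.Agent.Lib.MP_f02ea4_nt.TE.G6

/-!
# G7: lower bound for `Ω(B)`, `N = A B`
-/

set_option autoImplicit false

namespace Pool.Agent.TE

open Finset Nat

/-- G7. (Generalization of `omega_of_kappa` in F6.lean.) Let `P = B.minFac`, `β = bt B`, `Q = log P`, `w = √Q`. `β ≤ 2`
(`bt_le_two`), so `P ≥ P^(β-1) ≥ K` is large. Every prime of `N` is `≥ P` (if it divides `B`) or `≤ w` (if it divides `M`). `c₁, K₁` from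
`tail_mass'`, `y = c₁ P^β ≥ P`, `C` from `class_scale'`, `D'` from `sum_w`, `L = ⌊c₂ Q⌋₊` with
`c₂ = (1/(4 C e^A (D + D' + 1)))^2 ≤ 1` (`L ≥ 1` and `L ≥ c₂ Q/2` for large `P`). The primes `p > y` of `N` are the primes
`p > y` of `B` (`y ≥ P > w`), with the same exponents. By `tail_mass'` and `layers'`:
`3/Q ≤ 1/y + ∑_{l ∈ oL L} W_l + (3/2) (∑_{p > y} e_p)/(L y)`. For `l ∈ oL L`: `l ≤ L ≤ Q`, so `class_scale'` gives
`#{p ∈ Cc N l, p ≤ X} = #(Cl N l X) ≤ δ X` for `X ≥ y ≥ P`, `δ = C e^A κ_l (1 + w/l)/Q^2`, and `dyadic` (`T = L/l ≥ 1`)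
gives `W_l ≤ 4 δ (1 + log (L/l))`. So `∑ W_l ≤ (4 C e^A/Q^2) (D L + D' w √L) ≤ (4 C e^A/Q) √c₂ (D + D') ≤ 1/Q`. And
`1/y ≤ 1/Q`. So `(3/2) Ω(B)/(L y) ≥ 1/Q`, `Ω(B) ≥ (2/3) L y/Q ≥ (1/3) c₁ c₂ P^β`. -/
theorem gap_of_kappa (κ : ℕ → ℝ) (A D : ℝ) (hA : 0 ≤ A) (hD0 : 0 ≤ D)
    (h1 : ∀ l : ℕ, l.Prime → 1 ≤ κ l)
    (h : ∀ l z : ℕ, l.Prime → l ≠ 2 → 3 ≤ z →
      Real.log (Real.log z) - Real.log (κ l) - A ≤ ((l : ℝ) - 1) * ∑ r ∈ Pl l z, 1 / (r : ℝ))
    (hD : ∀ L : ℕ, 1 ≤ L → ∑ l ∈ oL L, κ l * (1 + Real.log ((L : ℝ) / l)) ≤ D * L) :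
    ∃ c K : ℝ, 0 < c ∧ 1 ≤ K ∧ ∀ N M B : ℕ, Odd N → N.Perfect → N = M * B → Nat.Coprime M B →
      B ≠ 1 → (∀ q : ℕ, q.Prime → q ∣ M → (q : ℝ) ^ 2 ≤ Real.log B.minFac) →
      K ≤ (B.minFac : ℝ) ^ (bt B - 1) →
        c * (B.minFac : ℝ) ^ (bt B) ≤ (ArithmeticFunction.cardFactors B : ℕ) := by
  classical
  obtain ⟨c₁, K₁, hc0, hc1, hK1, hmass⟩ := tail_mass'
  obtain ⟨C, hC, P₁, hP₁, hcs⟩ := class_scale'
  obtain ⟨D', hD'0, hsw⟩ := sum_w κ D hD0 (fun l hl => zero_le_one.trans (h1 l hl)) hD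
  have hE1 : 1 ≤ Real.exp A := Real.one_le_exp hA
  have hK0 : 0 < 4 * C * Real.exp A * (D + D' + 1) := by positivity
  have hK4 : 1 ≤ 4 * C * Real.exp A * (D + D' + 1) := by
    have e1 : 1 ≤ C * Real.exp A := by nlinarith
    have e2 : 1 ≤ (C * Real.exp A) * (D + D' + 1) := by nlinarith
    nlinarith
  obtain ⟨a, ha⟩ : ∃ a : ℝ, a = 1 / (4 * C * Real.exp A * (D + D' + 1)) := ⟨_, rfl⟩
  have ha0 : 0 < a := by rw [ha]; positivity
  have ha1 : a ≤ 1 := by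
    rw [ha, div_le_one hK0]
    exact hK4
  have haK : 4 * C * Real.exp A * (D + D' + 1) * a = 1 := by
    rw [ha]
    field_simp
  obtain ⟨c₂, hc₂⟩ : ∃ c₂ : ℝ, c₂ = a ^ 2 := ⟨_, rfl⟩
  have hc20 : 0 < c₂ := by rw [hc₂]; positivity
  have hc2a : c₂ ≤ a := by rw [hc₂]; nlinarith
  have hc21 : c₂ ≤ 1 := hc2a.trans ha1
  refine ⟨c₁ * c₂ / 3, max K₁ (max (P₁ : ℝ) (max (Real.exp (2 / c₂)) 3)), by positivity,
    hK1.trans (le_max_left _ _), fun N M B hodd hN hNMB hcop hB1 hq hK => ?_⟩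
  have hNpos : 0 < N := hN.2
  have hB0 : B ≠ 0 := by
    rintro rfl
    rw [mul_zero] at hNMB
    omega
  have hM0 : M ≠ 0 := by
    rintro rfl
    rw [zero_mul] at hNMB
    omega
  have hPp : B.minFac.Prime := Nat.minFac_prime hB1
  have hβ2 : bt B ≤ 2 := bt_le_two hN hNMB hcop
  have hpf : ∀ p ∈ B.primeFactors, B.minFac ≤ p := fun p hp =>
    Nat.minFac_le_of_dvd (Nat.prime_of_mem_primeFactors hp).two_le
      (Nat.dvd_of_mem_primeFactors hp)
  set P : ℕ := B.minFac with hP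
  have hP1' : (1 : ℝ) ≤ P := by exact_mod_cast hPp.one_le
  have hPβ : (P : ℝ) ^ (bt B - 1) ≤ P := by
    calc (P : ℝ) ^ (bt B - 1) ≤ (P : ℝ) ^ (1 : ℝ) :=
          Real.rpow_le_rpow_of_exponent_le hP1' (by linarith)
      _ = P := Real.rpow_one _
  have hKK : K₁ ≤ (P : ℝ) ^ (bt B - 1) := (le_max_left _ _).trans hK
  have hP1 : P₁ ≤ P := by
    have : (P₁ : ℝ) ≤ P :=
      ((le_max_left _ _).trans (le_max_right _ _)).trans (hK.trans hPβ)
    exact_mod_cast this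
  have hP3 : Real.exp (2 / c₂) ≤ P :=
    (((le_max_left _ _).trans (le_max_right _ _)).trans (le_max_right _ _)).trans (hK.trans hPβ)
  have hP3' : 3 ≤ P := by
    have : (3 : ℝ) ≤ P :=
      (((le_max_right _ _).trans (le_max_right _ _)).trans (le_max_right _ _)).trans
        (hK.trans hPβ)
    exact_mod_cast this
  have hPpos : (0 : ℝ) < P := lt_of_lt_of_le (Real.exp_pos _) hP3
  set Q : ℝ := Real.log P with hQ
  have hQ2 : 2 / c₂ ≤ Q := (Real.le_log_iff_exp_le hPpos).mpr hP3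
  have hcQ : 2 ≤ c₂ * Q := by
    have := (div_le_iff₀ hc20).mp hQ2
    linarith
  have hQpos : 0 < Q := lt_of_lt_of_le (by positivity) hQ2
  have hQ1 : 1 ≤ Q := by nlinarith
  have hQP : Q ≤ P := by
    have := Real.log_le_sub_one_of_pos hPpos
    linarith
  obtain ⟨hyP, hm⟩ := hmass B P hB0 hP3' hpf hβ2 hKK
  set y : ℝ := c₁ * (P : ℝ) ^ (bt B) with hy
  have hy1 : 1 ≤ y := le_trans hP1' hyP
  have hy0 : 0 < y := lt_of_lt_of_le one_pos hy1
  set w : ℝ := Real.sqrt Q with hw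
  have hw0 : 0 ≤ w := Real.sqrt_nonneg _
  have hww : w * w = Q := Real.mul_self_sqrt hQpos.le
  have hwQ : w ≤ Q := by
    have hw1 : 1 ≤ w := Real.one_le_sqrt.mpr hQ1
    nlinarith
  have hMw : ∀ p : ℕ, p.Prime → p ∣ M → (p : ℝ) ≤ w := fun p hp hpM =>
    Real.le_sqrt_of_sq_le (hq p hp hpM)
  have hprimes : ∀ p ∈ N.primeFactors, P ≤ p ∨ (p : ℝ) ≤ w := by
    intro p hp
    have hpp := Nat.prime_of_mem_primeFactors hp
    have hpd : p ∣ M * B := hNMB ▸ Nat.dvd_of_mem_primeFactors hp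
    rcases (hpp.dvd_mul).1 hpd with h2 | h2
    · exact Or.inr (hMw p hpp h2)
    · exact Or.inl (hpf p (Nat.mem_primeFactors.2 ⟨hpp, h2, hB0⟩))
  set L : ℕ := ⌊c₂ * Q⌋₊ with hL
  have hLle : (L : ℝ) ≤ c₂ * Q := Nat.floor_le (by positivity)
  have hLge : c₂ * Q / 2 ≤ L := by
    have := Nat.lt_floor_add_one (c₂ * Q)
    rw [← hL] at this
    linarith
  have hL1 : 1 ≤ L := by
    have : (1 : ℝ) ≤ L := by linarith
    exact_mod_cast this
  have hL0 : (0 : ℝ) < L := by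
    have : (1 : ℝ) ≤ L := by exact_mod_cast hL1
    linarith
  have hLQ : (L : ℝ) ≤ Q := by
    have : c₂ * Q ≤ 1 * Q := mul_le_mul_of_nonneg_right hc21 hQpos.le
    linarith
  -- the classes
  have hW : ∀ l ∈ oL L, ∑ p ∈ (Cc N l).filter (fun p : ℕ => y < (p : ℝ) ∧
      (p : ℝ) ≤ (L : ℝ) / l * y), 1 / (p : ℝ)
        ≤ 4 * (C * Real.exp A / Q ^ 2) * (κ l * (1 + w / l) * (1 + Real.log ((L : ℝ) / l))) := by
    intro l hl
    obtain ⟨hlr, hlp, hl2⟩ : l ∈ range (L + 1) ∧ l.Prime ∧ l ≠ 2 := by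
      simpa [oL, and_assoc] using hl
    have hlL : l ≤ L := by
      have := mem_range.mp hlr
      omega
    have hl0 : (0 : ℝ) < l := by exact_mod_cast hlp.pos
    have hκ := h1 l hlp
    have hT : 1 ≤ (L : ℝ) / l := by
      rw [le_div_iff₀ hl0, one_mul]
      exact_mod_cast hlL
    have hlQ : (l : ℝ) ≤ Real.log P := le_trans (by exact_mod_cast hlL) hLQ
    have hwl : 0 ≤ w / l := by positivity
    have key := dyadic (Cc N l) y (C * Real.exp A * (κ l * (1 + w / l)) / Q ^ 2) ((L : ℝ) / l)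
      hy1 hT (by positivity) (fun X hX => ?_)
    · calc _ ≤ 4 * (C * Real.exp A * (κ l * (1 + w / l)) / Q ^ 2) *
            (1 + Real.log ((L : ℝ) / l)) := key
        _ = _ := by ring
    · have hPX : P ≤ X := by exact_mod_cast le_trans hyP hX
      have := hcs N P l hodd hN hP1 w hw0 hprimes hlp hl2 hlQ (κ l) A hκ hA
        (fun z hz => h l z hlp hl2 hz) X hPX
      have hset : (Cc N l).filter (fun p => p ≤ X) = Cl N l X := by
        ext p
        simp only [Cc, Cl, mem_filter]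
        tauto
      rw [hset]
      calc _ ≤ C * Real.exp A * (κ l * (1 + w / l)) * X / (Real.log P) ^ 2 := this
        _ = C * Real.exp A * (κ l * (1 + w / l)) / Q ^ 2 * X := by rw [← hQ]; ring
  have hDL : D * L + D' * w * Real.sqrt L ≤ (D + D' + 1) * (a * Q) := by
    have e1 : D * (L : ℝ) ≤ D * (a * Q) :=
      mul_le_mul_of_nonneg_left (hLle.trans (mul_le_mul_of_nonneg_right hc2a hQpos.le)) hD0
    have e2 : Real.sqrt L ≤ a * w := by
      refine (Real.sqrt_le_sqrt hLle).trans ?_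
      rw [hc₂, Real.sqrt_mul (by positivity), Real.sqrt_sq ha0.le]
    have e3 : D' * w * Real.sqrt L ≤ D' * (a * Q) := by
      calc D' * w * Real.sqrt L ≤ D' * w * (a * w) :=
            mul_le_mul_of_nonneg_left e2 (by positivity)
        _ = D' * (a * (w * w)) := by ring
        _ = D' * (a * Q) := by rw [hww]
    have e4 : 0 ≤ a * Q := by positivity
    linarith
  have hsum : ∑ l ∈ oL L, ∑ p ∈ (Cc N l).filter (fun p : ℕ => y < (p : ℝ) ∧
      (p : ℝ) ≤ (L : ℝ) / l * y), 1 / (p : ℝ) ≤ 1 / Q := by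
    calc _ ≤ ∑ l ∈ oL L, 4 * (C * Real.exp A / Q ^ 2) *
            (κ l * (1 + w / l) * (1 + Real.log ((L : ℝ) / l))) :=
          sum_le_sum hW
      _ = 4 * (C * Real.exp A / Q ^ 2) *
            ∑ l ∈ oL L, κ l * (1 + w / l) * (1 + Real.log ((L : ℝ) / l)) := by
          rw [mul_sum]
      _ ≤ 4 * (C * Real.exp A / Q ^ 2) * (D * L + D' * w * Real.sqrt L) :=
          mul_le_mul_of_nonneg_left (hsw L hL1 w hw0) (by positivity)
      _ ≤ 4 * (C * Real.exp A / Q ^ 2) * ((D + D' + 1) * (a * Q)) :=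
          mul_le_mul_of_nonneg_left hDL (by positivity)
      _ = 4 * C * Real.exp A * (D + D' + 1) * a * (1 / Q) := by
          field_simp
      _ = 1 / Q := by rw [haK, one_mul]
  have hla := layers' hodd hN L hL1 y hy0
  have hnotM : ∀ p : ℕ, p.Prime → y < (p : ℝ) → ¬ p ∣ M := by
    intro p hp hyp hpM
    have := hMw p hp hpM
    linarith
  have hTT : N.primeFactors.filter (fun p : ℕ => y < (p : ℝ)) =
      B.primeFactors.filter (fun p : ℕ => y < (p : ℝ)) := by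
    ext p
    simp only [mem_filter, Nat.mem_primeFactors]
    constructor
    · rintro ⟨⟨hp, hpN, _⟩, hyp⟩
      rw [hNMB] at hpN
      rcases (hp.dvd_mul).1 hpN with h2 | h2
      · exact absurd h2 (hnotM p hp hyp)
      · exact ⟨⟨hp, h2, hB0⟩, hyp⟩
    · rintro ⟨⟨hp, hpB, _⟩, hyp⟩
      exact ⟨⟨hp, hNMB ▸ Dvd.dvd.mul_left hpB M, by omega⟩, hyp⟩
  have hexp : ∑ p ∈ N.primeFactors.filter (fun p : ℕ => y < (p : ℝ)), (N.factorization p : ℝ)
      ≤ ((ArithmeticFunction.cardFactors B : ℕ) : ℝ) := by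
    rw [hTT, ArithmeticFunction.cardFactors_eq_sum_factorization, Finsupp.sum,
      Nat.support_factorization]
    push_cast
    calc ∑ p ∈ B.primeFactors.filter (fun p : ℕ => y < (p : ℝ)), (N.factorization p : ℝ)
        = ∑ p ∈ B.primeFactors.filter (fun p : ℕ => y < (p : ℝ)), (B.factorization p : ℝ) := by
          refine sum_congr rfl fun p hp => ?_
          have hp1 := mem_filter.1 hp
          have hpp := Nat.prime_of_mem_primeFactors hp1.1
          rw [hNMB, Nat.factorization_mul hM0 hB0, Finsupp.add_apply,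
            Nat.factorization_eq_zero_of_not_dvd (hnotM p hpp hp1.2), zero_add]
      _ ≤ ∑ p ∈ B.primeFactors, (B.factorization p : ℝ) :=
          sum_le_sum_of_subset_of_nonneg (filter_subset _ _) fun _ _ _ => Nat.cast_nonneg _
  have hyQ : 1 / y ≤ 1 / Q := one_div_le_one_div_of_le hQpos (le_trans hQP hyP)
  set W : ℝ := ((ArithmeticFunction.cardFactors B : ℕ) : ℝ) with hWdef
  have hLy : 0 < (L : ℝ) * y := by positivity
  have hlast : 3 / 2 * (∑ p ∈ N.primeFactors.filter (fun p : ℕ => y < (p : ℝ)),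
      (N.factorization p : ℝ)) / (L * y) ≤ 3 / 2 * W / (L * y) := by
    refine div_le_div_of_nonneg_right ?_ hLy.le
    linarith
  have hfin : 1 / Q ≤ 3 / 2 * W / (L * y) := by
    have h3 : (3 : ℝ) / Q = 1 / Q + 1 / Q + 1 / Q := by ring
    rw [← hTT, h3] at hm
    linarith
  have h5 : (L : ℝ) * y / Q ≤ 3 / 2 * W := by
    have := (le_div_iff₀ hLy).mp hfin
    calc (L : ℝ) * y / Q = 1 / Q * (L * y) := by ring
      _ ≤ 3 / 2 * W := this
  have h6 : c₂ / 2 * y ≤ (L : ℝ) * y / Q := by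
    rw [le_div_iff₀ hQpos]
    calc c₂ / 2 * y * Q = c₂ * Q / 2 * y := by ring
      _ ≤ L * y := mul_le_mul_of_nonneg_right hLge hy0.le
  calc c₁ * c₂ / 3 * (P : ℝ) ^ (bt B) = 2 / 3 * (c₂ / 2 * y) := by rw [hy]; ring
    _ ≤ W := by linarith

end Pool.Agent.TE
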