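import Pool.Agent.Lib.MP_f02ea4_nt.TE.F7
import Pool.Agent.Lib.MP_f02ea4_nt.TE.G7
import Pool.Agent.Lib.MP_f02ea4_nt.TE.P10

/-!
# G8: the final theorem
-/

set_option autoImplicit false

namespace Pool.Agent.TE

open Finset Nat

lemma omega_pos {B : ℕ} (hB0 : B ≠ 0) (hB1 : B ≠ 1) :
    (1 : ℝ) ≤ ((ArithmeticFunction.cardFactors B : ℕ) : ℝ) := by
  have hP := Nat.minFac_prime hB1
  rw [Omega_eq hB0]
  have hm : B.minFac ∈ B.primeFactors := Nat.mem_primeFactors.2 ⟨hP, Nat.minFac_dvd B, hB0⟩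
  have h2 : (1 : ℝ) ≤ (B.factorization B.minFac : ℝ) := by
    have : 1 ≤ B.factorization B.minFac :=
      (hP.dvd_iff_one_le_factorization hB0).1 (Nat.minFac_dvd B)
    exact_mod_cast this
  exact h2.trans (Finset.single_le_sum (f := fun p => (B.factorization p : ℝ))
    (fun _ _ => Nat.cast_nonneg _) hm)

lemma omega_mul_log_le {B : ℕ} (hB0 : B ≠ 0) (hB1 : B ≠ 1) :
    ((ArithmeticFunction.cardFactors B : ℕ) : ℝ) * Real.log B.minFac ≤ Real.log B := by
  have hP := Nat.minFac_prime hB1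
  rw [Omega_eq hB0, log_eq hB0, Finset.sum_mul]
  refine Finset.sum_le_sum fun p hp => ?_
  refine mul_le_mul_of_nonneg_left ?_ (Nat.cast_nonneg _)
  exact Real.log_le_log (by exact_mod_cast hP.pos) (by
    exact_mod_cast Nat.minFac_le_of_dvd (Nat.prime_of_mem_primeFactors hp).two_le
      (Nat.dvd_of_mem_primeFactors hp))

/-- The general form: `N = M B`, `B` the part of `N` after a gap. -/
theorem gap_all : ∃ c K : ℝ, 0 < c ∧ 1 ≤ K ∧ ∀ N M B : ℕ, Odd N → N.Perfect → N = M * B →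
    Nat.Coprime M B → B ≠ 1 → (∀ q : ℕ, q.Prime → q ∣ M → (q : ℝ) ^ 2 ≤ Real.log B.minFac) →
    K ≤ (B.minFac : ℝ) ^ (bt B - 1) →
      c * (B.minFac : ℝ) ^ (bt B) ≤ (ArithmeticFunction.cardFactors B : ℕ) ∧
      c * (B.minFac : ℝ) ^ (bt B) * Real.log B.minFac ≤ Real.log B := by
  obtain ⟨C, B', bad, h⟩ := AP_main
  obtain ⟨κ, A, D, hA, hD0, h1, h2, hD⟩ := kappa_of_AP C B' bad h
  obtain ⟨c, K, hc, hK, h3⟩ := gap_of_kappa κ A D hA hD0 h1 h2 hD
  refine ⟨c, K, hc, hK, ?_⟩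
  intro N M B hodd hN hNMB hcop hB1 hq hKP
  have hB0 : B ≠ 0 := by
    rintro rfl
    rw [hNMB, Nat.mul_zero] at hodd
    exact absurd hodd (by decide)
  have h4 := h3 N M B hodd hN hNMB hcop hB1 hq hKP
  refine ⟨h4, ?_⟩
  have hP := Nat.minFac_prime hB1
  have hlog0 : 0 ≤ Real.log B.minFac := Real.log_nonneg (by exact_mod_cast hP.one_lt.le)
  exact (mul_le_mul_of_nonneg_right h4 hlog0).trans (omega_mul_log_le hB0 hB1)

/-- The case `M = 1`. -/
theorem norton : ∃ c : ℝ, 0 < c ∧ ∀ N : ℕ, Odd N → N.Perfect →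
    c * (N.minFac : ℝ) ^ 2 ≤ (ArithmeticFunction.cardFactors N : ℕ) ∧
    c * (N.minFac : ℝ) ^ 2 * Real.log N.minFac ≤ Real.log N := by
  obtain ⟨c, K, hc, hK, h⟩ := gap_all
  have hK0 : 0 < K := by linarith
  refine ⟨min c (1 / K ^ 2), by positivity, fun N hodd hN => ?_⟩
  have hN0 : N ≠ 0 := hN.2.ne'
  have hN1 : N ≠ 1 := by
    rintro rfl
    have := hN.1
    simp at this
  have hP := Nat.minFac_prime hN1
  have key : min c (1 / K ^ 2) * (N.minFac : ℝ) ^ 2 ≤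
      ((ArithmeticFunction.cardFactors N : ℕ) : ℝ) := by
    by_cases hKP : K ≤ N.minFac
    · have h1 := (h N 1 N hodd hN (one_mul N).symm (Nat.coprime_one_left N) hN1
        (fun q hq hq1 => absurd (Nat.dvd_one.1 hq1) hq.one_lt.ne')
        (by rw [bt_perfect hN]; norm_num; exact hKP)).1
      rw [bt_perfect hN, show ((2 : ℝ)) = ((2 : ℕ) : ℝ) by norm_num, Real.rpow_natCast] at h1
      exact (mul_le_mul_of_nonneg_right (min_le_left _ _) (by positivity)).trans h1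
    · push Not at hKP
      refine le_trans ?_ (omega_pos hN0 hN1)
      have h4 : (N.minFac : ℝ) ^ 2 ≤ K ^ 2 := pow_le_pow_left₀ (Nat.cast_nonneg _) hKP.le 2
      calc min c (1 / K ^ 2) * (N.minFac : ℝ) ^ 2
          ≤ (1 / K ^ 2) * K ^ 2 :=
            mul_le_mul (min_le_right _ _) h4 (by positivity) (by positivity)
        _ = 1 := by field_simp
  refine ⟨key, ?_⟩
  have hlog0 : 0 ≤ Real.log N.minFac := Real.log_nonneg (by exact_mod_cast hP.one_lt.le)
  exact (mul_le_mul_of_nonneg_right key hlog0).trans (omega_mul_log_le hN0 hN1)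

end Pool.Agent.TE
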