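import Pool.Agent.Lib.MP_f02ea4_nt.TE.B3

/-!
# H1: the sieve for the primes `p ≡ 1 mod q` of `N` with `l ∣ e_p + 1`
-/

set_option autoImplicit false

namespace Pool.Agent.TE

open Finset Nat Pool.Agent.Lib.MP_bae66e_nt.AP3

/-- the primes `p ≤ x`, `p ≡ 1 mod q`, of `N` with `l ∣ v_p(N) + 1` -/
def Ca (N l q x : ℕ) : Finset ℕ := (Cl N l x).filter (fun p => p ≡ 1 [MOD q])

/-- the sieved classes for `j`, where `p = q j + 1` -/
def Rq (N l z q r : ℕ) : Finset ℕ := (range r).filter (fun j => (q * j + 1) % r ∈ Rc N l z r)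

/-- H1a. `j ↦ (q j + 1) % r` is a bijection of `range r` (as `r ∤ q`), and `Rc N l z r ⊆ range r`. -/
lemma card_Rq {N l z q r : ℕ} (hl : l.Prime) (hr : r ∈ prI 0 z) (hqr : ¬ r ∣ q) :
    #(Rq N l z q r) = #(Rc N l z r) := by
  have hrp := (mem_prI.1 hr).2
  have hcop : Nat.gcd r q = 1 := (Nat.Prime.coprime_iff_not_dvd hrp).2 hqr
  have hinj : ∀ a ∈ range r, ∀ b ∈ range r, (q * a + 1) % r = (q * b + 1) % r → a = b := by
    intro a ha b hb hab
    have h1 : q * a + 1 ≡ q * b + 1 [MOD r] := hab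
    have h2 : q * a ≡ q * b [MOD r] := Nat.ModEq.add_right_cancel' 1 h1
    have h3 := Nat.ModEq.cancel_left_of_coprime hcop h2
    exact Nat.ModEq.eq_of_lt_of_lt h3 (Finset.mem_range.1 ha) (Finset.mem_range.1 hb)
  have himg : (range r).image (fun j => (q * j + 1) % r) = range r := by
    apply Finset.eq_of_subset_of_card_le
    · intro t ht
      obtain ⟨j, _, rfl⟩ := Finset.mem_image.1 ht
      exact Finset.mem_range.2 (Nat.mod_lt _ hrp.pos)
    · rw [Finset.card_image_of_injOn (fun a ha b hb => hinj a ha b hb)]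
  have hsub := (Rc_dat (N := N) (z := z) hl).sub r hr
  refine Finset.card_bij (fun j _ => (q * j + 1) % r) ?_ ?_ ?_
  · intro j hj
    exact (Finset.mem_filter.1 hj).2
  · intro a ha b hb hab
    exact hinj a (Finset.mem_filter.1 ha).1 b (Finset.mem_filter.1 hb).1 hab
  · intro t ht
    have h1 := hsub ht
    rw [← himg] at h1
    obtain ⟨j, hj, hjt⟩ := Finset.mem_image.1 h1
    refine ⟨j, ?_, hjt⟩
    rw [Rq, Finset.mem_filter]
    exact ⟨hj, by rw [hjt]; exact ht⟩

private lemma h1_ndvd {q r z : ℕ} (hq : q.Prime) (hr : r ∈ (prI 0 z).erase q) : ¬ r ∣ q := by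
  intro h
  have h1 := Finset.mem_erase.1 hr
  exact h1.1 ((Nat.prime_dvd_prime_iff_eq (mem_prI.1 h1.2).2 hq).1 h)

/-- H1b. From `Rc_dat` and `card_Rq` (a prime `r ≠ q` does not divide the prime `q`). -/
lemma Rq_dat {N l z q : ℕ} (hl : l.Prime) (hq : q.Prime) :
    Dat ((prI 0 z).erase q) (Rq N l z q) where
  prime := fun p hp => (mem_prI.1 (Finset.mem_of_mem_erase hp)).2
  sub := fun p _ => Finset.filter_subset _ _
  pos := by
    intro p hp
    have h1 := Finset.mem_of_mem_erase hp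
    rw [card_Rq hl h1 (h1_ndvd hq hp)]
    exact (Rc_dat (N := N) (z := z) hl).pos p h1
  lt := by
    intro p hp
    have h1 := Finset.mem_of_mem_erase hp
    rw [card_Rq hl h1 (h1_ndvd hq hp)]
    exact (Rc_dat (N := N) (z := z) hl).lt p h1

/-- the residues of the primes of `Cl` -/
private lemma h1_avoid {N : ℕ} (hodd : Odd N) (hN : N.Perfect) {l : ℕ} (hl : l.Prime)
    (hl2 : l ≠ 2) {z X p r : ℕ} (hp : p ∈ Cl N l X) (hz : z < p) (hr : r ∈ prI 0 z) :
    p % r ∉ Rc N l z r := by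
  have hlo : Odd l := hl.odd_of_ne_two hl2
  unfold Cl at hp
  rw [Finset.mem_filter] at hp
  obtain ⟨hp1, hp2, hp3⟩ := hp
  have hpp := Nat.prime_of_mem_primeFactors hp1
  obtain ⟨⟨_, hrz⟩, hrp⟩ := mem_prI.1 hr
  have h0 : p % r ≠ 0 := by
    intro h
    have h1 := Nat.dvd_of_mod_eq_zero h
    rcases (Nat.dvd_prime hpp).1 h1 with h2 | h2
    · exact hrp.one_lt.ne' h2
    · omega
  unfold Rc
  split_ifs with h
  · rw [Finset.mem_insert, not_or]
    refine ⟨h0, ?_⟩
    rw [Finset.mem_filter]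
    rintro ⟨_, h2⟩
    rw [← dvd_ph_mod] at h2
    exact (b3_mem_Sp.1 h).2 (dvd_of_ph hodd hN hp1 hlo hp3 hrp h2)
  · rw [Finset.mem_singleton]
    exact h0

/-- H1c. As `card_Cl_le`: `p ∈ Ca N l q X`, `p > z`, is `p = q j + 1` with `1 ≤ j ≤ X / q` (`j = (p-1)/q`, injective), and for
`r ∈ prI 0 z`, `r ≠ q`: `j % r ∈ Rq` would give `(q j + 1) % r = p % r ∈ Rc N l z r` (`(q (j % r) + 1) % r = (q j + 1) % r`),
excluded as in the proof of `card_Cl_le`. -/
lemma card_Ca_le {N : ℕ} (hodd : Odd N) (hN : N.Perfect) {l : ℕ} (hl : l.Prime) (hl2 : l ≠ 2)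
    {q : ℕ} (hq : q.Prime) (z X : ℕ) :
    #(Ca N l q X) ≤ z + #{j ∈ Ioc 0 (X / q) | ∀ r ∈ (prI 0 z).erase q, j % r ∉ Rq N l z q r} := by
  classical
  have hrep : ∀ p ∈ Ca N l q X, p.Prime ∧ p ≤ X ∧ q * ((p - 1) / q) = p - 1 := by
    intro p hp
    have h1 := Finset.mem_filter.1 hp
    have h2 := Finset.mem_filter.1 h1.1
    have hpp := Nat.prime_of_mem_primeFactors h2.1
    exact ⟨hpp, h2.2.1, Nat.mul_div_cancel' ((Nat.modEq_iff_dvd' hpp.one_lt.le).1 h1.2.symm)⟩
  have hsub : Ca N l q X ⊆ Ioc 0 z ∪ (Ca N l q X).filter (fun p => z < p) := by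
    intro p hp
    rw [Finset.mem_union, Finset.mem_Ioc, Finset.mem_filter]
    rcases Nat.lt_or_ge z p with hz | hz
    · exact Or.inr ⟨hp, hz⟩
    · exact Or.inl ⟨(hrep p hp).1.pos, hz⟩
  have hinj : #((Ca N l q X).filter (fun p => z < p)) ≤
      #{j ∈ Ioc 0 (X / q) | ∀ r ∈ (prI 0 z).erase q, j % r ∉ Rq N l z q r} := by
    refine Finset.card_le_card_of_injOn (fun p => (p - 1) / q) ?_ ?_
    · intro p hp
      have hp' := Finset.mem_filter.1 (Finset.mem_coe.1 hp)
      obtain ⟨hpp, hpX, hpq⟩ := hrep p hp'.1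
      rw [Finset.mem_coe, Finset.mem_filter, Finset.mem_Ioc]
      refine ⟨⟨?_, Nat.div_le_div_right (by omega)⟩, ?_⟩
      · rcases Nat.eq_zero_or_pos ((p - 1) / q) with h | h
        · rw [h, mul_zero] at hpq
          have := hpp.one_lt
          omega
        · exact h
      · intro r hr hmem
        have hr' := Finset.mem_of_mem_erase hr
        have h1 := (Finset.mem_filter.1 hmem).2
        have h2 : (q * ((p - 1) / q % r) + 1) % r = p % r := by
          have h3 : q * ((p - 1) / q % r) + 1 ≡ q * ((p - 1) / q) + 1 [MOD r] :=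
            ((Nat.mod_modEq _ r).mul_left q).add_right 1
          have h4 : q * ((p - 1) / q) + 1 = p := by
            have := hpp.one_lt
            omega
          rw [h4] at h3
          exact h3
        rw [h2] at h1
        exact h1_avoid hodd hN hl hl2 (Finset.mem_filter.1 hp'.1).1 hp'.2 hr' h1
    · intro a ha b hb hab
      have ha' := hrep a (Finset.mem_filter.1 (Finset.mem_coe.1 ha)).1
      have hb' := hrep b (Finset.mem_filter.1 (Finset.mem_coe.1 hb)).1
      have h1 : (a - 1) / q = (b - 1) / q := hab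
      have h2 := ha'.2.2
      rw [h1, hb'.2.2] at h2
      have := ha'.1.one_lt
      have := hb'.1.one_lt
      omega
  calc #(Ca N l q X) ≤ _ := Finset.card_le_card hsub
    _ ≤ #(Ioc 0 z) + #((Ca N l q X).filter (fun p => z < p)) := Finset.card_union_le _ _
    _ ≤ _ := by
      rw [Nat.card_Ioc, Nat.sub_zero]
      exact Nat.add_le_add_left hinj z

/-- H1d. `class_sieve` with `S = (prI 0 z).erase q`, `Rs = Rq N l z q` and length `X / q`; the sum in its hypothesis is bounded as in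
`class_count`. The product over `S` is the product over `prI 0 z` divided by the factor `1 - #(Rc N l z q)/q` (if `q ≤ z`), which is
`≥ 1/2`: `#Rc = 1` and `q ≥ 3`, or `#Rc = l` and `q ≡ 1 mod l`, so `q ≥ 2 l + 1` (`q - 1` is an even multiple of the odd `l`);
then `prod_le`. -/
theorem ap_count {N : ℕ} (hodd : Odd N) (hN : N.Perfect) {l : ℕ} (hl : l.Prime) (hl2 : l ≠ 2)
    {q : ℕ} (hq : q.Prime) (hq2 : q ≠ 2) (z X R : ℕ) (hz : 1 ≤ z) (hR : 1 ≤ R)
    (hlog : 2 * (∑ r ∈ prI 0 z, Real.log r / r + ((l : ℝ) - 1) * ∑ r ∈ Pl l z, Real.log r / r)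
      ≤ Real.log R) :
    (#(Ca N l q X) : ℝ) ≤ z + (4 * ((X : ℝ) / q) / Real.log (z + 1) *
      Real.exp (-(((l : ℝ) - 1) * ∑ r ∈ Sp N l z, 1 / (r : ℝ))) + (R : ℝ) ^ 4) := by
  classical
  have hl1 : (0 : ℝ) ≤ (l : ℝ) - 1 := by
    have : (1 : ℝ) ≤ l := by exact_mod_cast hl.pos
    linarith
  have hsub : Sp N l z ⊆ prI 0 z := fun r hr => (b3_mem_Sp.1 hr).1.1
  have hsub' : Sp N l z ⊆ Pl l z := Finset.filter_subset _ _
  have hlogn : ∀ r ∈ prI 0 z, 0 ≤ Real.log r / (r : ℝ) := by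
    intro r hr
    have h3 : (1 : ℝ) ≤ r := by exact_mod_cast (mem_prI.1 hr).2.pos
    exact div_nonneg (Real.log_nonneg h3) (by linarith)
  have hsum : ∑ r ∈ prI 0 z, (#(Rc N l z r) : ℝ) * Real.log r / r ≤
      ∑ r ∈ prI 0 z, Real.log r / r + ((l : ℝ) - 1) * ∑ r ∈ Pl l z, Real.log r / r := by
    have e1 : ∑ r ∈ prI 0 z, (#(Rc N l z r) : ℝ) * Real.log r / r =
        ∑ r ∈ prI 0 z, Real.log r / r + ((l : ℝ) - 1) * ∑ r ∈ Sp N l z, Real.log r / r := by
      have e2 : ∀ r ∈ prI 0 z, (#(Rc N l z r) : ℝ) * Real.log r / r =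
          Real.log r / r + (if r ∈ Sp N l z then ((l : ℝ) - 1) * (Real.log r / r) else 0) := by
        intro r hr
        rw [card_Rc hl (mem_prI.1 hr).2]
        split_ifs with h
        · ring
        · rw [Nat.cast_one, one_mul, add_zero]
      rw [Finset.sum_congr rfl e2, Finset.sum_add_distrib, Finset.sum_ite_mem,
        Finset.inter_eq_right.2 hsub, Finset.mul_sum]
    rw [e1]
    have h2 : ∑ r ∈ Sp N l z, Real.log r / (r : ℝ) ≤ ∑ r ∈ Pl l z, Real.log r / (r : ℝ) :=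
      Finset.sum_le_sum_of_subset_of_nonneg hsub' fun r hr _ =>
        hlogn r (Finset.mem_filter.1 hr).1
    have := mul_le_mul_of_nonneg_left h2 hl1
    linarith
  -- from `Rq` to `Rc`
  have hcard : ∀ r ∈ (prI 0 z).erase q, #(Rq N l z q r) = #(Rc N l z r) := fun r hr =>
    card_Rq hl (Finset.mem_of_mem_erase hr) (h1_ndvd hq hr)
  have hsumq : ∑ r ∈ (prI 0 z).erase q, (#(Rq N l z q r) : ℝ) * Real.log r / r ≤
      ∑ r ∈ prI 0 z, (#(Rc N l z r) : ℝ) * Real.log r / r := by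
    rw [Finset.sum_congr rfl fun r hr => by rw [hcard r hr]]
    refine Finset.sum_le_sum_of_subset_of_nonneg (Finset.erase_subset _ _) fun r hr _ => ?_
    rw [mul_div_assoc]
    exact mul_nonneg (Nat.cast_nonneg _) (hlogn r hr)
  have h1 := class_sieve ((prI 0 z).erase q) (Rq N l z q) (Rq_dat hl hq) (X / q) R hR
    (by linarith)
  have h2 : (#(Ca N l q X) : ℝ) ≤
      z + #{j ∈ Ioc 0 (X / q) | ∀ r ∈ (prI 0 z).erase q, j % r ∉ Rq N l z q r} := by
    exact_mod_cast card_Ca_le hodd hN hl hl2 hq z X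
  have hfac : ∀ r ∈ prI 0 z, 0 ≤ 1 - (#(Rc N l z r) : ℝ) / r := by
    intro r hr
    have h2 := (Rc_dat (N := N) (z := z) hl).lt r hr
    have h3 : (0 : ℝ) < r := by exact_mod_cast (mem_prI.1 hr).2.pos
    rw [sub_nonneg, div_le_one h3]
    exact_mod_cast h2.le
  have hprod : ∏ r ∈ (prI 0 z).erase q, (1 - (#(Rq N l z q r) : ℝ) / r) ≤
      2 * ∏ r ∈ prI 0 z, (1 - (#(Rc N l z r) : ℝ) / r) := by
    rw [Finset.prod_congr rfl fun r hr => by rw [hcard r hr]]
    have hnn : 0 ≤ ∏ r ∈ (prI 0 z).erase q, (1 - (#(Rc N l z r) : ℝ) / r) :=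
      Finset.prod_nonneg fun r hr => hfac r (Finset.mem_of_mem_erase hr)
    by_cases hqz : q ∈ prI 0 z
    · rw [← Finset.mul_prod_erase (prI 0 z) (fun r => 1 - (#(Rc N l z r) : ℝ) / r) hqz]
      have hhalf : (1 / 2 : ℝ) ≤ 1 - (#(Rc N l z q) : ℝ) / q := by
        have hq0 : (0 : ℝ) < q := by exact_mod_cast hq.pos
        have h5 : 2 * #(Rc N l z q) ≤ q := by
          rw [card_Rc hl hq]
          split_ifs with h
          · have h6 : l ∣ q - 1 := (Nat.modEq_iff_dvd' hq.one_lt.le).1 (b3_mem_Sp.1 h).1.2.symm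
            have h7 : 2 ∣ q - 1 := by
              have := hq.odd_of_ne_two hq2
              rw [Nat.odd_iff] at this
              omega
            have h8 : Nat.Coprime 2 l := by
              rw [Nat.coprime_two_left]
              exact hl.odd_of_ne_two hl2
            have h9 := h8.mul_dvd_of_dvd_of_dvd h7 h6
            have h10 := hq.one_lt
            have h11 := Nat.le_of_dvd (by omega) h9
            omega
          · have := hq.two_le
            omega
        have h6 : (#(Rc N l z q) : ℝ) / q ≤ 1 / 2 := by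
          rw [div_le_iff₀ hq0]
          have : (2 : ℝ) * #(Rc N l z q) ≤ q := by exact_mod_cast h5
          linarith
        linarith
      nlinarith
    · rw [Finset.erase_eq_of_notMem hqz] at hnn ⊢
      linarith
  have hpl := prod_le (N := N) (z := z) hl hz
  have hX : ((X / q : ℕ) : ℝ) ≤ (X : ℝ) / q := Nat.cast_div_le
  have hXq : (0 : ℝ) ≤ (X : ℝ) / q := by positivity
  have hprod0 : 0 ≤ ∏ r ∈ prI 0 z, (1 - (#(Rc N l z r) : ℝ) / r) := Finset.prod_nonneg hfac
  have hfin : 2 * ((X / q : ℕ) : ℝ) *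
      ∏ r ∈ (prI 0 z).erase q, (1 - (#(Rq N l z q r) : ℝ) / r) ≤
      4 * ((X : ℝ) / q) / Real.log (z + 1) *
      Real.exp (-(((l : ℝ) - 1) * ∑ r ∈ Sp N l z, 1 / (r : ℝ))) := by
    calc 2 * ((X / q : ℕ) : ℝ) * ∏ r ∈ (prI 0 z).erase q, (1 - (#(Rq N l z q r) : ℝ) / r)
        ≤ 2 * ((X / q : ℕ) : ℝ) * (2 * ∏ r ∈ prI 0 z, (1 - (#(Rc N l z r) : ℝ) / r)) :=
          mul_le_mul_of_nonneg_left hprod (by positivity)
      _ ≤ 2 * ((X : ℝ) / q) * (2 * ∏ r ∈ prI 0 z, (1 - (#(Rc N l z r) : ℝ) / r)) :=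
          mul_le_mul_of_nonneg_right (by linarith) (by linarith)
      _ = 4 * ((X : ℝ) / q) * ∏ r ∈ prI 0 z, (1 - (#(Rc N l z r) : ℝ) / r) := by ring
      _ ≤ 4 * ((X : ℝ) / q) * (1 / Real.log (z + 1) *
          Real.exp (-(((l : ℝ) - 1) * ∑ r ∈ Sp N l z, 1 / (r : ℝ)))) :=
          mul_le_mul_of_nonneg_left hpl (by linarith)
      _ = _ := by ring
  linarith

end Pool.Agent.TE
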