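import Pool.Agent.Lib.MP_f02ea4_nt.TE.H1
import Pool.Agent.Lib.MP_f02ea4_nt.TE.G5

/-!
# H2: classes at all scales
-/

set_option autoImplicit false

namespace Pool.Agent.TE

open Finset Nat Pool.Agent.Lib.MP_bae66e_nt.AP3

/-- `(l - 1) ∑ 1/r` over the primes `r ≤ z`, `r ≡ 1 mod l`, that divide `N` -/
noncomputable def Sl (N l z : ℕ) : ℝ :=
  ((l : ℝ) - 1) * ∑ r ∈ (Pl l z).filter (fun r => r ∣ N), 1 / (r : ℝ)

/-- H2a. `Pl = Sp ∪ {r ∣ N}`. -/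
lemma Sp_add_Sl (N l z : ℕ) :
    ((l : ℝ) - 1) * ∑ r ∈ Sp N l z, 1 / (r : ℝ) + Sl N l z
      = ((l : ℝ) - 1) * ∑ r ∈ Pl l z, 1 / (r : ℝ) := by
  rw [Sl, Sp, ← mul_add, add_comm, Finset.sum_filter_add_sum_filter_not]

private lemma h2_prI_eq (z : ℕ) : prI 0 z = prI 1 z := by
  ext p
  rw [mem_prI, mem_prI]
  constructor
  · rintro ⟨⟨_, h2⟩, hp⟩
    exact ⟨⟨hp.one_lt, h2⟩, hp⟩
  · rintro ⟨⟨h1, h2⟩, hp⟩
    exact ⟨⟨by omega, h2⟩, hp⟩

/-- the hypothesis of `class_count` and of `ap_count` -/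
private lemma h2_cond : ∃ C : ℝ, 1 ≤ C ∧ ∀ l z R : ℕ, l.Prime → 3 ≤ z →
    Real.log l ≤ Real.sqrt (Real.log z) → C * Real.log z ≤ Real.log R →
    2 * (∑ r ∈ prI 0 z, Real.log r / r + ((l : ℝ) - 1) * ∑ r ∈ Pl l z, Real.log r / r)
      ≤ Real.log R := by
  obtain ⟨Cm, hCm0, hCm⟩ := exists_mertens
  obtain ⟨Cu, hCu0, hCu⟩ := ap_upper
  refine ⟨2 * (1 + Cm + Cu), by linarith, ?_⟩
  intro l z R hl hz hll hCR
  have hz3 : (3 : ℝ) ≤ z := by exact_mod_cast hz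
  have hlz1 : 1 ≤ Real.log z := by
    have h1 : Real.log (Real.exp 1) ≤ Real.log z := by
      apply Real.log_le_log (Real.exp_pos _)
      have := Real.exp_one_lt_d9
      linarith
    rwa [Real.log_exp] at h1
  have h1 := (abs_le.mp (hCm 1 z le_rfl (by omega))).2
  rw [← h2_prI_eq] at h1
  simp only [Nat.cast_one, Real.log_one, sub_zero] at h1
  have h2 := hCu l z hl hz hll
  have h3 : Cm ≤ Cm * Real.log z := by nlinarith
  nlinarith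

private theorem h2_large (c : ℝ) (hc : 0 < c) : ∃ P₀ : ℕ, 16 ≤ P₀ ∧ ∀ P : ℕ, P₀ ≤ P →
    2 ≤ (P : ℝ) ^ (c / 2) ∧ 2 ≤ (P : ℝ) ^ (1 / 32 : ℝ) ∧
    Real.log (Real.log P) ≤ Real.sqrt (c * Real.log P / 2) ∧
    2 * (P : ℝ) ^ (1 / 4 : ℝ) * (Real.log P) ^ 3 ≤ P := by
  obtain ⟨P₁, hP₁, h⟩ := g5_large c hc
  have hcast := tendsto_natCast_atTop_atTop (R := ℝ)
  have h4 : ∀ᶠ P : ℕ in Filter.atTop,
      2 * (P : ℝ) ^ (1 / 4 : ℝ) * (Real.log P) ^ 3 ≤ P := by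
    have hb := (isLittleO_log_rpow_rpow_atTop (s := 3 / 4) 3 (by norm_num)).bound
      (c := 1 / 2) (by norm_num)
    have := hcast.eventually hb
    filter_upwards [this, Filter.eventually_ge_atTop 1] with P hP hP1
    have hP0 : (0 : ℝ) < P := by exact_mod_cast hP1
    rw [Real.norm_eq_abs, Real.norm_eq_abs, abs_of_nonneg (Real.rpow_nonneg hP0.le _),
      show ((3 : ℝ)) = ((3 : ℕ) : ℝ) by norm_num, Real.rpow_natCast, abs_pow] at hP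
    push_cast at hP
    have hl : 0 ≤ Real.log (P : ℝ) := Real.log_nonneg (by exact_mod_cast hP1)
    rw [abs_of_nonneg hl] at hP
    have e : (P : ℝ) ^ (1 / 4 : ℝ) * (P : ℝ) ^ (3 / 4 : ℝ) = P := by
      rw [← Real.rpow_add hP0]
      norm_num
    have hq : 0 ≤ (P : ℝ) ^ (1 / 4 : ℝ) := Real.rpow_nonneg hP0.le _
    calc 2 * (P : ℝ) ^ (1 / 4 : ℝ) * (Real.log P) ^ 3
        = (P : ℝ) ^ (1 / 4 : ℝ) * (2 * (Real.log P) ^ 3) := by ring
      _ ≤ (P : ℝ) ^ (1 / 4 : ℝ) * (P : ℝ) ^ (3 / 4 : ℝ) :=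
          mul_le_mul_of_nonneg_left (by linarith) hq
      _ = P := e
  obtain ⟨P₂, hP₂⟩ := Filter.eventually_atTop.1 h4
  refine ⟨max P₁ P₂, hP₁.trans (le_max_left _ _), fun P hP => ?_⟩
  obtain ⟨a1, a2, a3, _⟩ := h P ((le_max_left _ _).trans hP)
  exact ⟨a1, a2, a3, hP₂ P ((le_max_right _ _).trans hP)⟩

/-- H2b. (Compare `class_scale` in F5.lean.) `C₀` from `class_bound'` (and the same constant for the hypothesis of `ap_count`: as in the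
proof of `class_bound'`, `C₀ log z ≤ log R` implies the hypothesis of `class_count` and `ap_count`). `c = 1/(32 C₀)`, `z = ⌊X^c⌋₊`,
`R = ⌊X^(1/16)⌋₊`. For `X` large (`Y = log X`): `z ≥ 3`, `log z ≥ c Y/2`, `C₀ log z ≤ Y/32 ≤ Y/16 - 1 ≤ log R`, `R ≥ 1`,
`log l ≤ log Y ≤ √(c Y/2) ≤ √(log z)`. By `Sp_add_Sl`: `(l-1) ∑_{Sp} 1/r ≥ log log z - log κ - (A + S)`. So `class_bound'` gives
`#Cl ≤ X^c + X^(1/4) + 2 e^(A+S) κ X (2/(c Y))^2`, `ap_count` gives `#Ca ≤ X^c + X^(1/4) + 4 e^(A+S) κ (X/q) (2/(c Y))^2`, and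
`X^c + X^(1/4) ≤ 2 X^(1/4) ≤ X/Y^3 ≤ (X/q)/Y^2` for large `X` (`q ≤ Y`, `c ≤ 1/4`). So `C = 1 + 16/c^2`. -/
theorem big_scale : ∃ C : ℝ, 1 ≤ C ∧ ∃ c : ℝ, 0 < c ∧ c ≤ 1 / 4 ∧ ∃ X₀ : ℕ, 16 ≤ X₀ ∧
    ∀ N : ℕ, Odd N → N.Perfect → ∀ l q X : ℕ, l.Prime → l ≠ 2 → q.Prime → q ≠ 2 → X₀ ≤ X →
    (l : ℝ) ≤ Real.log X → (q : ℝ) ≤ Real.log X → ∀ κ A S : ℝ, 1 ≤ κ → 0 ≤ A → 0 ≤ S →
    (∀ z : ℕ, 3 ≤ z →
      Real.log (Real.log z) - Real.log κ - A ≤ ((l : ℝ) - 1) * ∑ r ∈ Pl l z, 1 / (r : ℝ)) →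
    Sl N l ⌊(X : ℝ) ^ c⌋₊ ≤ S →
      (#(Cl N l X) : ℝ) ≤ C * Real.exp (A + S) * κ * X / (Real.log X) ^ 2 ∧
      (#(Ca N l q X) : ℝ) ≤ C * Real.exp (A + S) * κ * ((X : ℝ) / q) / (Real.log X) ^ 2 := by
  obtain ⟨C₀, hC₀, hcond⟩ := h2_cond
  set c : ℝ := 1 / (32 * C₀) with hc
  have hc0 : 0 < c := by positivity
  have hc32 : c ≤ 1 / 32 := by
    rw [hc]
    exact one_div_le_one_div_of_le (by norm_num) (by linarith)
  obtain ⟨X₀, hX₀, hlarge⟩ := h2_large c hc0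
  refine ⟨1 + 16 / c ^ 2, by linarith [show 0 ≤ 16 / c ^ 2 by positivity], c, hc0,
    by linarith, X₀, hX₀, ?_⟩
  intro N hN hNp l q X hl hl2 hq hq2 hX hlY hqY κ A S hκ hA hS hzz hSl
  obtain ⟨h1, h2, h3, h4⟩ := hlarge X hX
  have hX16 : 16 ≤ X := hX₀.trans hX
  have hXr : (16 : ℝ) ≤ X := by exact_mod_cast hX16
  have hX0 : (0 : ℝ) < X := by linarith
  set Y := Real.log (X : ℝ) with hY
  have hY1 : 1 ≤ Y := by
    rw [hY, Real.le_log_iff_exp_le hX0]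
    have := Real.exp_one_lt_d9
    linarith
  set z := ⌊(X : ℝ) ^ c⌋₊ with hzdef
  set R := ⌊(X : ℝ) ^ (1 / 16 : ℝ)⌋₊ with hRdef
  have e1 : (X : ℝ) ^ c = (X : ℝ) ^ (c / 2) * (X : ℝ) ^ (c / 2) := by
    rw [← Real.rpow_add hX0]
    ring_nf
  have e2 : (X : ℝ) ^ (1 / 16 : ℝ) = (X : ℝ) ^ (1 / 32 : ℝ) * (X : ℝ) ^ (1 / 32 : ℝ) := by
    rw [← Real.rpow_add hX0]
    norm_num
  have hzle : (z : ℝ) ≤ (X : ℝ) ^ c := Nat.floor_le (Real.rpow_nonneg hX0.le _)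
  have hRle : (R : ℝ) ≤ (X : ℝ) ^ (1 / 16 : ℝ) := Nat.floor_le (Real.rpow_nonneg hX0.le _)
  have hzgt : (X : ℝ) ^ c < z + 1 := Nat.lt_floor_add_one _
  have hRgt : (X : ℝ) ^ (1 / 16 : ℝ) < R + 1 := Nat.lt_floor_add_one _
  have hz3 : 3 ≤ z := by
    have : (3 : ℝ) < z + 1 := by nlinarith
    have h' : (2 : ℝ) < z := by linarith
    have : 2 < z := by exact_mod_cast h'
    omega
  have hzge : (X : ℝ) ^ (c / 2) ≤ z := by nlinarith
  have hRge : (X : ℝ) ^ (1 / 32 : ℝ) ≤ R := by nlinarith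
  have hR1 : 1 ≤ R := by
    have : (1 : ℝ) < R := by linarith
    have : 1 < R := by exact_mod_cast this
    omega
  have hz0 : (0 : ℝ) < z := by
    have : 0 < z := by omega
    exact_mod_cast this
  have hlogz : c * Y / 2 ≤ Real.log z := by
    have := Real.log_le_log (Real.rpow_pos_of_pos hX0 _) hzge
    rw [Real.log_rpow hX0] at this
    linarith
  have hlogz' : Real.log z ≤ c * Y := by
    have := Real.log_le_log hz0 hzle
    rwa [Real.log_rpow hX0] at this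
  have hlogR : Y / 32 ≤ Real.log R := by
    have := Real.log_le_log (Real.rpow_pos_of_pos hX0 _) hRge
    rw [Real.log_rpow hX0] at this
    linarith
  have hcY : 0 < c * Y / 2 := by positivity
  have hlz0 : 0 < Real.log z := lt_of_lt_of_le hcY hlogz
  have hCz : C₀ * Real.log z ≤ Real.log R := by
    have : C₀ * Real.log z ≤ C₀ * (c * Y) := mul_le_mul_of_nonneg_left hlogz' (by linarith)
    have e : C₀ * (c * Y) = Y / 32 := by
      rw [hc]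
      field_simp
    linarith
  have hlog : Real.log l ≤ Real.sqrt (Real.log z) := by
    have hl0 : (0 : ℝ) < l := by exact_mod_cast hl.pos
    calc Real.log l ≤ Real.log Y := Real.log_le_log hl0 hlY
      _ ≤ Real.sqrt (c * Y / 2) := h3
      _ ≤ Real.sqrt (Real.log z) := Real.sqrt_le_sqrt hlogz
  have hcd := hcond l z R hl hz3 hlog hCz
  have hκ0 : 0 < κ := by linarith
  have hexp : Real.exp (-(((l : ℝ) - 1) * ∑ r ∈ Sp N l z, 1 / (r : ℝ))) ≤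
      Real.exp (A + S) * κ / Real.log z := by
    have g1 : Real.exp (-(((l : ℝ) - 1) * ∑ r ∈ Sp N l z, 1 / (r : ℝ))) ≤
        Real.exp (A + S + Real.log κ - Real.log (Real.log z)) := by
      apply Real.exp_le_exp.mpr
      have g2 := Sp_add_Sl N l z
      have g3 := hzz z hz3
      linarith
    rw [Real.exp_sub, Real.exp_add, Real.exp_log hκ0, Real.exp_log hlz0] at g1
    exact g1
  have hlz1' : Real.log z ≤ Real.log (z + 1) := by
    apply Real.log_le_log hz0 (by linarith)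
  have hzP : (z : ℝ) ≤ (X : ℝ) ^ (1 / 4 : ℝ) :=
    hzle.trans (Real.rpow_le_rpow_of_exponent_le (by linarith) (by linarith))
  have hR4 : (R : ℝ) ^ 4 ≤ (X : ℝ) ^ (1 / 4 : ℝ) := by
    calc (R : ℝ) ^ 4 ≤ ((X : ℝ) ^ (1 / 16 : ℝ)) ^ 4 :=
          pow_le_pow_left₀ (by positivity) hRle 4
      _ = (X : ℝ) ^ (1 / 4 : ℝ) := by
          rw [← Real.rpow_natCast, ← Real.rpow_mul hX0.le]
          norm_num
  have hq0 : (0 : ℝ) < q := by exact_mod_cast hq.pos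
  have hq1 : (1 : ℝ) ≤ q := by exact_mod_cast hq.pos
  have hE1 : 1 ≤ Real.exp (A + S) := Real.one_le_exp (by linarith)
  have hEK : 1 ≤ Real.exp (A + S) * κ := by nlinarith
  have hsm : ((z : ℝ) + (R : ℝ) ^ 4) * Y ^ 3 ≤ X := by
    calc ((z : ℝ) + (R : ℝ) ^ 4) * Y ^ 3
        ≤ (2 * (X : ℝ) ^ (1 / 4 : ℝ)) * Y ^ 3 :=
          mul_le_mul_of_nonneg_right (by linarith) (by positivity)
      _ ≤ X := h4
  have hsmq : (z : ℝ) + (R : ℝ) ^ 4 ≤ ((X : ℝ) / q) / Y ^ 2 := by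
    rw [le_div_iff₀ (by positivity), le_div_iff₀ hq0]
    have g1 : 0 ≤ ((z : ℝ) + (R : ℝ) ^ 4) * Y ^ 2 := by positivity
    calc ((z : ℝ) + (R : ℝ) ^ 4) * Y ^ 2 * q ≤ ((z : ℝ) + (R : ℝ) ^ 4) * Y ^ 2 * Y :=
          mul_le_mul_of_nonneg_left hqY g1
      _ = ((z : ℝ) + (R : ℝ) ^ 4) * Y ^ 3 := by ring
      _ ≤ X := hsm
  -- the general estimate
  have main : ∀ T B : ℝ, 0 ≤ T → B ≤ 4 → 0 ≤ B → ((X : ℝ) / q) ≤ T →
      (z : ℝ) + (B * T / Real.log (z + 1) *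
        Real.exp (-(((l : ℝ) - 1) * ∑ r ∈ Sp N l z, 1 / (r : ℝ))) + (R : ℝ) ^ 4) ≤
        (1 + 16 / c ^ 2) * Real.exp (A + S) * κ * T / Y ^ 2 := by
    intro T B hT hB4 hB0 hqT
    have g1 : B * T / Real.log (z + 1) *
        Real.exp (-(((l : ℝ) - 1) * ∑ r ∈ Sp N l z, 1 / (r : ℝ))) ≤
        B * T / Real.log z * (Real.exp (A + S) * κ / Real.log z) := by
      gcongr
    have g2 : B * T / Real.log z * (Real.exp (A + S) * κ / Real.log z) =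
        B * (Real.exp (A + S) * κ * T) / (Real.log z) ^ 2 := by
      field_simp
    have g3 : B * (Real.exp (A + S) * κ * T) / (Real.log z) ^ 2 ≤
        4 * (Real.exp (A + S) * κ * T) / (c * Y / 2) ^ 2 := by
      have g4 : 0 ≤ Real.exp (A + S) * κ * T := by positivity
      gcongr
    have g5 : 4 * (Real.exp (A + S) * κ * T) / (c * Y / 2) ^ 2 =
        16 / c ^ 2 * (Real.exp (A + S) * κ * T / Y ^ 2) := by
      field_simp
      ring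
    have g6 : (z : ℝ) + (R : ℝ) ^ 4 ≤ Real.exp (A + S) * κ * T / Y ^ 2 := by
      refine hsmq.trans ?_
      have g7 : (X : ℝ) / q ≤ Real.exp (A + S) * κ * T := by nlinarith
      gcongr
    have g8 : (1 + 16 / c ^ 2) * Real.exp (A + S) * κ * T / Y ^ 2 =
        Real.exp (A + S) * κ * T / Y ^ 2 + 16 / c ^ 2 * (Real.exp (A + S) * κ * T / Y ^ 2) := by
      ring
    rw [g8]
    linarith
  constructor
  · have g1 := class_count hN hNp hl hl2 z X R (by omega) hR1 hcd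
    refine g1.trans ?_
    exact main (X : ℝ) 2 hX0.le (by norm_num) (by norm_num) (div_le_self hX0.le hq1)
  · have g1 := ap_count hN hNp hl hl2 hq hq2 z X R (by omega) hR1 hcd
    refine g1.trans ?_
    exact main ((X : ℝ) / q) 4 (by positivity) le_rfl (by norm_num) le_rfl

end Pool.Agent.TE
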