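import Mathlib

/-!
# H3: dyadic summation over all scales
-/

set_option autoImplicit false

namespace Pool.Agent.TE

open Finset

lemma h3_tele (a b : ℝ) (ha : 0 < a) (hb : 0 < b) :
    1 / (a + b) ^ 2 ≤ (1 / b) * (1 / a - 1 / (a + b)) := by
  have h1 : (1 / b) * (1 / a - 1 / (a + b)) = 1 / (a * (a + b)) := by
    field_simp
    ring
  rw [h1]
  apply one_div_le_one_div_of_le (by positivity)
  nlinarith

lemma h3_key (S : Finset ℕ) (P z : ℕ) (hP : 3 ≤ P) (δ : ℝ) (hδ : 0 ≤ δ)
    (hS : ∀ p ∈ S, P ≤ p ∧ p ≤ z) (hPz : P ≤ z)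
    (h : ∀ X : ℕ, P ≤ X → X ≤ 2 * z →
      (#(S.filter (fun p => p ≤ X)) : ℝ) ≤ δ * X / (Real.log X) ^ 2) (k : ℕ) :
    ∑ p ∈ S.filter (fun p => p ≤ 2 ^ k * P), 1 / (p : ℝ) ≤ δ / (Real.log P) ^ 2 +
      2 * δ * ((1 / Real.log 2) * (1 / Real.log P - 1 / (Real.log P + k * Real.log 2))) := by
  have hP0 : (0 : ℝ) < P := by
    have : 0 < P := by omega
    exact_mod_cast this
  have hlP : 0 < Real.log P := Real.log_pos (by
    have : 1 < P := by omega
    exact_mod_cast this)
  have hl2 : 0 < Real.log 2 := Real.log_pos (by norm_num)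
  induction k with
  | zero =>
    have h1 := h P le_rfl (by omega)
    have h2 : ∑ p ∈ S.filter (fun p => p ≤ 2 ^ 0 * P), 1 / (p : ℝ)
        ≤ (#(S.filter (fun p => p ≤ P)) : ℝ) * (1 / P) := by
      rw [pow_zero, one_mul, ← nsmul_eq_mul]
      apply sum_le_card_nsmul
      intro p hp
      rw [mem_filter] at hp
      apply one_div_le_one_div_of_le hP0
      exact_mod_cast (hS p hp.1).1
    have h3 : (#(S.filter (fun p => p ≤ P)) : ℝ) * (1 / P) ≤ δ * P / (Real.log P) ^ 2 * (1 / P) :=
      mul_le_mul_of_nonneg_right h1 (by positivity)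
    have h4 : δ * P / (Real.log P) ^ 2 * (1 / P) = δ / (Real.log P) ^ 2 := by
      field_simp
    have h5 : (1 / Real.log P - 1 / (Real.log P + ((0 : ℕ) : ℝ) * Real.log 2)) = 0 := by
      simp
    rw [h5]
    linarith
  | succ k ih =>
    have hsplit : S.filter (fun p => p ≤ 2 ^ (k + 1) * P)
        = S.filter (fun p => p ≤ 2 ^ k * P) ∪
          S.filter (fun p => 2 ^ k * P < p ∧ p ≤ 2 ^ (k + 1) * P) := by
      ext p
      simp only [mem_filter, mem_union]
      have : 2 ^ k * P ≤ 2 ^ (k + 1) * P := by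
        rw [pow_succ]; nlinarith [Nat.zero_le (2 ^ k * P)]
      constructor
      · rintro ⟨hp, hp2⟩
        by_cases hc : p ≤ 2 ^ k * P
        · exact Or.inl ⟨hp, hc⟩
        · exact Or.inr ⟨hp, by omega, hp2⟩
      · rintro (⟨hp, hp2⟩ | ⟨hp, _, hp2⟩)
        · exact ⟨hp, by omega⟩
        · exact ⟨hp, hp2⟩
    have hdis : Disjoint (S.filter (fun p => p ≤ 2 ^ k * P))
        (S.filter (fun p => 2 ^ k * P < p ∧ p ≤ 2 ^ (k + 1) * P)) := by
      rw [Finset.disjoint_left]
      intro p hp hp2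
      rw [mem_filter] at hp hp2
      omega
    rw [hsplit, sum_union hdis]
    have ha : 0 < Real.log P + k * Real.log 2 := by positivity
    have ht := h3_tele (Real.log P + k * Real.log 2) (Real.log 2) ha hl2
    have hblock : ∑ p ∈ S.filter (fun p => 2 ^ k * P < p ∧ p ≤ 2 ^ (k + 1) * P), 1 / (p : ℝ)
        ≤ 2 * δ * (1 / (Real.log P + k * Real.log 2 + Real.log 2) ^ 2) := by
      by_cases hz : z ≤ 2 ^ k * P
      · have he : S.filter (fun p => 2 ^ k * P < p ∧ p ≤ 2 ^ (k + 1) * P) = ∅ := by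
          apply Finset.filter_eq_empty_iff.mpr
          intro p hp hp2
          have := (hS p hp).2
          omega
        rw [he, sum_empty]
        positivity
      · push Not at hz
        have hX := h (2 ^ (k + 1) * P) (by
          have : 1 ≤ 2 ^ (k + 1) := Nat.one_le_two_pow
          nlinarith) (by
          rw [pow_succ, mul_right_comm]; omega)
        have hlogX : Real.log ((2 ^ (k + 1) * P : ℕ) : ℝ)
            = Real.log P + k * Real.log 2 + Real.log 2 := by
          push_cast
          rw [Real.log_mul (by positivity) (by positivity), Real.log_pow]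
          push_cast
          ring
        rw [hlogX] at hX
        have h2 : ∑ p ∈ S.filter (fun p => 2 ^ k * P < p ∧ p ≤ 2 ^ (k + 1) * P), 1 / (p : ℝ)
            ≤ (#(S.filter (fun p => 2 ^ k * P < p ∧ p ≤ 2 ^ (k + 1) * P)) : ℝ)
              * (1 / (2 ^ k * P)) := by
          rw [← nsmul_eq_mul]
          apply sum_le_card_nsmul
          intro p hp
          rw [mem_filter] at hp
          apply one_div_le_one_div_of_le (by positivity)
          exact_mod_cast hp.2.1.le
        have h3 : (#(S.filter (fun p => 2 ^ k * P < p ∧ p ≤ 2 ^ (k + 1) * P)) : ℝ)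
            ≤ (#(S.filter (fun p => p ≤ 2 ^ (k + 1) * P)) : ℝ) := by
          have : S.filter (fun p => 2 ^ k * P < p ∧ p ≤ 2 ^ (k + 1) * P)
              ⊆ S.filter (fun p => p ≤ 2 ^ (k + 1) * P) := by
            intro p hp
            rw [mem_filter] at hp ⊢
            exact ⟨hp.1, hp.2.2⟩
          exact_mod_cast card_le_card this
        have h4 := mul_le_mul_of_nonneg_right (h3.trans hX)
          (show (0 : ℝ) ≤ 1 / (2 ^ k * P) by positivity)
        have h5 : δ * ((2 ^ (k + 1) * P : ℕ) : ℝ)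
            / (Real.log P + k * Real.log 2 + Real.log 2) ^ 2 * (1 / (2 ^ k * P))
            = 2 * δ * (1 / (Real.log P + k * Real.log 2 + Real.log 2) ^ 2) := by
          push_cast
          rw [pow_succ]
          field_simp
        linarith
    have hmul := mul_le_mul_of_nonneg_left ht (show (0 : ℝ) ≤ 2 * δ by positivity)
    have hcast : Real.log P + ((k + 1 : ℕ) : ℝ) * Real.log 2
        = Real.log P + k * Real.log 2 + Real.log 2 := by
      push_cast
      ring
    rw [hcast]
    have hfin : 2 * δ * ((1 / Real.log 2) * (1 / Real.log P - 1 / (Real.log P + k * Real.log 2)))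
        + 2 * δ * (1 / Real.log 2 * (1 / (Real.log P + k * Real.log 2)
          - 1 / (Real.log P + k * Real.log 2 + Real.log 2)))
        = 2 * δ * ((1 / Real.log 2) * (1 / Real.log P
          - 1 / (Real.log P + k * Real.log 2 + Real.log 2))) := by
      ring
    linarith

/-- H3. The elements equal to `P`: at most `δ P/(log P)^2` (at most one, but the bound suffices) by `h P`, contribution `≤ δ/(log P)^2
≤ δ/log P` (`log P ≥ 1`). The block `2^i P < p ≤ 2^(i+1) P`, `2^i P < z`: with `X = 2^(i+1) P ≤ 2 z` at most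
`δ X/(log X)^2` elements, each `1/p ≤ 1/(2^i P)`: contribution `≤ 2 δ/(log P + (i+1) log 2)^2
≤ (2 δ/log 2) (1/(log P + i log 2) - 1/(log P + (i+1) log 2))`. The telescoping sum over `i` is `≤ 2 δ/(log 2 log P)
≤ 2.9 δ/log P`. -/
theorem dyadic2 (S : Finset ℕ) (P z : ℕ) (hP : 3 ≤ P) (δ : ℝ) (hδ : 0 ≤ δ)
    (hS : ∀ p ∈ S, P ≤ p ∧ p ≤ z)
    (h : ∀ X : ℕ, P ≤ X → X ≤ 2 * z →
      (#(S.filter (fun p => p ≤ X)) : ℝ) ≤ δ * X / (Real.log X) ^ 2) :
    ∑ p ∈ S, 1 / (p : ℝ) ≤ 4 * δ / Real.log P := by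
  have hlP1 : 1 < Real.log P := by
    have h3 : (3 : ℝ) ≤ P := by exact_mod_cast hP
    have he : Real.exp 1 < 3 := by
      have := Real.exp_one_lt_d9
      linarith
    rw [Real.lt_log_iff_exp_lt (by linarith)]
    linarith
  rcases S.eq_empty_or_nonempty with rfl | hne
  · rw [sum_empty]
    positivity
  obtain ⟨p₀, hp₀⟩ := hne
  have hPz : P ≤ z := (hS p₀ hp₀).1.trans (hS p₀ hp₀).2
  have hk := h3_key S P z hP δ hδ hS hPz h z
  have hfull : S.filter (fun p => p ≤ 2 ^ z * P) = S := by
    apply Finset.filter_true_of_mem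
    intro p hp
    have h1 := (hS p hp).2
    have h2 : z < 2 ^ z := Nat.lt_two_pow_self
    nlinarith [Nat.zero_le (2 ^ z)]
  rw [hfull] at hk
  have hl2 : (0.6931471803 : ℝ) < Real.log 2 := Real.log_two_gt_d9
  have hl2p : 0 < Real.log 2 := by linarith
  have h1 : δ / (Real.log P) ^ 2 ≤ δ / Real.log P := by
    apply div_le_div_of_nonneg_left hδ (by linarith)
    nlinarith
  have h2 : 1 / Real.log 2 ≤ 3 / 2 := by
    rw [div_le_div_iff₀ hl2p (by norm_num)]
    linarith
  have h3 : 1 / Real.log P - 1 / (Real.log P + z * Real.log 2) ≤ 1 / Real.log P := by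
    have : 0 ≤ 1 / (Real.log P + z * Real.log 2) := by positivity
    linarith
  have h3' : 0 ≤ 1 / Real.log P - 1 / (Real.log P + z * Real.log 2) := by
    have : 1 / (Real.log P + z * Real.log 2) ≤ 1 / Real.log P := by
      apply one_div_le_one_div_of_le (by linarith)
      have : 0 ≤ z * Real.log 2 := by positivity
      linarith
    linarith
  have h4 : (1 / Real.log 2) * (1 / Real.log P - 1 / (Real.log P + z * Real.log 2))
      ≤ 3 / 2 * (1 / Real.log P) := by
    apply mul_le_mul h2 h3 h3' (by norm_num)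
  have h5 := mul_le_mul_of_nonneg_left h4 (show (0 : ℝ) ≤ 2 * δ by positivity)
  have h6 : 2 * δ * (3 / 2 * (1 / Real.log P)) + δ / Real.log P = 4 * δ / Real.log P := by
    field_simp
    ring
  linarith

end Pool.Agent.TE
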