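import Pool.Agent.Lib.MP_f02ea4_nt.TE.A2
import Pool.Agent.Lib.MP_f02ea4_nt.TE.F4
import Pool.Agent.Lib.MP_f02ea4_nt.TE.H2
import Pool.Agent.Lib.MP_f02ea4_nt.TE.H3

/-!
# H4: induction over the scales
-/

set_option autoImplicit false

namespace Pool.Agent.TE

open Finset Nat Pool.Agent.Lib.MP_f02ea4_nt Pool.Agent.Lib.MP_bae66e_nt.AP3

/-- the primes `p` of `N` with even exponent such that `e_p + 1` has no prime factor `≤ L` -/
def Hi (N L : ℕ) : Finset ℕ :=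
  N.primeFactors.filter (fun p => Even (N.factorization p) ∧ ∀ l ∈ oL L, ¬ l ∣ N.factorization p + 1)

/-- H4a. By Euler (`Rad.euler`) there is `s` such that every prime of `N` other than `s` has an even exponent. -/
lemma split_primes {N : ℕ} (hodd : Odd N) (hN : N.Perfect) : ∃ s ∈ N.primeFactors, ∀ L : ℕ,
    ∀ p ∈ N.primeFactors, p = s ∨ p ∈ Hi N L ∨ ∃ l ∈ oL L, p ∈ Cc N l := by
  obtain ⟨s, hs, _, _, hev⟩ := Rad.euler hodd hN
  refine ⟨s, hs, ?_⟩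
  intro L p hp
  by_cases hps : p = s
  · exact Or.inl hps
  right
  have he := hev p hp hps
  by_cases hl : ∃ l ∈ oL L, l ∣ N.factorization p + 1
  · obtain ⟨l, hl1, hl2⟩ := hl
    right
    refine ⟨l, hl1, ?_⟩
    unfold Cc
    rw [mem_filter]
    exact ⟨hp, hl2⟩
  · left
    unfold Hi
    rw [mem_filter]
    push Not at hl
    exact ⟨hp, Nat.even_iff.2 he, hl⟩

/-- the exponents: `⌊X^c⌋₊ < z` if `X ≤ 2 z`, `c ≤ 1/4`, `z ≥ 16` -/
lemma h4_floor {X z : ℕ} {c : ℝ} (hc4 : c ≤ 1 / 4) (hX1 : 1 ≤ X) (hX : X ≤ 2 * z)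
    (hz : 16 ≤ z) : ⌊(X : ℝ) ^ c⌋₊ < z := by
  have hX1' : (1 : ℝ) ≤ X := by exact_mod_cast hX1
  have hX' : (X : ℝ) ≤ 2 * z := by exact_mod_cast hX
  have hz' : (16 : ℝ) ≤ z := by exact_mod_cast hz
  rw [Nat.floor_lt (by positivity)]
  have h1 : (X : ℝ) ^ c ≤ (X : ℝ) ^ (1 / 4 : ℝ) := Real.rpow_le_rpow_of_exponent_le hX1' hc4
  have h2 : (X : ℝ) ^ (1 / 4 : ℝ) < z := by
    have h3 : (X : ℝ) < (z : ℝ) ^ (4 : ℝ) := by
      have : (z : ℝ) ^ (4 : ℝ) = (z : ℝ) ^ (4 : ℕ) := by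
        rw [← Real.rpow_natCast]; norm_num
      rw [this]
      have h4 : (z : ℝ) ^ (4 : ℕ) = z * (z * (z * z)) := by ring
      rw [h4]
      have h5 : (16 : ℝ) * 16 ≤ z * z := by nlinarith
      have h6 : (16 : ℝ) * 16 ≤ z * (z * z) := by nlinarith
      nlinarith
    have h7 : (X : ℝ) ^ (1 / 4 : ℝ) < ((z : ℝ) ^ (4 : ℝ)) ^ (1 / 4 : ℝ) :=
      Real.rpow_lt_rpow (by positivity) h3 (by norm_num)
    rw [← Real.rpow_mul (by positivity)] at h7
    have h8 : (4 : ℝ) * (1 / 4 : ℝ) = 1 := by norm_num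
    rw [h8, Real.rpow_one] at h7
    exact h7
  linarith

/-- a sum over a union, bounded by the sum of the sums (non-negative terms) -/
lemma h4_union {S T : Finset ℕ} {I : Finset ℕ} (U : ℕ → Finset ℕ) (s : ℕ) (f : ℕ → ℝ)
    (hf : ∀ p, 0 ≤ f p) (h : ∀ p ∈ S, p = s ∨ p ∈ T ∨ ∃ l ∈ I, p ∈ U l) :
    ∑ p ∈ S, f p ≤ f s + (∑ p ∈ T, f p + ∑ l ∈ I, ∑ p ∈ U l, f p) := by
  classical
  have h1 : S ⊆ insert s (T ∪ I.biUnion U) := by
    intro p hp
    rw [mem_insert, mem_union, mem_biUnion]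
    exact h p hp
  have h2 : ∑ p ∈ S, f p ≤ ∑ p ∈ insert s (T ∪ I.biUnion U), f p :=
    sum_le_sum_of_subset_of_nonneg h1 (fun p _ _ => hf p)
  have h3 : ∑ p ∈ insert s (T ∪ I.biUnion U), f p ≤ f s + ∑ p ∈ T ∪ I.biUnion U, f p := by
    by_cases hs : s ∈ T ∪ I.biUnion U
    · rw [insert_eq_of_mem hs]
      linarith [hf s]
    · rw [sum_insert hs]
  have h4 : ∑ p ∈ T ∪ I.biUnion U, f p ≤ ∑ p ∈ T, f p + ∑ p ∈ I.biUnion U, f p := by
    rw [← sum_union_inter]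
    have : 0 ≤ ∑ p ∈ T ∩ I.biUnion U, f p := sum_nonneg (fun p _ => hf p)
    linarith
  have h5 : ∑ p ∈ I.biUnion U, f p ≤ ∑ l ∈ I, ∑ p ∈ U l, f p := by
    clear h h1 h2 h3 h4
    induction I using Finset.induction_on with
    | empty => simp
    | insert a I ha ih =>
      rw [biUnion_insert, sum_insert ha]
      have h6 : ∑ p ∈ U a ∪ I.biUnion U, f p ≤ ∑ p ∈ U a, f p + ∑ p ∈ I.biUnion U, f p := by
        rw [← sum_union_inter]
        have : 0 ≤ ∑ p ∈ U a ∩ I.biUnion U, f p := sum_nonneg (fun p _ => hf p)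
        linarith
      linarith
  linarith

lemma h4_oL {l L : ℕ} (h : l ∈ oL L) : l.Prime ∧ l ≠ 2 ∧ 3 ≤ l ∧ l ≤ L := by
  obtain ⟨h1, h2, h3⟩ := f4_mem h
  exact ⟨h1, by omega, h2, h3⟩

/-- H4b. Strong induction on `z`. Let `C, c, X₀` be from `big_scale`, `Q = log P`, `P` large. Fix `l ∈ oL L`. If `z < P` then
`Sl N l z = 0` (no prime of `N` is `≤ z`). Let `z ≥ P`. The primes `r ≤ z`, `r ≡ 1 mod l`, `r ∣ N` are: `s`, elements of `Hi N L`, or
elements of `Ca N l' l z` for some `l' ∈ oL L` (`split_primes`). `s` contributes `(l-1)/s ≤ L/P ≤ 1/4`; `Hi N L`: `(l-1) ∑_{Hi} 1/r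
≤ L * 1/(4 L) = 1/4`. For `l' ∈ oL L` and `P ≤ X ≤ 2 z`: `⌊X^c⌋₊ < z` (`X^(1/4) ≤ (2z)^(1/4) < z`), so by induction
`Sl N l' ⌊X^c⌋₊ ≤ 1`, and `big_scale` (with `l'` for `l`, `l` for `q`, `S = 1`) gives
`#{p ∈ Ca N l' l z, p ≤ X} ≤ #(Ca N l' l X) ≤ (C e^(A+1) κ_{l'}/l) X/(log X)^2`; by `dyadic2`,
`∑_{Ca N l' l z} 1/r ≤ 4 C e^(A+1) κ_{l'}/(l Q)`. The sum over `l'` of these, times `l - 1`, is
`≤ 4 C e^(A+1) (∑ κ_{l'})/Q ≤ 4 C e^(A+1) D L/Q ≤ 1/2` if `L ≤ c₃ Q` with `c₃ = 1/(8 C e^(A+1) (D + 1))`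
(`∑_{l' ∈ oL L} κ l' ≤ D L` as `1 + log (L/l') ≥ 1`). (`l, l' ≤ L ≤ Q ≤ log X`.) -/
theorem Sl_le_one (κ : ℕ → ℝ) (A D : ℝ) (hA : 0 ≤ A) (hD0 : 0 ≤ D)
    (h1 : ∀ l : ℕ, l.Prime → 1 ≤ κ l)
    (h : ∀ l z : ℕ, l.Prime → l ≠ 2 → 3 ≤ z →
      Real.log (Real.log z) - Real.log (κ l) - A ≤ ((l : ℝ) - 1) * ∑ r ∈ Pl l z, 1 / (r : ℝ))
    (hD : ∀ L : ℕ, 1 ≤ L → ∑ l ∈ oL L, κ l * (1 + Real.log ((L : ℝ) / l)) ≤ D * L) :
    ∃ c₃ : ℝ, 0 < c₃ ∧ c₃ ≤ 1 ∧ ∃ P₃ : ℕ, 16 ≤ P₃ ∧ ∀ N P L : ℕ, Odd N → N.Perfect → P₃ ≤ P →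
      (∀ p ∈ N.primeFactors, P ≤ p) → 1 ≤ L → (L : ℝ) ≤ c₃ * Real.log P →
      ∑ p ∈ Hi N L, 1 / (p : ℝ) ≤ 1 / (4 * L) →
      ∀ z l : ℕ, l ∈ oL L → Sl N l z ≤ 1 := by
  obtain ⟨C, hC1, c, hc, hc4, X₀, hX₀, hbs⟩ := big_scale
  set K : ℝ := C * Real.exp (A + 1) with hK
  have hexp : 1 ≤ Real.exp (A + 1) := Real.one_le_exp (by linarith)
  have hK1 : 1 ≤ K := by
    rw [hK]; nlinarith
  set c₃ : ℝ := 1 / (8 * K * (D + 1)) with hc₃
  have hKD : 8 ≤ 8 * K * (D + 1) := by nlinarith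
  have hc₃0 : 0 < c₃ := by
    rw [hc₃]; positivity
  have hc₃8 : c₃ ≤ 1 / 8 := by
    rw [hc₃]
    exact one_div_le_one_div_of_le (by norm_num) hKD
  refine ⟨c₃, hc₃0, by linarith, X₀, hX₀, ?_⟩
  intro N P L hodd hN hP hmin hL hLP hHi z
  obtain ⟨s, hs, hsplit⟩ := split_primes hodd hN
  have hP16 : 16 ≤ P := hX₀.trans hP
  have hP0 : (0 : ℝ) < P := by
    have : 0 < P := by omega
    exact_mod_cast this
  have hP16' : (16 : ℝ) ≤ P := by exact_mod_cast hP16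
  have hQ1 : 1 < Real.log P := by
    have he : Real.exp 1 < 3 := by
      have := Real.exp_one_lt_d9
      linarith
    rw [Real.lt_log_iff_exp_lt hP0]
    linarith
  have hQP : Real.log P ≤ P := (Real.log_le_sub_one_of_pos hP0).trans (by linarith)
  have hL0 : (0 : ℝ) < L := by
    have : 0 < L := by omega
    exact_mod_cast this
  have hLQ : (L : ℝ) ≤ Real.log P := by nlinarith
  have hN0 : N ≠ 0 := hN.2.ne'
  induction z using Nat.strong_induction_on with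
  | _ z ih =>
  intro l hl
  obtain ⟨hlp, hl2, hl3, hlL⟩ := h4_oL hl
  have hl3' : (3 : ℝ) ≤ l := by exact_mod_cast hl3
  have hlL' : (l : ℝ) ≤ L := by exact_mod_cast hlL
  have hl1 : 0 ≤ (l : ℝ) - 1 := by linarith
  have hmem : ∀ r ∈ (Pl l z).filter (fun r => r ∣ N), r ∈ N.primeFactors ∧ r ≤ z ∧
      r ≡ 1 [MOD l] := by
    intro r hr
    unfold Pl at hr
    rw [mem_filter, mem_filter, mem_prI] at hr
    obtain ⟨⟨⟨⟨_, h3⟩, h4⟩, h5⟩, h6⟩ := hr
    exact ⟨Nat.mem_primeFactors.2 ⟨h4, h6, hN0⟩, h3, h5⟩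
  by_cases hzP : z < P
  · have he : (Pl l z).filter (fun r => r ∣ N) = ∅ := by
      rw [Finset.eq_empty_iff_forall_notMem]
      intro r hr
      obtain ⟨h3, h4, _⟩ := hmem r hr
      have := hmin r h3
      omega
    unfold Sl
    rw [he, sum_empty, mul_zero]
    exact zero_le_one
  push Not at hzP
  have hpt : ∀ r ∈ (Pl l z).filter (fun r => r ∣ N),
      r = s ∨ r ∈ Hi N L ∨ ∃ l' ∈ oL L, r ∈ Ca N l' l z := by
    intro r hr
    obtain ⟨h3, h4, h5⟩ := hmem r hr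
    rcases hsplit L r h3 with h6 | h6 | ⟨l', h6, h7⟩
    · exact Or.inl h6
    · exact Or.inr (Or.inl h6)
    · refine Or.inr (Or.inr ⟨l', h6, ?_⟩)
      unfold Cc at h7
      rw [mem_filter] at h7
      unfold Ca Cl
      rw [mem_filter, mem_filter]
      exact ⟨⟨h3, h4, h7.2⟩, h5⟩
  have hun := h4_union (fun l' => Ca N l' l z) s (fun p => 1 / (p : ℝ))
    (fun p => by positivity) hpt
  -- the classes
  have hclass : ∀ l' ∈ oL L, ∑ p ∈ Ca N l' l z, 1 / (p : ℝ)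
      ≤ 4 * (K * κ l' / l) / Real.log P := by
    intro l' hl'
    obtain ⟨hlp', hl2', hl3', hlL'⟩ := h4_oL hl'
    have hκ := h1 l' hlp'
    apply dyadic2 (Ca N l' l z) P z (by omega)
    · positivity
    · intro p hp
      unfold Ca Cl at hp
      rw [mem_filter, mem_filter] at hp
      exact ⟨hmin p hp.1.1, hp.1.2.1⟩
    · intro X hPX hXz
      have hXlog : Real.log P ≤ Real.log X :=
        Real.log_le_log hP0 (by exact_mod_cast hPX)
      have hlX : (l : ℝ) ≤ Real.log X := by linarith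
      have hlX' : (l' : ℝ) ≤ Real.log X := by
        have : (l' : ℝ) ≤ L := by exact_mod_cast hlL'
        linarith
      have hS := ih ⌊(X : ℝ) ^ c⌋₊ (h4_floor hc4 (by omega) hXz (by omega)) l' hl'
      have hb := (hbs N hodd hN l' l X hlp' hl2' hlp hl2 (hP.trans hPX) hlX' hlX (κ l') A 1 hκ hA
        zero_le_one (fun w hw => h l' w hlp' hl2' hw) hS).2
      have hsub : (Ca N l' l z).filter (fun p => p ≤ X) ⊆ Ca N l' l X := by
        intro p hp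
        unfold Ca Cl at hp ⊢
        rw [mem_filter, mem_filter, mem_filter] at hp
        rw [mem_filter, mem_filter]
        exact ⟨⟨hp.1.1.1, hp.2, hp.1.1.2.2⟩, hp.1.2⟩
      have hcard : (#((Ca N l' l z).filter (fun p => p ≤ X)) : ℝ) ≤ (#(Ca N l' l X) : ℝ) := by
        exact_mod_cast card_le_card hsub
      have heq : C * Real.exp (A + 1) * κ l' * ((X : ℝ) / l) / (Real.log X) ^ 2
          = K * κ l' / l * X / (Real.log X) ^ 2 := by
        rw [hK]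
        ring
      rw [heq] at hb
      exact hcard.trans hb
  -- the sum over the classes
  have hsumκ : ∑ l' ∈ oL L, κ l' ≤ D * L := by
    refine le_trans (sum_le_sum fun l' hl' => ?_) (hD L hL)
    obtain ⟨hlp', _, hl3', hlL'⟩ := h4_oL hl'
    have hκ := h1 l' hlp'
    have hl0 : (0 : ℝ) < l' := by
      have : 0 < l' := by omega
      exact_mod_cast this
    have hlog : 0 ≤ Real.log ((L : ℝ) / l') := by
      apply Real.log_nonneg
      rw [le_div_iff₀ hl0, one_mul]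
      exact_mod_cast hlL'
    nlinarith
  have hsum : ∑ l' ∈ oL L, ∑ p ∈ Ca N l' l z, 1 / (p : ℝ)
      ≤ 4 * K * (D * L) / (l * Real.log P) := by
    have e1 : ∑ l' ∈ oL L, 4 * (K * κ l' / l) / Real.log P
        = 4 * K * (∑ l' ∈ oL L, κ l') / (l * Real.log P) := by
      rw [mul_sum, sum_div]
      apply sum_congr rfl
      intro l' _
      field_simp
    refine (sum_le_sum hclass).trans ?_
    rw [e1]
    apply div_le_div_of_nonneg_right _ (by positivity)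
    exact mul_le_mul_of_nonneg_left hsumκ (by positivity)
  -- the three contributions
  have hc1 : ((l : ℝ) - 1) * (1 / (s : ℝ)) ≤ 1 / 8 := by
    have hsP : (P : ℝ) ≤ s := by exact_mod_cast hmin s hs
    have hs0 : (0 : ℝ) < s := by linarith
    rw [mul_one_div, div_le_div_iff₀ hs0 (by norm_num)]
    nlinarith
  have hc2 : ((l : ℝ) - 1) * ∑ p ∈ Hi N L, 1 / (p : ℝ) ≤ 1 / 4 := by
    have h3 : ((l : ℝ) - 1) * ∑ p ∈ Hi N L, 1 / (p : ℝ) ≤ L * (1 / (4 * L)) := by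
      apply mul_le_mul (by linarith) hHi _ hL0.le
      exact sum_nonneg (fun p _ => by positivity)
    have h4 : (L : ℝ) * (1 / (4 * L)) = 1 / 4 := by
      field_simp
    linarith
  have hc3 : ((l : ℝ) - 1) * ∑ l' ∈ oL L, ∑ p ∈ Ca N l' l z, 1 / (p : ℝ) ≤ 1 / 2 := by
    have h3 := mul_le_mul_of_nonneg_left hsum hl1
    have h4 : ((l : ℝ) - 1) * (4 * K * (D * L) / (l * Real.log P))
        ≤ l * (4 * K * (D * L) / (l * Real.log P)) := by
      apply mul_le_mul_of_nonneg_right (by linarith)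
      positivity
    have h5 : (l : ℝ) * (4 * K * (D * L) / (l * Real.log P)) = 4 * K * D * L / Real.log P := by
      field_simp
    have h6 : 4 * K * D * L / Real.log P ≤ 1 / 2 := by
      rw [div_le_div_iff₀ (by linarith) (by norm_num)]
      have h7 : c₃ * (8 * K * (D + 1)) = 1 := by
        rw [hc₃]
        field_simp
      have h8 : (L : ℝ) * (8 * K * (D + 1)) ≤ c₃ * Real.log P * (8 * K * (D + 1)) :=
        mul_le_mul_of_nonneg_right hLP (by positivity)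
      have h9 : c₃ * Real.log P * (8 * K * (D + 1)) = Real.log P := by
        calc c₃ * Real.log P * (8 * K * (D + 1)) = Real.log P * (c₃ * (8 * K * (D + 1))) := by ring
          _ = Real.log P := by rw [h7, mul_one]
      have h10 : 0 ≤ K * L := by positivity
      nlinarith
    linarith
  have hfin := mul_le_mul_of_nonneg_left hun hl1
  unfold Sl
  rw [mul_add, mul_add] at hfin
  linarith

end Pool.Agent.TE
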