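import Pool.Agent.Lib.MP_f02ea4_nt.TE.H4

/-!
# H5: many primes of `N` have large exponents
-/

set_option autoImplicit false

namespace Pool.Agent.TE

open Finset Nat Pool.Agent.Lib.MP_f02ea4_nt Pool.Agent.Lib.MP_bae66e_nt.AP3

private lemma h5_three_le_log {P : ℕ} (hP : 64 ≤ P) : 3 ≤ Real.log P := by
  have h1 : Real.log 64 ≤ Real.log P :=
    Real.log_le_log (by norm_num) (by exact_mod_cast hP)
  have h2 : Real.log 64 = 6 * Real.log 2 := by
    rw [show (64 : ℝ) = 2 ^ (6 : ℕ) by norm_num, Real.log_pow]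
    norm_num
  have h3 := Real.log_two_gt_d9
  linarith

private lemma h5_class {C A κ : ℝ} {N P l X₀ : ℕ} (hC : 1 ≤ C)
    (hbig : ∀ X : ℕ, X₀ ≤ X → (l : ℝ) ≤ Real.log X → (3 : ℝ) ≤ Real.log X →
      (#(Cl N l X) : ℝ) ≤ C * Real.exp (A + 1) * κ * X / (Real.log X) ^ 2)
    (hκ : 1 ≤ κ) (hP : 64 ≤ P) (hPX : X₀ ≤ P) (hmin : ∀ p ∈ N.primeFactors, P ≤ p)
    (hl : (l : ℝ) ≤ Real.log P) :
    ∑ p ∈ Cc N l, 1 / (p : ℝ) ≤ 4 * (C * Real.exp (A + 1) * κ) / Real.log P := by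
  have hP0 : (0 : ℝ) < P := by
    have : (64 : ℝ) ≤ P := by exact_mod_cast hP
    linarith
  refine dyadic2 (Cc N l) P N (by omega) _ (by positivity) ?_ ?_
  · intro p hp
    simp only [Cc, mem_filter] at hp
    exact ⟨hmin p hp.1, Nat.le_of_mem_primeFactors hp.1⟩
  · intro X hX _
    have hXr : (P : ℝ) ≤ X := by exact_mod_cast hX
    have hlog : Real.log P ≤ Real.log X := Real.log_le_log hP0 hXr
    have h1 := hbig X (hPX.trans hX) (hl.trans hlog) ((h5_three_le_log hP).trans hlog)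
    refine le_trans ?_ h1
    have h2 : (Cc N l).filter (fun p => p ≤ X) ⊆ Cl N l X := by
      intro p hp
      simp only [Cc, Cl, mem_filter] at hp ⊢
      exact ⟨hp.1.1, hp.2, hp.1.2⟩
    exact_mod_cast card_le_card h2

/-- H5. Let `c₃, P₃` be from `Sl_le_one`, `C, c, X₀` from `big_scale`; `c₄ ≤ c₃` small. Suppose `∑_{Hi N L} 1/p ≤ 1/(4 L)`, `1 ≤ L ≤ c₄ Q`.
Then `Sl ≤ 1` at all scales for all `l ∈ oL L`. Every prime of `N` is `s`, or in `Hi N L`, or in `Cc N l`, `l ∈ oL L`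
(`split_primes`). With `z = N` (all primes of `N` are `≤ N`) `big_scale` (with `q = 3`, say) and `dyadic2` give
`∑_{p ∈ Cc N l} 1/p ≤ 4 C e^(A+1) κ_l/Q`. So `∑_{p ∣ N} 1/p ≤ 1/P + 1/(4 L) + 4 C e^(A+1) D L/Q ≤ 1/P + 1/4 + 1/8`; but by
`sum_inv_ge` it is `≥ log 2 - 1/(P-1) ≥ 0.69 - 1/(P-1)`. Contradiction for `P ≥ 16`. So `∑_{Hi N L} 1/p > 1/(4 L)`. -/
theorem high_mass (κ : ℕ → ℝ) (A D : ℝ) (hA : 0 ≤ A) (hD0 : 0 ≤ D)
    (h1 : ∀ l : ℕ, l.Prime → 1 ≤ κ l)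
    (h : ∀ l z : ℕ, l.Prime → l ≠ 2 → 3 ≤ z →
      Real.log (Real.log z) - Real.log (κ l) - A ≤ ((l : ℝ) - 1) * ∑ r ∈ Pl l z, 1 / (r : ℝ))
    (hD : ∀ L : ℕ, 1 ≤ L → ∑ l ∈ oL L, κ l * (1 + Real.log ((L : ℝ) / l)) ≤ D * L) :
    ∃ c₄ : ℝ, 0 < c₄ ∧ c₄ ≤ 1 ∧ ∃ P₄ : ℕ, 16 ≤ P₄ ∧ ∀ N P L : ℕ, Odd N → N.Perfect → P₄ ≤ P →
      (∀ p ∈ N.primeFactors, P ≤ p) → 1 ≤ L → (L : ℝ) ≤ c₄ * Real.log P →
      1 / (4 * L) < ∑ p ∈ Hi N L, 1 / (p : ℝ) := by
  obtain ⟨c₃, hc₃, hc₃1, P₃, hP₃, hSl⟩ := Sl_le_one κ A D hA hD0 h1 h hD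
  obtain ⟨C, hC, c, _, _, X₀, _, hbig⟩ := big_scale
  have hC0 : 0 < C := by linarith
  have hE : 0 < Real.exp (A + 1) := Real.exp_pos _
  have hden : 0 < 32 * C * Real.exp (A + 1) * (D + 1) := by positivity
  refine ⟨min c₃ (1 / (32 * C * Real.exp (A + 1) * (D + 1))), lt_min hc₃ (by positivity),
    (min_le_left _ _).trans hc₃1, max P₃ (max X₀ 64), hP₃.trans (le_max_left _ _), ?_⟩
  intro N P L hodd hN hP hmin hL hLP
  have hPP₃ : P₃ ≤ P := (le_max_left _ _).trans hP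
  have hPX₀ : X₀ ≤ P := (le_max_left _ _).trans ((le_max_right _ _).trans hP)
  have hP64 : 64 ≤ P := (le_max_right _ _).trans ((le_max_right _ _).trans hP)
  have hP64r : (64 : ℝ) ≤ P := by exact_mod_cast hP64
  have hP0 : (0 : ℝ) < P := by linarith
  have hQ3 := h5_three_le_log hP64
  have hQ0 : 0 < Real.log P := by linarith
  have hL1 : (1 : ℝ) ≤ L := by exact_mod_cast hL
  have hL0 : (0 : ℝ) < L := by linarith
  have hLc₃ : (L : ℝ) ≤ c₃ * Real.log P :=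
    hLP.trans (mul_le_mul_of_nonneg_right (min_le_left _ _) hQ0.le)
  have hLe : (L : ℝ) ≤ 1 / (32 * C * Real.exp (A + 1) * (D + 1)) * Real.log P :=
    hLP.trans (mul_le_mul_of_nonneg_right (min_le_right _ _) hQ0.le)
  have hLQ : (L : ℝ) ≤ Real.log P := by nlinarith
  by_contra hcon
  rw [not_lt] at hcon
  have hS := hSl N P L hodd hN hPP₃ hmin hL hLc₃ hcon
  -- the classes
  have hcls : ∀ l ∈ oL L, ∑ p ∈ Cc N l, 1 / (p : ℝ) ≤
      4 * (C * Real.exp (A + 1) * κ l) / Real.log P := by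
    intro l hl
    have hl' := hl
    simp only [oL, mem_filter, mem_range] at hl'
    obtain ⟨hlL, hlp, hl2⟩ := hl'
    have hlr : (l : ℝ) ≤ L := by exact_mod_cast (by omega : l ≤ L)
    refine h5_class hC ?_ (h1 l hlp) hP64 hPX₀ hmin (hlr.trans hLQ)
    intro X hX hlX h3X
    exact (hbig N hodd hN l 3 X hlp hl2 Nat.prime_three (by norm_num) hX hlX
      (by exact_mod_cast h3X) (κ l) A 1 (h1 l hlp) hA zero_le_one
      (fun z hz => h l z hlp hl2 hz) (hS _ l hl)).1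
  -- the sum over the classes
  have hκsum : ∑ l ∈ oL L, κ l ≤ D * L := by
    refine le_trans (sum_le_sum fun l hl => ?_) (hD L hL)
    simp only [oL, mem_filter, mem_range] at hl
    have hl0 : (0 : ℝ) < l := by exact_mod_cast hl.2.1.pos
    have hlL : (l : ℝ) ≤ L := by exact_mod_cast (by omega : l ≤ L)
    have h2 : 0 ≤ Real.log ((L : ℝ) / l) := Real.log_nonneg (by rwa [le_div_iff₀ hl0, one_mul])
    have h3 := h1 l hl.2.1
    nlinarith
  have hsum : ∑ l ∈ oL L, ∑ p ∈ Cc N l, 1 / (p : ℝ) ≤ 1 / 8 := by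
    calc ∑ l ∈ oL L, ∑ p ∈ Cc N l, 1 / (p : ℝ)
        ≤ ∑ l ∈ oL L, 4 * (C * Real.exp (A + 1) * κ l) / Real.log P := sum_le_sum hcls
      _ = 4 * (C * Real.exp (A + 1)) / Real.log P * ∑ l ∈ oL L, κ l := by
          rw [mul_sum]
          refine sum_congr rfl fun l _ => ?_
          ring
      _ ≤ 4 * (C * Real.exp (A + 1)) / Real.log P * (D * L) :=
          mul_le_mul_of_nonneg_left hκsum (by positivity)
      _ ≤ 4 * (C * Real.exp (A + 1)) / Real.log P * ((D + 1) *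
            (1 / (32 * C * Real.exp (A + 1) * (D + 1)) * Real.log P)) := by
          refine mul_le_mul_of_nonneg_left ?_ (by positivity)
          exact mul_le_mul (by linarith) hLe hL0.le (by linarith)
      _ = 1 / 8 := by
          field_simp
          norm_num
  -- all primes
  obtain ⟨s, hs, hsplit⟩ := split_primes hodd hN
  have hcov : N.primeFactors ⊆ ({s} ∪ Hi N L) ∪ (oL L).biUnion (fun l => Cc N l) := by
    intro p hp
    simp only [mem_union, mem_singleton, mem_biUnion]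
    rcases hsplit L p hp with h2 | h2 | h2
    · exact Or.inl (Or.inl h2)
    · exact Or.inl (Or.inr h2)
    · exact Or.inr h2
  have hnn : ∀ p : ℕ, (0 : ℝ) ≤ 1 / (p : ℝ) := fun p => by positivity
  have hun : ∀ S T : Finset ℕ, ∑ p ∈ S ∪ T, 1 / (p : ℝ) ≤
      ∑ p ∈ S, 1 / (p : ℝ) + ∑ p ∈ T, 1 / (p : ℝ) := by
    intro S T
    rw [← sum_union_inter]
    exact le_add_of_nonneg_right (sum_nonneg fun p _ => hnn p)
  have hbi : ∑ p ∈ (oL L).biUnion (fun l => Cc N l), 1 / (p : ℝ) ≤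
      ∑ l ∈ oL L, ∑ p ∈ Cc N l, 1 / (p : ℝ) := by
    have key : ∀ T : Finset ℕ, ∑ p ∈ T.biUnion (fun l => Cc N l), 1 / (p : ℝ) ≤
        ∑ l ∈ T, ∑ p ∈ Cc N l, 1 / (p : ℝ) := by
      intro T
      induction T using Finset.induction_on with
      | empty => simp
      | insert a T ha ih =>
        rw [biUnion_insert, sum_insert ha]
        exact (hun _ _).trans (by linarith)
    exact key _
  have htot : ∑ p ∈ N.primeFactors, 1 / (p : ℝ) ≤ 1 / 64 + 1 / 4 + 1 / 8 := by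
    have hsP : 1 / (s : ℝ) ≤ 1 / 64 := by
      have h2 : (64 : ℝ) ≤ s := hP64r.trans (by exact_mod_cast hmin s hs)
      exact one_div_le_one_div_of_le (by norm_num) h2
    have hHi : 1 / (4 * (L : ℝ)) ≤ 1 / 4 := by
      refine one_div_le_one_div_of_le (by norm_num) (by linarith)
    calc ∑ p ∈ N.primeFactors, 1 / (p : ℝ)
        ≤ ∑ p ∈ ({s} ∪ Hi N L) ∪ (oL L).biUnion (fun l => Cc N l), 1 / (p : ℝ) :=
          sum_le_sum_of_subset_of_nonneg hcov fun p _ _ => hnn p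
      _ ≤ (1 / (s : ℝ) + ∑ p ∈ Hi N L, 1 / (p : ℝ)) +
            ∑ p ∈ (oL L).biUnion (fun l => Cc N l), 1 / (p : ℝ) := by
          refine (hun _ _).trans ?_
          have h2 := hun {s} (Hi N L)
          rw [sum_singleton] at h2
          linarith
      _ ≤ 1 / 64 + 1 / 4 + 1 / 8 := by linarith
  have hge := sum_inv_ge hN (by omega : 2 ≤ P) hmin
  have h2 := Real.log_two_gt_d9
  have h3 : 1 / ((P : ℝ) - 1) ≤ 1 / 63 := one_div_le_one_div_of_le (by norm_num) (by linarith)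
  linarith

end Pool.Agent.TE
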