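import Pool.Agent.Lib.MP_f02ea4_nt.TE.F7
import Pool.Agent.Lib.MP_f02ea4_nt.TE.G1
import Pool.Agent.Lib.MP_f02ea4_nt.TE.H5
import Pool.Agent.Lib.MP_f02ea4_nt.TE.P10

/-!
# H6: final form of the theorem on large exponents
-/

set_option autoImplicit false

namespace Pool.Agent.TE

open Finset Nat Pool.Agent.Lib.MP_f02ea4_nt

private lemma h6_ne_one {N : ℕ} (hN : N.Perfect) : N ≠ 1 := by
  rintro rfl
  have := hN.1
  simp at this

private lemma h6_three_le {N p : ℕ} (hodd : Odd N) (hp : p ∈ N.primeFactors) : 3 ≤ p := by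
  have h1 := Nat.prime_of_mem_primeFactors hp
  have h2 := Nat.dvd_of_mem_primeFactors hp
  have h3 : p ≠ 2 := by
    rintro rfl
    exact (Nat.not_even_iff_odd.2 hodd) (even_iff_two_dvd.2 h2)
  have := h1.two_le
  omega

/-- H6a. `bt N = 2` and `bt_eq`: `2 = ∏ sg p e_p/p^(e_p) ≤ ∏ p/(p-1)` (`(p-1) sg p e ≤ p^(e+1)`). By Euler (`Rad.euler`) all primes of `N`
but `s ≥ 3` have even exponents: `2 ≤ (3/2) ∏_{even} (1 + 1/(p-1)) ≤ (3/2) exp (∑_{even} 1/(p-1))`, and `1/(p-1) ≤ (3/2) (1/p)` for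
`p ≥ 3`. So `∑_{even} 1/p ≥ (2/3) log (4/3) ≥ 1/8`. -/
lemma even_mass {N : ℕ} (hodd : Odd N) (hN : N.Perfect) :
    1 / 8 ≤ ∑ p ∈ N.primeFactors.filter (fun p => Even (N.factorization p)), 1 / (p : ℝ) := by
  classical
  obtain ⟨s, hs, -, -, hev⟩ := Rad.euler hodd hN
  have hbt := bt_eq hN.2.ne'
  rw [bt_perfect hN] at hbt
  -- each factor is at most `1 + 1/(p-1)`
  have hfac : ∀ p ∈ N.primeFactors, 0 ≤ ((Rad.sg p (N.factorization p) : ℕ) : ℝ) /
      (p : ℝ) ^ (N.factorization p) ∧ ((Rad.sg p (N.factorization p) : ℕ) : ℝ) /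
      (p : ℝ) ^ (N.factorization p) ≤ 1 + 1 / ((p : ℝ) - 1) := by
    intro p hp
    have hp3 : (3 : ℝ) ≤ p := by exact_mod_cast h6_three_le hodd hp
    have hp1 : (0 : ℝ) < (p : ℝ) - 1 := by linarith
    have hp0 : (0 : ℝ) < p := by linarith
    refine ⟨by positivity, ?_⟩
    have h1 : ((Rad.sg p (N.factorization p) : ℕ) : ℝ) * ((p : ℝ) - 1) =
        (p : ℝ) ^ (N.factorization p + 1) - 1 := by
      unfold Rad.sg
      push_cast
      exact geom_sum_mul (p : ℝ) _
    have h2 : 1 + 1 / ((p : ℝ) - 1) = (p : ℝ) / ((p : ℝ) - 1) := by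
      field_simp
      ring
    rw [h2, div_le_div_iff₀ (by positivity) hp1, h1, pow_succ]
    linarith
  obtain ⟨E, hE⟩ : ∃ E, E = N.primeFactors.filter (fun p => Even (N.factorization p)) := ⟨_, rfl⟩
  rw [← hE]
  have hsub : N.primeFactors.erase s ⊆ E := by
    intro p hp
    rw [mem_erase] at hp
    rw [hE, mem_filter]
    exact ⟨hp.2, Nat.even_iff.2 (hev p hp.2 hp.1)⟩
  have hs3 : (3 : ℝ) ≤ s := by exact_mod_cast h6_three_le hodd hs
  have h3 : (2 : ℝ) ≤ 3 / 2 * Real.exp (3 / 2 * ∑ p ∈ E, 1 / (p : ℝ)) := by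
    calc (2 : ℝ) = (((Rad.sg s (N.factorization s) : ℕ) : ℝ) / (s : ℝ) ^ (N.factorization s)) *
          ∏ p ∈ N.primeFactors.erase s, ((Rad.sg p (N.factorization p) : ℕ) : ℝ) /
            (p : ℝ) ^ (N.factorization p) := by
          rw [hbt]
          exact (mul_prod_erase _ _ hs).symm
      _ ≤ 3 / 2 * ∏ p ∈ N.primeFactors.erase s, Real.exp (3 / 2 * (1 / (p : ℝ))) := by
          refine mul_le_mul ?_ ?_ (prod_nonneg fun p hp => (hfac p (mem_of_mem_erase hp)).1)
            (by norm_num)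
          · refine ((hfac s hs).2).trans ?_
            have h4 : 1 / ((s : ℝ) - 1) ≤ 1 / 2 :=
              one_div_le_one_div_of_le (by norm_num) (by linarith)
            linarith
          · refine prod_le_prod (fun p hp => (hfac p (mem_of_mem_erase hp)).1) fun p hp => ?_
            have hp' := mem_of_mem_erase hp
            have hp3 : (3 : ℝ) ≤ p := by exact_mod_cast h6_three_le hodd hp'
            refine ((hfac p hp').2).trans ?_
            have h4 : 1 / ((p : ℝ) - 1) ≤ 3 / 2 * (1 / (p : ℝ)) := by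
              rw [mul_one_div, div_le_div_iff₀ (by linarith) (by linarith)]
              linarith
            have h5 := Real.add_one_le_exp (3 / 2 * (1 / (p : ℝ)))
            linarith
      _ = 3 / 2 * Real.exp (∑ p ∈ N.primeFactors.erase s, 3 / 2 * (1 / (p : ℝ))) := by
          rw [Real.exp_sum]
      _ ≤ 3 / 2 * Real.exp (3 / 2 * ∑ p ∈ E, 1 / (p : ℝ)) := by
          refine mul_le_mul_of_nonneg_left (Real.exp_le_exp.2 ?_) (by norm_num)
          rw [mul_sum]
          exact sum_le_sum_of_subset_of_nonneg hsub fun p _ _ => by positivity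
  obtain ⟨y, hy⟩ : ∃ y, y = ∑ p ∈ E, 1 / (p : ℝ) := ⟨_, rfl⟩
  rw [← hy] at h3 ⊢
  by_contra hcon
  rw [not_le] at hcon
  have h4 : Real.exp (3 / 2 * y) < Real.exp (3 / 16) := Real.exp_lt_exp.2 (by linarith)
  have h5 : Real.exp (3 / 16) ≤ 4 / 3 := by
    have h6 : Real.exp (3 / 16) ≤ 1 / (1 - 3 / 16) := by
      rw [le_div_iff₀ (by norm_num)]
      have h7 := Real.add_one_le_exp (-(3 / 16 : ℝ))
      have h8 : Real.exp (3 / 16) * Real.exp (-(3 / 16)) = 1 := by
        rw [← Real.exp_add, add_neg_cancel, Real.exp_zero]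
      have h9 := Real.exp_pos (3 / 16)
      nlinarith
    refine h6.trans (by norm_num)
  linarith

/-- the primes `p` of `N` with even exponent `e_p` such that every prime factor of `e_p + 1` is `> t` -/
noncomputable def Hr (N : ℕ) (t : ℝ) : Finset ℕ := by
  classical
  exact N.primeFactors.filter (fun p => Even (N.factorization p) ∧
    ∀ l : ℕ, l.Prime → l ∣ N.factorization p + 1 → t < l)

private lemma mem_Hr {N p : ℕ} {t : ℝ} : p ∈ Hr N t ↔ p ∈ N.primeFactors ∧
    Even (N.factorization p) ∧ ∀ l : ℕ, l.Prime → l ∣ N.factorization p + 1 → t < l := by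
  classical
  unfold Hr
  rw [mem_filter]

private lemma Hr_anti {N : ℕ} {t u : ℝ} (h : t ≤ u) : Hr N u ⊆ Hr N t := by
  intro p hp
  rw [mem_Hr] at hp ⊢
  exact ⟨hp.1, hp.2.1, fun l hl hd => h.trans_lt (hp.2.2 l hl hd)⟩

private lemma h6_odd_of_dvd {e l : ℕ} (he : Even e) (hl : l.Prime) (hd : l ∣ e + 1) : l ≠ 2 := by
  rintro rfl
  have h1 : Even (e + 1) := even_iff_two_dvd.2 hd
  exact (Nat.not_even_iff_odd.2 he.add_one) h1

/-- H6b. `C B bad` from `AP_main`, `κ A D` from `kappa_of_AP`, `c₄, P₄` from `high_mass`. For `P = N.minFac ≥ P₅` take `L = ⌊c₄ log P⌋₊ ≥ 1`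
(`L + 1 > c₄ log P ≥ L`): `Hi N L ⊆ Hr N (c₄ log P)` (a prime `l ∣ e_p + 1` is odd as `e_p` is even, and it is not in `oL L`, so
`l ≥ L + 1`), so `∑_{Hr} 1/p ≥ 1/(4 L) ≥ 1/(4 c₄ log P)`. For `P < P₅`: if `c log P₅ < 3`, then
`Hr N (c log P)` contains all primes with even exponent (`l ≥ 3`), and `even_mass` gives `≥ 1/8 ≥ c/log P` if `c ≤ (log 3)/8`.
`Hr` is antitone in `t`. -/
theorem large_exp_mass : ∃ c : ℝ, 0 < c ∧ ∀ N : ℕ, Odd N → N.Perfect →
    c / Real.log N.minFac ≤ ∑ p ∈ Hr N (c * Real.log N.minFac), 1 / (p : ℝ) := by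
  classical
  obtain ⟨C, B, bad, hAP⟩ := AP_main
  obtain ⟨κ, A, D, hA, hD0, h1, h2, hD⟩ := kappa_of_AP C B bad hAP
  obtain ⟨c₄, hc₄, hc₄1, P₄, hP₄, hmass⟩ := high_mass κ A D hA hD0 h1 h2 hD
  -- `P₅` with `1 ≤ c₄ log P₅`
  obtain ⟨P₅, hP₅⟩ : ∃ P₅ : ℕ, P₅ = max P₄ (⌈Real.exp (1 / c₄)⌉₊ + 1) := ⟨_, rfl⟩
  have hP₅4 : P₄ ≤ P₅ := hP₅ ▸ le_max_left _ _
  have hP₅16 : 16 ≤ P₅ := hP₄.trans hP₅4
  have hP₅r : (16 : ℝ) ≤ P₅ := by exact_mod_cast hP₅16
  have hlog5 : 1 ≤ Real.log P₅ := by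
    rw [Real.le_log_iff_exp_le (by linarith)]
    have := Real.exp_one_lt_d9
    linarith
  obtain ⟨c, hc⟩ : ∃ c : ℝ, c = min c₄ (min (1 / 8) (1 / Real.log P₅)) := ⟨_, rfl⟩
  have hc1 : c ≤ c₄ := hc ▸ min_le_left _ _
  have hc2 : c ≤ 1 / 8 := hc ▸ (min_le_right _ _).trans (min_le_left _ _)
  have hc3 : c ≤ 1 / Real.log P₅ := hc ▸ (min_le_right _ _).trans (min_le_right _ _)
  have hc0 : 0 < c := by
    rw [hc]
    exact lt_min hc₄ (lt_min (by norm_num) (by positivity))
  refine ⟨c, hc0, fun N hodd hN => ?_⟩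
  have hN1 := h6_ne_one hN
  have hP := Nat.minFac_prime hN1
  have hmem : N.minFac ∈ N.primeFactors :=
    Nat.mem_primeFactors.2 ⟨hP, Nat.minFac_dvd N, hN.2.ne'⟩
  have hP3 : 3 ≤ N.minFac := h6_three_le hodd hmem
  have hP3r : (3 : ℝ) ≤ N.minFac := by exact_mod_cast hP3
  have hlogP : 1 ≤ Real.log N.minFac := by
    rw [Real.le_log_iff_exp_le (by linarith)]
    have := Real.exp_one_lt_d9
    linarith
  have hmin : ∀ p ∈ N.primeFactors, N.minFac ≤ p := fun p hp =>
    Nat.minFac_le_of_dvd (Nat.prime_of_mem_primeFactors hp).two_le (Nat.dvd_of_mem_primeFactors hp)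
  have hnn : ∀ p : ℕ, (0 : ℝ) ≤ 1 / (p : ℝ) := fun p => by positivity
  rcases le_or_gt P₅ N.minFac with hlarge | hsmall
  · -- large `P`
    have hexp : Real.exp (1 / c₄) ≤ N.minFac := by
      have h3 : ⌈Real.exp (1 / c₄)⌉₊ ≤ N.minFac := by
        have h4 : ⌈Real.exp (1 / c₄)⌉₊ + 1 ≤ P₅ := hP₅ ▸ le_max_right _ _
        omega
      exact (Nat.le_ceil _).trans (by exact_mod_cast h3)
    have hcl : 1 ≤ c₄ * Real.log N.minFac := by
      have h3 : 1 / c₄ ≤ Real.log N.minFac := (Real.le_log_iff_exp_le (by linarith)).2 hexp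
      rw [div_le_iff₀ hc₄] at h3
      linarith
    obtain ⟨L, hL⟩ : ∃ L : ℕ, L = ⌊c₄ * Real.log N.minFac⌋₊ := ⟨_, rfl⟩
    have hL1 : 1 ≤ L := by
      rw [hL]
      exact Nat.le_floor (by exact_mod_cast hcl)
    have hLle : (L : ℝ) ≤ c₄ * Real.log N.minFac := by
      rw [hL]
      exact Nat.floor_le (by positivity)
    have hLlt : c₄ * Real.log N.minFac < L + 1 := by
      rw [hL]
      exact Nat.lt_floor_add_one _
    have h3 := hmass N N.minFac L hodd hN (hP₅4.trans hlarge) hmin hL1 hLle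
    have hsub : Hi N L ⊆ Hr N (c * Real.log N.minFac) := by
      intro p hp
      simp only [Hi, mem_filter] at hp
      rw [mem_Hr]
      refine ⟨hp.1, hp.2.1, fun l hl hd => ?_⟩
      have h4 : l ∉ oL L := fun h => hp.2.2 l h hd
      simp only [oL, mem_filter, mem_range, not_and] at h4
      have h5 : L + 1 ≤ l := by
        by_contra h6
        exact h4 (by omega) hl (h6_odd_of_dvd hp.2.1 hl hd)
      have h6 : (L : ℝ) + 1 ≤ l := by exact_mod_cast h5
      have h7 : c * Real.log N.minFac ≤ c₄ * Real.log N.minFac :=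
        mul_le_mul_of_nonneg_right hc1 (by linarith)
      linarith
    have hL0 : (0 : ℝ) < L := by exact_mod_cast hL1
    calc c / Real.log N.minFac ≤ 1 / (4 * L) := by
          rw [div_le_div_iff₀ (by linarith) (by positivity)]
          have h4 : c * (4 * (L : ℝ)) ≤ 1 / 8 * (4 * L) :=
            mul_le_mul_of_nonneg_right hc2 (by positivity)
          have h5 : (L : ℝ) ≤ 1 * Real.log N.minFac :=
            hLle.trans (mul_le_mul_of_nonneg_right hc₄1 (by linarith))
          linarith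
      _ ≤ ∑ p ∈ Hi N L, 1 / (p : ℝ) := h3.le
      _ ≤ _ := sum_le_sum_of_subset_of_nonneg hsub fun p _ _ => hnn p
  · -- small `P`
    have hlt : Real.log N.minFac ≤ Real.log P₅ :=
      Real.log_le_log (by linarith) (by exact_mod_cast hsmall.le)
    have hle1 : c * Real.log N.minFac ≤ 1 := by
      calc c * Real.log N.minFac ≤ 1 / Real.log P₅ * Real.log P₅ :=
            mul_le_mul hc3 hlt (by linarith) (by positivity)
        _ = 1 := by
            field_simp
    have hsub : N.primeFactors.filter (fun p => Even (N.factorization p)) ⊆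
        Hr N (c * Real.log N.minFac) := by
      intro p hp
      rw [mem_filter] at hp
      rw [mem_Hr]
      refine ⟨hp.1, hp.2, fun l hl _ => ?_⟩
      have h4 : (2 : ℝ) ≤ l := by exact_mod_cast hl.two_le
      linarith
    calc c / Real.log N.minFac ≤ 1 / 8 := by
          rw [div_le_iff₀ (by linarith)]
          linarith
      _ ≤ _ := even_mass hodd hN
      _ ≤ _ := sum_le_sum_of_subset_of_nonneg hsub fun p _ _ => hnn p

/-- H6c. Each `p ∈ Hr` is `≥ P = N.minFac`, so `#Hr ≥ P ∑ 1/p`. And for `p ∈ Hr`: `e_p + 1 > 1` has a prime factor `l > c log P`, so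
`e_p + 1 ≥ l > c log P`. -/
theorem large_exp_card : ∃ c : ℝ, 0 < c ∧ ∀ N : ℕ, Odd N → N.Perfect →
    c * N.minFac / Real.log N.minFac
      ≤ ((N.primeFactors.filter (fun p : ℕ => c * Real.log N.minFac ≤ (N.factorization p : ℝ))).card : ℝ) := by
  classical
  obtain ⟨c, hc, h⟩ := large_exp_mass
  refine ⟨c / 2, by positivity, fun N hodd hN => ?_⟩
  have hN1 := h6_ne_one hN
  have hP := Nat.minFac_prime hN1
  have hmem : N.minFac ∈ N.primeFactors :=
    Nat.mem_primeFactors.2 ⟨hP, Nat.minFac_dvd N, hN.2.ne'⟩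
  have hP3 : 3 ≤ N.minFac := h6_three_le hodd hmem
  have hP3r : (3 : ℝ) ≤ N.minFac := by exact_mod_cast hP3
  have hP0 : (0 : ℝ) < N.minFac := by linarith
  have hlogP : 0 < Real.log N.minFac := Real.log_pos (by linarith)
  have hmin : ∀ p ∈ N.primeFactors, N.minFac ≤ p := fun p hp =>
    Nat.minFac_le_of_dvd (Nat.prime_of_mem_primeFactors hp).two_le (Nat.dvd_of_mem_primeFactors hp)
  have h1 := h N hodd hN
  -- the number of elements of `Hr`
  have h2 : ∑ p ∈ Hr N (c * Real.log N.minFac), 1 / (p : ℝ) ≤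
      (#(Hr N (c * Real.log N.minFac)) : ℝ) * (1 / (N.minFac : ℝ)) := by
    rw [← nsmul_eq_mul]
    refine sum_le_card_nsmul _ _ _ fun p hp => ?_
    rw [mem_Hr] at hp
    exact one_div_le_one_div_of_le hP0 (by exact_mod_cast hmin p hp.1)
  have hsub : Hr N (c * Real.log N.minFac) ⊆
      N.primeFactors.filter (fun p : ℕ => c / 2 * Real.log N.minFac ≤ (N.factorization p : ℝ)) := by
    intro p hp
    rw [mem_Hr] at hp
    rw [mem_filter]
    refine ⟨hp.1, ?_⟩
    have he : N.factorization p ≠ 0 := Finsupp.mem_support_iff.1 hp.1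
    obtain ⟨l, hl, hld⟩ := Nat.exists_prime_and_dvd (show N.factorization p + 1 ≠ 1 by omega)
    have h3 := hp.2.2 l hl hld
    have h4 : l ≤ N.factorization p + 1 := Nat.le_of_dvd (by omega) hld
    have h5 : (l : ℝ) ≤ N.factorization p + 1 := by exact_mod_cast h4
    have h6 : (1 : ℝ) ≤ N.factorization p := by
      exact_mod_cast Nat.one_le_iff_ne_zero.2 he
    have h7 : c / 2 * Real.log N.minFac = c * Real.log N.minFac / 2 := by ring
    rw [h7]
    linarith
  have hcard : (#(Hr N (c * Real.log N.minFac)) : ℝ) ≤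
      ((N.primeFactors.filter (fun p : ℕ =>
        c / 2 * Real.log N.minFac ≤ (N.factorization p : ℝ))).card : ℝ) := by
    exact_mod_cast card_le_card hsub
  have h3 : c * N.minFac / Real.log N.minFac ≤ (#(Hr N (c * Real.log N.minFac)) : ℝ) := by
    have h4 := h1.trans h2
    rw [mul_one_div, div_le_div_iff₀ hlogP hP0] at h4
    rw [div_le_iff₀ hlogP]
    linarith
  have h5 : c / 2 * N.minFac / Real.log N.minFac ≤ c * N.minFac / Real.log N.minFac := by
    refine div_le_div_of_nonneg_right ?_ hlogP.le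
    refine mul_le_mul_of_nonneg_right ?_ hP0.le
    linarith
  linarith

end Pool.Agent.TE
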