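import Pool.Agent.Lib.MP_f02ea4_nt.TE.A3

/-!
# I1: roots of `1 + t + ⋯ + t^(m-1)` modulo a prime, `m` arbitrary
-/

set_option autoImplicit false

namespace Pool.Agent.TE

open Finset

private lemma i1_root {m r : ℕ} [Fact r.Prime] (h : ¬ r ∣ m) (u : (ZMod r)ˣ) :
    (u ^ m = 1 ∧ u ≠ 1) ↔ ∑ i ∈ range m, (u : ZMod r) ^ i = 0 := by
  have hg := geom_sum_mul (u : ZMod r) m
  have hm0 : ((m : ℕ) : ZMod r) ≠ 0 := by
    rw [Ne, ZMod.natCast_eq_zero_iff]
    exact h
  constructor
  · rintro ⟨h1, h2⟩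
    have h3 : (u : ZMod r) ^ m = 1 := by
      rw [← Units.val_pow_eq_pow_val, h1, Units.val_one]
    rw [h3, sub_self] at hg
    rcases mul_eq_zero.1 hg with h4 | h4
    · exact h4
    · exact absurd (Units.ext (sub_eq_zero.1 h4)) h2
  · intro h1
    rw [h1, zero_mul] at hg
    refine ⟨?_, ?_⟩
    · apply Units.ext
      rw [Units.val_pow_eq_pow_val, Units.val_one]
      exact (sub_eq_zero.1 hg.symm)
    · rintro rfl
      simp at h1
      exact hm0 h1

private lemma i1_card {m r : ℕ} [Fact r.Prime] :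
    #((univ : Finset (ZMod r)ˣ).filter (fun u => u ^ m = 1 ∧ u ≠ 1)) = Nat.gcd m (r - 1) - 1 := by
  have h1 := IsCyclic.card_powMonoidHom_ker (G := (ZMod r)ˣ) m
  rw [Nat.card_eq_fintype_card (α := (ZMod r)ˣ), ZMod.card_units, Nat.gcd_comm] at h1
  rw [← h1]
  have h2 : (univ : Finset (ZMod r)ˣ).filter (fun u => u ^ m = 1 ∧ u ≠ 1) =
      ((univ : Finset (ZMod r)ˣ).filter (fun u => u ^ m = 1)).erase 1 := by
    ext u
    simp only [mem_filter, mem_univ, true_and, mem_erase]
    exact and_comm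
  rw [h2, card_erase_of_mem (by simp)]
  congr 1
  rw [Nat.card_eq_fintype_card, Fintype.card_subtype]
  congr 1
  ext u
  simp only [mem_filter, mem_univ, true_and, MonoidHom.mem_ker, powMonoidHom_apply]

/-- I1. In the field `ZMod r`: `(t - 1) ∑_{i<m} t^i = t^m - 1`; for `t = 1` the sum is `m ≠ 0`. So the roots are the solutions of
`t^m = 1` other than `1`. The solutions of `t^m = 1` are units; in the cyclic group of order `r - 1` there are exactly
`gcd (m, r-1)` of them (`IsCyclic.card_pow_eq_one_eq_gcd`?, or `t^m = 1 ↔ t^gcd(m, r-1) = 1` and `IsCyclic.card_pow_eq_one_le` with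
equality for divisors of the order; e.g. `∑_{d ∣ g} φ(d) = g` with `IsCyclic.card_orderOf_eq_totient`). Compare A3.lean. -/
theorem card_roots_m {m r : ℕ} (hm : 1 ≤ m) (hr : r.Prime) (h : ¬ r ∣ m) :
    #((range r).filter (fun t => r ∣ ph m t)) = Nat.gcd m (r - 1) - 1 := by
  have : Fact r.Prime := ⟨hr⟩
  rw [← i1_card (m := m) (r := r)]
  symm
  refine Finset.card_bij (fun u _ => (u : ZMod r).val) ?_ ?_ ?_
  · intro u hu
    rw [Finset.mem_filter] at hu
    rw [Finset.mem_filter, Finset.mem_range]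
    refine ⟨ZMod.val_lt _, ?_⟩
    rw [← ZMod.natCast_eq_zero_iff, a3_cast, ZMod.natCast_zmod_val]
    exact (i1_root h u).1 hu.2
  · intro u _ v _ huv
    exact Units.ext (ZMod.val_injective r huv)
  · intro t ht
    rw [Finset.mem_filter, Finset.mem_range, ← ZMod.natCast_eq_zero_iff, a3_cast] at ht
    have ht0 : ((t : ℕ) : ZMod r) ≠ 0 := by
      intro h0
      have h2 := ht.2
      rw [h0, Finset.sum_eq_single 0] at h2
      · simp at h2
      · intro i _ hi
        exact zero_pow hi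
      · intro h3
        exact absurd (Finset.mem_range.2 (by omega)) h3
    refine ⟨Units.mk0 _ ht0, ?_, ?_⟩
    · rw [Finset.mem_filter]
      refine ⟨Finset.mem_univ _, ?_⟩
      rw [i1_root h]
      exact ht.2
    · rw [Units.val_mk0]
      exact ZMod.val_cast_of_lt ht.1

end Pool.Agent.TE
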