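import Pool.Agent.Lib.MP_f02ea4_nt.TE.A1
import Pool.Agent.Lib.MP_f02ea4_nt.TE.B2
import Pool.Agent.Lib.MP_f02ea4_nt.TE.I1

/-!
# I2: the number of primes `p ≤ X` of `N` with `m ∣ e_p + 1`, `m` odd
-/

set_option autoImplicit false

namespace Pool.Agent.TE

open Finset Nat Pool.Agent.Lib.MP_bae66e_nt.AP3

/-- the sieved classes: `0`, and the roots of `ph m` if `r` divides neither `N` nor `m` -/
def Rm (N m r : ℕ) : Finset ℕ :=
  if r ∣ N ∨ r ∣ m then {0} else insert 0 ((range r).filter (fun t => r ∣ ph m t))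

/-- the primes `r ≤ z` that divide neither `N` nor `m` -/
def Sm (N m z : ℕ) : Finset ℕ := (prI 0 z).filter (fun r => ¬ (r ∣ N ∨ r ∣ m))

/-- I2a. `card_roots_m`, `ph_zero` (so `0` is not a root, as `r ∤ 1`), `gcd ≥ 1`. -/
lemma card_Rm {N m r : ℕ} (hm : 1 ≤ m) (hr : r.Prime) :
    #(Rm N m r) = if r ∣ N ∨ r ∣ m then 1 else Nat.gcd m (r - 1) := by
  unfold Rm
  split_ifs with h
  · exact Finset.card_singleton 0
  · rw [not_or] at h
    rw [Finset.card_insert_of_notMem, card_roots_m hm hr h.2]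
    · have := Nat.gcd_pos_of_pos_left (r - 1) hm
      omega
    · rw [Finset.mem_filter, ph_zero m hm]
      rintro ⟨_, h2⟩
      exact hr.one_lt.ne' (Nat.dvd_one.1 h2)

/-- I2b. `gcd (m, r-1) ≤ r - 1 < r`. -/
lemma Rm_dat {N m z : ℕ} (hm : 1 ≤ m) : Dat (prI 0 z) (Rm N m) where
  prime := fun p hp => (mem_prI.1 hp).2
  sub := by
    intro p hp
    have hpp := (mem_prI.1 hp).2
    unfold Rm
    split_ifs with h
    · intro t ht
      rw [Finset.mem_singleton.1 ht]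
      exact Finset.mem_range.2 hpp.pos
    · intro t ht
      rcases Finset.mem_insert.1 ht with rfl | ht
      · exact Finset.mem_range.2 hpp.pos
      · exact (Finset.mem_filter.1 ht).1
  pos := by
    intro p hp
    rw [card_Rm hm (mem_prI.1 hp).2]
    split_ifs with h
    · exact le_rfl
    · exact Nat.gcd_pos_of_pos_left (p - 1) hm
  lt := by
    intro p hp
    have hpp := (mem_prI.1 hp).2
    have h1 := hpp.one_lt
    rw [card_Rm hm hpp]
    split_ifs with h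
    · exact h1
    · have := Nat.le_of_dvd (by omega) (Nat.gcd_dvd_right m (p - 1))
      omega

/-- I2c. As `card_Cl_le` in B3.lean (`dvd_of_ph` needs only that `m` is odd). -/
lemma card_Cl_le_m {N : ℕ} (hodd : Odd N) (hN : N.Perfect) {m : ℕ} (hm : Odd m) (z X : ℕ) :
    #(Cl N m X) ≤ z + #{t ∈ Ioc 0 X | ∀ r ∈ prI 0 z, t % r ∉ Rm N m r} := by
  classical
  have hsub : Cl N m X ⊆ Ioc 0 z ∪ {t ∈ Ioc 0 X | ∀ r ∈ prI 0 z, t % r ∉ Rm N m r} := by
    intro p hp
    unfold Cl at hp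
    rw [Finset.mem_filter] at hp
    obtain ⟨hp1, hp2, hp3⟩ := hp
    have hpp := Nat.prime_of_mem_primeFactors hp1
    rw [Finset.mem_union, Finset.mem_Ioc, Finset.mem_filter, Finset.mem_Ioc]
    rcases Nat.lt_or_ge z p with hz | hz
    · right
      refine ⟨⟨hpp.pos, hp2⟩, ?_⟩
      intro r hr
      obtain ⟨⟨_, hrz⟩, hrp⟩ := mem_prI.1 hr
      have h0 : p % r ≠ 0 := by
        intro h
        have h1 := Nat.dvd_of_mod_eq_zero h
        rcases (Nat.dvd_prime hpp).1 h1 with h2 | h2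
        · exact hrp.one_lt.ne' h2
        · omega
      unfold Rm
      split_ifs with h
      · rw [Finset.mem_singleton]
        exact h0
      · rw [Finset.mem_insert, not_or]
        refine ⟨h0, ?_⟩
        rw [Finset.mem_filter]
        rintro ⟨_, h2⟩
        rw [← dvd_ph_mod] at h2
        exact h (Or.inl (dvd_of_ph hodd hN hp1 hm hp3 hrp h2))
    · left
      exact ⟨hpp.pos, hz⟩
  calc #(Cl N m X) ≤ _ := Finset.card_le_card hsub
    _ ≤ #(Ioc 0 z) + #{t ∈ Ioc 0 X | ∀ r ∈ prI 0 z, t % r ∉ Rm N m r} :=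
        Finset.card_union_le _ _
    _ = _ := by rw [Nat.card_Ioc, Nat.sub_zero]

/-- I2d. As `prod_le` in B3.lean: with `ν = #Rm`, `1 - ν/r ≤ (1 - 1/r) (1 - (ν-1)/r)`, `1 - (ν-1)/r ≤ exp (-(ν-1)/r)`,
`∏ (1 - 1/r) = KT z ≤ 1/log (z+1)`. -/
lemma prod_le_m {N m z : ℕ} (hm : 1 ≤ m) (hz : 1 ≤ z) :
    ∏ r ∈ prI 0 z, (1 - (#(Rm N m r) : ℝ) / r)
      ≤ 1 / Real.log (z + 1) *
        Real.exp (-∑ r ∈ Sm N m z, ((Nat.gcd m (r - 1) : ℝ) - 1) / (r : ℝ)) := by
  classical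
  have hsub : Sm N m z ⊆ prI 0 z := Finset.filter_subset _ _
  have h1 : ∏ r ∈ prI 0 z, (1 - (#(Rm N m r) : ℝ) / r) ≤
      ∏ r ∈ prI 0 z, ((1 - 1 / (r : ℝ)) *
        (if r ∈ Sm N m z then Real.exp (-(((Nat.gcd m (r - 1) : ℝ) - 1) / (r : ℝ))) else 1)) := by
    refine Finset.prod_le_prod ?_ ?_
    · intro r hr
      have h2 := (Rm_dat (N := N) (z := z) hm).lt r hr
      have h3 : (0 : ℝ) < r := by exact_mod_cast (mem_prI.1 hr).2.pos
      rw [sub_nonneg, div_le_one h3]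
      exact_mod_cast h2.le
    · intro r hr
      have hrp := (mem_prI.1 hr).2
      have h3 : (0 : ℝ) < r := by exact_mod_cast hrp.pos
      rw [card_Rm hm hrp]
      by_cases h : r ∣ N ∨ r ∣ m
      · have h' : r ∉ Sm N m z := fun hh => (Finset.mem_filter.1 hh).2 h
        rw [if_pos h, if_neg h', mul_one, Nat.cast_one]
      · have h' : r ∈ Sm N m z := Finset.mem_filter.2 ⟨hr, h⟩
        rw [if_neg h, if_pos h']
        have h4 : (0 : ℝ) < 1 - 1 / (r : ℝ) := one_sub_inv_pos hrp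
        set ν : ℝ := (Nat.gcd m (r - 1) : ℝ) with hν
        have h7 : (1 : ℝ) ≤ ν := by
          rw [hν]
          exact_mod_cast Nat.gcd_pos_of_pos_left (r - 1) hm
        have h5 : 1 - (ν - 1) / (r : ℝ) ≤ Real.exp (-((ν - 1) / (r : ℝ))) := by
          have := Real.add_one_le_exp (-((ν - 1) / (r : ℝ)))
          linarith
        have h6 : 1 - ν / r ≤ (1 - 1 / (r : ℝ)) * (1 - (ν - 1) / (r : ℝ)) := by
          have e1 : (1 - 1 / (r : ℝ)) * (1 - (ν - 1) / (r : ℝ)) =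
              1 - ν / r + (ν - 1) * (1 / (r : ℝ)) ^ 2 := by
            field_simp
            ring
          rw [e1]
          have : 0 ≤ (ν - 1) * (1 / (r : ℝ)) ^ 2 := mul_nonneg (by linarith) (by positivity)
          linarith
        exact h6.trans (mul_le_mul_of_nonneg_left h5 h4.le)
  refine h1.trans ?_
  rw [Finset.prod_mul_distrib, Finset.prod_ite_mem, Finset.inter_eq_right.2 hsub,
    ← Real.exp_sum, Finset.sum_neg_distrib]
  exact mul_le_mul_of_nonneg_right (KT_le z hz) (Real.exp_pos _).le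

/-- I2e. `class_sieve` with `S = prI 0 z` and `Rm N m`, `#Rm ≤ m`. -/
theorem count_m {N : ℕ} (hodd : Odd N) (hN : N.Perfect) {m : ℕ} (hm : Odd m)
    (z X R : ℕ) (hz : 1 ≤ z) (hR : 1 ≤ R)
    (hlog : 2 * ((m : ℝ) * ∑ r ∈ prI 0 z, Real.log r / r) ≤ Real.log R) :
    (#(Cl N m X) : ℝ) ≤ z + (2 * X / Real.log (z + 1) *
      Real.exp (-∑ r ∈ Sm N m z, ((Nat.gcd m (r - 1) : ℝ) - 1) / (r : ℝ)) + (R : ℝ) ^ 4) := by
  have hm1 : 1 ≤ m := hm.pos
  have hsum : ∑ r ∈ prI 0 z, (#(Rm N m r) : ℝ) * Real.log r / r ≤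
      (m : ℝ) * ∑ r ∈ prI 0 z, Real.log r / r := by
    rw [Finset.mul_sum]
    refine Finset.sum_le_sum fun r hr => ?_
    have hrp := (mem_prI.1 hr).2
    have h3 : (1 : ℝ) ≤ r := by exact_mod_cast hrp.pos
    rw [mul_div_assoc]
    refine mul_le_mul_of_nonneg_right ?_ (div_nonneg (Real.log_nonneg h3) (by linarith))
    have h4 : #(Rm N m r) ≤ m := by
      rw [card_Rm hm1 hrp]
      split_ifs with h
      · exact hm1
      · exact Nat.gcd_le_left _ hm1
    exact_mod_cast h4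
  have h1 := class_sieve (prI 0 z) (Rm N m) (Rm_dat hm1) X R hR (by linarith)
  have h2 : (#(Cl N m X) : ℝ) ≤ z + #{t ∈ Ioc 0 X | ∀ r ∈ prI 0 z, t % r ∉ Rm N m r} := by
    exact_mod_cast card_Cl_le_m hodd hN hm z X
  have h3 := mul_le_mul_of_nonneg_left (prod_le_m (N := N) (z := z) hm1 hz)
    (show (0 : ℝ) ≤ 2 * X by positivity)
  have e3 : 2 * (X : ℝ) * (1 / Real.log (z + 1) *
      Real.exp (-∑ r ∈ Sm N m z, ((Nat.gcd m (r - 1) : ℝ) - 1) / (r : ℝ))) =
      2 * X / Real.log (z + 1) *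
      Real.exp (-∑ r ∈ Sm N m z, ((Nat.gcd m (r - 1) : ℝ) - 1) / (r : ℝ)) := by ring
  rw [e3] at h3
  linarith

end Pool.Agent.TE
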