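import Pool.Agent.Lib.MP_f02ea4_nt.TE.Defs
import Pool.Agent.Lib.MP_bae66e_nt.AP3.PrimeAP

/-!
# I3: reciprocal sums of primes `≡ 1 mod d`, `d` arbitrary, and of `gcd (m, r - 1)`
-/

set_option autoImplicit false

namespace Pool.Agent.TE

open Finset Nat Pool.Agent.Lib.MP_bae66e_nt.AP3

private lemma i3_cum {l : ℕ} (hl : 1 ≤ l) : ∃ E : ℝ, 0 ≤ E ∧ ∀ z : ℕ, 2 ≤ z →
    ∀ t ∈ Set.Icc (Real.log 2) (Real.log z),
      1 / (φ l : ℝ) * t - E
        ≤ cum (Pl l z) (fun p => Real.log p) (fun p => Real.log p / p) t := by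
  have : NeZero l := ⟨by omega⟩
  obtain ⟨C, hC0, hC⟩ := exists_mertens_ap l
  have hl1 : (0 : ℝ) < (φ l : ℝ) := by
    exact_mod_cast Nat.totient_pos.2 (by omega)
  refine ⟨1 / (φ l : ℝ) + C, by positivity, ?_⟩
  intro z hz t ht
  set n := ⌊Real.exp t⌋₊ with hn
  have hz0 : (0 : ℝ) < z := by positivity
  have h2t : (2 : ℝ) ≤ Real.exp t := by
    rw [← Real.log_le_iff_le_exp (by norm_num)]; exact ht.1
  have htz : Real.exp t ≤ z := by
    rw [← Real.le_log_iff_exp_le hz0]; exact ht.2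
  have h2n : 2 ≤ n := Nat.le_floor (by exact_mod_cast h2t)
  have hnz : n ≤ z := by
    have : (n : ℝ) ≤ z := (Nat.floor_le (Real.exp_pos t).le).trans htz
    exact_mod_cast this
  have hcum : cum (Pl l z) (fun p => Real.log p) (fun p => Real.log p / p) t
      = ∑ p ∈ (prI 1 n).filter (fun p => p ≡ 1 [MOD l]), Real.log p / p := by
    unfold cum
    apply sum_congr _ fun _ _ => rfl
    ext p
    simp only [Pl, mem_filter, mem_prI]
    constructor
    · rintro ⟨⟨⟨⟨h1, h2⟩, h3⟩, h5⟩, h4⟩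
      refine ⟨⟨⟨h3.one_lt, ?_⟩, h3⟩, h5⟩
      apply Nat.le_floor
      rwa [← Real.log_le_iff_le_exp (by exact_mod_cast h3.pos)]
    · rintro ⟨⟨⟨h1, h2⟩, h3⟩, h5⟩
      refine ⟨⟨⟨⟨h3.pos, h2.trans hnz⟩, h3⟩, h5⟩, ?_⟩
      rw [Real.log_le_iff_le_exp (by exact_mod_cast h3.pos)]
      exact (by exact_mod_cast h2 : (p : ℝ) ≤ n).trans (Nat.floor_le (Real.exp_pos t).le)
  rw [hcum]
  have h1 := hC 1 (Nat.coprime_one_left l) 1 n le_rfl (by omega)
  have hn0 : (0 : ℝ) < n := by positivity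
  have h3 : t - 1 ≤ Real.log n := by
    have h4 : Real.exp t ≤ n + 1 := (Nat.lt_floor_add_one _).le
    have h5 : Real.exp t ≤ 2 * n := by
      have : (1 : ℝ) ≤ n := by exact_mod_cast (by omega : 1 ≤ n)
      linarith
    have h6 : t ≤ Real.log (2 * n) := (Real.le_log_iff_exp_le (by positivity)).mpr h5
    rw [Real.log_mul (by norm_num) hn0.ne'] at h6
    have h7 := Real.log_two_lt_d9
    linarith
  have h4 : (t - 1) / (φ l : ℝ) ≤ Real.log n / (φ l : ℝ) :=
    div_le_div_of_nonneg_right h3 hl1.le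
  have h5 : (t - 1) / (φ l : ℝ) = 1 / (φ l : ℝ) * t - 1 / (φ l : ℝ) := by ring
  have h6 : (Real.log n - Real.log ((1 : ℕ) : ℝ)) / (φ l : ℝ) = Real.log n / (φ l : ℝ) := by
    simp
  rw [h6] at h1
  linarith

/-- I3a. The proof of `sum_inv_ap` in C1.lean works for every modulus `d ≥ 1` (`φ(d)` in place of `l - 1`); copy it. -/
theorem sum_inv_mod (d : ℕ) (hd : 1 ≤ d) : ∃ C : ℝ, 0 ≤ C ∧ ∀ z : ℕ, 2 ≤ z →
    Real.log (Real.log z) - C ≤ (Nat.totient d : ℝ) * ∑ r ∈ Pl d z, 1 / (r : ℝ) := by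
  obtain ⟨l, rfl⟩ : ∃ l, l = d := ⟨d, rfl⟩
  have hl := hd
  obtain ⟨E, hE0, hE⟩ := i3_cum hl
  have hl1 : (0 : ℝ) < (φ l : ℝ) := by
    exact_mod_cast Nat.totient_pos.2 (by omega)
  have hl2 := Real.log_pos (by norm_num : (1 : ℝ) < 2)
  refine ⟨(φ l : ℝ) * (E / Real.log 2), by positivity, ?_⟩
  intro z hz
  have hab : Real.log 2 ≤ Real.log z := Real.log_le_log (by norm_num) (by exact_mod_cast hz)
  have hb : 0 < Real.log z := by linarith
  have hcont : ContinuousOn (fun t : ℝ => (t ^ 2)⁻¹) (Set.Icc (Real.log 2) (Real.log z)) := by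
    apply ContinuousOn.inv₀ (by fun_prop)
    intro t ht
    have h0 : 0 < t := lt_of_lt_of_le hl2 ht.1
    exact (pow_pos h0 2).ne'
  obtain ⟨hint, h⟩ := abel_eq (Pl l z) (fun p => Real.log p) (fun p => Real.log p / p)
    (Real.log 2) (Real.log z) hab
    (fun p hp => by
      have h1 := mem_prI.mp (mem_filter.mp hp).1
      have hp0 : (0 : ℝ) < p := by exact_mod_cast h1.2.pos
      exact ⟨Real.log_le_log (by norm_num) (by exact_mod_cast h1.2.two_le),
        Real.log_le_log hp0 (by exact_mod_cast h1.1.2)⟩)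
    (fun t => t⁻¹) (fun t => -(t ^ 2)⁻¹)
    (fun t ht => hasDerivAt_inv (by have := ht.1; linarith))
    hcont.neg
  have e1 : ∑ i ∈ Pl l z, Real.log i / i * (Real.log i)⁻¹ = ∑ p ∈ Pl l z, 1 / (p : ℝ) := by
    apply sum_congr rfl
    intro p hp
    have := (mem_prI.mp (mem_filter.mp hp).1).2
    have h1 : Real.log p ≠ 0 := (Real.log_pos (by exact_mod_cast this.one_lt)).ne'
    field_simp
  rw [e1] at h
  set K : ℝ := 1 / (φ l : ℝ) with hK
  -- the comparison of integrals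
  have hint2 : IntervalIntegrable (fun t : ℝ => -(t ^ 2)⁻¹ * (K * t - E)) MeasureTheory.volume
      (Real.log 2) (Real.log z) := by
    apply ContinuousOn.intervalIntegrable
    rw [Set.uIcc_of_le hab]
    exact hcont.neg.mul (by fun_prop)
  have h2 : ∫ t in (Real.log 2)..(Real.log z), -(t ^ 2)⁻¹ *
        cum (Pl l z) (fun p => Real.log p) (fun p => Real.log p / p) t
      ≤ ∫ t in (Real.log 2)..(Real.log z), -(t ^ 2)⁻¹ * (K * t - E) := by
    apply intervalIntegral.integral_mono_on hab hint hint2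
    intro t ht
    have h0 : 0 < t := lt_of_lt_of_le hl2 ht.1
    have h3 := hE z hz t ht
    have h4 : 0 < (t ^ 2)⁻¹ := by positivity
    nlinarith
  have h3 : ∫ t in (Real.log 2)..(Real.log z), -(t ^ 2)⁻¹ * (K * t - E)
      = (-(K * Real.log (Real.log z)) - E / Real.log z)
        - (-(K * Real.log (Real.log 2)) - E / Real.log 2) := by
    apply intervalIntegral.integral_eq_sub_of_hasDerivAt (f := fun t : ℝ => -(K * Real.log t) - E / t)
    · intro t ht
      rw [Set.uIcc_of_le hab] at ht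
      have h0 : t ≠ 0 := by have := ht.1; intro h; rw [h] at this; linarith
      have h5 := ((Real.hasDerivAt_log h0).const_mul K).neg.sub ((hasDerivAt_inv h0).const_mul E)
      have h6 : (fun t : ℝ => -(K * Real.log t) - E / t)
          = fun t : ℝ => -(K * Real.log t) - E * t⁻¹ := by
        funext t; rw [div_eq_mul_inv]
      rw [h6]
      refine h5.congr_deriv ?_
      field_simp
      ring
    · exact hint2
  have h4 := hE z hz (Real.log z) ⟨hab, le_rfl⟩
  have h5 : (K * Real.log z - E) * (Real.log z)⁻¹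
      ≤ cum (Pl l z) (fun p => Real.log p) (fun p => Real.log p / p) (Real.log z)
        * (Real.log z)⁻¹ := mul_le_mul_of_nonneg_right h4 (by positivity)
  have h6 : (K * Real.log z - E) * (Real.log z)⁻¹ = K - E / Real.log z := by
    field_simp
  have h7 : K + K * Real.log (Real.log z) - K * Real.log (Real.log 2) - E / Real.log 2
      ≤ ∑ p ∈ Pl l z, 1 / (p : ℝ) := by
    rw [h]
    linarith
  have h8 : Real.log (Real.log 2) ≤ 0 := by
    apply Real.log_nonpos hl2.le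
    have := Real.log_two_lt_d9
    linarith
  have h9 : (φ l : ℝ) * (K + K * Real.log (Real.log z) - K * Real.log (Real.log 2)
      - E / Real.log 2) ≤ (φ l : ℝ) * ∑ p ∈ Pl l z, 1 / (p : ℝ) :=
    mul_le_mul_of_nonneg_left h7 hl1.le
  have h10 : (φ l : ℝ) * (K + K * Real.log (Real.log z) - K * Real.log (Real.log 2)
      - E / Real.log 2) = 1 + Real.log (Real.log z) - Real.log (Real.log 2)
        - (φ l : ℝ) * (E / Real.log 2) := by
    rw [hK]
    field_simp
  linarith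

/-- I3b. `gcd (m, r-1) = ∑_{d ∣ gcd (m, r-1)} φ(d) = ∑_{d ∣ m, r ≡ 1 mod d} φ(d)` (`Nat.sum_totient`), so
`∑_{r ≤ z} gcd (m, r-1)/r = ∑_{d ∣ m} φ(d) ∑_{r ≤ z, r ≡ 1 mod d} 1/r ≥ τ(m) log log z - C` by (a), and
`∑_{r ≤ z} 1/r ≤ log log z + C` (`exists_sum_inv_le` with `y = 2`: `∑_{r ∈ prI 2 z} 1/r ≤ log (log z/log 2) + C/log 2`;
`prI 0 z ⊆ {2} ∪ prI 2 z`). -/
theorem gcd_sum (m : ℕ) (hm : 1 ≤ m) : ∃ C : ℝ, 0 ≤ C ∧ ∀ z : ℕ, 2 ≤ z →
    ((#m.divisors : ℝ) - 1) * Real.log (Real.log z) - C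
      ≤ ∑ r ∈ prI 0 z, ((Nat.gcd m (r - 1) : ℝ) - 1) / (r : ℝ) := by
  have hex : ∀ d : ℕ, ∃ C : ℝ, 0 ≤ C ∧ (1 ≤ d → ∀ z : ℕ, 2 ≤ z →
      Real.log (Real.log z) - C ≤ (Nat.totient d : ℝ) * ∑ r ∈ Pl d z, 1 / (r : ℝ)) := by
    intro d
    rcases Nat.lt_or_ge d 1 with h | h
    · exact ⟨0, le_rfl, fun h' => absurd h' (by omega)⟩
    · obtain ⟨C, hC0, hC⟩ := sum_inv_mod d h
      exact ⟨C, hC0, fun _ => hC⟩
  choose Cd hCd0 hCd using hex
  obtain ⟨C, hC0, hC⟩ := exists_sum_inv_le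
  have hl2 := Real.log_pos (by norm_num : (1 : ℝ) < 2)
  have hll2 : Real.log (Real.log 2) ≤ 0 := by
    apply Real.log_nonpos hl2.le
    have := Real.log_two_lt_d9
    linarith
  refine ⟨∑ d ∈ m.divisors, Cd d + (1 / 2 - Real.log (Real.log 2) + C / Real.log 2), ?_, ?_⟩
  · have h1 : 0 ≤ ∑ d ∈ m.divisors, Cd d := sum_nonneg fun d _ => hCd0 d
    have h2 : 0 ≤ C / Real.log 2 := by positivity
    linarith
  · intro z hz
    have hlz : Real.log 2 ≤ Real.log z := Real.log_le_log (by norm_num) (by exact_mod_cast hz)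
    -- the upper bound
    have hup : ∑ r ∈ prI 0 z, 1 / (r : ℝ)
        ≤ Real.log (Real.log z) + (1 / 2 - Real.log (Real.log 2) + C / Real.log 2) := by
      have e1 : prI 0 z = insert 2 (prI 2 z) := by
        ext p
        rw [mem_insert, mem_prI, mem_prI]
        constructor
        · rintro ⟨⟨h1, h2⟩, h3⟩
          have := h3.two_le
          by_cases h4 : p = 2
          · exact Or.inl h4
          · exact Or.inr ⟨⟨by omega, h2⟩, h3⟩
        · rintro (h1 | ⟨⟨h1, h2⟩, h3⟩)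
          · subst h1
            exact ⟨⟨by norm_num, hz⟩, Nat.prime_two⟩
          · exact ⟨⟨by omega, h2⟩, h3⟩
      rw [e1, sum_insert (by rw [mem_prI]; omega)]
      have h1 := (abs_le.1 (hC 2 z le_rfl hz)).2
      have h2 : Real.log (Real.log z / Real.log ((2 : ℕ) : ℝ)) =
          Real.log (Real.log z) - Real.log (Real.log 2) := by
        rw [Nat.cast_ofNat, Real.log_div (by linarith) (by linarith)]
      rw [h2] at h1
      rw [Nat.cast_ofNat] at h1 ⊢
      linarith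
    -- the lower bound
    have hlow : (#m.divisors : ℝ) * Real.log (Real.log z) - ∑ d ∈ m.divisors, Cd d
        ≤ ∑ r ∈ prI 0 z, (Nat.gcd m (r - 1) : ℝ) / (r : ℝ) := by
      have e1 : ∀ r ∈ prI 0 z, (Nat.gcd m (r - 1) : ℝ) / (r : ℝ) =
          ∑ d ∈ m.divisors, if r ≡ 1 [MOD d] then (Nat.totient d : ℝ) * (1 / (r : ℝ)) else 0 := by
        intro r hr
        have hr1 := (mem_prI.1 hr).2.one_lt.le
        have h1 : Nat.gcd m (r - 1) = ∑ d ∈ m.divisors.filter (fun d => r ≡ 1 [MOD d]),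
            Nat.totient d := by
          have h2 := Nat.sum_totient (Nat.gcd m (r - 1))
          rw [← h2]
          apply sum_congr _ fun _ _ => rfl
          ext d
          rw [mem_filter, Nat.mem_divisors, Nat.mem_divisors, Nat.dvd_gcd_iff]
          have h3 : r ≡ 1 [MOD d] ↔ d ∣ r - 1 := by
            rw [Nat.ModEq.comm, Nat.modEq_iff_dvd' hr1]
          rw [h3]
          constructor
          · rintro ⟨⟨h4, h5⟩, _⟩
            exact ⟨⟨h4, by omega⟩, h5⟩
          · rintro ⟨⟨h4, _⟩, h5⟩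
            exact ⟨⟨h4, h5⟩, (Nat.gcd_pos_of_pos_left _ (by omega)).ne'⟩
        rw [h1, Nat.cast_sum, sum_div, sum_filter]
        apply sum_congr rfl
        intro d _
        by_cases h4 : r ≡ 1 [MOD d]
        · rw [if_pos h4, if_pos h4]
          ring
        · rw [if_neg h4, if_neg h4]
      rw [sum_congr rfl e1, sum_comm]
      have e2 : ∀ d ∈ m.divisors, Real.log (Real.log z) - Cd d ≤ ∑ r ∈ prI 0 z,
          if r ≡ 1 [MOD d] then (Nat.totient d : ℝ) * (1 / (r : ℝ)) else 0 := by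
        intro d hd
        have hd1 : 1 ≤ d := Nat.pos_of_mem_divisors hd
        have h1 := hCd d hd1 z hz
        rw [← sum_filter, ← mul_sum]
        exact h1
      have e3 := sum_le_sum e2
      rw [sum_sub_distrib, sum_const, nsmul_eq_mul] at e3
      exact e3
    have e4 : ∑ r ∈ prI 0 z, ((Nat.gcd m (r - 1) : ℝ) - 1) / (r : ℝ) =
        ∑ r ∈ prI 0 z, (Nat.gcd m (r - 1) : ℝ) / (r : ℝ) - ∑ r ∈ prI 0 z, 1 / (r : ℝ) := by
      rw [← sum_sub_distrib]
      apply sum_congr rfl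
      intro r _
      ring
    rw [e4]
    linarith

end Pool.Agent.TE
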