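import Pool.Agent.Lib.MP_f02ea4_nt.TE.A2
import Pool.Agent.Lib.MP_f02ea4_nt.TE.I2
import Pool.Agent.Lib.MP_f02ea4_nt.TE.I3

/-!
# I4: primes with `m ∣ e_p + 1` are thin
-/

set_option autoImplicit false

namespace Pool.Agent.TE

open Finset Nat Pool.Agent.Lib.MP_bae66e_nt.AP3

private lemma i4_card_le (N l x : ℕ) : #(Cl N l x) ≤ x := by
  calc #(Cl N l x) ≤ #(Ioc 0 x) := card_le_card (by
        intro p hp
        have h := mem_filter.mp hp
        exact mem_Ioc.mpr ⟨(Nat.prime_of_mem_primeFactors h.1).pos, h.2.1⟩)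
    _ = x := by rw [Nat.card_Ioc]; omega

private lemma i4_pow (k : ℕ) (u : ℝ) (hu : 0 ≤ u) :
    u ^ k ≤ (2 ^ k * (k.factorial : ℝ)) * Real.exp (u / 2) := by
  have h := Real.pow_div_factorial_le_exp (x := u / 2) (by positivity) k
  rw [div_le_iff₀ (by positivity), div_pow, div_le_iff₀ (by positivity)] at h
  calc u ^ k ≤ Real.exp (u / 2) * (k.factorial : ℝ) * 2 ^ k := h
    _ = _ := by ring

private lemma i4_hyp {m : ℕ} {C₁ : ℝ}
    (hC : ∀ y z : ℕ, 1 ≤ y → y ≤ z →
      |∑ p ∈ prI y z, Real.log p / p - (Real.log z - Real.log y)| ≤ C₁) (z : ℕ) (hz : 1 ≤ z) :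
    2 * ((m : ℝ) * ∑ r ∈ prI 0 z, Real.log r / r) ≤ 2 * m * (Real.log z + C₁) := by
  have h0 : prI 0 z = prI 1 z := by
    ext p
    rw [mem_prI, mem_prI]
    constructor
    · rintro ⟨⟨_, h1⟩, h2⟩; exact ⟨⟨h2.one_lt, h1⟩, h2⟩
    · rintro ⟨⟨_, h1⟩, h2⟩; exact ⟨⟨h2.pos, h1⟩, h2⟩
  have h1 : ∑ r ∈ prI 0 z, Real.log r / r ≤ Real.log z + C₁ := by
    rw [h0]
    have := (abs_le.mp (hC 1 z le_rfl hz)).2
    simp at this
    linarith
  have h2 : (0 : ℝ) ≤ m := Nat.cast_nonneg m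
  nlinarith

private lemma i4_sum_Sm {N : ℕ} (hN : N.Perfect) {m : ℕ} (hm : 1 ≤ m) (z : ℕ) :
    ∑ r ∈ prI 0 z, ((Nat.gcd m (r - 1) : ℝ) - 1) / (r : ℝ) - m * (m + 1)
      ≤ ∑ r ∈ Sm N m z, ((Nat.gcd m (r - 1) : ℝ) - 1) / (r : ℝ) := by
  classical
  have hg : ∀ r : ℕ, ((Nat.gcd m (r - 1) : ℝ) - 1) / (r : ℝ) ≤ m * (1 / (r : ℝ)) := by
    intro r
    rw [mul_one_div]
    apply div_le_div_of_nonneg_right _ (Nat.cast_nonneg r)
    have h1 : (Nat.gcd m (r - 1) : ℝ) ≤ m := by
      exact_mod_cast Nat.le_of_dvd hm (Nat.gcd_dvd_left m (r - 1))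
    linarith
  have h2 : ∑ r ∈ prI 0 z, ((Nat.gcd m (r - 1) : ℝ) - 1) / (r : ℝ) =
      ∑ r ∈ (prI 0 z).filter (fun r => r ∣ N ∨ r ∣ m), ((Nat.gcd m (r - 1) : ℝ) - 1) / (r : ℝ)
      + ∑ r ∈ Sm N m z, ((Nat.gcd m (r - 1) : ℝ) - 1) / (r : ℝ) := by
    unfold Sm
    rw [sum_filter_add_sum_filter_not]
  have h3 : ∑ r ∈ (prI 0 z).filter (fun r => r ∣ N ∨ r ∣ m),
      ((Nat.gcd m (r - 1) : ℝ) - 1) / (r : ℝ) ≤ m * (m + 1) := by
    calc ∑ r ∈ (prI 0 z).filter (fun r => r ∣ N ∨ r ∣ m),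
          ((Nat.gcd m (r - 1) : ℝ) - 1) / (r : ℝ)
        ≤ ∑ r ∈ (prI 0 z).filter (fun r => r ∣ N ∨ r ∣ m), (m : ℝ) * (1 / (r : ℝ)) :=
          sum_le_sum fun r _ => hg r
      _ ≤ ∑ r ∈ N.primeFactors ∪ m.primeFactors, (m : ℝ) * (1 / (r : ℝ)) := by
          apply sum_le_sum_of_subset_of_nonneg
          · intro r hr
            have h2 := mem_filter.mp hr
            have h3 := (mem_prI.mp h2.1).2
            rcases h2.2 with h4 | h4
            · exact mem_union_left _ (Nat.mem_primeFactors.mpr ⟨h3, h4, hN.2.ne'⟩)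
            · exact mem_union_right _ (Nat.mem_primeFactors.mpr ⟨h3, h4, by omega⟩)
          · intro r _ _; positivity
      _ ≤ ∑ r ∈ N.primeFactors, (m : ℝ) * (1 / (r : ℝ)) +
          ∑ r ∈ m.primeFactors, (m : ℝ) * (1 / (r : ℝ)) := by
          have h5 := sum_union_inter (s₁ := N.primeFactors) (s₂ := m.primeFactors)
            (f := fun r : ℕ => (m : ℝ) * (1 / (r : ℝ)))
          have h6 : (0 : ℝ) ≤ ∑ r ∈ N.primeFactors ∩ m.primeFactors, (m : ℝ) * (1 / (r : ℝ)) :=
            sum_nonneg fun r _ => by positivity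
          linarith
      _ ≤ m * 1 + m * m := by
          apply _root_.add_le_add
          · rw [← mul_sum]
            exact mul_le_mul_of_nonneg_left (sum_inv_le_one hN) (Nat.cast_nonneg m)
          · rw [← mul_sum]
            apply mul_le_mul_of_nonneg_left _ (Nat.cast_nonneg m)
            calc ∑ r ∈ m.primeFactors, 1 / (r : ℝ) ≤ ∑ r ∈ m.primeFactors, (1 : ℝ) := by
                  apply sum_le_sum
                  intro r hr
                  have h7 : (1 : ℝ) ≤ r := by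
                    exact_mod_cast (Nat.prime_of_mem_primeFactors hr).pos
                  rw [div_le_one (by linarith)]
                  exact h7
              _ = (#m.primeFactors : ℝ) := by simp
              _ ≤ m := by
                  have h8 : #m.primeFactors ≤ #(Ioc 0 m) := card_le_card (by
                    intro p hp
                    exact mem_Ioc.mpr ⟨(Nat.prime_of_mem_primeFactors hp).pos,
                      Nat.le_of_dvd hm (Nat.dvd_of_mem_primeFactors hp)⟩)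
                  rw [Nat.card_Ioc] at h8
                  exact_mod_cast h8
      _ = m * (m + 1) := by ring
  linarith

/-- I4a. (Compare `class_thin` in C2.lean.) Parameters, `m` fixed, `τ = #m.divisors`. `C₁` the constant of `exists_mertens`
(`prI 0 z = prI 1 z`), `C₂` that of `gcd_sum`. For `x` large (depending on `m`): `z = ⌊x ^ (1/(64 m))⌋`, `R = ⌊x ^ (1/8)⌋`;
`2 m (log z + C₁) ≤ (1/32) log x + 2 m C₁ ≤ (1/8) log x - log 2 ≤ log R`. The sum over `Sm` is the sum over `prI 0 z` minus the sum over the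
primes `r ≤ z` with `r ∣ N` or `r ∣ m`; there `(gcd (m, r-1) - 1)/r ≤ m/r`, so the difference is `≤ m (1 + m)` (`sum_inv_le_one`;
at most `m` primes divide `m`). So the bound of `count_m` is
`≤ x^(1/64) + (2 x/log z) e^(C₂ + m (m+1)) (log z)^(-(τ-1)) + x^(1/2) ≤ C x/(log x)^τ` (`exp (-(τ-1) log log z) = (log z)^(-(τ-1))`).
For the finitely many other `x ≥ 2` use `#(Cl N m x) ≤ x ≤ C x/(log x)^τ`. -/
theorem thin_m {m : ℕ} (hm : Odd m) : ∃ C : ℝ, 0 ≤ C ∧ ∀ N : ℕ, Odd N →
    N.Perfect → ∀ x : ℕ, 2 ≤ x → (#(Cl N m x) : ℝ) ≤ C * x / (Real.log x) ^ (#m.divisors) := by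
  obtain ⟨C₁, hC₁, hM⟩ := exists_mertens
  obtain ⟨C₂, hC₂, hS⟩ := gcd_sum m hm.pos
  have hm1n : 1 ≤ m := hm.pos
  have hm1 : (1 : ℝ) ≤ m := by exact_mod_cast hm1n
  have hm0 : (0 : ℝ) < m := by linarith
  obtain ⟨k, hk⟩ : ∃ k : ℕ, #m.divisors = k + 1 := by
    have h1 : 0 < #m.divisors := card_pos.mpr ⟨1, Nat.one_mem_divisors.mpr (by omega)⟩
    exact ⟨#m.divisors - 1, by omega⟩
  rw [hk]
  rw [hk] at hS
  set B : ℝ := 2 ^ (k + 1) * ((k + 1).factorial : ℝ) with hB
  have hB0 : 0 < B := by positivity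
  set U : ℝ := 128 * m + 32 * m * C₁ + 32 with hU
  have hU0 : 0 < U := by positivity
  set A : ℝ := 2 * B + 2 * (128 * m) ^ (k + 1) * Real.exp (C₂ + m * (m + 1)) with hA
  have hA0 : 0 < A := by positivity
  refine ⟨A + U ^ (k + 1), by positivity, ?_⟩
  intro N hodd hN x hx
  have hx0 : (0 : ℝ) < x := by positivity
  set u : ℝ := Real.log x with hu
  have hu0 : 0 < u := Real.log_pos (by exact_mod_cast hx)
  have hxe : (x : ℝ) = Real.exp u := (Real.exp_log hx0).symm
  rcases lt_or_ge u U with hlt | hge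
  · -- small `x`
    have h1 : (#(Cl N m x) : ℝ) ≤ x := by exact_mod_cast i4_card_le N m x
    refine h1.trans ?_
    rw [le_div_iff₀ (by positivity)]
    have h2 : u ^ (k + 1) ≤ U ^ (k + 1) := pow_le_pow_left₀ hu0.le hlt.le _
    nlinarith
  · -- large `x`
    have hlog2 := Real.log_two_lt_d9
    have hlog20 := Real.log_two_gt_d9
    have hUl : 128 * (m : ℝ) ≤ u := by
      have : 0 ≤ 32 * (m : ℝ) * C₁ := by positivity
      linarith
    set v : ℝ := u / (64 * m) with hv
    have hv2 : 2 ≤ v := by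
      rw [hv, le_div_iff₀ (by positivity)]; linarith
    have hvu : v ≤ u / 64 := by
      rw [hv, div_le_div_iff₀ (by positivity) (by norm_num)]
      nlinarith
    have hev : (4 : ℝ) ≤ Real.exp v := by
      have h1 : Real.exp 2 ≤ Real.exp v := Real.exp_le_exp.mpr hv2
      have h2 : (4 : ℝ) ≤ Real.exp 2 := by
        have h3 := Real.quadratic_le_exp_of_nonneg (x := 2) (by norm_num)
        linarith
      linarith
    set z : ℕ := ⌊Real.exp v⌋₊ with hz
    have hz2 : 2 ≤ z := Nat.le_floor (by push_cast; linarith)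
    have hzR : (2 : ℝ) ≤ z := by exact_mod_cast hz2
    have hzle : (z : ℝ) ≤ Real.exp v := Nat.floor_le (Real.exp_pos v).le
    have hzge : Real.exp v ≤ 2 * z := by
      have h4 : Real.exp v ≤ z + 1 := (Nat.lt_floor_add_one _).le
      linarith
    have hz0 : (0 : ℝ) < z := by linarith
    have hlogz : v / 2 ≤ Real.log z := by
      have h6 : v ≤ Real.log (2 * z) := (Real.le_log_iff_exp_le (by positivity)).mpr hzge
      rw [Real.log_mul (by norm_num) hz0.ne'] at h6
      linarith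
    have hlogz' : Real.log z ≤ v := by
      rw [Real.log_le_iff_le_exp hz0]; exact hzle
    set R : ℕ := ⌊Real.exp (u / 8)⌋₊ with hR
    have hu8 : 2 ≤ u / 8 := by linarith
    have heR : (4 : ℝ) ≤ Real.exp (u / 8) := by
      have h1 : Real.exp 2 ≤ Real.exp (u / 8) := Real.exp_le_exp.mpr hu8
      have h2 : (4 : ℝ) ≤ Real.exp 2 := by
        have h3 := Real.quadratic_le_exp_of_nonneg (x := 2) (by norm_num)
        linarith
      linarith
    have hR1 : 1 ≤ R := Nat.le_floor (by push_cast; linarith)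
    have hR0 : (1 : ℝ) ≤ R := by exact_mod_cast hR1
    have hRle : (R : ℝ) ≤ Real.exp (u / 8) := Nat.floor_le (Real.exp_pos _).le
    have hRge : Real.exp (u / 8) ≤ 2 * R := by
      have h4 : Real.exp (u / 8) ≤ R + 1 := (Nat.lt_floor_add_one _).le
      linarith
    have hlogR : u / 8 - 1 ≤ Real.log R := by
      have h6 : u / 8 ≤ Real.log (2 * R) := (Real.le_log_iff_exp_le (by positivity)).mpr hRge
      rw [Real.log_mul (by norm_num) (by positivity)] at h6
      linarith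
    have hhyp : 2 * ((m : ℝ) * ∑ r ∈ prI 0 z, Real.log r / r) ≤ Real.log R := by
      refine (i4_hyp hM z (by omega)).trans (le_trans ?_ hlogR)
      have h1 : 2 * (m : ℝ) * (Real.log z + C₁) ≤ 2 * m * (v + C₁) := by
        apply mul_le_mul_of_nonneg_left _ (by positivity)
        linarith
      have h2 : 2 * (m : ℝ) * v = u / 32 := by
        rw [hv]; field_simp; ring
      have h3 : 2 * (m : ℝ) * (v + C₁) = u / 32 + 2 * m * C₁ := by
        rw [mul_add, h2]
      have h4 : 32 * (m : ℝ) * C₁ + 32 ≤ u := by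
        have : 0 ≤ 128 * (m : ℝ) := by positivity
        linarith
      linarith
    have hmain := count_m hodd hN hm z x R (by omega) hR1 hhyp
    refine hmain.trans ?_
    -- the small terms
    have hz' : (z : ℝ) ≤ Real.exp (u / 2) := by
      refine hzle.trans (Real.exp_le_exp.mpr ?_)
      linarith
    have hR4 : (R : ℝ) ^ 4 ≤ Real.exp (u / 2) := by
      calc (R : ℝ) ^ 4 ≤ Real.exp (u / 8) ^ 4 := by gcongr
        _ = Real.exp (u / 2) := by rw [← Real.exp_nat_mul]; congr 1; push_cast; ring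
    have hsq := i4_pow (k + 1) u hu0.le
    have hhalf : Real.exp (u / 2) ≤ B * x / u ^ (k + 1) := by
      rw [le_div_iff₀ (by positivity), hxe]
      calc Real.exp (u / 2) * u ^ (k + 1) ≤ Real.exp (u / 2) * (B * Real.exp (u / 2)) :=
            mul_le_mul_of_nonneg_left hsq (Real.exp_pos _).le
        _ = B * (Real.exp (u / 2) * Real.exp (u / 2)) := by ring
        _ = B * Real.exp u := by rw [← Real.exp_add]; congr 2; ring
    -- the main term
    have hlz0 : 0 < Real.log z := by linarith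
    have hsum : (k : ℝ) * Real.log (Real.log z) - C₂ - m * (m + 1) ≤
        ∑ r ∈ Sm N m z, ((Nat.gcd m (r - 1) : ℝ) - 1) / (r : ℝ) := by
      have h1 := i4_sum_Sm hN hm1n z
      have h2 := hS z hz2
      push_cast at h2
      rw [add_sub_cancel_right] at h2
      linarith
    have hexp : Real.exp (-∑ r ∈ Sm N m z, ((Nat.gcd m (r - 1) : ℝ) - 1) / (r : ℝ))
        ≤ Real.exp (C₂ + m * (m + 1)) / Real.log z ^ k := by
      calc Real.exp (-∑ r ∈ Sm N m z, ((Nat.gcd m (r - 1) : ℝ) - 1) / (r : ℝ))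
          ≤ Real.exp ((C₂ + m * (m + 1)) - k * Real.log (Real.log z)) := by
            apply Real.exp_le_exp.mpr; linarith
        _ = Real.exp (C₂ + m * (m + 1)) / Real.log z ^ k := by
            rw [Real.exp_sub, Real.exp_nat_mul, Real.exp_log hlz0]
    have hvu' : v / 2 = u / (128 * m) := by
      rw [hv]; field_simp; ring
    have hw0 : 0 < u / (128 * (m : ℝ)) := by positivity
    have hlzu : u / (128 * m) ≤ Real.log z := by rw [← hvu']; exact hlogz
    have hlz1 : u / (128 * m) ≤ Real.log (z + 1) :=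
      hlzu.trans (Real.log_le_log hz0 (by linarith))
    have hA2 : 2 * (x : ℝ) / Real.log (z + 1) *
        Real.exp (-∑ r ∈ Sm N m z, ((Nat.gcd m (r - 1) : ℝ) - 1) / (r : ℝ))
        ≤ 2 * (128 * m) ^ (k + 1) * Real.exp (C₂ + m * (m + 1)) * x / u ^ (k + 1) := by
      calc 2 * (x : ℝ) / Real.log (z + 1) *
            Real.exp (-∑ r ∈ Sm N m z, ((Nat.gcd m (r - 1) : ℝ) - 1) / (r : ℝ))
          ≤ 2 * (x : ℝ) / (u / (128 * m)) *
            (Real.exp (C₂ + m * (m + 1)) / (u / (128 * m)) ^ k) := by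
            apply mul_le_mul
            · exact div_le_div_of_nonneg_left (by positivity) hw0 hlz1
            · exact hexp.trans (div_le_div_of_nonneg_left (Real.exp_pos _).le (by positivity)
                (pow_le_pow_left₀ hw0.le hlzu k))
            · exact (Real.exp_pos _).le
            · positivity
        _ = 2 * (128 * m) ^ (k + 1) * Real.exp (C₂ + m * (m + 1)) * x / u ^ (k + 1) := by
            rw [div_pow, pow_succ, pow_succ]
            field_simp
    have hfin : 2 * (B * x / u ^ (k + 1)) +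
        2 * (128 * m) ^ (k + 1) * Real.exp (C₂ + m * (m + 1)) * x / u ^ (k + 1)
        = A * x / u ^ (k + 1) := by
      rw [hA]; ring
    have hU2 : A * x / u ^ (k + 1) ≤ (A + U ^ (k + 1)) * x / u ^ (k + 1) := by
      apply div_le_div_of_nonneg_right _ (by positivity)
      apply mul_le_mul_of_nonneg_right _ hx0.le
      have : 0 ≤ U ^ (k + 1) := by positivity
      linarith
    linarith

/-- I4b. real `x` form (compare `thin_real` in Final.lean: `log x ≤ 2 log ⌊x⌋₊`, so the constant is `2^τ C`). -/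
theorem thin_m_real {m : ℕ} (hm : Odd m) : ∃ C : ℝ, ∀ N : ℕ, Odd N → N.Perfect → ∀ x : ℝ, 2 ≤ x →
    ((N.primeFactors.filter (fun p : ℕ => (p : ℝ) ≤ x ∧ m ∣ N.factorization p + 1)).card : ℝ)
      ≤ C * x / (Real.log x) ^ (#m.divisors) := by
  obtain ⟨C, hC, h⟩ := thin_m hm
  refine ⟨2 ^ (#m.divisors) * C, fun N hodd hN x hx => ?_⟩
  have hx0 : 0 ≤ x := by linarith
  have hf2 : 2 ≤ ⌊x⌋₊ := Nat.le_floor (by exact_mod_cast hx)
  have h1 := h N hodd hN ⌊x⌋₊ hf2
  have e1 : N.primeFactors.filter (fun p : ℕ => (p : ℝ) ≤ x ∧ m ∣ N.factorization p + 1) =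
      Cl N m ⌊x⌋₊ := by
    unfold Cl
    refine Finset.filter_congr fun p _ => ?_
    rw [Nat.le_floor_iff hx0]
  rw [e1]
  refine h1.trans ?_
  generalize #m.divisors = k at *
  have hf : (2 : ℝ) ≤ (⌊x⌋₊ : ℝ) := by exact_mod_cast hf2
  have hfx : (⌊x⌋₊ : ℝ) ≤ x := Nat.floor_le hx0
  have hlt : x < (⌊x⌋₊ : ℝ) + 1 := Nat.lt_floor_add_one x
  have hlogf : 0 < Real.log (⌊x⌋₊ : ℝ) := Real.log_pos (by linarith)
  have hlogx : 0 < Real.log x := Real.log_pos (by linarith)
  have h2 : Real.log x ≤ 2 * Real.log (⌊x⌋₊ : ℝ) := by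
    have h3 : x ≤ (⌊x⌋₊ : ℝ) ^ 2 := by nlinarith
    calc Real.log x ≤ Real.log ((⌊x⌋₊ : ℝ) ^ 2) := Real.log_le_log (by linarith) h3
      _ = 2 * Real.log (⌊x⌋₊ : ℝ) := by rw [Real.log_pow]; push_cast; ring
  rw [div_le_div_iff₀ (by positivity) (by positivity)]
  have h4 : (Real.log x) ^ k ≤ 2 ^ k * (Real.log (⌊x⌋₊ : ℝ)) ^ k := by
    calc (Real.log x) ^ k ≤ (2 * Real.log (⌊x⌋₊ : ℝ)) ^ k := pow_le_pow_left₀ hlogx.le h2 k
      _ = _ := by rw [mul_pow]
  calc C * (⌊x⌋₊ : ℝ) * (Real.log x) ^ k ≤ C * x * (2 ^ k * (Real.log (⌊x⌋₊ : ℝ)) ^ k) :=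
        mul_le_mul (mul_le_mul_of_nonneg_left hfx hC) h4 (by positivity) (by positivity)
    _ = _ := by ring

end Pool.Agent.TE
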