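import Pool.Agent.Lib.MP_f02ea4_nt.TE.B3

/-!
# J3: the sieve with an arbitrary set of primes `≡ 1 mod l`; the primes of `N` cost exceptions
-/

set_option autoImplicit false

namespace Pool.Agent.TE

open Finset Nat Pool.Agent.Lib.MP_f02ea4_nt Pool.Agent.Lib.MP_bae66e_nt.AP3

/-- J3a. An odd prime `r` divides at most `v_r(N)` of the `σ(p ^ e_p)`, `p ∣ N`. -/
lemma card_exc {N r : ℕ} (hN : N.Perfect) (hr : r.Prime) (hr2 : r ≠ 2) :
    #(N.primeFactors.filter (fun p => r ∣ Rad.sg p (N.factorization p))) ≤ N.factorization r := by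
  have hN0 : N ≠ 0 := hN.2.ne'
  have h1 := congrArg (fun n : ℕ => n.factorization r) (Rad.perfect_eq hN)
  beta_reduce at h1
  rw [Nat.factorization_prod (fun p _ => (Rad.sg_pos p _).ne'),
    Nat.factorization_mul (by norm_num) hN0, Finsupp.add_apply,
    Nat.factorization_eq_zero_of_not_dvd
      (fun h => hr2 ((Nat.prime_dvd_prime_iff_eq hr Nat.prime_two).1 h)), zero_add,
    Finsupp.finset_sum_apply] at h1
  rw [← h1, Finset.card_filter]
  apply Finset.sum_le_sum
  intro p _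
  split_ifs with h
  · exact (hr.dvd_iff_one_le_factorization (Rad.sg_pos p _).ne').1 h
  · exact Nat.zero_le _

/-- the sieved classes: `0`, and the roots of `ph l` if `r ∈ U` -/
def RU (l : ℕ) (U : Finset ℕ) (r : ℕ) : Finset ℕ :=
  if r ∈ U then insert 0 ((range r).filter (fun t => r ∣ ph l t)) else {0}

lemma j3_mem {l z r : ℕ} {U : Finset ℕ} (hU : U ⊆ Pl l z) (h : r ∈ U) :
    r ∈ prI 0 z ∧ r ≡ 1 [MOD l] := by
  have := hU h
  simpa [Pl] using this

lemma card_RU {l z r : ℕ} {U : Finset ℕ} (hU : U ⊆ Pl l z) (hl : l.Prime) (hr : r.Prime) :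
    #(RU l U r) = if r ∈ U then l else 1 := by
  unfold RU
  split_ifs with h
  · have h1 := (j3_mem hU h).2
    rw [Finset.card_insert_of_notMem, card_roots hl hr h1]
    · have := hl.pos
      omega
    · rw [Finset.mem_filter, ph_zero l hl.pos]
      rintro ⟨_, h2⟩
      exact hr.one_lt.ne' (Nat.dvd_one.1 h2)
  · exact Finset.card_singleton 0

lemma RU_dat {l z : ℕ} {U : Finset ℕ} (hU : U ⊆ Pl l z) (hl : l.Prime) :
    Dat (prI 0 z) (RU l U) where
  prime := fun p hp => (mem_prI.1 hp).2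
  sub := by
    intro p hp
    have hpp := (mem_prI.1 hp).2
    unfold RU
    split_ifs with h
    · intro t ht
      rcases Finset.mem_insert.1 ht with rfl | ht
      · exact Finset.mem_range.2 hpp.pos
      · exact (Finset.mem_filter.1 ht).1
    · intro t ht
      rw [Finset.mem_singleton.1 ht]
      exact Finset.mem_range.2 hpp.pos
  pos := by
    intro p hp
    rw [card_RU hU hl (mem_prI.1 hp).2]
    split_ifs with h
    · exact hl.pos
    · exact le_rfl
  lt := by
    intro p hp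
    have hpp := (mem_prI.1 hp).2
    rw [card_RU hU hl hpp]
    split_ifs with h
    · exact b3_lt hpp (j3_mem hU h).2
    · exact hpp.one_lt

/-- J3b. -/
lemma card_Cl_le_U {N : ℕ} (hN : N.Perfect) {l : ℕ} (hl : l.Prime) (hl2 : l ≠ 2)
    (z X : ℕ) {U : Finset ℕ} (hU : U ⊆ Pl l z) :
    #(Cl N l X) ≤ z + ∑ r ∈ U, N.factorization r
      + #{t ∈ Ioc 0 X | ∀ r ∈ prI 0 z, t % r ∉ RU l U r} := by
  classical
  have hsub : Cl N l X ⊆ (Ioc 0 z ∪ U.biUnion (fun r =>
      N.primeFactors.filter (fun p => r ∣ Rad.sg p (N.factorization p)))) ∪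
      {t ∈ Ioc 0 X | ∀ r ∈ prI 0 z, t % r ∉ RU l U r} := by
    intro p hp
    unfold Cl at hp
    rw [Finset.mem_filter] at hp
    obtain ⟨hp1, hp2, hp3⟩ := hp
    have hpp := Nat.prime_of_mem_primeFactors hp1
    rw [Finset.mem_union, Finset.mem_union, Finset.mem_Ioc, Finset.mem_filter, Finset.mem_Ioc,
      Finset.mem_biUnion]
    rcases Nat.lt_or_ge z p with hz | hz
    · by_cases hex : ∃ r ∈ U, r ∣ ph l p
      · obtain ⟨r, hrU, hrp⟩ := hex
        left; right
        exact ⟨r, hrU, Finset.mem_filter.2 ⟨hp1, hrp.trans (ph_dvd_sg l p _ hp3)⟩⟩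
      · right
        push Not at hex
        refine ⟨⟨hpp.pos, hp2⟩, ?_⟩
        intro r hr
        obtain ⟨⟨_, hrz⟩, hrp⟩ := mem_prI.1 hr
        have h0 : p % r ≠ 0 := by
          intro h
          have h1 := Nat.dvd_of_mod_eq_zero h
          rcases (Nat.dvd_prime hpp).1 h1 with h2 | h2
          · exact hrp.one_lt.ne' h2
          · omega
        unfold RU
        split_ifs with h
        · rw [Finset.mem_insert, not_or]
          refine ⟨h0, ?_⟩
          rw [Finset.mem_filter]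
          rintro ⟨_, h2⟩
          rw [← dvd_ph_mod] at h2
          exact hex r h h2
        · rw [Finset.mem_singleton]
          exact h0
    · left; left
      exact ⟨hpp.pos, hz⟩
  have hU2 : #(U.biUnion (fun r =>
      N.primeFactors.filter (fun p => r ∣ Rad.sg p (N.factorization p)))) ≤
      ∑ r ∈ U, N.factorization r := by
    refine Finset.card_biUnion_le.trans (Finset.sum_le_sum fun r hr => ?_)
    have h1 := j3_mem hU hr
    have hrp := (mem_prI.1 h1.1).2
    refine card_exc hN hrp ?_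
    have h2 := b3_lt hrp h1.2
    have h3 := hl.two_le
    omega
  calc #(Cl N l X) ≤ _ := Finset.card_le_card hsub
    _ ≤ (#(Ioc 0 z) + #(U.biUnion (fun r =>
          N.primeFactors.filter (fun p => r ∣ Rad.sg p (N.factorization p))))) +
          #{t ∈ Ioc 0 X | ∀ r ∈ prI 0 z, t % r ∉ RU l U r} :=
        (Finset.card_union_le _ _).trans (Nat.add_le_add_right (Finset.card_union_le _ _) _)
    _ ≤ _ := by
        rw [Nat.card_Ioc, Nat.sub_zero]
        omega

/-- J3c. -/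
lemma prod_le_U {l z : ℕ} {U : Finset ℕ} (hU : U ⊆ Pl l z) (hl : l.Prime) (hz : 1 ≤ z) :
    ∏ r ∈ prI 0 z, (1 - (#(RU l U r) : ℝ) / r)
      ≤ 1 / Real.log (z + 1) * Real.exp (-(((l : ℝ) - 1) * ∑ r ∈ U, 1 / (r : ℝ))) := by
  have hsub : U ⊆ prI 0 z := fun r hr => (j3_mem hU hr).1
  have h1 : ∏ r ∈ prI 0 z, (1 - (#(RU l U r) : ℝ) / r) ≤
      ∏ r ∈ prI 0 z, ((1 - 1 / (r : ℝ)) *
        (if r ∈ U then Real.exp (-(((l : ℝ) - 1) * (1 / (r : ℝ)))) else 1)) := by
    refine Finset.prod_le_prod ?_ ?_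
    · intro r hr
      have h2 := (RU_dat hU hl).lt r hr
      have h3 : (0 : ℝ) < r := by exact_mod_cast (mem_prI.1 hr).2.pos
      rw [sub_nonneg, div_le_one h3]
      exact_mod_cast h2.le
    · intro r hr
      have hrp := (mem_prI.1 hr).2
      have h3 : (0 : ℝ) < r := by exact_mod_cast hrp.pos
      rw [card_RU hU hl hrp]
      split_ifs with h
      · have h4 : (0 : ℝ) < 1 - 1 / (r : ℝ) := one_sub_inv_pos hrp
        have h5 : 1 - ((l : ℝ) - 1) * (1 / (r : ℝ)) ≤
            Real.exp (-(((l : ℝ) - 1) * (1 / (r : ℝ)))) := by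
          have := Real.add_one_le_exp (-(((l : ℝ) - 1) * (1 / (r : ℝ))))
          linarith
        have h6 : 1 - (l : ℝ) / r ≤ (1 - 1 / (r : ℝ)) * (1 - ((l : ℝ) - 1) * (1 / (r : ℝ))) := by
          have h7 : (1 : ℝ) ≤ l := by exact_mod_cast hl.pos
          have e1 : (1 - 1 / (r : ℝ)) * (1 - ((l : ℝ) - 1) * (1 / (r : ℝ))) =
              1 - (l : ℝ) / r + ((l : ℝ) - 1) * (1 / (r : ℝ)) ^ 2 := by
            field_simp
            ring
          rw [e1]
          have : 0 ≤ ((l : ℝ) - 1) * (1 / (r : ℝ)) ^ 2 :=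
            mul_nonneg (by linarith) (by positivity)
          linarith
        exact h6.trans (mul_le_mul_of_nonneg_left h5 h4.le)
      · rw [mul_one, Nat.cast_one]
  refine h1.trans ?_
  rw [Finset.prod_mul_distrib, Finset.prod_ite_mem, Finset.inter_eq_right.2 hsub,
    ← Real.exp_sum]
  have e2 : ∑ r ∈ U, -(((l : ℝ) - 1) * (1 / (r : ℝ))) =
      -(((l : ℝ) - 1) * ∑ r ∈ U, 1 / (r : ℝ)) := by
    rw [Finset.sum_neg_distrib, Finset.mul_sum]
  rw [e2]
  exact mul_le_mul_of_nonneg_right (KT_le z hz) (Real.exp_pos _).le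

/-- J3d. -/
theorem class_count_U {N : ℕ} (hN : N.Perfect) {l : ℕ} (hl : l.Prime) (hl2 : l ≠ 2)
    (z X R : ℕ) (hz : 1 ≤ z) (hR : 1 ≤ R) {U : Finset ℕ} (hU : U ⊆ Pl l z)
    (hlog : 2 * (∑ r ∈ prI 0 z, Real.log r / r + ((l : ℝ) - 1) * ∑ r ∈ Pl l z, Real.log r / r)
      ≤ Real.log R) :
    (#(Cl N l X) : ℝ) ≤ z + ∑ r ∈ U, (N.factorization r : ℝ) + (2 * X / Real.log (z + 1) *
      Real.exp (-(((l : ℝ) - 1) * ∑ r ∈ U, 1 / (r : ℝ))) + (R : ℝ) ^ 4) := by
  have hl1 : (0 : ℝ) ≤ (l : ℝ) - 1 := by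
    have : (1 : ℝ) ≤ l := by exact_mod_cast hl.pos
    linarith
  have hsub : U ⊆ prI 0 z := fun r hr => (j3_mem hU hr).1
  have hlogn : ∀ r ∈ prI 0 z, 0 ≤ Real.log r / (r : ℝ) := by
    intro r hr
    have h3 : (1 : ℝ) ≤ r := by exact_mod_cast (mem_prI.1 hr).2.pos
    exact div_nonneg (Real.log_nonneg h3) (by linarith)
  have hsum : ∑ r ∈ prI 0 z, (#(RU l U r) : ℝ) * Real.log r / r ≤
      ∑ r ∈ prI 0 z, Real.log r / r + ((l : ℝ) - 1) * ∑ r ∈ Pl l z, Real.log r / r := by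
    have e1 : ∑ r ∈ prI 0 z, (#(RU l U r) : ℝ) * Real.log r / r =
        ∑ r ∈ prI 0 z, Real.log r / r + ((l : ℝ) - 1) * ∑ r ∈ U, Real.log r / r := by
      have e2 : ∀ r ∈ prI 0 z, (#(RU l U r) : ℝ) * Real.log r / r =
          Real.log r / r + (if r ∈ U then ((l : ℝ) - 1) * (Real.log r / r) else 0) := by
        intro r hr
        rw [card_RU hU hl (mem_prI.1 hr).2]
        split_ifs with h
        · ring
        · rw [Nat.cast_one, one_mul, add_zero]
      rw [Finset.sum_congr rfl e2, Finset.sum_add_distrib, Finset.sum_ite_mem,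
        Finset.inter_eq_right.2 hsub, Finset.mul_sum]
    rw [e1]
    have h2 : ∑ r ∈ U, Real.log r / (r : ℝ) ≤ ∑ r ∈ Pl l z, Real.log r / (r : ℝ) :=
      Finset.sum_le_sum_of_subset_of_nonneg hU fun r hr _ =>
        hlogn r (Finset.mem_filter.1 hr).1
    have := mul_le_mul_of_nonneg_left h2 hl1
    linarith
  have h1 := class_sieve (prI 0 z) (RU l U) (RU_dat hU hl) X R hR (by linarith)
  have h2 : (#(Cl N l X) : ℝ) ≤ z + ∑ r ∈ U, (N.factorization r : ℝ) +
      #{t ∈ Ioc 0 X | ∀ r ∈ prI 0 z, t % r ∉ RU l U r} := by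
    exact_mod_cast card_Cl_le_U hN hl hl2 z X hU
  have h3 := mul_le_mul_of_nonneg_left (prod_le_U hU hl hz)
    (show (0 : ℝ) ≤ 2 * X by positivity)
  have e3 : 2 * (X : ℝ) * (1 / Real.log (z + 1) *
      Real.exp (-(((l : ℝ) - 1) * ∑ r ∈ U, 1 / (r : ℝ)))) =
      2 * X / Real.log (z + 1) *
      Real.exp (-(((l : ℝ) - 1) * ∑ r ∈ U, 1 / (r : ℝ))) := by ring
  rw [e3] at h3
  linarith

end Pool.Agent.TE
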