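import Pool.Agent.Lib.MP_f02ea4_nt.TE.F7
import Pool.Agent.Lib.MP_f02ea4_nt.TE.H4
import Pool.Agent.Lib.MP_f02ea4_nt.TE.K3
import Pool.Agent.Lib.MP_f02ea4_nt.TE.P10

/-!
# K4: almost all the mass has large exponents, or many primes have huge exponents
-/

set_option autoImplicit false

namespace Pool.Agent.TE

open Finset Nat Pool.Agent.Lib.MP_f02ea4_nt Pool.Agent.Lib.MP_bae66e_nt.AP3

/-- K4a. The mass of the classes `l ≤ L`. -/
theorem low_mass (a ε : ℝ) (ha : 0 ≤ a) (hε : 0 < ε) : ∃ c₁ : ℝ, 0 < c₁ ∧ c₁ ≤ 1 ∧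
    ∃ P₀ : ℕ, 16 ≤ P₀ ∧ ∀ N P L : ℕ, N.Perfect → P₀ ≤ P →
      (∀ p ∈ N.primeFactors, P ≤ p) → 1 ≤ L → (L : ℝ) ≤ c₁ * Real.log P →
      (L : ℝ) * ∑ q ∈ Eb N a, 1 / (q : ℝ) ≤ 1 →
        ∑ l ∈ oL L, ∑ p ∈ Cc N l, 1 / (p : ℝ) ≤ ε := by
  obtain ⟨C', B, bad, hAP⟩ := AP_main
  obtain ⟨κ, A, D, hA, hD0, h1, h, hD⟩ := kappa_of_AP C' B bad hAP
  obtain ⟨C, hC, P₁, hP₁, hcs⟩ := class_poly_S a ha
  have hC0 : 0 < C := by linarith
  have hE : 0 < Real.exp (A + 1) := Real.exp_pos _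
  have hden : 0 < 4 * C * Real.exp (A + 1) * (D + 1) := by positivity
  refine ⟨min 1 (ε / (4 * C * Real.exp (A + 1) * (D + 1))), lt_min one_pos (by positivity),
    min_le_left _ _, P₁, hP₁, ?_⟩
  intro N P L hN hP hmin hL hLP hloss
  have hP16 : 16 ≤ P := hP₁.trans hP
  have hP16r : (16 : ℝ) ≤ P := by exact_mod_cast hP16
  have hP0 : (0 : ℝ) < P := by linarith
  have hQ0 : 0 < Real.log P := Real.log_pos (by linarith)
  have hL1 : (1 : ℝ) ≤ L := by exact_mod_cast hL
  have hL0 : (0 : ℝ) < L := by linarith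
  have hLQ : (L : ℝ) ≤ Real.log P := by
    refine hLP.trans ?_
    calc _ ≤ 1 * Real.log P := mul_le_mul_of_nonneg_right (min_le_left _ _) hQ0.le
      _ = _ := one_mul _
  have hLe : (L : ℝ) ≤ ε / (4 * C * Real.exp (A + 1) * (D + 1)) * Real.log P :=
    hLP.trans (mul_le_mul_of_nonneg_right (min_le_right _ _) hQ0.le)
  have hEb0 : 0 ≤ ∑ q ∈ Eb N a, 1 / (q : ℝ) := sum_nonneg fun q _ => by positivity
  have hcls : ∀ l ∈ oL L, ∑ p ∈ Cc N l, 1 / (p : ℝ) ≤
      4 * (C * Real.exp (A + 1) * κ l) / Real.log P := by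
    intro l hl
    simp only [oL, mem_filter, mem_range] at hl
    obtain ⟨hlL, hlp, hl2⟩ := hl
    have hlr : (l : ℝ) ≤ L := by exact_mod_cast (by omega : l ≤ L)
    have hl1 : (1 : ℝ) ≤ l := by exact_mod_cast hlp.one_lt.le
    have hκ := h1 l hlp
    refine dyadic2 (Cc N l) P N (by omega) _ (by positivity) ?_ ?_
    · intro p hp
      simp only [Cc, mem_filter] at hp
      exact ⟨hmin p hp.1, Nat.le_of_dvd hN.2 (Nat.dvd_of_mem_primeFactors hp.1)⟩
    · intro X hX _
      have hXr : (P : ℝ) ≤ X := by exact_mod_cast hX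
      have hlog : Real.log P ≤ Real.log X := Real.log_le_log hP0 hXr
      have h2 := hcs N X l hN (hP.trans hX) hlp hl2 (hlr.trans (hLQ.trans hlog)) (κ l) A 1 hκ hA
        zero_le_one (by
          refine le_trans (mul_le_mul_of_nonneg_right ?_ hEb0) hloss
          linarith) (fun z hz => h l z hlp hl2 hz)
      refine le_trans ?_ h2
      have h3 : (Cc N l).filter (fun p => p ≤ X) ⊆ Cl N l X := by
        intro p hp
        simp only [Cc, Cl, mem_filter] at hp ⊢
        exact ⟨hp.1.1, hp.2, hp.1.2⟩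
      exact_mod_cast card_le_card h3
  have hκsum : ∑ l ∈ oL L, κ l ≤ D * L := by
    refine le_trans (sum_le_sum fun l hl => ?_) (hD L hL)
    simp only [oL, mem_filter, mem_range] at hl
    have hl0 : (0 : ℝ) < l := by exact_mod_cast hl.2.1.pos
    have hlL : (l : ℝ) ≤ L := by exact_mod_cast (by omega : l ≤ L)
    have h2 : 0 ≤ Real.log ((L : ℝ) / l) := Real.log_nonneg (by rwa [le_div_iff₀ hl0, one_mul])
    have h3 := h1 l hl.2.1
    nlinarith
  calc ∑ l ∈ oL L, ∑ p ∈ Cc N l, 1 / (p : ℝ)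
      ≤ ∑ l ∈ oL L, 4 * (C * Real.exp (A + 1) * κ l) / Real.log P := sum_le_sum hcls
    _ = 4 * (C * Real.exp (A + 1)) / Real.log P * ∑ l ∈ oL L, κ l := by
        rw [mul_sum]
        refine sum_congr rfl fun l _ => ?_
        ring
    _ ≤ 4 * (C * Real.exp (A + 1)) / Real.log P * ((D + 1) *
          (ε / (4 * C * Real.exp (A + 1) * (D + 1)) * Real.log P)) := by
        refine mul_le_mul_of_nonneg_left ?_ (by positivity)
        refine hκsum.trans ?_
        exact mul_le_mul (by linarith) hLe hL0.le (by linarith)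
    _ = ε := by
        field_simp

/-- K4b. For every odd perfect number `N` with large least prime factor `P`: all but `ε` of `∑ 1/p` comes from primes with exponent
`≥ c log P`, or at least `c P / log P` primes `q` of `N` have `v_q(N) > q ^ a`. -/
theorem dichotomy (a ε : ℝ) (ha : 0 ≤ a) (hε : 0 < ε) : ∃ c : ℝ, 0 < c ∧ ∃ P₀ : ℕ,
    ∀ N : ℕ, Odd N → N.Perfect → P₀ ≤ N.minFac →
      Real.log 2 - ε ≤ ∑ p ∈ N.primeFactors.filter (fun p : ℕ =>
          c * Real.log N.minFac ≤ (N.factorization p : ℝ)), 1 / (p : ℝ) ∨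
      c * N.minFac / Real.log N.minFac ≤ (#(Eb N a) : ℝ) := by
  obtain ⟨c₁, hc₁, hc₁1, P₁, hP₁, hlow⟩ := low_mass a (ε / 2) ha (half_pos hε)
  obtain ⟨P₂, hP₂⟩ : ∃ P₂ : ℕ, P₂ = max P₁ (max ⌈Real.exp (2 / c₁)⌉₊ (⌈8 / ε⌉₊ + 1)) := ⟨_, rfl⟩
  refine ⟨c₁ / 2, by positivity, P₂, ?_⟩
  intro N hodd hN hP
  have hN1 : N ≠ 1 := by
    rintro rfl
    have := hN.1
    simp at this
  have hmin : ∀ p ∈ N.primeFactors, N.minFac ≤ p := fun p hp =>
    Nat.minFac_le_of_dvd (Nat.prime_of_mem_primeFactors hp).two_le (Nat.dvd_of_mem_primeFactors hp)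
  set P : ℕ := N.minFac with hPdef
  have hP1 : P₁ ≤ P := (le_max_left _ _).trans (hP₂ ▸ hP)
  have hP2 : ⌈Real.exp (2 / c₁)⌉₊ ≤ P :=
    ((le_max_left _ _).trans (le_max_right _ _)).trans (hP₂ ▸ hP)
  have hP3 : ⌈8 / ε⌉₊ + 1 ≤ P :=
    ((le_max_right _ _).trans (le_max_right _ _)).trans (hP₂ ▸ hP)
  have hP16 : 16 ≤ P := hP₁.trans hP1
  have hP16r : (16 : ℝ) ≤ P := by exact_mod_cast hP16
  have hP0 : (0 : ℝ) < P := by linarith
  have hexp : Real.exp (2 / c₁) ≤ P := Nat.ceil_le.mp hP2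
  have hlog : 2 / c₁ ≤ Real.log P := (Real.le_log_iff_exp_le hP0).mpr hexp
  have hQ0 : 0 < Real.log P := lt_of_lt_of_le (by positivity) hlog
  have hcQ : 2 ≤ c₁ * Real.log P := by
    rw [div_le_iff₀ hc₁] at hlog
    linarith
  have hPε : 8 / ε ≤ (P : ℝ) - 1 := by
    have h2 : ((⌈8 / ε⌉₊ + 1 : ℕ) : ℝ) ≤ P := by exact_mod_cast hP3
    have h3 := Nat.le_ceil (8 / ε)
    push_cast at h2
    linarith
  rcases le_or_gt (c₁ / 2 * P / Real.log P) (#(Eb N a) : ℝ) with hcase | hcase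
  · exact Or.inr hcase
  · left
    set L : ℕ := ⌊c₁ * Real.log P⌋₊ with hL
    have hLle : (L : ℝ) ≤ c₁ * Real.log P := Nat.floor_le (by positivity)
    have hLlt : c₁ * Real.log P < L + 1 := Nat.lt_floor_add_one _
    have hL1r : (1 : ℝ) < L := by linarith
    have hL1 : 1 ≤ L := by exact_mod_cast hL1r.le
    have hEbsum : ∑ q ∈ Eb N a, 1 / (q : ℝ) ≤ (#(Eb N a) : ℝ) * (1 / (P : ℝ)) := by
      rw [← nsmul_eq_mul]
      refine sum_le_card_nsmul _ _ _ fun q hq => ?_
      unfold Eb at hq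
      rw [mem_filter] at hq
      exact one_div_le_one_div_of_le hP0 (by exact_mod_cast hmin q hq.1)
    have hloss : (L : ℝ) * ∑ q ∈ Eb N a, 1 / (q : ℝ) ≤ 1 := by
      have h2 : ∑ q ∈ Eb N a, 1 / (q : ℝ) ≤ c₁ / 2 / Real.log P := by
        refine hEbsum.trans ?_
        rw [mul_one_div, div_le_div_iff₀ hP0 hQ0]
        rw [lt_div_iff₀ hQ0] at hcase
        linarith
      calc (L : ℝ) * ∑ q ∈ Eb N a, 1 / (q : ℝ)
          ≤ (1 * Real.log P) * (c₁ / 2 / Real.log P) := by
            refine mul_le_mul (hLle.trans (mul_le_mul_of_nonneg_right hc₁1 hQ0.le)) h2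
              (sum_nonneg fun q _ => by positivity) (by positivity)
        _ = c₁ / 2 := by field_simp
        _ ≤ 1 := by linarith
    have hlm := hlow N P L hN hP1 hmin hL1 hLle hloss
    have hge := sum_inv_ge hN (by omega : 2 ≤ P) hmin
    obtain ⟨s, hs, hsplit⟩ := split_primes hodd hN
    have hinv : ∀ p : ℕ, (0 : ℝ) ≤ 1 / (p : ℝ) := fun p => by positivity
    -- total
    have htot : ∑ p ∈ N.primeFactors, 1 / (p : ℝ) ≤ 1 / (P : ℝ) +
        (∑ p ∈ Hi N L, 1 / (p : ℝ) + ∑ l ∈ oL L, ∑ p ∈ Cc N l, 1 / (p : ℝ)) := by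
      classical
      have hsub : N.primeFactors ⊆ insert s (Hi N L ∪ (oL L).biUnion (fun l => Cc N l)) := by
        intro p hp
        rw [mem_insert, mem_union, mem_biUnion]
        rcases hsplit L p hp with h2 | h2 | ⟨l, hl, h2⟩
        · exact Or.inl h2
        · exact Or.inr (Or.inl h2)
        · exact Or.inr (Or.inr ⟨l, hl, h2⟩)
      calc ∑ p ∈ N.primeFactors, 1 / (p : ℝ)
          ≤ ∑ p ∈ insert s (Hi N L ∪ (oL L).biUnion (fun l => Cc N l)), 1 / (p : ℝ) :=
            sum_le_sum_of_subset_of_nonneg hsub fun p _ _ => hinv p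
        _ ≤ 1 / (s : ℝ) + ∑ p ∈ Hi N L ∪ (oL L).biUnion (fun l => Cc N l), 1 / (p : ℝ) := by
            by_cases h2 : s ∈ Hi N L ∪ (oL L).biUnion (fun l => Cc N l)
            · rw [insert_eq_of_mem h2]
              have := hinv s
              linarith
            · rw [sum_insert h2]
        _ ≤ 1 / (P : ℝ) + (∑ p ∈ Hi N L, 1 / (p : ℝ) +
              ∑ p ∈ (oL L).biUnion (fun l => Cc N l), 1 / (p : ℝ)) := by
            refine add_le_add (one_div_le_one_div_of_le hP0 (by exact_mod_cast hmin s hs)) ?_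
            have h2 := sum_union_inter (s₁ := Hi N L) (s₂ := (oL L).biUnion (fun l => Cc N l))
              (f := fun p : ℕ => 1 / (p : ℝ))
            have h3 : 0 ≤ ∑ p ∈ Hi N L ∩ (oL L).biUnion (fun l => Cc N l), 1 / (p : ℝ) :=
              sum_nonneg fun p _ => hinv p
            linarith
        _ ≤ _ := by
            refine add_le_add le_rfl (add_le_add le_rfl ?_)
            have hun : ∀ S T : Finset ℕ, ∑ p ∈ S ∪ T, 1 / (p : ℝ) ≤
                ∑ p ∈ S, 1 / (p : ℝ) + ∑ p ∈ T, 1 / (p : ℝ) := by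
              intro S T
              rw [← sum_union_inter]
              exact le_add_of_nonneg_right (sum_nonneg fun p _ => hinv p)
            have key : ∀ T : Finset ℕ, ∑ p ∈ T.biUnion (fun l => Cc N l), 1 / (p : ℝ) ≤
                ∑ l ∈ T, ∑ p ∈ Cc N l, 1 / (p : ℝ) := by
              intro T
              induction T using Finset.induction_on with
              | empty => simp
              | insert a T ha ih =>
                rw [biUnion_insert, sum_insert ha]
                exact (hun _ _).trans (by linarith)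
            exact key _
    have hsubH : Hi N L ⊆ N.primeFactors.filter (fun p : ℕ =>
        c₁ / 2 * Real.log P ≤ (N.factorization p : ℝ)) := by
      intro p hp
      simp only [Hi, mem_filter] at hp
      rw [mem_filter]
      refine ⟨hp.1, ?_⟩
      have he : N.factorization p ≠ 0 := Finsupp.mem_support_iff.1 hp.1
      obtain ⟨l, hl, hld⟩ := Nat.exists_prime_and_dvd (show N.factorization p + 1 ≠ 1 by omega)
      have hl2 : l ≠ 2 := by
        rintro rfl
        have h2 := hp.2.1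
        rw [Nat.even_iff] at h2
        omega
      have h4 : l ∉ oL L := fun h => hp.2.2 l h hld
      simp only [oL, mem_filter, mem_range, not_and] at h4
      have h5 : L + 1 ≤ l := by
        by_contra h6
        exact h4 (by omega) hl hl2
      have h6 : l ≤ N.factorization p + 1 := Nat.le_of_dvd (by omega) hld
      have h7 : (L : ℝ) ≤ (N.factorization p : ℝ) := by exact_mod_cast (by omega : L ≤ N.factorization p)
      linarith
    have hH : ∑ p ∈ Hi N L, 1 / (p : ℝ) ≤ ∑ p ∈ N.primeFactors.filter (fun p : ℕ =>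
        c₁ / 2 * Real.log P ≤ (N.factorization p : ℝ)), 1 / (p : ℝ) :=
      sum_le_sum_of_subset_of_nonneg hsubH fun p _ _ => hinv p
    have h8 : 0 < 8 / ε := by positivity
    have h9 : 1 / ((P : ℝ) - 1) ≤ ε / 8 := by
      calc 1 / ((P : ℝ) - 1) ≤ 1 / (8 / ε) := one_div_le_one_div_of_le h8 hPε
        _ = ε / 8 := by field_simp
    have h10 : 1 / (P : ℝ) ≤ 1 / ((P : ℝ) - 1) :=
      one_div_le_one_div_of_le (by linarith) (by linarith)
    linarith

end Pool.Agent.TE
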