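import Mathlib

/-!
# P1: the Polya-Vinogradov inequality for prime moduli
-/

set_option autoImplicit false

namespace Pool.Agent.TE

open Finset Nat

/-- P1 (1). Geometric sum: with `w = exp (2 π i a / l)`, `‖∑_{n=1}^N w^n‖ ≤ 2/‖1 - w‖ = 1/sin (π a/l)`, and
`sin (π t) ≥ 2 min t (1-t)` for `0 ≤ t ≤ 1` (`Real.mul_le_sin` on both halves). So the sum is at most
`l/(2 min a (l-a)) ≤ l/(2a) + l/(2(l-a))`. (`‖1 - w‖ = 2 sin (π a/l)`, e.g. from
`Complex.norm_exp_I_mul_ofReal_sub_one` or `‖1 - w‖^2 = 2 - 2 cos (2 π a/l) = 4 sin^2`.) -/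
lemma pv_geom (l a : ℕ) (h0 : 0 < a) (h1 : a < l) (N : ℕ) :
    ‖∑ n ∈ Ioc 0 N, Complex.exp (2 * Real.pi * Complex.I * ((a : ℂ) * n / l))‖
      ≤ l / (2 * (a : ℝ)) + l / (2 * ((l : ℝ) - a)) := by
  have ha : (0 : ℝ) < a := by exact_mod_cast h0
  have hla : (a : ℝ) < l := by exact_mod_cast h1
  have hl : (0 : ℝ) < l := ha.trans hla
  have hd : (0 : ℝ) < (l : ℝ) - a := by linarith
  have hpi := Real.pi_pos
  set x : ℝ := 2 * Real.pi * a / l with hx
  set w : ℂ := Complex.exp (Complex.I * (x : ℂ)) with hw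
  -- the lower bound of the sine
  have hsin : ∃ s : ℝ, 0 < s ∧ s ≤ Real.sin (x / 2) ∧
      1 / s ≤ l / (2 * (a : ℝ)) + l / (2 * ((l : ℝ) - a)) := by
    have hx2 : x / 2 = Real.pi * (a / l) := by rw [hx]; ring
    have hpos1 : (0 : ℝ) < l / (2 * (a : ℝ)) := by positivity
    have hpos2 : (0 : ℝ) < l / (2 * ((l : ℝ) - a)) := by positivity
    rcases le_total (a / l : ℝ) (1 / 2) with h | h
    · refine ⟨2 * (a / l), by positivity, ?_, ?_⟩
      · have h3 := Real.mul_le_sin (x := x / 2) (by rw [hx2]; positivity)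
          (by rw [hx2]; nlinarith)
        rw [hx2] at h3 ⊢
        have e : 2 / Real.pi * (Real.pi * (a / l)) = 2 * (a / l) := by
          field_simp
        rwa [e] at h3
      · have e : 1 / (2 * ((a : ℝ) / l)) = l / (2 * (a : ℝ)) := by
          field_simp
        rw [e]
        linarith
    · refine ⟨2 * (((l : ℝ) - a) / l), by positivity, ?_, ?_⟩
      · have e1 : Real.pi - x / 2 = Real.pi * (((l : ℝ) - a) / l) := by
          rw [hx2]
          field_simp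
        have h4 : ((l : ℝ) - a) / l = 1 - a / l := by
          field_simp
        have h3 := Real.mul_le_sin (x := Real.pi - x / 2) (by rw [e1]; positivity)
          (by rw [e1, h4]; nlinarith)
        rw [Real.sin_pi_sub, e1] at h3
        have e : 2 / Real.pi * (Real.pi * (((l : ℝ) - a) / l)) = 2 * (((l : ℝ) - a) / l) := by
          field_simp
        rwa [e] at h3
      · have e : 1 / (2 * (((l : ℝ) - a) / l)) = l / (2 * ((l : ℝ) - a)) := by
          field_simp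
        rw [e]
        linarith
  obtain ⟨s, hs0, hs1, hs2⟩ := hsin
  have hnorm : ‖w - 1‖ = 2 * Real.sin (x / 2) := by
    rw [hw, Complex.norm_exp_I_mul_ofReal_sub_one, Real.norm_of_nonneg]
    linarith
  have hw1 : w - 1 ≠ 0 := by
    rw [← norm_pos_iff, hnorm]
    linarith
  have hterm : ∀ n : ℕ, Complex.exp (2 * Real.pi * Complex.I * ((a : ℂ) * n / l)) = w ^ n := by
    intro n
    rw [hw, ← Complex.exp_nat_mul, hx]
    congr 1
    push_cast
    ring
  have hsum : (∑ n ∈ Ioc 0 N, w ^ n) * (w - 1) = w * (w ^ N - 1) := by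
    have e : ∑ n ∈ Ioc 0 N, w ^ n = w * ∑ n ∈ range N, w ^ n := by
      rw [Finset.mul_sum]
      refine Finset.sum_bij' (fun n _ => n - 1) (fun n _ => n + 1) ?_ ?_ ?_ ?_ ?_
      · intro n hn
        have := Finset.mem_Ioc.1 hn
        exact Finset.mem_range.2 (by omega)
      · intro n hn
        have := Finset.mem_range.1 hn
        exact Finset.mem_Ioc.2 (by omega)
      · intro n hn
        have := Finset.mem_Ioc.1 hn
        omega
      · intro n hn
        omega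
      · intro n hn
        have h3 := Finset.mem_Ioc.1 hn
        rw [← _root_.pow_succ', Nat.sub_add_cancel (by omega)]
    rw [e, mul_assoc, geom_sum_mul]
  have hwn : ‖w‖ = 1 := by rw [hw, Complex.norm_exp_I_mul_ofReal]
  have hbd : ‖∑ n ∈ Ioc 0 N, w ^ n‖ * (2 * Real.sin (x / 2)) ≤ 2 := by
    rw [← hnorm, ← norm_mul, hsum, norm_mul, hwn, one_mul]
    calc ‖w ^ N - 1‖ ≤ ‖w ^ N‖ + ‖(1 : ℂ)‖ := norm_sub_le _ _
      _ = 2 := by rw [norm_pow, hwn, one_pow, norm_one]; norm_num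
  simp_rw [hterm]
  refine le_trans ?_ hs2
  rw [le_div_iff₀ hs0]
  have h5 : ‖∑ n ∈ Ioc 0 N, w ^ n‖ * s ≤ ‖∑ n ∈ Ioc 0 N, w ^ n‖ * Real.sin (x / 2) :=
    mul_le_mul_of_nonneg_left hs1 (norm_nonneg _)
  linarith

/-- P1 (2). The Gauss sum of `χ ≠ 1` modulo a prime has norm `√l`: `gaussSum_mul_gaussSum_eq_card` gives
`g(χ, ψ) g(χ⁻¹, ψ⁻¹) = l` and the second factor is the complex conjugate of the first (`ψ = ZMod.stdAddChar`). -/
lemma pv_gauss (l : ℕ) [NeZero l] (hl : l.Prime) (χ : DirichletCharacter ℂ l) (hχ : χ ≠ 1) :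
    ‖gaussSum χ (ZMod.stdAddChar (N := l))‖ = Real.sqrt l := by
  have := Fact.mk hl
  have h := gaussSum_mul_gaussSum_eq_card (R := ZMod l) (R' := ℂ) hχ
    (ZMod.isPrimitive_stdAddChar l)
  rw [← star_gaussSum_eq, ZMod.card] at h
  have h2 : ‖gaussSum χ (ZMod.stdAddChar (N := l))‖ ^ 2 = l := by
    have h3 := congrArg norm h
    rw [norm_mul, norm_star, Complex.norm_natCast] at h3
    rw [sq]
    exact h3
  rw [← h2, Real.sqrt_sq (norm_nonneg _)]

/-- a sum over the residues -/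
private lemma p1_sum (l : ℕ) [NeZero l] (F : ZMod l → ℂ) :
    ∑ a, F a = ∑ k ∈ range l, F (k : ZMod l) := by
  refine Finset.sum_bij' (fun a _ => a.val) (fun k _ => (k : ZMod l)) ?_ ?_ ?_ ?_ ?_
  · intro a _
    exact Finset.mem_range.2 (ZMod.val_lt a)
  · intro k _
    exact Finset.mem_univ _
  · intro a _
    exact ZMod.natCast_zmod_val a
  · intro k hk
    exact ZMod.val_natCast_of_lt (Finset.mem_range.1 hk)
  · intro a _
    exact congrArg F (ZMod.natCast_zmod_val a).symm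

/-- the harmonic sum -/
private lemma p1_harm (m : ℕ) :
    ∑ k ∈ range m, (((m + 1 : ℕ) : ℝ) / (2 * ((k + 1 : ℕ) : ℝ))
      + ((m + 1 : ℕ) : ℝ) / (2 * (((m + 1 : ℕ) : ℝ) - ((k + 1 : ℕ) : ℝ))))
      ≤ ((m + 1 : ℕ) : ℝ) * (1 + Real.log (m + 1 : ℕ)) := by
  have hh : ∑ k ∈ range m, (1 : ℝ) / ((k : ℝ) + 1) ≤ 1 + Real.log (m + 1 : ℕ) := by
    have h := harmonic_le_one_add_log m
    have e : ((harmonic m : ℚ) : ℝ) = ∑ k ∈ range m, (1 : ℝ) / ((k : ℝ) + 1) := by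
      rw [harmonic]
      push_cast
      exact Finset.sum_congr rfl fun k _ => by rw [one_div]
    rw [← e]
    refine h.trans ?_
    rcases Nat.eq_zero_or_pos m with hm | hm
    · subst hm
      simp
    · have := Real.log_le_log (x := (m : ℝ)) (by exact_mod_cast hm)
        (by push_cast; linarith : (m : ℝ) ≤ ((m + 1 : ℕ) : ℝ))
      linarith
  rw [Finset.sum_add_distrib]
  have e1 : ∑ k ∈ range m, ((m + 1 : ℕ) : ℝ) / (2 * ((k + 1 : ℕ) : ℝ))
      = ((m + 1 : ℕ) : ℝ) / 2 * ∑ k ∈ range m, (1 : ℝ) / ((k : ℝ) + 1) := by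
    rw [Finset.mul_sum]
    refine Finset.sum_congr rfl fun k _ => ?_
    push_cast
    have : (k : ℝ) + 1 ≠ 0 := by positivity
    field_simp
  have e2 : ∑ k ∈ range m, ((m + 1 : ℕ) : ℝ) / (2 * (((m + 1 : ℕ) : ℝ) - ((k + 1 : ℕ) : ℝ)))
      = ((m + 1 : ℕ) : ℝ) / 2 * ∑ k ∈ range m, (1 : ℝ) / ((k : ℝ) + 1) := by
    rw [← Finset.sum_range_reflect (fun k => (1 : ℝ) / ((k : ℝ) + 1)) m, Finset.mul_sum]
    refine Finset.sum_congr rfl fun k hk => ?_
    have hk' := Finset.mem_range.1 hk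
    have e3 : ((m - 1 - k : ℕ) : ℝ) + 1 = ((m + 1 : ℕ) : ℝ) - ((k + 1 : ℕ) : ℝ) := by
      have : ((m - 1 - k : ℕ) : ℝ) + 1 = ((m - 1 - k + 1 : ℕ) : ℝ) := by push_cast; ring
      rw [this, show m - 1 - k + 1 = m - k by omega, Nat.cast_sub hk'.le]
      push_cast
      ring
    rw [e3]
    have hpos : (0 : ℝ) < ((m + 1 : ℕ) : ℝ) - ((k + 1 : ℕ) : ℝ) := by
      have : (k : ℝ) < m := by exact_mod_cast hk'
      push_cast
      linarith
    field_simp
  rw [e1, e2]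
  have hm : (0 : ℝ) ≤ ((m + 1 : ℕ) : ℝ) := by positivity
  nlinarith [mul_le_mul_of_nonneg_left hh hm]

/-- P1 (3). Polya-Vinogradov. For all `n`: `χ(n) g(χ⁻¹) = ∑_{a mod l} χ⁻¹(a) e(a n/l)`
(`gaussSum_mulShift_of_isPrimitive` or `gaussSum_mulShift` for units, and `0 = 0` if `l ∣ n`, as
`∑_a χ⁻¹(a) = 0`). Sum over `n ≤ N`: `√l ‖∑ χ(n)‖ ≤ ∑_{a=1}^{l-1} ‖∑_n e(a n/l)‖ ≤ ∑_a (l/(2a) + l/(2(l-a)))
= l ∑_{a=1}^{l-1} 1/a ≤ l (1 + log l)` (`harmonic_le_one_add_log`). -/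
theorem pv (l : ℕ) [NeZero l] (hl : l.Prime) (χ : DirichletCharacter ℂ l) (hχ : χ ≠ 1) (N : ℕ) :
    ‖∑ n ∈ Ioc 0 N, χ (n : ZMod l)‖ ≤ Real.sqrt l * (1 + Real.log l) := by
  have hfact := Fact.mk hl
  have hχ' : χ⁻¹ ≠ 1 := fun h => hχ (by rw [← inv_inv χ, h, inv_one])
  set g : ℂ := gaussSum χ⁻¹ (ZMod.stdAddChar (N := l)) with hg
  have hgn : ‖g‖ = Real.sqrt l := pv_gauss l hl χ⁻¹ hχ'
  have hlpos : (0 : ℝ) < l := by exact_mod_cast hl.pos
  have hsq : (0 : ℝ) < Real.sqrt l := Real.sqrt_pos.2 hlpos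
  -- the finite Fourier expansion of the character
  have hexp : ∀ n : ℕ, χ (n : ZMod l) * g
      = ∑ k ∈ range l, χ⁻¹ (k : ZMod l) *
        Complex.exp (2 * Real.pi * Complex.I * ((k : ℂ) * n / l)) := by
    intro n
    have h1 : χ (n : ZMod l) * g
        = gaussSum χ⁻¹ ((ZMod.stdAddChar (N := l)).mulShift (n : ZMod l)) := by
      by_cases hu : IsUnit (n : ZMod l)
      · obtain ⟨u, hu⟩ := hu
        rw [← hu, gaussSum_mulShift_eq, inv_inv]
      · have hz : (n : ZMod l) = 0 := by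
          by_contra hne
          exact hu (isUnit_iff_ne_zero.2 hne)
        rw [hz, AddChar.mulShift_zero, gaussSum_one_right hχ', MulChar.map_zero, zero_mul]
    rw [h1, gaussSum, p1_sum]
    refine Finset.sum_congr rfl fun k _ => ?_
    rw [AddChar.mulShift_apply]
    congr 1
    have h2 : (n : ZMod l) * (k : ZMod l) = (((n * k : ℕ) : ℤ) : ZMod l) := by
      push_cast
      ring
    rw [h2, ZMod.stdAddChar_coe]
    congr 1
    push_cast
    ring
  have hmain : ‖∑ n ∈ Ioc 0 N, χ (n : ZMod l)‖ * Real.sqrt l ≤ l * (1 + Real.log l) := by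
    rw [← hgn, ← norm_mul, Finset.sum_mul]
    have h1 : ∑ n ∈ Ioc 0 N, χ (n : ZMod l) * g = ∑ k ∈ range l, χ⁻¹ (k : ZMod l) *
        ∑ n ∈ Ioc 0 N, Complex.exp (2 * Real.pi * Complex.I * ((k : ℂ) * n / l)) := by
      simp_rw [hexp, Finset.mul_sum]
      exact Finset.sum_comm
    rw [h1]
    obtain ⟨m, hm⟩ : ∃ m, l = m + 1 := ⟨l - 1, by have := hl.pos; omega⟩
    have h2 : ∑ k ∈ range l, χ⁻¹ (k : ZMod l) *
        ∑ n ∈ Ioc 0 N, Complex.exp (2 * Real.pi * Complex.I * ((k : ℂ) * n / l))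
        = ∑ k ∈ range m, χ⁻¹ ((k + 1 : ℕ) : ZMod l) *
        ∑ n ∈ Ioc 0 N, Complex.exp (2 * Real.pi * Complex.I * (((k + 1 : ℕ) : ℂ) * n / l)) := by
      rw [show range l = range (m + 1) by rw [hm], Finset.sum_range_succ']
      rw [Nat.cast_zero, MulChar.map_zero, zero_mul, add_zero]
    rw [h2]
    have hharm := p1_harm m
    rw [← hm] at hharm
    refine le_trans (norm_sum_le _ _) (le_trans (Finset.sum_le_sum fun k hk => ?_) hharm)
    have hk' := Finset.mem_range.1 hk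
    rw [norm_mul]
    have h3 := pv_geom l (k + 1) (by omega) (by omega) N
    have h4 : ‖χ⁻¹ ((k + 1 : ℕ) : ZMod l)‖ ≤ 1 := DirichletCharacter.norm_le_one _ _
    calc _ ≤ 1 * ‖∑ n ∈ Ioc 0 N,
          Complex.exp (2 * Real.pi * Complex.I * (((k + 1 : ℕ) : ℂ) * n / l))‖ :=
          mul_le_mul_of_nonneg_right h4 (norm_nonneg _)
      _ ≤ _ := by rw [one_mul]; exact h3
  have hfin : l * (1 + Real.log l) = Real.sqrt l * (1 + Real.log l) * Real.sqrt l := by
    rw [mul_right_comm, Real.mul_self_sqrt hlpos.le]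
  rw [hfin] at hmain
  exact le_of_mul_le_mul_right hmain hsq

end Pool.Agent.TE
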