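import Pool.Agent.Lib.MP_f02ea4_nt.TE.D1b
import Pool.Agent.Lib.MP_f02ea4_nt.TE.P1

/-!
# P2: lower bound for `L(1, χ)`, `χ` real modulo a prime `l`: Monsky's argument with Polya-Vinogradov
-/

set_option autoImplicit false

namespace Pool.Agent.TE

open Finset Nat Pool.Agent.Lib.MP_bae66e_nt.AP3

/-- P2 (1). `r^d/(1-r^d) = 1/(d (1-r)) - cm r d`. By `abel_bound` with `pv`
(`f = χ`, `C = √l (1 + log l)`, `a = 0`, `g = cm r`, `cm_nonneg`, `cm_anti`) `‖∑ χ(d) cm r d‖ ≤ C cm r 1 = C`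
(`cm_one`); by `LFunction_one_sub_le` `‖L(1,χ) - ∑_{d ≤ y} χ(d)/d‖ ≤ l/(y+1)`. -/
lemma lambert_upper (l : ℕ) [NeZero l] (hl : l.Prime) (χ : DirichletCharacter ℂ l) (hχ : χ ≠ 1)
    (r : ℝ) (h0 : 0 < r) (h1 : r < 1) (y : ℕ) :
    ‖∑ d ∈ Ioc 0 y, χ (d : ZMod l) * ((r ^ d / (1 - r ^ d) : ℝ) : ℂ)‖
      ≤ (1 / (1 - r)) * (‖χ.LFunction 1‖ + l / ((y : ℝ) + 1)) + Real.sqrt l * (1 + Real.log l) := by
  have h1r : (0 : ℝ) < 1 - r := by linarith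
  have hl1 : (1 : ℝ) ≤ l := by exact_mod_cast hl.one_lt.le
  have hC : 0 ≤ Real.sqrt l * (1 + Real.log l) :=
    mul_nonneg (Real.sqrt_nonneg _) (by have := Real.log_nonneg hl1; linarith)
  have hA := abel_bound (fun n => χ (n : ZMod l)) (cm r) (Real.sqrt l * (1 + Real.log l)) hC 0
    (fun b => pv l hl χ hχ b) (fun n hn => cm_nonneg r h0 h1 n hn)
    (fun n hn => cm_anti r h0 h1 n hn) y
  rw [zero_add, cm_one r h0 h1, mul_one] at hA
  have hB := LFunction_one_sub_le l χ hχ y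
  have hB2 : ‖∑ n ∈ Ioc 0 y, χ (n : ZMod l) * (((1 / (n : ℝ) : ℝ)) : ℂ)‖
      ≤ ‖χ.LFunction 1‖ + l / ((y : ℝ) + 1) := by
    have h3 := norm_sub_norm_le (∑ n ∈ Ioc 0 y, χ (n : ZMod l) * (((1 / (n : ℝ) : ℝ)) : ℂ))
      (χ.LFunction 1)
    rw [norm_sub_rev] at h3
    have h4 : (l : ℝ) * (1 / ((y : ℝ) + 1)) = l / ((y : ℝ) + 1) := by ring
    rw [h4] at hB
    linarith
  have e : ∑ d ∈ Ioc 0 y, χ (d : ZMod l) * ((r ^ d / (1 - r ^ d) : ℝ) : ℂ)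
      = ((1 / (1 - r) : ℝ) : ℂ) * ∑ n ∈ Ioc 0 y, χ (n : ZMod l) * (((1 / (n : ℝ) : ℝ)) : ℂ)
        - ∑ n ∈ Ioc 0 y, χ (n : ZMod l) * (cm r n : ℂ) := by
    rw [Finset.mul_sum, ← Finset.sum_sub_distrib]
    refine Finset.sum_congr rfl fun d hd => ?_
    have h5 : (r ^ d / (1 - r ^ d) : ℝ) = 1 / (1 - r) * (1 / (d : ℝ)) - cm r d := by
      unfold cm
      rw [one_div_mul_one_div, mul_comm (1 - r) (d : ℝ)]
      ring
    rw [h5]
    push_cast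
    ring
  rw [e]
  refine (norm_sub_le _ _).trans (add_le_add ?_ hA)
  rw [norm_mul, Complex.norm_real, Real.norm_of_nonneg (by positivity)]
  exact mul_le_mul_of_nonneg_left hB2 (by positivity)

/-- `(1 - 1/n)^n ≥ 1/4` -/
private lemma p2_quarter (n : ℕ) (hn : 2 ≤ n) : (1 / 4 : ℝ) ≤ (1 - 1 / (n : ℝ)) ^ n := by
  have hn' : (2 : ℝ) ≤ n := by exact_mod_cast hn
  have hn0 : (0 : ℝ) < n := by linarith
  have hr : (0 : ℝ) ≤ 1 - 1 / (n : ℝ) := by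
    rw [sub_nonneg, div_le_one hn0]
    linarith
  have hbern : ∀ k : ℕ, 1 - k / (n : ℝ) ≤ (1 - 1 / (n : ℝ)) ^ k := by
    intro k
    have h := one_add_mul_le_pow (a := -(1 / (n : ℝ))) (by
      have : 1 / (n : ℝ) ≤ 1 := by rw [div_le_one hn0]; linarith
      linarith) k
    have e : (1 : ℝ) + k * -(1 / (n : ℝ)) = 1 - k / (n : ℝ) := by ring
    rw [e] at h
    exact h
  rcases Nat.even_or_odd' n with ⟨k, hk | hk⟩
  · have hk2 : (n : ℝ) = 2 * k := by rw [hk]; push_cast; ring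
    have hk0 : (0 : ℝ) < k := by linarith
    have h1 := hbern k
    have e1 : 1 - (k : ℝ) / (n : ℝ) = 1 / 2 := by
      rw [hk2]
      field_simp
      ring
    rw [e1] at h1
    calc (1 / 4 : ℝ) = (1 / 2) ^ 2 := by norm_num
      _ ≤ ((1 - 1 / (n : ℝ)) ^ k) ^ 2 := pow_le_pow_left₀ (by norm_num) h1 2
      _ = (1 - 1 / (n : ℝ)) ^ (k * 2) := by rw [pow_mul]
      _ = (1 - 1 / (n : ℝ)) ^ n := by rw [show k * 2 = n by omega]
  · have hk2 : (n : ℝ) = 2 * k + 1 := by rw [hk]; push_cast; ring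
    have h1 := hbern k
    have e1 : 1 - (k : ℝ) / (n : ℝ) = ((n : ℝ) + 1) / (2 * n) := by
      have : (k : ℝ) = (n - 1) / 2 := by linarith
      rw [this]
      field_simp
      ring
    rw [e1] at h1
    have e2 : (1 - 1 / (n : ℝ)) ^ n = ((1 - 1 / (n : ℝ)) ^ k) ^ 2 * (1 - 1 / (n : ℝ)) := by
      rw [← pow_mul, ← _root_.pow_succ, show k * 2 + 1 = n by omega]
    rw [e2]
    have h2 : (((n : ℝ) + 1) / (2 * n)) ^ 2 ≤ ((1 - 1 / (n : ℝ)) ^ k) ^ 2 :=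
      pow_le_pow_left₀ (by positivity) h1 2
    refine le_trans ?_ (mul_le_mul_of_nonneg_right h2 hr)
    have e3 : (((n : ℝ) + 1) / (2 * n)) ^ 2 * (1 - 1 / (n : ℝ))
        = ((n + 1) ^ 2 * (n - 1)) / (4 * n ^ 3) := by
      field_simp
      ring
    rw [e3, div_le_div_iff₀ (by norm_num) (by positivity)]
    nlinarith

/-- P2 (2). Let `V = √l (1 + log l) ≥ 1`, `M = ⌈8 V⌉₊ ≤ 9 V`, `r = 1 - 1/M^2`. By `lambert_lower` and (1), letting
`y → ∞` (`y r^(y+1) → 0`): `M r^(M^2) ≤ M^2 ‖L(1,χ)‖ + V`, and `r^(M^2) ≥ 1/4` (`(1-x)^(1/x) ≥ 1/4` for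
`0 < x = 1/M^2 ≤ 1/64`; e.g. `log (1-x) ≥ -x - x^2`, so `r^(M^2) ≥ exp (-1 - 1/64)`, and `exp 1.02 ≤ 4`). So
`M/4 - V ≤ M^2 ‖L‖`, and `V ≤ M/8` gives `‖L‖ ≥ 1/(8 M) ≥ 1/(72 V)`. -/
theorem L1_lower (l : ℕ) [NeZero l] (hl : l.Prime) (χ : DirichletCharacter ℂ l) (hχ : χ ≠ 1)
    (h2 : χ ^ 2 = 1) :
    1 / (72 * (Real.sqrt l * (1 + Real.log l))) ≤ ‖χ.LFunction 1‖ := by
  set V : ℝ := Real.sqrt l * (1 + Real.log l) with hV
  have hl1 : (1 : ℝ) ≤ l := by exact_mod_cast hl.one_lt.le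
  have hV1 : 1 ≤ V := by
    have h3 : 1 ≤ Real.sqrt l := by rw [Real.one_le_sqrt]; exact hl1
    have h4 := Real.log_nonneg hl1
    nlinarith
  set M : ℕ := ⌈8 * V⌉₊ with hM
  have hM1 : 8 * V ≤ M := Nat.le_ceil _
  have hM2 : (M : ℝ) ≤ 9 * V := by
    have := Nat.ceil_lt_add_one (show (0 : ℝ) ≤ 8 * V by linarith)
    rw [← hM] at this
    linarith
  have hM8 : (8 : ℝ) ≤ M := by linarith
  have hM8' : 8 ≤ M := by exact_mod_cast hM8
  have hMpos : (0 : ℝ) < M := by linarith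
  set n : ℕ := M ^ 2 with hn
  have hn2 : 2 ≤ n := by rw [hn]; nlinarith
  have hncast : (n : ℝ) = (M : ℝ) ^ 2 := by rw [hn]; push_cast; rfl
  have hnpos : (0 : ℝ) < n := by rw [hncast]; positivity
  set r : ℝ := 1 - 1 / (n : ℝ) with hr
  have hn2' : (2 : ℝ) ≤ n := by exact_mod_cast hn2
  have hinv : 1 / (n : ℝ) ≤ 1 / 2 := by
    apply one_div_le_one_div_of_le (by norm_num) hn2'
  have hr0 : 0 < r := by rw [hr]; linarith
  have hr1 : r < 1 := by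
    have : 0 < 1 / (n : ℝ) := by positivity
    rw [hr]; linarith
  have e1r : 1 - r = 1 / (n : ℝ) := by rw [hr]; ring
  have e2r : 1 / (1 - r) = (n : ℝ) := by rw [e1r, one_div_one_div]
  have hq : (1 / 4 : ℝ) ≤ r ^ (M ^ 2) := p2_quarter n hn2
  have hall : ∀ y : ℕ, M ^ 2 ≤ y → M * r ^ (M ^ 2)
      ≤ (n : ℝ) * (‖χ.LFunction 1‖ + l / ((y : ℝ) + 1)) + V + y * (r ^ (y + 1) / (1 - r)) := by
    intro y hy
    have h3 := lambert_lower l χ h2 r hr0 hr1 M y hy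
    have h4 := lambert_upper l hl χ hχ r hr0 hr1 y
    rw [e2r] at h4
    linarith
  have hlim : Filter.Tendsto (fun y : ℕ => (n : ℝ) * (‖χ.LFunction 1‖ + l / ((y : ℝ) + 1)) + V
      + y * (r ^ (y + 1) / (1 - r))) Filter.atTop
      (nhds ((n : ℝ) * (‖χ.LFunction 1‖ + 0) + V + 0)) := by
    refine Filter.Tendsto.add (Filter.Tendsto.add (Filter.Tendsto.const_mul _
      (Filter.Tendsto.add tendsto_const_nhds ?_)) tendsto_const_nhds) ?_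
    · exact tendsto_const_nhds.div_atTop
        (Filter.tendsto_atTop_add_const_right _ _ tendsto_natCast_atTop_atTop)
    · have h3 := (tendsto_self_mul_const_pow_of_lt_one hr0.le hr1).mul_const (r / (1 - r))
      rw [zero_mul] at h3
      refine h3.congr fun y => ?_
      rw [_root_.pow_succ]
      ring
  have hfin : M * r ^ (M ^ 2) ≤ (n : ℝ) * (‖χ.LFunction 1‖ + 0) + V + 0 :=
    ge_of_tendsto hlim (Filter.eventually_atTop.2 ⟨M ^ 2, fun y hy => hall y hy⟩)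
  rw [add_zero, add_zero, hncast] at hfin
  have h5 : (M : ℝ) / 4 ≤ M * r ^ (M ^ 2) := by nlinarith
  have h6 : (M : ℝ) / 8 ≤ (M : ℝ) ^ 2 * ‖χ.LFunction 1‖ := by linarith
  have h7 : 1 ≤ 8 * (M : ℝ) * ‖χ.LFunction 1‖ := by
    have h8 : (M : ℝ) * 1 ≤ M * (8 * (M : ℝ) * ‖χ.LFunction 1‖) := by nlinarith
    exact le_of_mul_le_mul_left h8 hMpos
  rw [div_le_iff₀ (by positivity)]
  have h9 : 8 * (M : ℝ) * ‖χ.LFunction 1‖ ≤ 72 * V * ‖χ.LFunction 1‖ := by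
    apply mul_le_mul_of_nonneg_right _ (norm_nonneg _)
    linarith
  linarith

end Pool.Agent.TE
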