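import Mathlib
import Pool.Agent.Lib.MP_9cfc0a_nt.C2H5

/-!
# P5: the large sieve with one character for each prime modulus in `(M, 2M]`
-/

set_option autoImplicit false

namespace Pool.Agent.TE

open Finset

/-- P5 (1). For a prime `l` every `χ ≠ 1` is primitive (its conductor divides `l` and is not `1`), and
`MC.C1.pSum l g` (a finsum over the primitive characters) is at least one of its terms if `g ≥ 0`. So the left side is at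
most `∑_{r ∈ Icc 1 (2M)} pSum r (..)`, and `MC.C2.prim_large_sieve` with `Q = 2 M` gives the bound. -/
lemma ls_choice (M : ℕ) (hM : 1 ≤ M) (S : Finset ℕ) (hS : ∀ l ∈ S, l.Prime ∧ M < l ∧ l ≤ 2 * M)
    (χ : (l : ℕ) → DirichletCharacter ℂ l) (hχ : ∀ l ∈ S, χ l ≠ 1) (u : ℕ → ℂ) (v H : ℕ) :
    ∑ l ∈ S, ‖∑ n ∈ Ioc v (v + H), u n * χ l (n : ZMod l)‖ ^ 2
      ≤ Real.pi ^ 2 / 4 * (4 * (M : ℝ) ^ 2 + 2 * H) * ∑ n ∈ Ioc v (v + H), ‖u n‖ ^ 2 := by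
  classical
  have hprim : ∀ l ∈ S, (χ l).IsPrimitive := by
    intro l hl
    have hlp := (hS l hl).1
    have : NeZero l := ⟨hlp.ne_zero⟩
    have hd : (χ l).conductor ∣ l := DirichletCharacter.conductor_dvd_level (χ l)
    rcases (Nat.dvd_prime hlp).1 hd with h | h
    · exact absurd (DirichletCharacter.eq_one_iff_conductor_eq_one.2 h) (hχ l hl)
    · exact h
  have h1 : ∀ l ∈ S, ‖∑ n ∈ Ioc v (v + H), u n * χ l (n : ZMod l)‖ ^ 2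
      ≤ MC.C1.pSum l (fun ψ => ‖∑ n ∈ Ioc v (v + H), u n * ψ (n : ZMod l)‖ ^ 2) := by
    intro l hl
    rw [MC.C1.P4_pSum]
    refine Finset.single_le_sum (f := fun ψ : DirichletCharacter ℂ l =>
      ‖∑ n ∈ Ioc v (v + H), u n * ψ (n : ZMod l)‖ ^ 2) (fun ψ _ => by positivity) ?_
    rw [Finset.mem_filter]
    exact ⟨Finset.mem_univ _, hprim l hl⟩
  have h2 : S ⊆ Finset.Icc 1 (2 * M) := by
    intro l hl
    rw [Finset.mem_Icc]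
    obtain ⟨a1, a2, a3⟩ := hS l hl
    exact ⟨a1.one_lt.le, a3⟩
  have h3 : ∀ r, 0 ≤ MC.C1.pSum r (fun ψ => ‖∑ n ∈ Ioc v (v + H), u n * ψ (n : ZMod r)‖ ^ 2) := by
    intro r
    rw [MC.C1.P4_pSum]
    exact Finset.sum_nonneg fun ψ _ => by positivity
  have h4 := MC.C2.prim_large_sieve u v H (2 * M) (by omega)
  calc ∑ l ∈ S, ‖∑ n ∈ Ioc v (v + H), u n * χ l (n : ZMod l)‖ ^ 2
      ≤ ∑ l ∈ S, MC.C1.pSum l (fun ψ => ‖∑ n ∈ Ioc v (v + H), u n * ψ (n : ZMod l)‖ ^ 2) :=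
        Finset.sum_le_sum h1
    _ ≤ ∑ l ∈ Finset.Icc 1 (2 * M),
        MC.C1.pSum l (fun ψ => ‖∑ n ∈ Ioc v (v + H), u n * ψ (n : ZMod l)‖ ^ 2) :=
        Finset.sum_le_sum_of_subset_of_nonneg h2 fun r _ _ => h3 r
    _ ≤ _ := h4
    _ = _ := by
        push_cast
        ring

lemma p5_blocks {β : Type*} [AddCommMonoid β] (A : ℕ) (g : ℕ → β) (J : ℕ) :
    ∑ j ∈ Finset.range J, ∑ n ∈ Ioc (A * 2 ^ j) (A * 2 ^ j + A * 2 ^ j), g n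
      = ∑ n ∈ Ioc A (A * 2 ^ J), g n := by
  induction J with
  | zero => simp
  | succ J ih =>
    rw [Finset.sum_range_succ, ih]
    have h1 : A ≤ A * 2 ^ J := Nat.le_mul_of_pos_right _ (by positivity)
    have h2 : A * 2 ^ J ≤ A * 2 ^ (J + 1) :=
      Nat.mul_le_mul_left _ (Nat.pow_le_pow_right (by norm_num) (by omega))
    have h3 : A * 2 ^ J + A * 2 ^ J = A * 2 ^ (J + 1) := by ring
    rw [h3, Finset.sum_Ioc_consecutive g h1 h2]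

lemma p5_cut {β : Type*} [AddCommMonoid β] (A N B : ℕ) (hB : N ≤ B) (g : ℕ → β) :
    ∑ n ∈ Ioc A B, (if n ≤ N then g n else 0) = ∑ n ∈ Ioc A N, g n := by
  rw [← Finset.sum_filter]
  refine Finset.sum_congr ?_ fun _ _ => rfl
  ext x
  simp only [Finset.mem_filter, Finset.mem_Ioc]
  omega

lemma p5_J (N : ℕ) (hN : 1 < N) : (Nat.clog 2 N : ℝ) ≤ 2 * (1 + Real.log N) := by
  have h1 : 2 ^ (Nat.clog 2 N).pred < N := Nat.pow_pred_clog_lt_self (by norm_num) hN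
  have h2 : 0 < Nat.clog 2 N := Nat.clog_pos (by norm_num) hN
  have h3 : (2 : ℝ) ^ (Nat.clog 2 N - 1) ≤ N := by
    have h4 : 2 ^ (Nat.clog 2 N - 1) ≤ N := h1.le
    exact_mod_cast h4
  have h5 := Real.log_le_log (by positivity) h3
  rw [Real.log_pow, Nat.cast_sub h2] at h5
  have h6 := Real.log_two_gt_d9
  have h7 : (0 : ℝ) ≤ ((Nat.clog 2 N : ℕ) : ℝ) - ((1 : ℕ) : ℝ) := by
    have h8 : ((1 : ℕ) : ℝ) ≤ ((Nat.clog 2 N : ℕ) : ℝ) := by exact_mod_cast h2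
    linarith
  have h9 : (((Nat.clog 2 N : ℕ) : ℝ) - ((1 : ℕ) : ℝ)) * (1 / 2)
      ≤ (((Nat.clog 2 N : ℕ) : ℝ) - ((1 : ℕ) : ℝ)) * Real.log 2 :=
    mul_le_mul_of_nonneg_left (by linarith) h7
  push_cast at h9 h5 h7 ⊢
  linarith

/-- P5 (2). Dyadic blocks `B_j = (M^2 2^j, M^2 2^(j+1)]`, `0 ≤ j < J`, where `J` is the least number with
`N ≤ M^2 2^J`, so `J ≤ 1 + log N/log 2 ≤ 2 (1 + log N)` (if `N ≤ M^2` both sides are `0`). Apply (1) to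
`u n = a n` for `n ≤ N`, `0` otherwise, `v = H = M^2 2^j`: `π^2/4 (4 M^2 + 2 v) ≤ 15 v` and `v ‖u n‖^2 ≤ n ‖u n‖^2`. By
Cauchy-Schwarz `‖∑_{j<J} x_j‖^2 ≤ J ∑ ‖x_j‖^2` (`inner_mul_le_norm_mul_norm` or `sq_sum_le_card_mul_sum_sq`). -/
lemma ls_weighted (M : ℕ) (hM : 1 ≤ M) (S : Finset ℕ) (hS : ∀ l ∈ S, l.Prime ∧ M < l ∧ l ≤ 2 * M)
    (χ : (l : ℕ) → DirichletCharacter ℂ l) (hχ : ∀ l ∈ S, χ l ≠ 1) (a : ℕ → ℂ) (N : ℕ) :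
    ∑ l ∈ S, ‖∑ n ∈ Ioc (M ^ 2) N, a n * χ l (n : ZMod l)‖ ^ 2
      ≤ 30 * (1 + Real.log N) * ∑ n ∈ Ioc (M ^ 2) N, (n : ℝ) * ‖a n‖ ^ 2 := by
  classical
  by_cases hN : N ≤ M ^ 2
  · rw [Finset.Ioc_eq_empty (by omega)]
    simp
  push Not at hN
  have hM2 : 1 ≤ M ^ 2 := Nat.one_le_pow _ _ hM
  have hN1 : 1 < N := by omega
  set J := Nat.clog 2 N with hJ
  have hNJ : N ≤ M ^ 2 * 2 ^ J := by
    calc N ≤ 2 ^ J := Nat.le_pow_clog (by norm_num) N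
      _ ≤ M ^ 2 * 2 ^ J := Nat.le_mul_of_pos_left _ (by omega)
  have hJle : (J : ℝ) ≤ 2 * (1 + Real.log N) := p5_J N hN1
  set u : ℕ → ℂ := fun n => if n ≤ N then a n else 0 with hu
  have hpi : Real.pi ^ 2 ≤ 10 := by
    have h1 := Real.pi_lt_d2
    have h2 := Real.pi_pos
    nlinarith
  -- the blocks
  have hsum : ∀ l, ∑ n ∈ Ioc (M ^ 2) N, a n * χ l (n : ZMod l)
      = ∑ j ∈ Finset.range J, ∑ n ∈ Ioc (α := ℕ) (M ^ 2 * 2 ^ j) (M ^ 2 * 2 ^ j + M ^ 2 * 2 ^ j),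
        u n * χ l (n : ZMod l) := by
    intro l
    rw [p5_blocks, ← p5_cut (M ^ 2) N _ hNJ]
    refine Finset.sum_congr rfl fun n _ => ?_
    rw [hu]
    by_cases h : n ≤ N
    · simp [h]
    · simp [h]
  have hsum2 : ∑ n ∈ Ioc (M ^ 2) N, (n : ℝ) * ‖a n‖ ^ 2
      = ∑ j ∈ Finset.range J, ∑ n ∈ Ioc (α := ℕ) (M ^ 2 * 2 ^ j) (M ^ 2 * 2 ^ j + M ^ 2 * 2 ^ j),
        (n : ℝ) * ‖u n‖ ^ 2 := by
    rw [p5_blocks, ← p5_cut (M ^ 2) N _ hNJ]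
    refine Finset.sum_congr rfl fun n _ => ?_
    rw [hu]
    by_cases h : n ≤ N
    · simp [h]
    · simp [h]
  have hCS : ∀ l, ‖∑ n ∈ Ioc (M ^ 2) N, a n * χ l (n : ZMod l)‖ ^ 2
      ≤ (J : ℝ) * ∑ j ∈ Finset.range J,
        ‖∑ n ∈ Ioc (α := ℕ) (M ^ 2 * 2 ^ j) (M ^ 2 * 2 ^ j + M ^ 2 * 2 ^ j), u n * χ l (n : ZMod l)‖ ^ 2 := by
    intro l
    rw [hsum l]
    have h1 : ‖∑ j ∈ Finset.range J,
        ∑ n ∈ Ioc (α := ℕ) (M ^ 2 * 2 ^ j) (M ^ 2 * 2 ^ j + M ^ 2 * 2 ^ j), u n * χ l (n : ZMod l)‖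
        ≤ ∑ j ∈ Finset.range J,
        ‖∑ n ∈ Ioc (α := ℕ) (M ^ 2 * 2 ^ j) (M ^ 2 * 2 ^ j + M ^ 2 * 2 ^ j), u n * χ l (n : ZMod l)‖ :=
      norm_sum_le _ _
    have h2 := pow_le_pow_left₀ (norm_nonneg _) h1 2
    refine h2.trans ?_
    have h3 := sq_sum_le_card_mul_sum_sq (s := Finset.range J) (f := fun j =>
      ‖∑ n ∈ Ioc (α := ℕ) (M ^ 2 * 2 ^ j) (M ^ 2 * 2 ^ j + M ^ 2 * 2 ^ j), u n * χ l (n : ZMod l)‖)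
    rw [Finset.card_range] at h3
    exact h3
  have hblock : ∀ j ∈ Finset.range J, ∑ l ∈ S,
      ‖∑ n ∈ Ioc (α := ℕ) (M ^ 2 * 2 ^ j) (M ^ 2 * 2 ^ j + M ^ 2 * 2 ^ j), u n * χ l (n : ZMod l)‖ ^ 2
      ≤ 15 * ∑ n ∈ Ioc (α := ℕ) (M ^ 2 * 2 ^ j) (M ^ 2 * 2 ^ j + M ^ 2 * 2 ^ j), (n : ℝ) * ‖u n‖ ^ 2 := by
    intro j _
    have h1 := ls_choice M hM S hS χ hχ u (M ^ 2 * 2 ^ j) (M ^ 2 * 2 ^ j)
    refine h1.trans ?_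
    have h2 : (M : ℝ) ^ 2 ≤ ((M ^ 2 * 2 ^ j : ℕ) : ℝ) := by
      have h3 : M ^ 2 ≤ M ^ 2 * 2 ^ j := Nat.le_mul_of_pos_right _ (by positivity)
      exact_mod_cast h3
    have h4 : Real.pi ^ 2 / 4 * (4 * (M : ℝ) ^ 2 + 2 * ((M ^ 2 * 2 ^ j : ℕ) : ℝ))
        ≤ 15 * ((M ^ 2 * 2 ^ j : ℕ) : ℝ) := by
      have h5 : (0 : ℝ) ≤ ((M ^ 2 * 2 ^ j : ℕ) : ℝ) := Nat.cast_nonneg _
      have h6 : Real.pi ^ 2 / 4 * (4 * (M : ℝ) ^ 2 + 2 * ((M ^ 2 * 2 ^ j : ℕ) : ℝ))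
          ≤ (10 / 4) * (6 * ((M ^ 2 * 2 ^ j : ℕ) : ℝ)) := by
        refine mul_le_mul (by linarith) (by linarith) (by positivity) (by norm_num)
      linarith
    have h7 : (0 : ℝ) ≤ ∑ n ∈ Ioc (α := ℕ) (M ^ 2 * 2 ^ j) (M ^ 2 * 2 ^ j + M ^ 2 * 2 ^ j), ‖u n‖ ^ 2 :=
      Finset.sum_nonneg fun n _ => by positivity
    refine (mul_le_mul_of_nonneg_right h4 h7).trans ?_
    rw [mul_assoc]
    refine mul_le_mul_of_nonneg_left ?_ (by norm_num)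
    rw [Finset.mul_sum]
    refine Finset.sum_le_sum fun n hn => ?_
    have h8 : ((M ^ 2 * 2 ^ j : ℕ) : ℝ) ≤ n := by
      exact_mod_cast (Finset.mem_Ioc.1 hn).1.le
    exact mul_le_mul_of_nonneg_right h8 (by positivity)
  have hT : (0 : ℝ) ≤ ∑ n ∈ Ioc (M ^ 2) N, (n : ℝ) * ‖a n‖ ^ 2 :=
    Finset.sum_nonneg fun n _ => by positivity
  calc ∑ l ∈ S, ‖∑ n ∈ Ioc (M ^ 2) N, a n * χ l (n : ZMod l)‖ ^ 2
      ≤ ∑ l ∈ S, (J : ℝ) * ∑ j ∈ Finset.range J,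
        ‖∑ n ∈ Ioc (α := ℕ) (M ^ 2 * 2 ^ j) (M ^ 2 * 2 ^ j + M ^ 2 * 2 ^ j), u n * χ l (n : ZMod l)‖ ^ 2 :=
        Finset.sum_le_sum fun l _ => hCS l
    _ = (J : ℝ) * ∑ j ∈ Finset.range J, ∑ l ∈ S,
        ‖∑ n ∈ Ioc (α := ℕ) (M ^ 2 * 2 ^ j) (M ^ 2 * 2 ^ j + M ^ 2 * 2 ^ j), u n * χ l (n : ZMod l)‖ ^ 2 := by
        rw [← Finset.mul_sum, Finset.sum_comm]
    _ ≤ (J : ℝ) * ∑ j ∈ Finset.range J,
        15 * ∑ n ∈ Ioc (α := ℕ) (M ^ 2 * 2 ^ j) (M ^ 2 * 2 ^ j + M ^ 2 * 2 ^ j), (n : ℝ) * ‖u n‖ ^ 2 :=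
        mul_le_mul_of_nonneg_left (Finset.sum_le_sum hblock) (Nat.cast_nonneg _)
    _ = (J : ℝ) * (15 * ∑ n ∈ Ioc (M ^ 2) N, (n : ℝ) * ‖a n‖ ^ 2) := by
        rw [← Finset.mul_sum, ← hsum2]
    _ ≤ (2 * (1 + Real.log N)) * (15 * ∑ n ∈ Ioc (M ^ 2) N, (n : ℝ) * ‖a n‖ ^ 2) :=
        mul_le_mul_of_nonneg_right hJle (by positivity)
    _ = _ := by ring

end Pool.Agent.TE
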