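import Mathlib
import Pool.Agent.Lib.MP_bae66e_nt.GM.A3

/-!
# P6: mollified sums with common lengths for all moduli `q ≤ 2 M`
-/

set_option autoImplicit false

namespace Pool.Agent.TE

open Complex Metric Set Pool.Agent.GM

/-- the part of the mollified sum beyond `M ^ 2`; mollifier of length `M ^ 2`, partial sum of length `M ^ 4`
(compare `GM.GG`) -/
noncomputable def GB (M q : ℕ) (χ : DirichletCharacter ℂ q) (s : ℂ) : ℂ :=
  ∑ n ∈ Finset.Ioc (M ^ 2) (M ^ 6), (bco (M ^ 2) (M ^ 4) n : ℂ) * (n : ℂ) ^ (-s) * χ n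

/-- P6. At a zero near `1` the sum `GB` is large (copy of `GM.GG_large`, `M₀ = 160`).
PROOF. `Y = M^2`, `Z = M^4`. By `L_partial`, `‖∑_{l ≤ Z} χ(l) l^(-ρ)‖ ≤ 20 q M^(-3) ≤ 40 M^(-2)`, and
`‖∑_{m ≤ Y} μ(m) χ(m) m^(-ρ)‖ ≤ 2 √Y = 2 M` (`A3_first`). The product of the two sums is at most `80 / M ≤ 1/2`. By
`mul_partial`, `bco_one`, `bco_eq_zero` it equals `1 + GB M q χ ρ` (the terms `1 < n ≤ M^2` vanish). -/
lemma GB_large : ∃ M₀ : ℕ, ∀ (M q : ℕ) [NeZero q] (χ : DirichletCharacter ℂ q), M₀ ≤ M →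
    q ≤ 2 * M → χ ≠ 1 → ∀ ρ : ℂ, χ.LFunction ρ = 0 → 9 / 10 ≤ ρ.re → ‖ρ‖ ≤ 4 →
      1 / 2 ≤ ‖GB M q χ ρ‖ := by
  refine ⟨160, ?_⟩
  intro M q _ χ hM hq hχ ρ hL hρ hρ4
  have hM1 : 1 ≤ M := le_trans (by norm_num) hM
  have hMR : (160 : ℝ) ≤ M := by exact_mod_cast hM
  have hM0 : (0 : ℝ) < M := by linarith
  have hqR : (q : ℝ) ≤ 2 * M := by exact_mod_cast hq
  have hq0 : (0 : ℝ) ≤ q := Nat.cast_nonneg q
  have hY : 1 ≤ M ^ 2 := Nat.one_le_pow _ _ hM1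
  have hZ : 1 ≤ M ^ 4 := Nat.one_le_pow _ _ hM1
  have h23 : M ^ 2 ≤ M ^ 4 := Nat.pow_le_pow_right hM1 (by norm_num)
  have h25 : M ^ 2 ≤ M ^ 6 := Nat.pow_le_pow_right hM1 (by norm_num)
  have hP1 := A3_first q χ ρ hρ (M ^ 2)
  have hP2 := L_partial q χ hχ ρ (M ^ 4) hZ (by linarith) hρ4
  rw [hL, zero_sub, norm_neg] at hP2
  have hmul := mul_partial q χ ρ (M ^ 2) (M ^ 4)
  have hYZ : M ^ 2 * M ^ 4 = M ^ 6 := by rw [← pow_add]
  rw [hYZ] at hmul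
  have hsplit : ∑ n ∈ Finset.Icc 1 (M ^ 6), (bco (M ^ 2) (M ^ 4) n : ℂ) * χ n * (n : ℂ) ^ (-ρ) =
      1 + GB M q χ ρ := by
    have hset : Finset.Icc 1 (M ^ 6) = Finset.Icc 1 (M ^ 2) ∪ Finset.Ioc (M ^ 2) (M ^ 6) := by
      ext x; simp only [Finset.mem_Icc, Finset.mem_union, Finset.mem_Ioc]; omega
    have hdisj : Disjoint (Finset.Icc 1 (M ^ 2)) (Finset.Ioc (M ^ 2) (M ^ 6)) := by
      rw [Finset.disjoint_left]
      intro x hx hx'
      rw [Finset.mem_Icc] at hx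
      rw [Finset.mem_Ioc] at hx'
      omega
    rw [hset, Finset.sum_union hdisj]
    congr 1
    · rw [Finset.sum_eq_single 1]
      · rw [bco_one _ _ hY hZ]
        simp
      · intro n hn hn1
        have h1 := Finset.mem_Icc.1 hn
        rw [bco_eq_zero (M ^ 2) (M ^ 4) n (by omega) h1.2 (h1.2.trans h23)]
        simp
      · intro h
        exact absurd (Finset.mem_Icc.2 ⟨le_rfl, hY⟩) h
    · unfold GB
      refine Finset.sum_congr rfl fun n _ => ?_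
      ring
  rw [hsplit] at hmul
  have hnorm : ‖1 + GB M q χ ρ‖ ≤ 1 / 2 := by
    rw [← hmul, norm_mul]
    have hs : Real.sqrt ((M ^ 2 : ℕ) : ℝ) = M := by
      rw [Nat.cast_pow, Real.sqrt_sq (Nat.cast_nonneg M)]
    rw [hs] at hP1
    have h3 : ((M ^ 4 : ℕ) : ℝ) ^ (-(3 / 4) : ℝ) = 1 / (M : ℝ) ^ 3 := by
      rw [Nat.cast_pow, ← Real.rpow_natCast (M : ℝ) 4, ← Real.rpow_mul hM0.le]
      have h4 : (((4 : ℕ) : ℝ)) * (-(3 / 4) : ℝ) = -((3 : ℕ) : ℝ) := by norm_num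
      rw [h4, Real.rpow_neg hM0.le, Real.rpow_natCast, one_div]
    rw [h3] at hP2
    calc _ ≤ 2 * (M : ℝ) * (20 * q * (1 / (M : ℝ) ^ 3)) :=
          mul_le_mul hP1 hP2 (norm_nonneg _) (by positivity)
      _ ≤ 2 * (M : ℝ) * (20 * (2 * M) * (1 / (M : ℝ) ^ 3)) := by
          have h5 : (0 : ℝ) ≤ 1 / (M : ℝ) ^ 3 := by positivity
          have h6 : 20 * (q : ℝ) * (1 / (M : ℝ) ^ 3) ≤ 20 * (2 * M) * (1 / (M : ℝ) ^ 3) :=
            mul_le_mul_of_nonneg_right (by linarith) h5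
          exact mul_le_mul_of_nonneg_left h6 (by positivity)
      _ = 80 / M := by
          field_simp
          ring
      _ ≤ 1 / 2 := by
          rw [div_le_iff₀ hM0]
          linarith
  have h4 : ‖(1 : ℂ)‖ ≤ ‖1 + GB M q χ ρ‖ + ‖GB M q χ ρ‖ := by
    calc ‖(1 : ℂ)‖ = ‖(1 + GB M q χ ρ) - GB M q χ ρ‖ := by rw [add_sub_cancel_right]
      _ ≤ _ := norm_sub_le _ _
  rw [norm_one] at h4
  linarith

lemma GB_diff (M q : ℕ) [NeZero q] (χ : DirichletCharacter ℂ q) (hM : 1 ≤ M) :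
    Differentiable ℂ (GB M q χ) := by
  unfold GB
  refine Differentiable.fun_sum fun n hn => ?_
  have hn1 : n ≠ 0 := by
    have h1 := (Finset.mem_Ioc.1 hn).1
    omega
  refine Differentiable.mul_const ?_ _
  refine Differentiable.const_mul ?_ _
  exact (differentiable_id.neg).const_cpow (Or.inl (by exact_mod_cast hn1))

end Pool.Agent.TE
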