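import Mathlib
import Pool.Agent.Lib.MP_bae66e_nt.GM.A6
import Pool.Agent.Lib.MP_f02ea4_nt.TE.P5
import Pool.Agent.Lib.MP_f02ea4_nt.TE.P6

/-!
# P7: mean square of `GB` over prime moduli
-/

set_option autoImplicit false

namespace Pool.Agent.TE

open Complex Metric Set Pool.Agent.GM

/-- P7. PROOF (copy of `GM.GG_mean`). `ls_weighted` with `N = M^6`, `a n = bco (M^2) (M^4) n * n^(-s)`. Then
`n ‖a n‖^2 ≤ τ(n)^2 n^(1 - 2 re s) ≤ τ(n)^2 n^(-1) n^(2 κ) ≤ (M^6)^(2 κ) τ(n)^2 / n` (`bco_abs_le`;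
`Complex.norm_natCast_cpow_of_pos`); `sum_tau_sq`; `log (M^6) = 6 log M`. -/
lemma GB_mean (M : ℕ) (hM : 1 ≤ M) (S : Finset ℕ) (hS : ∀ l ∈ S, l.Prime ∧ M < l ∧ l ≤ 2 * M)
    (χ : (l : ℕ) → DirichletCharacter ℂ l) (hχ : ∀ l ∈ S, χ l ≠ 1) (s : ℂ) (κ : ℝ) (hκ : 0 ≤ κ)
    (hs : 1 - κ ≤ s.re) :
    ∑ l ∈ S, ‖GB M l (χ l) s‖ ^ 2
      ≤ 30 * (1 + 6 * Real.log M) ^ 5 * (M : ℝ) ^ (12 * κ) := by
  classical
  have hMR : (1 : ℝ) ≤ M := by exact_mod_cast hM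
  have hN : 1 ≤ M ^ 6 := Nat.one_le_pow _ _ hM
  let a : ℕ → ℂ := fun n => (bco (M ^ 2) (M ^ 4) n : ℂ) * (n : ℂ) ^ (-s)
  have hGG : ∀ l : ℕ, GB M l (χ l) s =
      ∑ n ∈ Finset.Ioc (M ^ 2) (M ^ 6), a n * χ l (n : ZMod l) := fun l => rfl
  have hms := ls_weighted M hM S hS χ hχ a (M ^ 6)
  have hlogN : Real.log ((M ^ 6 : ℕ) : ℝ) = 6 * Real.log M := by
    rw [Nat.cast_pow, Real.log_pow]
    norm_num
  have hlq0 : 0 ≤ Real.log (M : ℝ) := Real.log_nonneg hMR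
  have hpowR : ∀ n ∈ Finset.Ioc (M ^ 2) (M ^ 6), (n : ℝ) * ‖a n‖ ^ 2 ≤
      (M : ℝ) ^ (12 * κ) * (((n.divisors.card : ℝ) ^ 2) / n) := by
    intro n hn
    have hn1 := Finset.mem_Ioc.1 hn
    have hn0 : 0 < n := by omega
    have hnR : (0 : ℝ) < n := by exact_mod_cast hn0
    have hnR1 : (1 : ℝ) ≤ n := by exact_mod_cast hn0
    have ha : ‖a n‖ ≤ (n.divisors.card : ℝ) * (n : ℝ) ^ (-s.re) := by
      simp only [a]
      rw [norm_mul, Complex.norm_natCast_cpow_of_pos hn0, Complex.neg_re,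
        Complex.norm_intCast]
      refine mul_le_mul_of_nonneg_right ?_ (by positivity)
      exact_mod_cast bco_abs_le (M ^ 2) (M ^ 4) n
    have h3 : (n : ℝ) * ((n : ℝ) ^ (-s.re)) ^ 2 ≤ (M : ℝ) ^ (12 * κ) * (1 / n) := by
      have e1 : (n : ℝ) * ((n : ℝ) ^ (-s.re)) ^ 2 = (n : ℝ) ^ (1 - 2 * s.re) := by
        rw [← Real.rpow_natCast, ← Real.rpow_mul hnR.le]
        nth_rewrite 1 [← Real.rpow_one (n : ℝ)]
        rw [← Real.rpow_add hnR]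
        congr 1
        push_cast
        ring
      have e2 : (n : ℝ) ^ (1 - 2 * s.re) ≤ (n : ℝ) ^ (2 * κ + (-1)) :=
        Real.rpow_le_rpow_of_exponent_le hnR1 (by linarith)
      have e3 : (n : ℝ) ^ (2 * κ) ≤ (M : ℝ) ^ (12 * κ) := by
        have e4 : (n : ℝ) ≤ (M : ℝ) ^ (6 : ℝ) := by
          have : (n : ℝ) ≤ ((M ^ 6 : ℕ) : ℝ) := by exact_mod_cast hn1.2
          rw [Nat.cast_pow] at this
          calc (n : ℝ) ≤ (M : ℝ) ^ 6 := this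
            _ = (M : ℝ) ^ ((6 : ℕ) : ℝ) := (Real.rpow_natCast _ _).symm
            _ = (M : ℝ) ^ (6 : ℝ) := by norm_num
        calc (n : ℝ) ^ (2 * κ) ≤ ((M : ℝ) ^ (6 : ℝ)) ^ (2 * κ) :=
              Real.rpow_le_rpow hnR.le e4 (by linarith)
          _ = (M : ℝ) ^ (12 * κ) := by
              rw [← Real.rpow_mul (by linarith)]
              congr 1
              ring
      rw [e1]
      calc (n : ℝ) ^ (1 - 2 * s.re) ≤ (n : ℝ) ^ (2 * κ + (-1)) := e2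
        _ = (n : ℝ) ^ (2 * κ) * (1 / n) := by
            rw [Real.rpow_add hnR, Real.rpow_neg_one, one_div]
        _ ≤ _ := mul_le_mul_of_nonneg_right e3 (by positivity)
    calc (n : ℝ) * ‖a n‖ ^ 2 ≤ (n : ℝ) * ((n.divisors.card : ℝ) * (n : ℝ) ^ (-s.re)) ^ 2 := by
          gcongr
      _ = (n.divisors.card : ℝ) ^ 2 * ((n : ℝ) * ((n : ℝ) ^ (-s.re)) ^ 2) := by ring
      _ ≤ (n.divisors.card : ℝ) ^ 2 * ((M : ℝ) ^ (12 * κ) * (1 / n)) :=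
          mul_le_mul_of_nonneg_left h3 (by positivity)
      _ = _ := by ring
  have hsumle : ∑ n ∈ Finset.Ioc (M ^ 2) (M ^ 6), (n : ℝ) * ‖a n‖ ^ 2 ≤
      (M : ℝ) ^ (12 * κ) * (1 + Real.log ((M ^ 6 : ℕ) : ℝ)) ^ 4 := by
    calc ∑ n ∈ Finset.Ioc (M ^ 2) (M ^ 6), (n : ℝ) * ‖a n‖ ^ 2 ≤
          ∑ n ∈ Finset.Ioc (M ^ 2) (M ^ 6),
            (M : ℝ) ^ (12 * κ) * (((n.divisors.card : ℝ) ^ 2) / n) :=
          Finset.sum_le_sum hpowR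
      _ = (M : ℝ) ^ (12 * κ) *
            ∑ n ∈ Finset.Ioc (M ^ 2) (M ^ 6), (((n.divisors.card : ℝ) ^ 2) / n) := by
          rw [Finset.mul_sum]
      _ ≤ (M : ℝ) ^ (12 * κ) *
            ∑ n ∈ Finset.Icc 1 (M ^ 6), (((n.divisors.card : ℝ) ^ 2) / n) := by
          refine mul_le_mul_of_nonneg_left ?_ (by positivity)
          refine Finset.sum_le_sum_of_subset_of_nonneg ?_ fun _ _ _ => by positivity
          intro x hx
          rw [Finset.mem_Ioc] at hx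
          rw [Finset.mem_Icc]
          omega
      _ ≤ _ := mul_le_mul_of_nonneg_left (sum_tau_sq (M ^ 6) hN) (by positivity)
  calc ∑ l ∈ S, ‖GB M l (χ l) s‖ ^ 2 =
        ∑ l ∈ S, ‖∑ n ∈ Finset.Ioc (M ^ 2) (M ^ 6), a n * χ l (n : ZMod l)‖ ^ 2 := by
        refine Finset.sum_congr rfl fun l _ => ?_
        rw [hGG]
    _ ≤ _ := hms
    _ ≤ 30 * (1 + Real.log ((M ^ 6 : ℕ) : ℝ)) *
        ((M : ℝ) ^ (12 * κ) * (1 + Real.log ((M ^ 6 : ℕ) : ℝ)) ^ 4) := by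
        refine mul_le_mul_of_nonneg_left hsumle ?_
        rw [hlogN]
        linarith
    _ = 30 * (1 + 6 * Real.log M) ^ 5 * (M : ℝ) ^ (12 * κ) := by
        rw [hlogN]
        ring

end Pool.Agent.TE
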