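import Mathlib
import Pool.Agent.Lib.MP_bae66e_nt.GM.A4
import Pool.Agent.Lib.MP_f02ea4_nt.TE.P7

/-!
# P8: few prime moduli have a zero near `1`
-/

set_option autoImplicit false

namespace Pool.Agent.TE

open Complex Metric Set Pool.Agent.GM

private lemma p8_one_le_log (M : ℕ) (hM : 1 ≤ M) : 1 ≤ Real.log ((M : ℝ) + 2) := by
  have hqR : (1 : ℝ) ≤ M := by exact_mod_cast hM
  rw [Real.le_log_iff_exp_le (by linarith)]
  have := Real.exp_one_lt_d9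
  linarith

/-- the main estimate for large `M` -/
private lemma p8_main (M : ℕ) (hM : 1 ≤ M) (κ : ℝ) (hκ : 0 ≤ κ) (hκ1 : κ ≤ 1 / 10)
    (S : Finset ℕ) (hS : ∀ l ∈ S, l.Prime ∧ M < l ∧ l ≤ 2 * M)
    (χ : (l : ℕ) → DirichletCharacter ℂ l) (hχ : ∀ l ∈ S, χ l ≠ 1)
    (hρ : ∀ l ∈ S, ∃ ρ : ℂ, 1 / 2 ≤ ‖GB M l (χ l) ρ‖ ∧ ‖ρ - 2‖ ≤ 1 + κ) :
    (S.card : ℝ) ≤ 12 * 30 * 7 ^ 5 * Real.exp 12 * (Real.log (M + 2)) ^ 6 *
      (M : ℝ) ^ (12 * κ) := by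
  classical
  have hqR : (1 : ℝ) ≤ M := by exact_mod_cast hM
  have hl1 := p8_one_le_log M hM
  set L := Real.log ((M : ℝ) + 2) with hl
  have hl0 : 0 < L := by linarith
  have hlM : Real.log (M : ℝ) ≤ L := Real.log_le_log (by linarith) (by linarith)
  have hlM0 : 0 ≤ Real.log (M : ℝ) := Real.log_nonneg hqR
  set δ := 1 / L with hδd
  have hδ : 0 < δ := by positivity
  have hδ1 : δ ≤ 1 := by
    rw [hδd, div_le_one hl0]
    exact hl1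
  have hR : 0 < 1 + κ + δ := by linarith
  have hpi := Real.pi_pos
  have hdiff : ∀ l ∈ S, Differentiable ℂ (GB M l (χ l)) := by
    intro l hl
    have : NeZero l := ⟨(hS l hl).1.ne_zero⟩
    exact GB_diff M l (χ l) hM
  have hcont : ∀ l ∈ S,
      Continuous fun θ : ℝ => ‖GB M l (χ l) (circleMap 2 (1 + κ + δ) θ)‖ ^ 2 := fun l hl =>
    (((hdiff l hl).continuous.comp (continuous_circleMap 2 (1 + κ + δ))).norm).pow 2
  have hone : ∀ l ∈ S, (1 : ℝ) / 4 ≤ (1 + κ + δ) / (2 * Real.pi * δ) *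
      ∫ θ in (0 : ℝ)..(2 * Real.pi), ‖GB M l (χ l) (circleMap 2 (1 + κ + δ) θ)‖ ^ 2 := by
    intro l hl
    obtain ⟨ρ, h1, h2⟩ := hρ l hl
    have h3 := circle_bound (GB M l (χ l)) (hdiff l hl) 2 ρ (1 + κ + δ) δ hδ hR (by linarith)
    refine le_trans ?_ h3
    nlinarith
  have hsum : (S.card : ℝ) / 4 ≤ (1 + κ + δ) / (2 * Real.pi * δ) *
      ∫ θ in (0 : ℝ)..(2 * Real.pi), ∑ l ∈ S, ‖GB M l (χ l) (circleMap 2 (1 + κ + δ) θ)‖ ^ 2 := by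
    rw [intervalIntegral.integral_finsetSum fun l hl => (hcont l hl).intervalIntegrable _ _,
      Finset.mul_sum]
    calc (S.card : ℝ) / 4 = ∑ l ∈ S, (1 : ℝ) / 4 := by
          rw [Finset.sum_const, nsmul_eq_mul]
          ring
      _ ≤ _ := Finset.sum_le_sum hone
  have hqδ : (M : ℝ) ^ (12 * δ) ≤ Real.exp 12 := by
    rw [Real.rpow_def_of_pos (by linarith), Real.exp_le_exp]
    calc Real.log (M : ℝ) * (12 * δ) ≤ L * (12 * δ) :=
          mul_le_mul_of_nonneg_right hlM (by positivity)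
      _ = 12 := by
          rw [hδd]
          field_simp
  have hpt : ∀ θ : ℝ, ∑ l ∈ S, ‖GB M l (χ l) (circleMap 2 (1 + κ + δ) θ)‖ ^ 2 ≤
      30 * 7 ^ 5 * L ^ 5 * ((M : ℝ) ^ (12 * κ) * Real.exp 12) := by
    intro θ
    have hre : 1 - (κ + δ) ≤ (circleMap 2 (1 + κ + δ) θ).re := by
      have h1 := Complex.abs_re_le_norm (circleMap 2 (1 + κ + δ) θ - 2)
      have h2 : ‖circleMap 2 (1 + κ + δ) θ - 2‖ = 1 + κ + δ := by
        rw [circleMap_sub_center, norm_circleMap_zero, abs_of_pos hR]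
      rw [h2] at h1
      have h3 := (abs_le.1 h1).1
      rw [Complex.sub_re] at h3
      have h4 : (2 : ℂ).re = 2 := rfl
      rw [h4] at h3
      linarith
    have h1 := GB_mean M hM S hS χ hχ (circleMap 2 (1 + κ + δ) θ) (κ + δ) (by linarith) hre
    have h2 : (M : ℝ) ^ (12 * (κ + δ)) ≤ (M : ℝ) ^ (12 * κ) * Real.exp 12 := by
      rw [mul_add, Real.rpow_add (by linarith)]
      exact mul_le_mul_of_nonneg_left hqδ (by positivity)
    have h5 : (1 + 6 * Real.log (M : ℝ)) ^ 5 ≤ 7 ^ 5 * L ^ 5 := by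
      rw [← mul_pow]
      exact pow_le_pow_left₀ (by linarith) (by linarith) 5
    calc ∑ l ∈ S, ‖GB M l (χ l) (circleMap 2 (1 + κ + δ) θ)‖ ^ 2
        ≤ 30 * (1 + 6 * Real.log M) ^ 5 * (M : ℝ) ^ (12 * (κ + δ)) := h1
      _ ≤ 30 * (7 ^ 5 * L ^ 5) * (M : ℝ) ^ (12 * (κ + δ)) :=
          mul_le_mul_of_nonneg_right (by linarith) (by positivity)
      _ ≤ 30 * (7 ^ 5 * L ^ 5) * ((M : ℝ) ^ (12 * κ) * Real.exp 12) :=
          mul_le_mul_of_nonneg_left h2 (by positivity)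
      _ = _ := by ring
  have hint : ∫ θ in (0 : ℝ)..(2 * Real.pi),
        ∑ l ∈ S, ‖GB M l (χ l) (circleMap 2 (1 + κ + δ) θ)‖ ^ 2 ≤
      (2 * Real.pi) * (30 * 7 ^ 5 * L ^ 5 * ((M : ℝ) ^ (12 * κ) * Real.exp 12)) := by
    calc _ ≤ ∫ θ in (0 : ℝ)..(2 * Real.pi),
            30 * 7 ^ 5 * L ^ 5 * ((M : ℝ) ^ (12 * κ) * Real.exp 12) := by
          refine intervalIntegral.integral_mono_on (by positivity) ?_
            intervalIntegrable_const fun θ _ => hpt θ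
          exact (continuous_finsetSum _ fun l hl => hcont l hl).intervalIntegrable _ _
      _ = _ := by
          rw [intervalIntegral.integral_const, smul_eq_mul, sub_zero]
  have hfin : (S.card : ℝ) / 4 ≤ (1 + κ + δ) / (2 * Real.pi * δ) *
      ((2 * Real.pi) * (30 * 7 ^ 5 * L ^ 5 * ((M : ℝ) ^ (12 * κ) * Real.exp 12))) :=
    hsum.trans (mul_le_mul_of_nonneg_left hint (by positivity))
  have hsimp : (1 + κ + δ) / (2 * Real.pi * δ) *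
      ((2 * Real.pi) * (30 * 7 ^ 5 * L ^ 5 * ((M : ℝ) ^ (12 * κ) * Real.exp 12))) =
      (1 + κ + δ) * (30 * 7 ^ 5 * L ^ 6 * ((M : ℝ) ^ (12 * κ) * Real.exp 12)) := by
    rw [hδd]
    field_simp
  rw [hsimp] at hfin
  have h3 : (1 + κ + δ) * (30 * 7 ^ 5 * L ^ 6 * ((M : ℝ) ^ (12 * κ) * Real.exp 12)) ≤
      3 * (30 * 7 ^ 5 * L ^ 6 * ((M : ℝ) ^ (12 * κ) * Real.exp 12)) :=
    mul_le_mul_of_nonneg_right (by linarith) (by positivity)
  have h4 := hfin.trans h3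
  linarith

/-- P8. PROOF (copy of `GM.A8_main` and `GM.density`). Let `M₀` be from `GB_large`. If `M < M₀` then
`#S ≤ M ≤ M₀`. Let `M ≥ M₀`, `δ = 1 / log (M+2) ≤ 1`, `R = 1 + κ + δ ≤ 3`. For `l ∈ S` choose `χ l` and its zero `ρ_l`
(`χ l` for `l ∉ S` arbitrary); then `re ρ_l ≥ 1 - κ ≥ 9/10`, `‖ρ_l‖ ≤ 4`, so `‖GB M l (χ l) ρ_l‖ ≥ 1/2` and by
`circle_bound` (`c = 2`) `1/4 ≤ R/(2π δ) ∫_0^{2π} ‖GB M l (χ l) (2 + R e^{iθ})‖^2 dθ`. Sum over `l ∈ S`, exchange the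
finite sum and the integral; on the circle `re ≥ 2 - R = 1 - (κ + δ)`, so `GB_mean` bounds the integrand by
`30 (1 + 6 log M)^5 M^(12 κ) M^(12 δ)` and `M^(12 δ) ≤ e^12`. -/
theorem density_primes : ∃ C : ℝ, 1 ≤ C ∧ ∀ (M : ℕ) (κ : ℝ) (S : Finset ℕ), 1 ≤ M → 0 ≤ κ →
    κ ≤ 1 / 10 → (∀ l ∈ S, l.Prime ∧ M < l ∧ l ≤ 2 * M) →
    (∀ l ∈ S, ∃ (_ : NeZero l) (χ : DirichletCharacter ℂ l), χ ≠ 1 ∧ NearZero l χ κ) →
      (S.card : ℝ) ≤ C * (Real.log (M + 2)) ^ 6 * (M : ℝ) ^ (12 * κ) := by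
  classical
  obtain ⟨M₀, hM₀⟩ := GB_large
  refine ⟨12 * 30 * 7 ^ 5 * Real.exp 12 + M₀ + 1, ?_, ?_⟩
  · have h1 : (0 : ℝ) ≤ M₀ := Nat.cast_nonneg _
    have h2 := Real.exp_pos 12
    linarith
  intro M κ S hM hκ hκ1 hS hz
  have hqR : (1 : ℝ) ≤ M := by exact_mod_cast hM
  have hl1 := p8_one_le_log M hM
  have hX : (1 : ℝ) ≤ (Real.log (M + 2)) ^ 6 * (M : ℝ) ^ (12 * κ) := by
    have h1 : (1 : ℝ) ≤ (Real.log (M + 2)) ^ 6 := one_le_pow₀ hl1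
    have h2 : (1 : ℝ) ≤ (M : ℝ) ^ (12 * κ) := Real.one_le_rpow hqR (by linarith)
    nlinarith
  rw [mul_assoc]
  set X := (Real.log ((M : ℝ) + 2)) ^ 6 * (M : ℝ) ^ (12 * κ) with hXd
  have hE := Real.exp_pos 12
  have hq0 : (0 : ℝ) ≤ M₀ := Nat.cast_nonneg _
  rcases lt_or_ge M M₀ with h | h
  · have h1 : (S.card : ℝ) ≤ M₀ := by
      have h2 : S.card ≤ (Finset.Ioc M (2 * M)).card :=
        Finset.card_le_card fun l hl => Finset.mem_Ioc.2 (hS l hl).2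
      rw [Nat.card_Ioc] at h2
      have h5 : S.card ≤ M₀ := by omega
      exact_mod_cast h5
    nlinarith
  · have hch : ∀ l : ℕ, ∃ χ : DirichletCharacter ℂ l, l ∈ S → (χ ≠ 1 ∧ ∃ ρ : ℂ,
        1 / 2 ≤ ‖GB M l χ ρ‖ ∧ ‖ρ - 2‖ ≤ 1 + κ) := by
      intro l
      by_cases hl : l ∈ S
      · obtain ⟨hne, χ, hχ1, ρ, hρ, hρ2⟩ := hz l hl
        refine ⟨χ, fun _ => ⟨hχ1, ρ, hM₀ M l χ h (hS l hl).2.2 hχ1 ρ hρ ?_ ?_, hρ2⟩⟩
        · have h2 := Complex.abs_re_le_norm (ρ - 2)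
          have h3 := (abs_le.1 (h2.trans hρ2)).1
          rw [Complex.sub_re] at h3
          have h4 : (2 : ℂ).re = 2 := rfl
          rw [h4] at h3
          linarith
        · have h2 : ‖ρ‖ ≤ ‖ρ - 2‖ + ‖(2 : ℂ)‖ := by
            calc ‖ρ‖ = ‖(ρ - 2) + 2‖ := by rw [sub_add_cancel]
              _ ≤ _ := norm_add_le _ _
          rw [Complex.norm_two] at h2
          linarith
      · exact ⟨1, fun h' => absurd h' hl⟩
    choose χ hχ using hch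
    have h1 := p8_main M hM κ hκ hκ1 S hS χ (fun l hl => (hχ l hl).1) fun l hl => (hχ l hl).2
    rw [mul_assoc (12 * 30 * 7 ^ 5 * Real.exp 12)] at h1
    nlinarith

end Pool.Agent.TE
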