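import Pool.Agent.Lib.MP_f02ea4_nt.TE.D4
import Pool.Agent.Lib.MP_f02ea4_nt.TE.P8

/-!
# P9: the thin set of bad primes
-/

set_option autoImplicit false

namespace Pool.Agent.TE

open Pool.Agent.GM

/-- the primes `l` that have a character with a zero near `1` at some scale `k ≥ 768 log (l+2)` -/
def badl : Set ℕ := {l | l.Prime ∧ ∃ (_ : NeZero l) (k : ℕ) (χ : DirichletCharacter ℂ l),
  768 * Real.log (l + 2) ≤ k ∧ χ ≠ 1 ∧ NearZero l χ (64 * Real.log k / k)}

private lemma p9_log_tendsto : Filter.Tendsto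
    (fun M : ℕ => 64 * Real.log (768 * Real.log ((M : ℝ) + 2)) / (768 * Real.log ((M : ℝ) + 2)))
    Filter.atTop (nhds 0) := by
  have h1 : Filter.Tendsto (fun x : ℝ => Real.log x / x) Filter.atTop (nhds 0) := by
    have h2 := Real.isLittleO_log_id_atTop.tendsto_div_nhds_zero
    exact h2
  have h3 : Filter.Tendsto (fun M : ℕ => 768 * Real.log ((M : ℝ) + 2)) Filter.atTop
      Filter.atTop := by
    refine Filter.Tendsto.const_mul_atTop (by norm_num) ?_
    refine Real.tendsto_log_atTop.comp ?_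
    exact Filter.tendsto_atTop_add_const_right _ _ tendsto_natCast_atTop_atTop
  have h4 := (h1.comp h3).const_mul 64
  rw [mul_zero] at h4
  refine h4.congr fun M => ?_
  simp only [Function.comp]
  ring

private lemma p9_one_le_log (M : ℕ) (hM : 1 ≤ M) : 1 ≤ Real.log ((M : ℝ) + 2) := by
  have hqR : (1 : ℝ) ≤ M := by exact_mod_cast hM
  rw [Real.le_log_iff_exp_le (by linarith)]
  have := Real.exp_one_lt_d9
  linarith

/-- P9 (1). For `l ∈ badl`, `M < l ≤ 2M` with `k, χ`: `k ≥ x := 768 log (M + 2) ≥ 3`, so `64 log k/k ≤ κ := 64 log x/x`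
(`kap_le`), and `NearZero l χ κ` (monotone in `κ`). For `M ≥ M₁` one has `κ ≤ 1/10`, and
`M^(12 κ) = exp (768 (log x) (log M)/x) ≤ exp (log x) = x = 768 log (M + 2)`. So `density_primes` gives
`#(badl ∩ (M, 2M]) ≤ 768 C (log (M+2))^7`; for `M < M₁` use the trivial bound `M₁`, `log (M+2) ≥ 1`. -/
lemma bad_block : ∃ C : ℝ, 1 ≤ C ∧ ∀ (M : ℕ) (S : Finset ℕ), 1 ≤ M →
    (∀ l ∈ S, l ∈ badl ∧ M < l ∧ l ≤ 2 * M) → (S.card : ℝ) ≤ C * (Real.log (M + 2)) ^ 7 := by
  classical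
  obtain ⟨C, hC1, hC⟩ := density_primes
  have h0 : ∀ᶠ M : ℕ in Filter.atTop,
      64 * Real.log (768 * Real.log ((M : ℝ) + 2)) / (768 * Real.log ((M : ℝ) + 2)) ≤ 1 / 10 :=
    (p9_log_tendsto.eventually_lt_const (by norm_num : (0 : ℝ) < 1 / 10)).mono fun M h => h.le
  obtain ⟨M₁, hM₁⟩ := Filter.eventually_atTop.1 h0
  have hM₁0 : (0 : ℝ) ≤ M₁ := Nat.cast_nonneg _
  refine ⟨768 * C + M₁, by linarith, ?_⟩
  intro M S hM hS
  have hMR : (1 : ℝ) ≤ M := by exact_mod_cast hM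
  have hl1 := p9_one_le_log M hM
  set L := Real.log ((M : ℝ) + 2) with hL
  have hL7 : (1 : ℝ) ≤ L ^ 7 := one_le_pow₀ hl1
  rcases lt_or_ge M M₁ with h | h
  · have h1 : (S.card : ℝ) ≤ M₁ := by
      have h2 : S.card ≤ (Finset.Ioc M (2 * M)).card :=
        Finset.card_le_card fun l hl => Finset.mem_Ioc.2 (hS l hl).2
      rw [Nat.card_Ioc] at h2
      have h5 : S.card ≤ M₁ := by omega
      exact_mod_cast h5
    nlinarith
  · set x := 768 * L with hx
    have hx3 : 3 ≤ x := by rw [hx]; linarith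
    have hx0 : 0 < x := by linarith
    set κ := 64 * Real.log x / x with hκ
    have hlx : 0 ≤ Real.log x := Real.log_nonneg (by linarith)
    have hκ0 : 0 ≤ κ := by positivity
    have hκ1 : κ ≤ 1 / 10 := hM₁ M h
    have hz : ∀ l ∈ S, ∃ (_ : NeZero l) (χ : DirichletCharacter ℂ l), χ ≠ 1 ∧ NearZero l χ κ := by
      intro l hl
      obtain ⟨⟨hp, hne, k, χ, hk, hχ, ρ, hρ, hρ2⟩, hMl, hl2⟩ := hS l hl
      refine ⟨hne, χ, hχ, ρ, hρ, hρ2.trans ?_⟩
      have h1 : x ≤ k := by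
        refine le_trans ?_ hk
        rw [hx, hL]
        have h2 : (M : ℝ) + 2 ≤ (l : ℝ) + 2 := by
          have : (M : ℝ) ≤ l := by exact_mod_cast hMl.le
          linarith
        have h3 := Real.log_le_log (by linarith) h2
        linarith
      have h2 := kap_le x hx3 k h1
      linarith
    have h1 := hC M κ S hM hκ0 hκ1 (fun l hl => ⟨(hS l hl).1.1, (hS l hl).2⟩) hz
    have h2 : (M : ℝ) ^ (12 * κ) ≤ 768 * L := by
      rw [Real.rpow_def_of_pos (by linarith), ← hx]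
      have h3 : Real.log (M : ℝ) ≤ L := Real.log_le_log (by linarith) (by linarith)
      have h4 : Real.log (M : ℝ) * (12 * κ) ≤ Real.log x := by
        calc Real.log (M : ℝ) * (12 * κ) ≤ L * (12 * κ) :=
              mul_le_mul_of_nonneg_right h3 (by positivity)
          _ = Real.log x := by
              rw [hκ, hx]
              field_simp
              ring
      calc Real.exp (Real.log (M : ℝ) * (12 * κ)) ≤ Real.exp (Real.log x) :=
            Real.exp_le_exp.2 h4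
        _ = x := Real.exp_log hx0
    have h5 : (S.card : ℝ) ≤ C * L ^ 6 * (768 * L) :=
      h1.trans (mul_le_mul_of_nonneg_left h2 (by positivity))
    have h6 : 0 ≤ (M₁ : ℝ) * L ^ 7 := by positivity
    nlinarith

/-- P9 (2). Sum (1) over `M = 2^j`, `0 ≤ j ≤ log_2 L`: every prime `2 < l ≤ L` lies in one of the blocks
`(2^j, 2^(j+1)]` with `2^j ≤ L`; there are at most `1 + log L/log 2 ≤ 3 log L` blocks, `log (2^j + 2) ≤ log (L + 2) ≤ 2 log L`
for `L ≥ 3`; the prime `2` adds `1 ≤ (log L)^8`. -/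
theorem bad_card : ∃ C : ℝ, 1 ≤ C ∧ ∀ L : ℕ, 3 ≤ L →
    (Nat.card {l : ℕ // l ∈ badl ∧ l ≤ L} : ℝ) ≤ C * (Real.log L) ^ 8 := by
  classical
  obtain ⟨C, hC1, hC⟩ := bad_block
  refine ⟨384 * C, by linarith, ?_⟩
  intro L hL
  have hLR : (3 : ℝ) ≤ L := by exact_mod_cast hL
  have hlog1 : 1 ≤ Real.log (L : ℝ) := by
    rw [Real.le_log_iff_exp_le (by linarith)]
    have := Real.exp_one_lt_d9
    linarith
  set T : Finset ℕ := (Finset.range (L + 1)).filter (fun l => l ∈ badl) with hT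
  have hcard : Nat.card {l : ℕ // l ∈ badl ∧ l ≤ L} = T.card := by
    refine Nat.subtype_card T fun l => ?_
    rw [hT, Finset.mem_filter, Finset.mem_range]
    constructor
    · rintro ⟨h1, h2⟩
      exact ⟨h2, by omega⟩
    · rintro ⟨h1, h2⟩
      exact ⟨by omega, h1⟩
  rw [hcard]
  set J := Nat.log 2 L + 1 with hJ
  have hcov : T ⊆ (Finset.range J).biUnion
      fun j => T.filter (fun l => 2 ^ j < l ∧ l ≤ 2 * 2 ^ j) := by
    intro l hl
    have hl1 := Finset.mem_filter.1 hl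
    have hl2 : 2 ≤ l := hl1.2.1.two_le
    have hl3 : l ≤ L := by have := Finset.mem_range.1 hl1.1; omega
    have h1 : 2 ^ Nat.log 2 (l - 1) ≤ l - 1 := Nat.pow_log_le_self 2 (by omega)
    have h2 : l - 1 < 2 ^ (Nat.log 2 (l - 1) + 1) := Nat.lt_pow_succ_log_self (by norm_num) _
    have h3 : Nat.log 2 (l - 1) ≤ Nat.log 2 L := Nat.log_mono_right (by omega)
    refine Finset.mem_biUnion.2 ⟨Nat.log 2 (l - 1), Finset.mem_range.2 (by omega),
      Finset.mem_filter.2 ⟨hl, by omega, ?_⟩⟩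
    rw [pow_succ] at h2
    omega
  have h1 : (T.card : ℝ) ≤
      ∑ j ∈ Finset.range J, ((T.filter (fun l => 2 ^ j < l ∧ l ≤ 2 * 2 ^ j)).card : ℝ) := by
    have h2 := (Finset.card_le_card hcov).trans Finset.card_biUnion_le
    exact_mod_cast h2
  have hL2 : Real.log ((L : ℝ) + 2) ≤ 2 * Real.log L := by
    have h2 : (L : ℝ) + 2 ≤ (L : ℝ) ^ 2 := by nlinarith
    calc Real.log ((L : ℝ) + 2) ≤ Real.log ((L : ℝ) ^ 2) := Real.log_le_log (by linarith) h2
      _ = 2 * Real.log L := by rw [Real.log_pow]; norm_num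
  have h2 : ∀ j ∈ Finset.range J,
      ((T.filter (fun l => 2 ^ j < l ∧ l ≤ 2 * 2 ^ j)).card : ℝ) ≤
        C * (2 * Real.log L) ^ 7 := by
    intro j hj
    have hj1 : j ≤ Nat.log 2 L := by have := Finset.mem_range.1 hj; omega
    have h3 : 2 ^ j ≤ L :=
      (Nat.pow_le_pow_right (by norm_num) hj1).trans (Nat.pow_log_le_self 2 (by omega))
    have h4 : (((2 ^ j : ℕ) : ℝ)) ≤ L := by exact_mod_cast h3
    have h5 := hC (2 ^ j) (T.filter (fun l => 2 ^ j < l ∧ l ≤ 2 * 2 ^ j)) Nat.one_le_two_pow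
      fun l hl => by
        have h6 := Finset.mem_filter.1 hl
        exact ⟨(Finset.mem_filter.1 h6.1).2, h6.2⟩
    refine h5.trans (mul_le_mul_of_nonneg_left ?_ (by linarith))
    have h6 : 0 ≤ Real.log (((2 ^ j : ℕ) : ℝ) + 2) := by
      refine Real.log_nonneg ?_
      have : (0 : ℝ) ≤ ((2 ^ j : ℕ) : ℝ) := Nat.cast_nonneg _
      linarith
    refine pow_le_pow_left₀ h6 ?_ 7
    refine le_trans (Real.log_le_log ?_ ?_) hL2
    · have : (0 : ℝ) ≤ ((2 ^ j : ℕ) : ℝ) := Nat.cast_nonneg _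
      linarith
    · linarith
  have hJle : (J : ℝ) ≤ 3 * Real.log L := by
    have h3 : ((2 : ℝ)) ^ Nat.log 2 L ≤ L := by
      exact_mod_cast Nat.pow_log_le_self 2 (show L ≠ 0 by omega)
    have h4 : (Nat.log 2 L : ℝ) * Real.log 2 ≤ Real.log L := by
      rw [← Real.log_pow]
      exact Real.log_le_log (by positivity) h3
    have h5 := Real.log_two_gt_d9
    have h6 : (0 : ℝ) ≤ (Nat.log 2 L : ℝ) := Nat.cast_nonneg _
    rw [hJ]
    push_cast
    nlinarith
  calc (T.card : ℝ) ≤ _ := h1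
    _ ≤ ∑ _j ∈ Finset.range J, C * (2 * Real.log L) ^ 7 := Finset.sum_le_sum h2
    _ = J * (C * (2 * Real.log L) ^ 7) := by rw [Finset.sum_const, Finset.card_range, nsmul_eq_mul]
    _ ≤ (3 * Real.log L) * (C * (2 * Real.log L) ^ 7) :=
        mul_le_mul_of_nonneg_right hJle (by positivity)
    _ = 384 * C * (Real.log L) ^ 8 := by ring

end Pool.Agent.TE
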