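import Pool.Agent.Lib.MP_f02ea4_nt.TE.A2

/-!
# U1: the primes `≡ 1 mod l` that divide an odd perfect number
-/

set_option autoImplicit false

namespace Pool.Agent.TE

open Finset Pool.Agent.Lib.MP_f02ea4_nt Pool.Agent.Lib.MP_bae66e_nt.AP3

/-- `∏_{p ∣ N} (1 + 1/p) ≤ σ(N)/N = 2` -/
theorem u1_prod_le {N : ℕ} (hN : N.Perfect) :
    ∏ p ∈ N.primeFactors, (1 + 1 / (p : ℝ)) ≤ 2 := by
  have hN0 : (0 : ℝ) < N := by exact_mod_cast hN.2
  have hfp : ∀ p ∈ N.primeFactors, 1 ≤ N.factorization p := fun p hp =>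
    Nat.one_le_iff_ne_zero.2 (Finsupp.mem_support_iff.1 hp)
  have e1 : ∏ p ∈ N.primeFactors, ((p : ℝ) ^ (N.factorization p)) = (N : ℝ) := by
    have h : ∏ p ∈ N.primeFactors, p ^ (N.factorization p) = N :=
      Nat.prod_factorization_pow_eq_self hN.2.ne'
    have h2 := congrArg (fun n : ℕ => (n : ℝ)) h
    simp only [Nat.cast_prod, Nat.cast_pow] at h2
    exact h2
  have e2 : ∏ p ∈ N.primeFactors, ((Rad.sg p (N.factorization p) : ℕ) : ℝ) = 2 * (N : ℝ) := by
    have h := Rad.perfect_eq hN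
    have h2 := congrArg (fun n : ℕ => (n : ℝ)) h
    simp only [Nat.cast_prod, Nat.cast_mul, Nat.cast_ofNat] at h2
    exact h2
  have h1 : (∏ p ∈ N.primeFactors, (1 + 1 / (p : ℝ))) *
      ∏ p ∈ N.primeFactors, ((p : ℝ) ^ (N.factorization p)) ≤
      ∏ p ∈ N.primeFactors, ((Rad.sg p (N.factorization p) : ℕ) : ℝ) := by
    rw [← Finset.prod_mul_distrib]
    apply Finset.prod_le_prod
    · intro p _
      positivity
    · intro p hp
      have hpp := (Nat.prime_of_mem_primeFactors hp).pos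
      have hp0 : (0 : ℝ) < p := by exact_mod_cast hpp
      obtain ⟨e, he⟩ : ∃ e, N.factorization p = e + 1 :=
        ⟨N.factorization p - 1, by have := hfp p hp; omega⟩
      rw [he]
      have h2 : p ^ e + p ^ (e + 1) ≤ Rad.sg p (e + 1) := by
        unfold Rad.sg
        rw [Finset.sum_range_succ, Finset.sum_range_succ]
        omega
      have h3 : ((p ^ e + p ^ (e + 1) : ℕ) : ℝ) ≤ ((Rad.sg p (e + 1) : ℕ) : ℝ) := by
        exact_mod_cast h2
      refine le_trans (le_of_eq ?_) h3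
      push_cast
      field_simp
      ring
  rw [e1, e2] at h1
  exact le_of_mul_le_mul_right h1 hN0

/-- U1. `∑_{p ∈ S} log (1 + 1/p) ≤ log 2` for the primes `p ≡ 1 mod l` of `N`, `log (1+u) ≥ u - u^2/2`, and these primes are
`k l + 1`, `k ≥ 1`, so `∑ 1/p^2 ≤ ∑ 1/(k l)^2 ≤ 2/l^2`. -/
theorem loss_le {N : ℕ} (hN : N.Perfect) {l : ℕ} (hl : l.Prime) :
    ((l : ℝ) - 1) * ∑ r ∈ N.primeFactors.filter (fun r => r ≡ 1 [MOD l]), 1 / (r : ℝ)
      ≤ ((l : ℝ) - 1) * Real.log 2 + 1 := by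
  classical
  set S := N.primeFactors.filter (fun r => r ≡ 1 [MOD l]) with hS
  have hl2 : (2 : ℝ) ≤ l := by exact_mod_cast hl.two_le
  have hpos : ∀ p ∈ N.primeFactors, (0 : ℝ) < p := fun p hp => by
    exact_mod_cast (Nat.prime_of_mem_primeFactors hp).pos
  -- the logarithms
  have hlogle : ∑ p ∈ N.primeFactors, Real.log (1 + 1 / (p : ℝ)) ≤ Real.log 2 := by
    rw [← Real.log_prod (fun p hp => by have := hpos p hp; positivity)]
    exact Real.log_le_log (Finset.prod_pos fun p hp => by have := hpos p hp; positivity)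
      (u1_prod_le hN)
  have h1 : ∑ p ∈ S, Real.log (1 + 1 / (p : ℝ)) ≤ Real.log 2 := by
    refine le_trans (Finset.sum_le_sum_of_subset_of_nonneg (Finset.filter_subset _ _) ?_) hlogle
    intro p hp _
    have := hpos p hp
    exact Real.log_nonneg (by have : 0 ≤ 1 / (p : ℝ) := by positivity
                              linarith)
  have hlog : ∀ u : ℝ, 0 ≤ u → u - u ^ 2 / 2 ≤ Real.log (1 + u) := by
    intro u hu
    have h := Real.le_log_one_add_of_nonneg hu
    refine le_trans ?_ h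
    rw [le_div_iff₀ (by linarith)]
    nlinarith [mul_nonneg hu (mul_nonneg hu hu)]
  have hmem : ∀ p ∈ S, ∃ k : ℕ, 1 ≤ k ∧ p = k * l + 1 := by
    intro p hp
    rw [hS, Finset.mem_filter] at hp
    have hpp := Nat.prime_of_mem_primeFactors hp.1
    have h2 : l ∣ p - 1 := (Nat.modEq_iff_dvd' hpp.one_lt.le).1 hp.2.symm
    obtain ⟨k, hk⟩ := h2
    have h3 := hpp.one_lt
    refine ⟨k, ?_, ?_⟩
    · rcases Nat.eq_zero_or_pos k with rfl | h
      · simp at hk
        omega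
      · exact h
    · rw [mul_comm]
      omega
  have hinj : Set.InjOn (fun p : ℕ => (p - 1) / l) (S : Set ℕ) := by
    intro p hp q hq h
    obtain ⟨k, _, rfl⟩ := hmem p hp
    obtain ⟨j, _, rfl⟩ := hmem q hq
    simp only [Nat.add_sub_cancel] at h
    rw [Nat.mul_div_cancel _ hl.pos, Nat.mul_div_cancel _ hl.pos] at h
    rw [h]
  have h2 : ∑ p ∈ S, 1 / (p : ℝ) ^ 2 ≤ 2 / (l : ℝ) ^ 2 := by
    have h3 : ∀ p ∈ S, 1 / (p : ℝ) ^ 2 ≤ (1 / (l : ℝ) ^ 2) * ((((p - 1) / l : ℕ) : ℝ) ^ 2)⁻¹ := by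
      intro p hp
      obtain ⟨k, hk, rfl⟩ := hmem p hp
      rw [Nat.add_sub_cancel, Nat.mul_div_cancel _ hl.pos]
      have hk0 : (0 : ℝ) < k := by exact_mod_cast hk
      have hl0 : (0 : ℝ) < l := by linarith
      rw [← one_div, one_div_mul_one_div]
      apply one_div_le_one_div_of_le (by positivity)
      push_cast
      nlinarith [mul_pos hk0 hl0]
    refine (Finset.sum_le_sum h3).trans ?_
    rw [← Finset.mul_sum]
    have h4 : ∑ p ∈ S, ((((p - 1) / l : ℕ) : ℝ) ^ 2)⁻¹ ≤ 2 := by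
      rw [← Finset.sum_image (f := fun k : ℕ => ((k : ℝ) ^ 2)⁻¹) hinj]
      have h5 : S.image (fun p : ℕ => (p - 1) / l) ⊆ Finset.Ioo 0 (N + 1) := by
        intro k hk
        rw [Finset.mem_image] at hk
        obtain ⟨p, hp, rfl⟩ := hk
        obtain ⟨k, hk, hpk⟩ := hmem p hp
        rw [Finset.mem_Ioo]
        have h6 : (p - 1) / l = k := by
          rw [hpk, Nat.add_sub_cancel, Nat.mul_div_cancel _ hl.pos]
        have h7 : p ≤ N := by
          rw [hS, Finset.mem_filter] at hp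
          exact Nat.le_of_dvd hN.2 (Nat.dvd_of_mem_primeFactors hp.1)
        have h8 : k ≤ k * l := Nat.le_mul_of_pos_right k hl.pos
        constructor <;> omega
      refine (Finset.sum_le_sum_of_subset_of_nonneg h5 (fun _ _ _ => by positivity)).trans ?_
      have := sum_Ioo_inv_sq_le (α := ℝ) 0 (N + 1)
      simpa using this
    calc 1 / (l : ℝ) ^ 2 * ∑ p ∈ S, ((((p - 1) / l : ℕ) : ℝ) ^ 2)⁻¹ ≤ 1 / (l : ℝ) ^ 2 * 2 :=
          mul_le_mul_of_nonneg_left h4 (by positivity)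
      _ = _ := by ring
  have h3 : ∑ p ∈ S, 1 / (p : ℝ) ≤ Real.log 2 + 1 / (l : ℝ) ^ 2 := by
    have h4 : ∀ p ∈ S, 1 / (p : ℝ) ≤ Real.log (1 + 1 / (p : ℝ)) + (1 / (p : ℝ) ^ 2) / 2 := by
      intro p hp
      have hp0 := hpos p (Finset.mem_filter.1 hp).1
      have := hlog (1 / (p : ℝ)) (by positivity)
      rw [div_pow, one_pow] at this
      linarith
    refine (Finset.sum_le_sum h4).trans ?_
    rw [Finset.sum_add_distrib, ← Finset.sum_div]
    have : 2 / (l : ℝ) ^ 2 / 2 = 1 / (l : ℝ) ^ 2 := by ring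
    linarith [div_le_div_of_nonneg_right h2 (by norm_num : (0 : ℝ) ≤ 2)]
  calc ((l : ℝ) - 1) * ∑ r ∈ S, 1 / (r : ℝ)
      ≤ ((l : ℝ) - 1) * (Real.log 2 + 1 / (l : ℝ) ^ 2) :=
        mul_le_mul_of_nonneg_left h3 (by linarith)
    _ = ((l : ℝ) - 1) * Real.log 2 + ((l : ℝ) - 1) / (l : ℝ) ^ 2 := by ring
    _ ≤ ((l : ℝ) - 1) * Real.log 2 + 1 := by
        have : ((l : ℝ) - 1) / (l : ℝ) ^ 2 ≤ 1 := by
          rw [div_le_one (by positivity)]
          nlinarith
        linarith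

end Pool.Agent.TE
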