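import Pool.Agent.Lib.MP_f02ea4_nt.TE.F5
import Pool.Agent.Lib.MP_f02ea4_nt.TE.U1

/-!
# U2: one class, for every odd perfect number, uniform in `l`
-/

set_option autoImplicit false

namespace Pool.Agent.TE

open Finset Nat Pool.Agent.Lib.MP_f02ea4_nt Pool.Agent.Lib.MP_bae66e_nt.AP3

private lemma u2_prI_eq (z : ℕ) : prI 0 z = prI 1 z := by
  ext p
  rw [mem_prI, mem_prI]
  constructor
  · rintro ⟨⟨h1, h2⟩, h3⟩
    exact ⟨⟨h3.one_lt, h2⟩, h3⟩
  · rintro ⟨⟨h1, h2⟩, h3⟩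
    exact ⟨⟨by omega, h2⟩, h3⟩

/-- the primes `≡ 1 mod l` that do not divide `N` -/
lemma sum_Sp_ge {N l : ℕ} (hN : N.Perfect) (hl : l.Prime) (z : ℕ) :
    ((l : ℝ) - 1) * ∑ r ∈ Pl l z, 1 / (r : ℝ) - (((l : ℝ) - 1) * Real.log 2 + 1)
      ≤ ((l : ℝ) - 1) * ∑ r ∈ Sp N l z, 1 / (r : ℝ) := by
  classical
  have hl1 : (0 : ℝ) ≤ (l : ℝ) - 1 := by
    have : (2 : ℝ) ≤ l := by exact_mod_cast hl.two_le
    linarith
  have h1 : ∑ r ∈ Pl l z, 1 / (r : ℝ) = ∑ r ∈ Sp N l z, 1 / (r : ℝ) +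
      ∑ r ∈ (Pl l z).filter (fun r => r ∣ N), 1 / (r : ℝ) := by
    rw [Sp, add_comm]
    exact (Finset.sum_filter_add_sum_filter_not _ _ _).symm
  have h2 : ∑ r ∈ (Pl l z).filter (fun r => r ∣ N), 1 / (r : ℝ) ≤
      ∑ r ∈ N.primeFactors.filter (fun r => r ≡ 1 [MOD l]), 1 / (r : ℝ) := by
    refine Finset.sum_le_sum_of_subset_of_nonneg ?_ (fun _ _ _ => by positivity)
    intro r hr
    rw [Finset.mem_filter, Pl, Finset.mem_filter] at hr
    rw [Finset.mem_filter, Nat.mem_primeFactors]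
    exact ⟨⟨(mem_prI.1 hr.1.1).2, hr.2, hN.2.ne'⟩, hr.1.2⟩
  have h3 := loss_le hN hl
  have h4 := mul_le_mul_of_nonneg_left h2 hl1
  rw [h1, mul_add]
  linarith

theorem class_bound_U : ∃ C : ℝ, 1 ≤ C ∧ ∀ N : ℕ, Odd N → N.Perfect →
    ∀ (l z R X : ℕ) (κ A : ℝ), l.Prime → l ≠ 2 → 3 ≤ z → 1 ≤ R → 0 < κ →
    Real.log l ≤ Real.sqrt (Real.log z) →
    C * Real.log z ≤ Real.log R →
    Real.log (Real.log z) - Real.log κ - A ≤ ((l : ℝ) - 1) * ∑ r ∈ Pl l z, 1 / (r : ℝ) →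
    (#(Cl N l X) : ℝ) ≤ z + (R : ℝ) ^ 4 +
      2 * Real.exp (A + (((l : ℝ) - 1) * Real.log 2 + 1)) * κ * X / (Real.log z) ^ 2 := by
  obtain ⟨Cm, hCm0, hCm⟩ := exists_mertens
  obtain ⟨Cu, hCu0, hCu⟩ := ap_upper
  refine ⟨2 * (1 + Cm + Cu), by linarith, ?_⟩
  intro N hodd hN l z R X κ A' hl hl2 hz hR hκ hll hCR hmass
  have hz3 : (3 : ℝ) ≤ z := by exact_mod_cast hz
  have hlz1 : 1 ≤ Real.log z := by
    have h1 : Real.log (Real.exp 1) ≤ Real.log z := by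
      apply Real.log_le_log (Real.exp_pos _)
      have := Real.exp_one_lt_d9
      linarith
    rwa [Real.log_exp] at h1
  have hlz0 : 0 < Real.log z := by linarith
  set A : ℝ := A' + (((l : ℝ) - 1) * Real.log 2 + 1) with hA
  have hcond : 2 * (∑ r ∈ prI 0 z, Real.log r / r + ((l : ℝ) - 1) * ∑ r ∈ Pl l z, Real.log r / r)
      ≤ Real.log R := by
    have h1 := (abs_le.mp (hCm 1 z le_rfl (by omega))).2
    rw [← u2_prI_eq] at h1
    simp only [Nat.cast_one, Real.log_one, sub_zero] at h1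
    have h2 := hCu l z hl hz hll
    have h3 : Cm ≤ Cm * Real.log z := by nlinarith
    nlinarith
  have hcc := class_count hodd hN hl hl2 z X R (by omega) hR hcond
  refine hcc.trans ?_
  have hmass' : Real.log (Real.log z) - Real.log κ - A
      ≤ ((l : ℝ) - 1) * ∑ r ∈ Sp N l z, 1 / (r : ℝ) := by
    have := sum_Sp_ge hN hl z
    rw [hA]
    linarith
  have hexp : Real.exp (-(((l : ℝ) - 1) * ∑ r ∈ Sp N l z, 1 / (r : ℝ))) ≤
      Real.exp A * κ / Real.log z := by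
    have h1 : Real.exp (-(((l : ℝ) - 1) * ∑ r ∈ Sp N l z, 1 / (r : ℝ))) ≤
        Real.exp (A + Real.log κ - Real.log (Real.log z)) := by
      apply Real.exp_le_exp.mpr
      linarith
    rw [Real.exp_sub, Real.exp_add, Real.exp_log hκ, Real.exp_log hlz0] at h1
    exact h1
  have hlz1' : Real.log z ≤ Real.log (z + 1) := by
    apply Real.log_le_log (by linarith) (by linarith)
  have hX : (0 : ℝ) ≤ X := by positivity
  have h4 : 2 * (X : ℝ) / Real.log (z + 1) *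
      Real.exp (-(((l : ℝ) - 1) * ∑ r ∈ Sp N l z, 1 / (r : ℝ))) ≤
      2 * (X : ℝ) / Real.log z * (Real.exp A * κ / Real.log z) := by
    gcongr
  have h5 : 2 * (X : ℝ) / Real.log z * (Real.exp A * κ / Real.log z) =
      2 * Real.exp A * κ * X / (Real.log z) ^ 2 := by
    field_simp
  rw [h5] at h4
  linarith

theorem class_scale_U : ∃ C : ℝ, 1 ≤ C ∧ ∃ P₀ : ℕ, 16 ≤ P₀ ∧
    ∀ N P l : ℕ, Odd N → N.Perfect → P₀ ≤ P →
    l.Prime → l ≠ 2 → (l : ℝ) ≤ Real.log P → ∀ κ A : ℝ, 1 ≤ κ → 0 ≤ A →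
    (∀ z : ℕ, 3 ≤ z →
      Real.log (Real.log z) - Real.log κ - A ≤ ((l : ℝ) - 1) * ∑ r ∈ Pl l z, 1 / (r : ℝ)) →
    ∀ X : ℕ, P ≤ X →
      (#(Cl N l X) : ℝ) ≤ C * Real.exp (A + (((l : ℝ) - 1) * Real.log 2 + 1)) * κ * X /
        (Real.log P) ^ 2 := by
  obtain ⟨C₀, hC₀, hcb⟩ := class_bound_U
  set c : ℝ := 1 / (32 * C₀) with hc
  have hc0 : 0 < c := by positivity
  have hc32 : c ≤ 1 / 32 := by
    rw [hc]
    exact one_div_le_one_div_of_le (by norm_num) (by linarith)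
  obtain ⟨P₀, hP₀, hlarge⟩ := f5_large c hc0
  refine ⟨1 + 8 / c ^ 2, by linarith [show 0 ≤ 8 / c ^ 2 by positivity], P₀, hP₀, ?_⟩
  intro N P l hN hNp hP hl hl2 hlQ κ A' hκ hA' hz X hX
  obtain ⟨h1, h2, h3, h4⟩ := hlarge P hP
  have hP16 : 16 ≤ P := hP₀.trans hP
  have hPr : (16 : ℝ) ≤ P := by exact_mod_cast hP16
  have hP0 : (0 : ℝ) < P := by linarith
  set Q := Real.log (P : ℝ) with hQ
  have hQ1 : 1 ≤ Q := by
    rw [hQ, Real.le_log_iff_exp_le hP0]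
    have := Real.exp_one_lt_d9
    linarith
  set z := ⌊(P : ℝ) ^ c⌋₊ with hzdef
  set R := ⌊(P : ℝ) ^ (1 / 16 : ℝ)⌋₊ with hRdef
  have e1 : (P : ℝ) ^ c = (P : ℝ) ^ (c / 2) * (P : ℝ) ^ (c / 2) := by
    rw [← Real.rpow_add hP0]
    ring_nf
  have e2 : (P : ℝ) ^ (1 / 16 : ℝ) = (P : ℝ) ^ (1 / 32 : ℝ) * (P : ℝ) ^ (1 / 32 : ℝ) := by
    rw [← Real.rpow_add hP0]
    norm_num
  have hzle : (z : ℝ) ≤ (P : ℝ) ^ c := Nat.floor_le (Real.rpow_nonneg hP0.le _)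
  have hRle : (R : ℝ) ≤ (P : ℝ) ^ (1 / 16 : ℝ) := Nat.floor_le (Real.rpow_nonneg hP0.le _)
  have hzgt : (P : ℝ) ^ c < z + 1 := Nat.lt_floor_add_one _
  have hRgt : (P : ℝ) ^ (1 / 16 : ℝ) < R + 1 := Nat.lt_floor_add_one _
  have hz3 : 3 ≤ z := by
    have : (3 : ℝ) < z + 1 := by nlinarith
    have h' : (2 : ℝ) < z := by linarith
    have : 2 < z := by exact_mod_cast h'
    omega
  have hzge : (P : ℝ) ^ (c / 2) ≤ z := by nlinarith
  have hRge : (P : ℝ) ^ (1 / 32 : ℝ) ≤ R := by nlinarith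
  have hR1 : 1 ≤ R := by
    have : (1 : ℝ) < R := by linarith
    have : 1 < R := by exact_mod_cast this
    omega
  have hz0 : (0 : ℝ) < z := by
    have : 0 < z := by omega
    exact_mod_cast this
  have hlogz : c * Q / 2 ≤ Real.log z := by
    have := Real.log_le_log (Real.rpow_pos_of_pos hP0 _) hzge
    rw [Real.log_rpow hP0] at this
    linarith
  have hlogz' : Real.log z ≤ c * Q := by
    have := Real.log_le_log hz0 hzle
    rwa [Real.log_rpow hP0] at this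
  have hlogR : Q / 32 ≤ Real.log R := by
    have := Real.log_le_log (Real.rpow_pos_of_pos hP0 _) hRge
    rw [Real.log_rpow hP0] at this
    linarith
  have hCz : C₀ * Real.log z ≤ Real.log R := by
    have : C₀ * Real.log z ≤ C₀ * (c * Q) := mul_le_mul_of_nonneg_left hlogz' (by linarith)
    have e : C₀ * (c * Q) = Q / 32 := by
      rw [hc]
      field_simp
    linarith
  have hlog : Real.log l ≤ Real.sqrt (Real.log z) := by
    have hl0 : (0 : ℝ) < l := by exact_mod_cast hl.pos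
    calc Real.log l ≤ Real.log Q := Real.log_le_log hl0 hlQ
      _ ≤ Real.sqrt (c * Q / 2) := h3
      _ ≤ Real.sqrt (Real.log z) := Real.sqrt_le_sqrt hlogz
  have hmain := hcb N hN hNp l z R X κ A' hl hl2 hz3 hR1 (by linarith) hlog hCz (hz z hz3)
  set A : ℝ := A' + (((l : ℝ) - 1) * Real.log 2 + 1) with hAdef
  have hA : 0 ≤ A := by
    have hl2' : (2 : ℝ) ≤ l := by exact_mod_cast hl.two_le
    have := mul_nonneg (by linarith : (0 : ℝ) ≤ (l : ℝ) - 1) (Real.log_nonneg (by norm_num : (1 : ℝ) ≤ 2))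
    linarith
  have hXr : (P : ℝ) ≤ X := by exact_mod_cast hX
  have hX0 : (0 : ℝ) < X := by linarith
  have hexp : 1 ≤ Real.exp A := Real.one_le_exp hA
  have hEK : 1 ≤ Real.exp A * κ := by nlinarith
  have hzP : (z : ℝ) ≤ (P : ℝ) ^ (1 / 4 : ℝ) :=
    hzle.trans (Real.rpow_le_rpow_of_exponent_le (by linarith) (by linarith))
  have hR4 : (R : ℝ) ^ 4 ≤ (P : ℝ) ^ (1 / 4 : ℝ) := by
    calc (R : ℝ) ^ 4 ≤ ((P : ℝ) ^ (1 / 16 : ℝ)) ^ 4 :=
          pow_le_pow_left₀ (by positivity) hRle 4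
      _ = (P : ℝ) ^ (1 / 4 : ℝ) := by
          rw [← Real.rpow_natCast, ← Real.rpow_mul hP0.le]
          norm_num
  have hsmall : (z : ℝ) + (R : ℝ) ^ 4 ≤ Real.exp A * κ * X / Q ^ 2 := by
    rw [le_div_iff₀ (by positivity)]
    have : ((z : ℝ) + (R : ℝ) ^ 4) * Q ^ 2 ≤ P := by
      calc ((z : ℝ) + (R : ℝ) ^ 4) * Q ^ 2
          ≤ (2 * (P : ℝ) ^ (1 / 4 : ℝ)) * Q ^ 2 :=
            mul_le_mul_of_nonneg_right (by linarith) (by positivity)
        _ ≤ P := h4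
    nlinarith
  have hbig : 2 * Real.exp A * κ * X / (Real.log z) ^ 2 ≤
      8 / c ^ 2 * (Real.exp A * κ * X / Q ^ 2) := by
    have hcQ : 0 < c * Q / 2 := by positivity
    calc 2 * Real.exp A * κ * X / (Real.log z) ^ 2
        ≤ 2 * Real.exp A * κ * X / (c * Q / 2) ^ 2 := by
          refine div_le_div_of_nonneg_left (by positivity) (by positivity) ?_
          exact pow_le_pow_left₀ hcQ.le hlogz 2
      _ = 8 / c ^ 2 * (Real.exp A * κ * X / Q ^ 2) := by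
          field_simp
          ring
  calc (#(Cl N l X) : ℝ) ≤ z + (R : ℝ) ^ 4 + 2 * Real.exp A * κ * X / (Real.log z) ^ 2 := hmain
    _ ≤ Real.exp A * κ * X / Q ^ 2 + 8 / c ^ 2 * (Real.exp A * κ * X / Q ^ 2) :=
        add_le_add hsmall hbig
    _ = (1 + 8 / c ^ 2) * Real.exp A * κ * X / Q ^ 2 := by ring

end Pool.Agent.TE
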