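import Pool.Agent.Lib.MP_f02ea4_nt.TE.U2
import Pool.Agent.Lib.MP_f02ea4_nt.TE.P10

/-!
# U3: thin exponents, uniformly in the odd perfect number
-/

set_option autoImplicit false

namespace Pool.Agent.TE

open Finset Nat Pool.Agent.Lib.MP_f02ea4_nt Pool.Agent.Lib.MP_bae66e_nt.AP3

/-- one class, all constants absolute -/
theorem class_abs : ∃ C : ℝ, 1 ≤ C ∧ ∃ P₀ : ℕ, 16 ≤ P₀ ∧ ∀ N X l : ℕ, Odd N → N.Perfect → P₀ ≤ X →
    l.Prime → l ≠ 2 → (l : ℝ) ≤ Real.log X →
      (#(Cl N l X) : ℝ) ≤ C * (2 : ℝ) ^ ((l : ℝ) - 1) * ((l : ℝ) + 2) ^ 6 * X /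
        (Real.log X) ^ 2 := by
  obtain ⟨A, B, bad, hAP⟩ := AP_main
  obtain ⟨C, hC, P₀, hP₀, h⟩ := class_scale_U
  have hA : 1 ≤ A := hAP.one
  refine ⟨C * Real.exp (A + 1), ?_, P₀, hP₀, ?_⟩
  · have : 1 ≤ Real.exp (A + 1) := Real.one_le_exp (by linarith)
    nlinarith
  intro N X l hodd hN hX hl hl2 hlX
  have hl2' : (2 : ℝ) ≤ l := by exact_mod_cast hl.two_le
  have hκ : (1 : ℝ) ≤ ((l : ℝ) + 2) ^ 6 := one_le_pow₀ (by linarith)
  have hlog4 : 1 ≤ Real.log ((l : ℝ) + 2) := by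
    rw [Real.le_log_iff_exp_le (by linarith)]
    have := Real.exp_one_lt_d9
    linarith
  have hz : ∀ z : ℕ, 3 ≤ z → Real.log (Real.log z) - Real.log (((l : ℝ) + 2) ^ 6) - A ≤
      ((l : ℝ) - 1) * ∑ r ∈ Pl l z, 1 / (r : ℝ) := by
    intro z hz
    refine le_trans ?_ (hAP.all l z hl hz)
    rw [Real.log_pow]
    have h1 : Real.log l ≤ Real.log ((l : ℝ) + 2) := Real.log_le_log (by linarith) (by linarith)
    have h2 : Real.log (Real.log ((l : ℝ) + 2)) ≤ Real.log ((l : ℝ) + 2) - 1 :=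
      Real.log_le_sub_one_of_pos (by linarith)
    push_cast
    linarith
  have h1 := h N X l hodd hN hX hl hl2 hlX (((l : ℝ) + 2) ^ 6) A hκ (by linarith) hz X le_rfl
  refine h1.trans (le_of_eq ?_)
  have e : Real.exp (A + (((l : ℝ) - 1) * Real.log 2 + 1)) =
      Real.exp (A + 1) * (2 : ℝ) ^ ((l : ℝ) - 1) := by
    rw [Real.rpow_def_of_pos (by norm_num), ← Real.exp_add]
    congr 1
    ring
  rw [e]
  ring

/-- the primes `p ≤ x` of `N` such that `v_p(N) + 1` has an odd prime factor `≤ y` -/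
noncomputable def Ts (N : ℕ) (x y : ℝ) : Finset ℕ := by
  classical
  exact N.primeFactors.filter (fun p => (p : ℝ) ≤ x ∧ ∃ l : ℕ, l.Prime ∧ l ≠ 2 ∧
    l ∣ N.factorization p + 1 ∧ (l : ℝ) ≤ y)

lemma Ts_card_le (N : ℕ) (x y : ℝ) (hx : 0 ≤ x) (hy : 0 ≤ y) :
    #(Ts N x y) ≤ ∑ l ∈ oL ⌊y⌋₊, #(Cl N l ⌊x⌋₊) := by
  classical
  refine (Finset.card_le_card ?_).trans Finset.card_biUnion_le
  intro p hp
  rw [Ts, Finset.mem_filter] at hp
  obtain ⟨hp, hpx, l, hl, hl2, hdvd, hly⟩ := hp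
  rw [Finset.mem_biUnion]
  refine ⟨l, ?_, ?_⟩
  · rw [oL, Finset.mem_filter, Finset.mem_range]
    exact ⟨Nat.lt_succ_of_le (Nat.le_floor hly), hl, hl2⟩
  · rw [Cl, Finset.mem_filter]
    exact ⟨hp, Nat.le_floor hpx, hdvd⟩

/-- asymptotics: `(a log log x + 3) ^ 7 ≤ (log x) ^ ε` etc. for large `x` -/
lemma u3_large (a ε : ℝ) (ha : 0 ≤ a) (hε : 0 < ε) (P₀ : ℕ) : ∃ x₀ : ℝ, 3 ≤ x₀ ∧ ∀ x : ℝ, x₀ ≤ x →
    (P₀ : ℝ) + 1 ≤ x ∧ a * Real.log (Real.log x) + 1 ≤ Real.log x / 2 ∧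
      (a * Real.log (Real.log x) + 3) ^ 7 ≤ (Real.log x) ^ ε := by
  have hl : Filter.Tendsto (fun x : ℝ => Real.log x) Filter.atTop Filter.atTop :=
    Real.tendsto_log_atTop
  have hll : Filter.Tendsto (fun x : ℝ => Real.log (Real.log x)) Filter.atTop Filter.atTop :=
    Real.tendsto_log_atTop.comp hl
  have h1 : ∀ᶠ u : ℝ in Filter.atTop, a * Real.log u + 1 ≤ u / 2 := by
    have hb := (isLittleO_log_rpow_atTop (r := 1) (by norm_num)).bound
      (c := 1 / (4 * (a + 1))) (by positivity)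
    filter_upwards [hb, Filter.eventually_ge_atTop (4 : ℝ)] with u hu hu4
    rw [Real.rpow_one, Real.norm_eq_abs, Real.norm_eq_abs, abs_of_nonneg (by linarith : 0 ≤ u),
      abs_of_nonneg (Real.log_nonneg (by linarith))] at hu
    have h2 : a * Real.log u ≤ u / 4 := by
      calc a * Real.log u ≤ (a + 1) * Real.log u := by
            have := Real.log_nonneg (by linarith : (1 : ℝ) ≤ u)
            nlinarith
        _ ≤ (a + 1) * (1 / (4 * (a + 1)) * u) := mul_le_mul_of_nonneg_left hu (by linarith)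
        _ = u / 4 := by field_simp
    linarith
  have h2 : ∀ᶠ u : ℝ in Filter.atTop, (a * Real.log u + 3) ^ 7 ≤ u ^ ε := by
    have hb := (isLittleO_log_rpow_atTop (r := ε / 7) (by positivity)).bound
      (c := 1 / (a + 4)) (by positivity)
    filter_upwards [hb, Filter.eventually_ge_atTop (Real.exp 1)] with u hu hu4
    have hu0 : 0 < u := lt_of_lt_of_le (Real.exp_pos _) hu4
    have hlu : 1 ≤ Real.log u := by
      rw [Real.le_log_iff_exp_le hu0]
      exact hu4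
    rw [Real.norm_eq_abs, Real.norm_eq_abs, abs_of_nonneg (by linarith : 0 ≤ Real.log u),
      abs_of_nonneg (Real.rpow_nonneg hu0.le _)] at hu
    have h3 : a * Real.log u + 3 ≤ u ^ (ε / 7) := by
      calc a * Real.log u + 3 ≤ (a + 4) * Real.log u := by nlinarith
        _ ≤ (a + 4) * (1 / (a + 4) * u ^ (ε / 7)) := mul_le_mul_of_nonneg_left hu (by linarith)
        _ = u ^ (ε / 7) := by field_simp
    calc (a * Real.log u + 3) ^ 7 ≤ (u ^ (ε / 7)) ^ 7 :=
          pow_le_pow_left₀ (by nlinarith) h3 7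
      _ = u ^ ε := by
          rw [← Real.rpow_natCast, ← Real.rpow_mul hu0.le]
          congr 1
          push_cast
          ring
  obtain ⟨x₁, hx₁⟩ := Filter.eventually_atTop.1
    ((hl.eventually (h1.and h2)).and (Filter.eventually_ge_atTop ((P₀ : ℝ) + 1)))
  refine ⟨max 3 x₁, le_max_left _ _, fun x hx => ?_⟩
  obtain ⟨⟨h3, h4⟩, h5⟩ := hx₁ x ((le_max_right _ _).trans hx)
  exact ⟨h5, h3, h4⟩

/-- T1', the form with the least prime factor of `v_p(N) + 1` -/
theorem thin_Ts (a ε : ℝ) (ha : 0 ≤ a) (hε : 0 < ε) : ∃ C : ℝ, 0 < C ∧ ∀ N : ℕ, Odd N → N.Perfect →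
    ∀ x : ℝ, 3 ≤ x → (#(Ts N x (a * Real.log (Real.log x) + 1)) : ℝ) ≤
      C * x * (Real.log x) ^ (a * Real.log 2 + ε - 2) := by
  obtain ⟨C₁, hC₁, P₀, hP₀, h⟩ := class_abs
  obtain ⟨x₀, hx₀, hlarge⟩ := u3_large a ε ha hε P₀
  set s : ℝ := a * Real.log 2 + ε - 2 with hs
  have hlog3 : 1 ≤ Real.log 3 := by
    rw [Real.le_log_iff_exp_le (by norm_num)]
    have := Real.exp_one_lt_d9
    linarith
  have hlx₀ : 0 < Real.log x₀ := Real.log_pos (by linarith)
  set m : ℝ := min ((Real.log 3) ^ s) ((Real.log x₀) ^ s) with hm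
  have hm0 : 0 < m := lt_min (Real.rpow_pos_of_pos (by linarith) _) (Real.rpow_pos_of_pos hlx₀ _)
  refine ⟨max (4 * C₁) (1 / m), lt_of_lt_of_le (by positivity) (le_max_right _ _), ?_⟩
  intro N hodd hN x hx
  have hx0 : (0 : ℝ) < x := by linarith
  have hlx1 : 1 ≤ Real.log x := hlog3.trans (Real.log_le_log (by norm_num) hx)
  have hlx0 : 0 < Real.log x := by linarith
  have hs0 : 0 < (Real.log x) ^ s := Real.rpow_pos_of_pos hlx0 _
  rcases lt_or_ge x x₀ with hxx | hxx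
  · -- small x
    have h1 : (#(Ts N x (a * Real.log (Real.log x) + 1)) : ℝ) ≤ x := by
      have h2 : Ts N x (a * Real.log (Real.log x) + 1) ⊆ Finset.Ioc 0 ⌊x⌋₊ := by
        intro p hp
        classical
        rw [Ts, Finset.mem_filter] at hp
        rw [Finset.mem_Ioc]
        exact ⟨(Nat.prime_of_mem_primeFactors hp.1).pos, Nat.le_floor hp.2.1⟩
      have h3 := Finset.card_le_card h2
      rw [Nat.card_Ioc, Nat.sub_zero] at h3
      exact le_trans (by exact_mod_cast h3) (Nat.floor_le hx0.le)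
    have h2 : m ≤ (Real.log x) ^ s := by
      rcases le_total 0 s with hs' | hs'
      · exact (min_le_left _ _).trans
          (Real.rpow_le_rpow (by linarith) (Real.log_le_log (by norm_num) hx) hs')
      · exact (min_le_right _ _).trans
          (Real.rpow_le_rpow_of_nonpos hlx0 (Real.log_le_log hx0 hxx.le) hs')
    calc (#(Ts N x (a * Real.log (Real.log x) + 1)) : ℝ) ≤ x := h1
      _ = (1 / m) * x * m := by field_simp
      _ ≤ (1 / m) * x * (Real.log x) ^ s := mul_le_mul_of_nonneg_left h2 (by positivity)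
      _ ≤ max (4 * C₁) (1 / m) * x * (Real.log x) ^ s := by
          apply mul_le_mul_of_nonneg_right _ hs0.le
          exact mul_le_mul_of_nonneg_right (le_max_right _ _) hx0.le
  · -- large x
    obtain ⟨g1, g2, g3⟩ := hlarge x hxx
    set Y : ℝ := a * Real.log (Real.log x) + 1 with hY
    have hY1 : 1 ≤ Y := by
      have := mul_nonneg ha (Real.log_nonneg hlx1)
      linarith
    set X := ⌊x⌋₊ with hX
    have hXx : (X : ℝ) ≤ x := Nat.floor_le hx0.le
    have hxX : x < (X : ℝ) + 1 := Nat.lt_floor_add_one x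
    have hX3 : 3 ≤ X := Nat.le_floor (by exact_mod_cast hx)
    have hX3' : (3 : ℝ) ≤ X := by exact_mod_cast hX3
    have hPX : P₀ ≤ X := by
      have : (P₀ : ℝ) < X + 1 := by linarith
      have : P₀ < X + 1 := by exact_mod_cast this
      omega
    have hlX : Real.log x ≤ 2 * Real.log X := by
      have h3 : x ≤ (X : ℝ) ^ 2 := by nlinarith
      calc Real.log x ≤ Real.log ((X : ℝ) ^ 2) := Real.log_le_log hx0 h3
        _ = 2 * Real.log X := by rw [Real.log_pow]; push_cast; ring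
    have hlX0 : 0 < Real.log X := by linarith
    have hterm : ∀ l ∈ oL ⌊Y⌋₊, (#(Cl N l X) : ℝ) ≤
        C₁ * (2 : ℝ) ^ (Y - 1) * (Y + 2) ^ 6 * X / (Real.log X) ^ 2 := by
      intro l hl
      rw [oL, Finset.mem_filter, Finset.mem_range] at hl
      have hlY : (l : ℝ) ≤ Y := by
        have h4 : l ≤ ⌊Y⌋₊ := by omega
        exact le_trans (by exact_mod_cast h4) (Nat.floor_le (by linarith))
      have h5 := h N X l hodd hN hPX hl.2.1 hl.2.2 (by linarith)
      refine h5.trans ?_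
      have h6 : (2 : ℝ) ^ ((l : ℝ) - 1) ≤ (2 : ℝ) ^ (Y - 1) :=
        Real.rpow_le_rpow_of_exponent_le (by norm_num) (by linarith)
      have h7 : ((l : ℝ) + 2) ^ 6 ≤ (Y + 2) ^ 6 := pow_le_pow_left₀ (by positivity) (by linarith) 6
      have h8 : (0 : ℝ) < (2 : ℝ) ^ ((l : ℝ) - 1) := Real.rpow_pos_of_pos (by norm_num) _
      have h9 : (0 : ℝ) < (2 : ℝ) ^ (Y - 1) := Real.rpow_pos_of_pos (by norm_num) _
      apply div_le_div_of_nonneg_right _ (by positivity)
      apply mul_le_mul_of_nonneg_right _ (by positivity)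
      apply mul_le_mul _ h7 (by positivity) (by positivity)
      exact mul_le_mul_of_nonneg_left h6 (by linarith)
    have hcard : ((oL ⌊Y⌋₊).card : ℝ) ≤ Y := by
      have h4 : oL ⌊Y⌋₊ ⊆ Finset.Ioc 0 ⌊Y⌋₊ := by
        intro l hl
        rw [oL, Finset.mem_filter, Finset.mem_range] at hl
        rw [Finset.mem_Ioc]
        exact ⟨hl.2.1.pos, by omega⟩
      have h5 := Finset.card_le_card h4
      rw [Nat.card_Ioc, Nat.sub_zero] at h5
      exact le_trans (by exact_mod_cast h5) (Nat.floor_le (by linarith))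
    have hK : 0 ≤ C₁ * (2 : ℝ) ^ (Y - 1) * (Y + 2) ^ 6 * X / (Real.log X) ^ 2 := by
      have : (0 : ℝ) < (2 : ℝ) ^ (Y - 1) := Real.rpow_pos_of_pos (by norm_num) _
      positivity
    have h1 : (#(Ts N x Y) : ℝ) ≤ Y * (C₁ * (2 : ℝ) ^ (Y - 1) * (Y + 2) ^ 6 * X /
        (Real.log X) ^ 2) := by
      calc (#(Ts N x Y) : ℝ) ≤ ((∑ l ∈ oL ⌊Y⌋₊, #(Cl N l X) : ℕ) : ℝ) := by
            exact_mod_cast Ts_card_le N x Y hx0.le (by linarith)
        _ = ∑ l ∈ oL ⌊Y⌋₊, (#(Cl N l X) : ℝ) := by push_cast; rfl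
        _ ≤ ∑ _l ∈ oL ⌊Y⌋₊, C₁ * (2 : ℝ) ^ (Y - 1) * (Y + 2) ^ 6 * X / (Real.log X) ^ 2 :=
            Finset.sum_le_sum hterm
        _ = ((oL ⌊Y⌋₊).card : ℝ) *
            (C₁ * (2 : ℝ) ^ (Y - 1) * (Y + 2) ^ 6 * X / (Real.log X) ^ 2) := by
            rw [Finset.sum_const, nsmul_eq_mul]
        _ ≤ _ := mul_le_mul_of_nonneg_right hcard hK
    have e2 : (2 : ℝ) ^ (Y - 1) = (Real.log x) ^ (a * Real.log 2) := by
      rw [Real.rpow_def_of_pos (by norm_num), Real.rpow_def_of_pos hlx0]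
      congr 1
      rw [hY]
      ring
    have e3 : (X : ℝ) / (Real.log X) ^ 2 ≤ 4 * x / (Real.log x) ^ 2 := by
      rw [div_le_div_iff₀ (by positivity) (by positivity)]
      have h4 : (Real.log x) ^ 2 ≤ 4 * (Real.log X) ^ 2 := by
        calc (Real.log x) ^ 2 ≤ (2 * Real.log X) ^ 2 := pow_le_pow_left₀ hlx0.le hlX 2
          _ = _ := by ring
      calc (X : ℝ) * (Real.log x) ^ 2 ≤ x * (4 * (Real.log X) ^ 2) :=
            mul_le_mul hXx h4 (by positivity) hx0.le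
        _ = _ := by ring
    have e4 : Y * (Y + 2) ^ 6 ≤ (Real.log x) ^ ε := by
      calc Y * (Y + 2) ^ 6 ≤ (Y + 2) * (Y + 2) ^ 6 :=
            mul_le_mul_of_nonneg_right (by linarith) (by positivity)
        _ = (a * Real.log (Real.log x) + 3) ^ 7 := by rw [hY]; ring
        _ ≤ _ := g3
    have hpos1 : (0 : ℝ) < (Real.log x) ^ (a * Real.log 2) := Real.rpow_pos_of_pos hlx0 _
    have hpos2 : (0 : ℝ) < (Real.log x) ^ ε := Real.rpow_pos_of_pos hlx0 _
    calc (#(Ts N x Y) : ℝ) ≤ Y * (C₁ * (2 : ℝ) ^ (Y - 1) * (Y + 2) ^ 6 * X /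
        (Real.log X) ^ 2) := h1
      _ = C₁ * (Real.log x) ^ (a * Real.log 2) * (Y * (Y + 2) ^ 6) *
          ((X : ℝ) / (Real.log X) ^ 2) := by rw [e2]; ring
      _ ≤ C₁ * (Real.log x) ^ (a * Real.log 2) * (Real.log x) ^ ε * (4 * x / (Real.log x) ^ 2) := by
          apply mul_le_mul _ e3 (by positivity) (by positivity)
          exact mul_le_mul_of_nonneg_left e4 (by positivity)
      _ = 4 * C₁ * x * (Real.log x) ^ s := by
          have e5 : (Real.log x) ^ s = (Real.log x) ^ (a * Real.log 2) * (Real.log x) ^ ε /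
              (Real.log x) ^ 2 := by
            rw [hs, Real.rpow_sub hlx0, Real.rpow_add hlx0, Real.rpow_two]
          rw [e5]
          ring
      _ ≤ max (4 * C₁) (1 / m) * x * (Real.log x) ^ s := by
          apply mul_le_mul_of_nonneg_right _ hs0.le
          exact mul_le_mul_of_nonneg_right (le_max_left _ _) hx0.le

end Pool.Agent.TE
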