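import Pool.Agent.Lib.MP_f02ea4_nt.TE.U3
import Pool.Agent.Lib.MP_f02ea4_nt.TE.A1

/-!
# U4: the exponents of an odd perfect number, final form
-/

set_option autoImplicit false

namespace Pool.Agent.TE

open Finset Nat Pool.Agent.Lib.MP_f02ea4_nt

/-- `x (log x)^(s) ≥ c > 0` for `x ≥ 3`, `s ≥ -2` -/
private lemma u4_low {s : ℝ} (hs : -2 ≤ s) {x : ℝ} (hx : 3 ≤ x) : 1 / 4 ≤ x * (Real.log x) ^ s := by
  have hx0 : 0 < x := by linarith
  have hlog3 : 1 ≤ Real.log 3 := by
    rw [Real.le_log_iff_exp_le (by norm_num)]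
    have := Real.exp_one_lt_d9
    linarith
  have hl1 : 1 ≤ Real.log x := hlog3.trans (Real.log_le_log (by norm_num) hx)
  have h1 : (Real.log x) ^ (-2 : ℝ) ≤ (Real.log x) ^ s :=
    Real.rpow_le_rpow_of_exponent_le hl1 hs
  have h2 : (Real.log x) ^ 2 ≤ 4 * x := by
    have h3 : Real.log x ≤ 2 * Real.sqrt x := by
      have h4 : Real.log (Real.sqrt x) ≤ Real.sqrt x := by
        have := Real.log_le_sub_one_of_pos (Real.sqrt_pos.2 hx0)
        linarith
      rw [Real.log_sqrt hx0.le] at h4
      linarith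
    calc (Real.log x) ^ 2 ≤ (2 * Real.sqrt x) ^ 2 := pow_le_pow_left₀ (by linarith) h3 2
      _ = 4 * x := by rw [mul_pow, Real.sq_sqrt hx0.le]; ring
  have h3 : 1 / 4 ≤ x * (Real.log x) ^ (-2 : ℝ) := by
    rw [Real.rpow_neg (by linarith), Real.rpow_two, ← div_eq_mul_inv, le_div_iff₀ (by positivity)]
    linarith
  exact h3.trans (mul_le_mul_of_nonneg_left h1 hx0.le)

/-- T1'. For every `a ≥ 0`, `ε > 0` there is `C` such that for every odd perfect number `N` and every `x ≥ 3`, at most
`C x (log x)^(a log 2 + ε - 2)` primes `p ≤ x` of `N` have exponent `v_p(N) ≤ a log log x`. -/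
theorem thin_exponents (a ε : ℝ) (ha : 0 ≤ a) (hε : 0 < ε) : ∃ C : ℝ, 0 < C ∧
    ∀ N : ℕ, Odd N → N.Perfect → ∀ x : ℝ, 3 ≤ x →
      ((N.primeFactors.filter (fun p : ℕ => (p : ℝ) ≤ x ∧
        (N.factorization p : ℝ) ≤ a * Real.log (Real.log x))).card : ℝ)
        ≤ C * x * (Real.log x) ^ (a * Real.log 2 + ε - 2) := by
  classical
  obtain ⟨C, hC, h⟩ := thin_Ts a ε ha hε
  refine ⟨C + 4, by linarith, ?_⟩
  intro N hodd hN x hx
  obtain ⟨s, _, _, _, hs⟩ := Rad.euler hodd hN
  have hs' : -2 ≤ a * Real.log 2 + ε - 2 := by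
    have := mul_nonneg ha (Real.log_nonneg (by norm_num : (1 : ℝ) ≤ 2))
    linarith
  have hsub : N.primeFactors.filter (fun p : ℕ => (p : ℝ) ≤ x ∧
      (N.factorization p : ℝ) ≤ a * Real.log (Real.log x)) ⊆
      {s} ∪ Ts N x (a * Real.log (Real.log x) + 1) := by
    intro p hp
    obtain ⟨hpN, hpx, hpE⟩ := Finset.mem_filter.mp hp
    rw [Finset.mem_union, Finset.mem_singleton]
    by_cases hps : p = s
    · exact Or.inl hps
    · right
      have h2 := hs p hpN hps
      have he1 : 1 ≤ N.factorization p := by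
        have := (Nat.mem_primeFactors.mp hpN)
        exact this.1.factorization_pos_of_dvd this.2.2 this.2.1
      have hne : N.factorization p + 1 ≠ 1 := by omega
      have hlp : (N.factorization p + 1).minFac.Prime := Nat.minFac_prime hne
      have hld : (N.factorization p + 1).minFac ∣ N.factorization p + 1 := Nat.minFac_dvd _
      have hll : (N.factorization p + 1).minFac ≤ N.factorization p + 1 :=
        Nat.minFac_le (by omega)
      have hl2 : (N.factorization p + 1).minFac ≠ 2 := by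
        intro h
        rw [h] at hld
        omega
      rw [Ts, Finset.mem_filter]
      refine ⟨hpN, hpx, _, hlp, hl2, hld, ?_⟩
      have h5 : (((N.factorization p + 1).minFac : ℕ) : ℝ) ≤ ((N.factorization p + 1 : ℕ) : ℝ) := by
        exact_mod_cast hll
      push_cast at h5
      linarith
  have h1 : ((N.primeFactors.filter (fun p : ℕ => (p : ℝ) ≤ x ∧
      (N.factorization p : ℝ) ≤ a * Real.log (Real.log x))).card : ℝ) ≤
      1 + (#(Ts N x (a * Real.log (Real.log x) + 1)) : ℝ) := by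
    have h2 := (Finset.card_le_card hsub).trans (Finset.card_union_le _ _)
    rw [Finset.card_singleton] at h2
    exact_mod_cast h2
  have h2 := h N hodd hN x hx
  have h3 := u4_low hs' hx
  calc _ ≤ 1 + (#(Ts N x (a * Real.log (Real.log x) + 1)) : ℝ) := h1
    _ ≤ 4 * (x * (Real.log x) ^ (a * Real.log 2 + ε - 2)) +
        C * x * (Real.log x) ^ (a * Real.log 2 + ε - 2) := by linarith
    _ = _ := by ring

end Pool.Agent.TE
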